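import Pool.Agent.MP_ae1fc5_gt.Defs2

/-! # Module F of MP_ae1fc5_gt: bounds for the coefficient arrays -/

open Set

noncomputable section

namespace Pool.Agent.MP_ae1fc5_gt
namespace ArrBd

lemma chi_nonneg (m n k : ℕ) : 0 ≤ chi m n k := by
  unfold chi; split_ifs <;> norm_num

lemma chi_le_one (m n k : ℕ) : chi m n k ≤ 1 := by
  unfold chi; split_ifs <;> norm_num

lemma chi_comm (m n k : ℕ) : chi m n k = chi n m k := by
  unfold chi; congr 1
  simp only [eq_iff_iff]; omega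

/-- the number of nonzero `chi`. -/
lemma sum_chi_le (m n : ℕ) (s : Finset ℕ) : ∑ k ∈ s, chi m n k ≤ 2 * m + 1 := by
  have h1 : ∑ k ∈ s, chi m n k ≤ ∑ k ∈ s, if k ∈ Finset.Icc (n - m) (n + m) then (1 : ℝ) else 0 := by
    apply Finset.sum_le_sum
    intro k _
    unfold chi
    split_ifs with h h' h'
    · exact le_rfl
    · exfalso; apply h'; rw [Finset.mem_Icc]; omega
    · norm_num
    · exact le_rfl
  refine h1.trans ?_
  rw [← Finset.sum_filter, Finset.sum_const, nsmul_eq_mul, mul_one]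
  have h2 : (s.filter (fun k => k ∈ Finset.Icc (n - m) (n + m))).card ≤ 2 * m + 1 := by
    calc _ ≤ (Finset.Icc (n - m) (n + m)).card := by
          apply Finset.card_le_card
          intro k hk
          exact (Finset.mem_filter.1 hk).2
      _ ≤ 2 * m + 1 := by rw [Nat.card_Icc]; omega
  exact_mod_cast h2

lemma sum_chi_le' (m n : ℕ) (s : Finset ℕ) : ∑ k ∈ s, chi m n k ≤ 2 * n + 1 := by
  simp only [fun k => chi_comm m n k]
  exact sum_chi_le n m s

lemma om_nonneg {Ω R : ℝ} (hΩ : 1 ≤ Ω) (hR : 1 ≤ R) (n : ℕ) : 0 ≤ om Ω R n := by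
  unfold om; positivity

lemma lam_nonneg (n : ℕ) : 0 ≤ lam n := by unfold lam; positivity

lemma om_mono {Ω R : ℝ} (hΩ : 1 ≤ Ω) (hR : 1 ≤ R) {k n : ℕ} (h : k ≤ n) :
    om Ω R k ≤ om Ω R n := by
  unfold om
  have h1 : (k : ℝ) ≤ n := by exact_mod_cast h
  apply mul_le_mul (by linarith) (pow_le_pow_right₀ hR h) (by positivity) (by positivity)

/-- `ω_{m+n} min(M,N) ≤ 2 ω_m ω_n`. -/
lemma om_add_le {Ω R : ℝ} (hΩ : 1 ≤ Ω) (hR : 1 ≤ R) (m n : ℕ) (x : ℝ) (hx0 : 0 ≤ x)
    (hx : x ≤ 2 * m + 1) (hx' : x ≤ 2 * n + 1) :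
    om Ω R (m + n) * x ≤ 2 * (om Ω R m * om Ω R n) := by
  unfold om
  have hR' : (0 : ℝ) ≤ R ^ (m + n) := by positivity
  have e : 2 * ((2 * (m : ℝ) + 1 + Ω) * R ^ m * ((2 * (n : ℝ) + 1 + Ω) * R ^ n)) =
      2 * ((2 * (m : ℝ) + 1 + Ω) * (2 * (n : ℝ) + 1 + Ω)) * R ^ (m + n) := by
    rw [pow_add]; ring
  have e' : (2 * ((m + n : ℕ) : ℝ) + 1 + Ω) * R ^ (m + n) * x =
      ((2 * (m : ℝ) + 2 * n + 1 + Ω) * x) * R ^ (m + n) := by
    push_cast; ring
  rw [e, e']
  apply mul_le_mul_of_nonneg_right _ hR'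
  have hm : (0 : ℝ) ≤ m := by positivity
  have hn : (0 : ℝ) ≤ n := by positivity
  nlinarith [mul_nonneg hm hn, mul_nonneg hm hx0, mul_nonneg hn hx0]

lemma sum_om_chi {Ω R : ℝ} (hΩ : 1 ≤ Ω) (hR : 1 ≤ R) (m n : ℕ) (s : Finset ℕ) :
    ∑ k ∈ s, om Ω R k * chi m n k ≤ 2 * (om Ω R m * om Ω R n) := by
  have h1 : ∑ k ∈ s, om Ω R k * chi m n k ≤ ∑ k ∈ s, om Ω R (m + n) * chi m n k := by
    apply Finset.sum_le_sum
    intro k _
    unfold chi
    split_ifs with h
    · rw [mul_one, mul_one]; exact om_mono hΩ hR h.1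
    · simp
  refine h1.trans ?_
  rw [← Finset.mul_sum]
  apply om_add_le hΩ hR
  · exact Finset.sum_nonneg (fun k _ => chi_nonneg m n k)
  · exact sum_chi_le m n s
  · exact sum_chi_le' m n s

lemma om_ge {Ω R : ℝ} (hΩ : 1 ≤ Ω) (hR : 1 ≤ R) (n : ℕ) : 2 * (n : ℝ) + 1 + Ω ≤ om Ω R n := by
  unfold om
  have : (1 : ℝ) ≤ R ^ n := one_le_pow₀ hR
  nlinarith [(by positivity : (0 : ℝ) ≤ 2 * n + 1 + Ω)]

lemma om'_eq (Ω R : ℝ) (k : ℕ) : om' Ω R k = om Ω R k + if k = 0 then Ω ^ 2 else 0 := rfl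

/-- splitting off the extra weight at `k = 0`. -/
lemma sum_om'_le {Ω R : ℝ} (K : ℕ) (f : ℕ → ℝ) (hf : ∀ k, 0 ≤ f k) :
    ∑ k ∈ Finset.range K, om' Ω R k * f k ≤
      ∑ k ∈ Finset.range K, om Ω R k * f k + Ω ^ 2 * f 0 := by
  have h1 : ∀ k, om' Ω R k * f k = om Ω R k * f k + (if k = 0 then Ω ^ 2 * f 0 else 0) := by
    intro k
    rw [om'_eq]
    split_ifs with h
    · rw [h]; ring
    · ring
  simp only [h1, Finset.sum_add_distrib]
  gcongr
  rw [Finset.sum_ite_eq']
  split_ifs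
  · exact le_rfl
  · have := hf 0; positivity

lemma sum_om'_chi {Ω R : ℝ} (hΩ : 1 ≤ Ω) (hR : 1 ≤ R) (m n K : ℕ) :
    ∑ k ∈ Finset.range K, om' Ω R k * chi m n k ≤ 3 * (om Ω R m * om Ω R n) := by
  refine (sum_om'_le K _ (chi_nonneg m n)).trans ?_
  have h1 := sum_om_chi hΩ hR m n (Finset.range K)
  have h2 := om_ge hΩ hR m
  have h3 := om_ge hΩ hR n
  have h4 := chi_le_one m n 0
  have hm : (0 : ℝ) ≤ m := by positivity
  have hn : (0 : ℝ) ≤ n := by positivity
  have h5 : Ω ^ 2 * chi m n 0 ≤ Ω ^ 2 := by nlinarith [sq_nonneg Ω]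
  have h6 : Ω ^ 2 ≤ om Ω R m * om Ω R n := by nlinarith
  linarith

/-- the product `M N`. -/
lemma MN_le (m n : ℕ) : (2 * (m : ℝ) + 1) * (2 * n + 1) ≤ lam m + lam n + 1 := by
  unfold lam
  nlinarith [sq_nonneg ((m : ℝ) - n), (by positivity : (0 : ℝ) ≤ m), (by positivity : (0 : ℝ) ≤ n)]

lemma jc_nonneg (m n p : ℕ) : 0 ≤ jc m n p := by
  unfold jc
  split_ifs with h
  · obtain ⟨h1, h2, h3, h4⟩ := h
    have h1' : (1 : ℝ) ≤ p := by exact_mod_cast h1
    have h2' : (p : ℝ) ≤ m + n := by exact_mod_cast h2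
    have h3' : (m : ℝ) + 1 ≤ n + p := by exact_mod_cast h3
    have h4' : (n : ℝ) + 1 ≤ m + p := by exact_mod_cast h4
    apply div_nonneg
    · apply mul_nonneg
      · nlinarith
      · nlinarith
    · nlinarith
  · exact le_rfl

lemma jc_le (m n p : ℕ) : jc m n p ≤ ((2 * (m : ℝ) + 1) * (2 * n + 1)) * chi m n p := by
  unfold jc
  split_ifs with h
  · obtain ⟨h1, h2, h3, h4⟩ := h
    have h1' : (1 : ℝ) ≤ p := by exact_mod_cast h1
    have h2' : (p : ℝ) ≤ m + n := by exact_mod_cast h2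
    have h3' : (m : ℝ) + 1 ≤ n + p := by exact_mod_cast h3
    have h4' : (n : ℝ) + 1 ≤ m + p := by exact_mod_cast h4
    have hc : chi m n p = 1 := by unfold chi; rw [if_pos]; omega
    rw [hc, mul_one, div_le_iff₀ (by nlinarith)]
    have hX : ((m : ℝ) + n + 1) ^ 2 - (p : ℝ) ^ 2 ≤ (2 * (m : ℝ) + 1) * (2 * n + 1) := by nlinarith
    have hX0 : 0 ≤ ((m : ℝ) + n + 1) ^ 2 - (p : ℝ) ^ 2 := by nlinarith
    have hZ : 2 * ((p : ℝ) ^ 2 - ((m : ℝ) - n) ^ 2) ≤ 4 * (p : ℝ) ^ 2 - 1 := by nlinarith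
    have hP : 0 ≤ 4 * (p : ℝ) ^ 2 - 1 := by nlinarith
    calc 2 * (((m : ℝ) + n + 1) ^ 2 - (p : ℝ) ^ 2) * ((p : ℝ) ^ 2 - ((m : ℝ) - n) ^ 2)
        = (((m : ℝ) + n + 1) ^ 2 - (p : ℝ) ^ 2) * (2 * ((p : ℝ) ^ 2 - ((m : ℝ) - n) ^ 2)) := by ring
      _ ≤ (((m : ℝ) + n + 1) ^ 2 - (p : ℝ) ^ 2) * (4 * (p : ℝ) ^ 2 - 1) :=
          mul_le_mul_of_nonneg_left hZ hX0
      _ ≤ _ := mul_le_mul_of_nonneg_right hX hP
  · have := chi_nonneg m n p; positivity

lemma yj_nonneg (m n k : ℕ) : 0 ≤ yj m n k := by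
  unfold yj; have := jc_nonneg m n k; have := jc_nonneg m n (k + 1); linarith

lemma yj_le (m n k : ℕ) : yj m n k ≤ ((2 * (m : ℝ) + 1) * (2 * n + 1)) * chi m n k := by
  by_cases hc : k ≤ m + n ∧ m ≤ n + k ∧ n ≤ m + k
  · have h1 := jc_le m n k
    have h2 := jc_le m n (k + 1)
    have h3 : chi m n k = 1 := by unfold chi; rw [if_pos hc]
    have h4 := chi_le_one m n (k + 1)
    have h5 : (0 : ℝ) ≤ (2 * (m : ℝ) + 1) * (2 * n + 1) := by positivity
    rw [h3] at h1 ⊢
    unfold yj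
    nlinarith
  · have h1 : jc m n k = 0 := by
      unfold jc; rw [if_neg]; intro h; apply hc; omega
    have h2 : jc m n (k + 1) = 0 := by
      unfold jc; rw [if_neg]; intro h; apply hc; omega
    unfold yj
    rw [h1, h2, add_zero, zero_div]
    have := chi_nonneg m n k; positivity

lemma abs_gap (m n k : ℕ) (h1 : k ≤ m + n) (h2 : m ≤ n + k) (h3 : n ≤ m + k) :
    |(lam m + lam n - lam k) / 2| ≤ (2 * (m : ℝ) + 1) * (2 * n + 1) := by
  have h1' : (k : ℝ) ≤ m + n := by exact_mod_cast h1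
  have h2' : (m : ℝ) ≤ n + k := by exact_mod_cast h2
  have h3' : (n : ℝ) ≤ m + k := by exact_mod_cast h3
  have hm : (0 : ℝ) ≤ m := by positivity
  have hn : (0 : ℝ) ≤ n := by positivity
  have hk : (0 : ℝ) ≤ k := by positivity
  unfold lam
  rw [abs_le]
  constructor <;> nlinarith [mul_nonneg hm hn]

/-- common bound for `bq` and `cq`. -/
lemma arr_bound (m n k : ℕ) (u v : ℝ) (hu : |u| ≤ 6) (hv : |v| ≤ 2) :
    |chi m n k * (u - v * lam n - (lam m + lam n - lam k) / 2) - yj m n k| ≤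
      10 * (lam m + lam n + 1) * chi m n k := by
  by_cases hc : k ≤ m + n ∧ m ≤ n + k ∧ n ≤ m + k
  · have h3 : chi m n k = 1 := by unfold chi; rw [if_pos hc]
    have hy := yj_le m n k
    have hy0 := yj_nonneg m n k
    have hMN := MN_le m n
    have hg := abs_gap m n k hc.1 hc.2.1 hc.2.2
    have hm := lam_nonneg m
    have hn := lam_nonneg n
    rw [h3] at hy ⊢
    rw [abs_le] at hg hu hv ⊢
    constructor <;> nlinarith
  · have h3 : chi m n k = 0 := by unfold chi; rw [if_neg hc]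
    have hy := yj_le m n k
    have hy0 := yj_nonneg m n k
    rw [h3] at hy ⊢
    have : yj m n k = 0 := le_antisymm (by simpa using hy) hy0
    rw [this]; simp

lemma bq_le (m n k : ℕ) : |bq m n k| ≤ 10 * (lam m + lam n + 1) * chi m n k :=
  arr_bound m n k 6 2 (by norm_num) (by norm_num)

lemma cq_le (m n k : ℕ) : |cq m n k| ≤ 10 * (lam m + lam n + 1) * chi m n k := by
  have := arr_bound m n k 2 1 (by norm_num) (by norm_num)
  rwa [one_mul] at this


/-- a uniform bound of `sc`. -/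
def scb (l p k : ℕ) : ℝ :=
  (chi l p k + chi l (p - 1) k) / 2
  + (2 * l + 1) / 2 * ((if k = p + l then 1 else 0) + (if l < p ∧ k + l + 1 = p then 1 else 0)
      + (if p ≤ l ∧ k + p = l then 1 else 0))

lemma scb_nonneg (l p k : ℕ) : 0 ≤ scb l p k := by
  unfold scb
  have h1 := chi_nonneg l p k
  have h2 := chi_nonneg l (p - 1) k
  have h3 : (0 : ℝ) ≤ (if k = p + l then 1 else 0) + (if l < p ∧ k + l + 1 = p then 1 else 0)
      + (if p ≤ l ∧ k + p = l then 1 else 0) := by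
    split_ifs <;> norm_num
  positivity

lemma abs_sc_le (l p k : ℕ) : |sc l p k| ≤ scb l p k := by
  unfold sc scb
  have h1 := chi_nonneg l p k
  have h2 := chi_nonneg l (p - 1) k
  have hl : (0 : ℝ) ≤ l := by positivity
  rw [abs_le]
  constructor <;> split_ifs <;> nlinarith

lemma scb_le (l p k : ℕ) : scb l p k ≤ 3 * (2 * l + 1) := by
  unfold scb
  have h1 := chi_le_one l p k
  have h2 := chi_le_one l (p - 1) k
  have hl : (0 : ℝ) ≤ l := by positivity
  split_ifs <;> nlinarith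

lemma scb_zero_le (l p : ℕ) (hp : 1 ≤ p) :
    scb l p 0 ≤ (2 * l + 1) * ((if p = l then 1 else 0) + (if p = l + 1 then 1 else 0)) := by
  unfold scb chi
  have hl : (0 : ℝ) ≤ l := by positivity
  by_cases h1 : p = l
  · subst h1
    have e1 : ¬ (0 ≤ p + (p - 1) ∧ p ≤ p - 1 + 0 ∧ p - 1 ≤ p + 0) := by omega
    have e2 : ¬ (0 = p + p) := by omega
    rw [if_neg e1, if_neg e2]
    simp
    linarith
  · by_cases h2 : p = l + 1
    · subst h2
      simp
      have e2 : ¬ (0 = l + 1 + l) := by omega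
      rw [if_neg e2]
      nlinarith
    · have e1 : ¬ (0 ≤ l + p ∧ l ≤ p + 0 ∧ p ≤ l + 0) := by omega
      have e2 : ¬ (0 ≤ l + (p - 1) ∧ l ≤ p - 1 + 0 ∧ p - 1 ≤ l + 0) := by omega
      have e3 : ¬ (0 = p + l) := by omega
      have e4 : ¬ (l < p ∧ 0 + l + 1 = p) := by omega
      have e5 : ¬ (p ≤ l ∧ 0 + p = l) := by omega
      rw [if_neg e1, if_neg e2, if_neg e3, if_neg e4, if_neg e5, if_neg h1, if_neg h2]
      simp

/-- sum of the weights times a point mass. -/
lemma sum_point_le {Ω R : ℝ} (hΩ : 1 ≤ Ω) (hR : 1 ≤ R) (K q : ℕ) (P : ℕ → Prop)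
    [DecidablePred P] (j : ℕ) (hP : ∀ k, P k → k = j) (hj : j ≤ q) :
    ∑ k ∈ Finset.range K, om Ω R k * (if P k then 1 else 0) ≤ om Ω R q := by
  have h1 : ∑ k ∈ Finset.range K, om Ω R k * (if P k then 1 else 0) ≤
      ∑ k ∈ Finset.range K, if k = j then om Ω R j else 0 := by
    apply Finset.sum_le_sum
    intro k _
    by_cases hk : P k
    · rw [if_pos hk, if_pos (hP k hk), hP k hk, mul_one]
    · rw [if_neg hk, mul_zero]
      split_ifs
      · exact om_nonneg hΩ hR j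
      · exact le_rfl
  refine h1.trans ?_
  rw [Finset.sum_ite_eq']
  split_ifs
  · exact om_mono hΩ hR hj
  · exact om_nonneg hΩ hR q

lemma sum_om_scb {Ω R : ℝ} (hΩ : 1 ≤ Ω) (hR : 1 ≤ R) (l p K : ℕ) (hp : 1 ≤ p) :
    ∑ k ∈ Finset.range K, om Ω R k * scb l p k ≤
      2 * (om Ω R l * om Ω R p) + (2 * l + 1) * om Ω R (l + p) := by
  have e : ∀ k, om Ω R k * scb l p k = (om Ω R k * chi l p k + om Ω R k * chi l (p - 1) k) / 2
      + (2 * l + 1) / 2 * (om Ω R k * (if k = p + l then 1 else 0)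
        + om Ω R k * (if l < p ∧ k + l + 1 = p then 1 else 0)
        + om Ω R k * (if p ≤ l ∧ k + p = l then 1 else 0)) := by
    intro k; unfold scb; ring
  simp only [e, Finset.sum_add_distrib, ← Finset.sum_div, ← Finset.mul_sum]
  have h1 := sum_om_chi hΩ hR l p (Finset.range K)
  have h2 := sum_om_chi hΩ hR l (p - 1) (Finset.range K)
  have h2' : om Ω R l * om Ω R (p - 1) ≤ om Ω R l * om Ω R p :=
    mul_le_mul_of_nonneg_left (om_mono hΩ hR (by omega)) (om_nonneg hΩ hR l)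
  have h3 := sum_point_le hΩ hR K (l + p) (fun k => k = p + l) (p + l) (fun k h => h) (by omega)
  have h45 : ∑ k ∈ Finset.range K, om Ω R k * (if l < p ∧ k + l + 1 = p then 1 else 0) +
      ∑ k ∈ Finset.range K, om Ω R k * (if p ≤ l ∧ k + p = l then 1 else 0) ≤ om Ω R (l + p) := by
    by_cases hlp : l < p
    · have h4 := sum_point_le hΩ hR K (l + p) (fun k => l < p ∧ k + l + 1 = p) (p - l - 1)
        (fun k h => by omega) (by omega)
      have h5 : ∑ k ∈ Finset.range K, om Ω R k * (if p ≤ l ∧ k + p = l then 1 else 0) = 0 := by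
        apply Finset.sum_eq_zero
        intro k _
        rw [if_neg (by omega), mul_zero]
      rw [h5, add_zero]; exact h4
    · have h4 := sum_point_le hΩ hR K (l + p) (fun k => p ≤ l ∧ k + p = l) (l - p)
        (fun k h => by omega) (by omega)
      have h5 : ∑ k ∈ Finset.range K, om Ω R k * (if l < p ∧ k + l + 1 = p then 1 else 0) = 0 := by
        apply Finset.sum_eq_zero
        intro k _
        rw [if_neg (by omega), mul_zero]
      rw [h5, zero_add]; exact h4
  have hl : (0 : ℝ) ≤ l := by positivity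
  nlinarith


lemma om'_nonneg {Ω R : ℝ} (hΩ : 1 ≤ Ω) (hR : 1 ≤ R) (k : ℕ) : 0 ≤ om' Ω R k := by
  rw [om'_eq]; have := om_nonneg hΩ hR k; split_ifs <;> positivity

lemma abs_tq_le (l m n k : ℕ) : |tq l m n k| ≤
    ∑ p ∈ Finset.range (m + n + 1), chi l p k * (10 * (lam m + lam n + 1) * chi m n p)
    + ∑ p ∈ Finset.range (m + n + 1), scb l p k * jc m n p := by
  unfold tq
  refine (abs_sub _ _).trans (add_le_add ?_ ?_)
  · refine (Finset.abs_sum_le_sum_abs _ _).trans (Finset.sum_le_sum fun p _ => ?_)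
    rw [abs_mul, abs_of_nonneg (chi_nonneg l p k)]
    exact mul_le_mul_of_nonneg_left (cq_le m n p) (chi_nonneg l p k)
  · refine (Finset.abs_sum_le_sum_abs _ _).trans (Finset.sum_le_sum fun p _ => ?_)
    rw [abs_mul, abs_of_nonneg (jc_nonneg m n p)]
    exact mul_le_mul_of_nonneg_right (abs_sc_le l p k) (jc_nonneg m n p)

lemma jc_zero (m n : ℕ) : jc m n 0 = 0 := by
  unfold jc; rw [if_neg]; omega

/-- the polynomial inequality behind the estimate of the second part. -/
lemma poly_ineq (L M N x Ω : ℝ) (hL : 1 ≤ L) (hM : 1 ≤ M) (hN : 1 ≤ N) (hΩ : 1 ≤ Ω)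
    (hx0 : 0 ≤ x) (hx : x ≤ M) (hx' : x ≤ N) :
    L * (M * N) * (L + M + N - 2 + Ω) * x ≤
      8 * (L ^ 2 + M ^ 2 + N ^ 2 - 2) * ((L + Ω) * (M + Ω) * (N + Ω)) := by
  have hA : (L ^ 2 + M ^ 2 + N ^ 2) / 3 ≤ L ^ 2 + M ^ 2 + N ^ 2 - 2 := by nlinarith
  have hA0 : 0 ≤ L ^ 2 + M ^ 2 + N ^ 2 - 2 := by nlinarith
  have h1 : (L + M + N - 2) * x ≤ 6 * (L ^ 2 + M ^ 2 + N ^ 2 - 2) := by
    have : (L + M + N - 2) * x ≤ (L + M + N) * M := by nlinarith
    nlinarith [sq_nonneg (L - M), sq_nonneg (M - N)]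
  have h2 : L * x ≤ 3 / 2 * (L ^ 2 + M ^ 2 + N ^ 2 - 2) := by
    nlinarith [sq_nonneg (L - x)]
  have h3 : L * (M * N) ≤ (L + Ω) * (M + Ω) * (N + Ω) := by
    calc L * (M * N) ≤ (L + Ω) * ((M + Ω) * (N + Ω)) := by gcongr <;> linarith
      _ = _ := by ring
  have h4 : Ω * (M * N) ≤ (L + Ω) * (M + Ω) * (N + Ω) := by
    calc Ω * (M * N) ≤ (L + Ω) * ((M + Ω) * (N + Ω)) := by gcongr <;> linarith
      _ = _ := by ring
  have h5 : L * (M * N) * ((L + M + N - 2) * x) ≤
      ((L + Ω) * (M + Ω) * (N + Ω)) * (6 * (L ^ 2 + M ^ 2 + N ^ 2 - 2)) := by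
    apply mul_le_mul h3 h1 _ (by positivity)
    apply mul_nonneg _ hx0; linarith
  have h6 : Ω * (M * N) * (L * x) ≤
      ((L + Ω) * (M + Ω) * (N + Ω)) * (3 / 2 * (L ^ 2 + M ^ 2 + N ^ 2 - 2)) := by
    apply mul_le_mul h4 h2 _ (by positivity)
    positivity
  have h7 : 0 ≤ (L + Ω) * (M + Ω) * (N + Ω) * (L ^ 2 + M ^ 2 + N ^ 2 - 2) := by positivity
  nlinarith

lemma om_prod_eq (Ω R : ℝ) (l m n : ℕ) : om Ω R l * om Ω R m * om Ω R n =
    ((2 * (l : ℝ) + 1 + Ω) * (2 * (m : ℝ) + 1 + Ω) * (2 * (n : ℝ) + 1 + Ω)) * R ^ (l + m + n) := by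
  unfold om; rw [pow_add, pow_add]; ring

end ArrBd

open ArrBd

theorem bq_bound : ∃ C ≥ 1, ∀ Ω R : ℝ, 1 ≤ Ω → 1 ≤ R → ∀ m n K,
    ∑ k ∈ Finset.range K, om' Ω R k * |bq m n k| ≤
      C * (lam m + lam n + 1) * om Ω R m * om Ω R n := by
  refine ⟨30, by norm_num, fun Ω R hΩ hR m n K => ?_⟩
  have h0 : ∀ k, 0 ≤ om' Ω R k := fun k => by
    rw [om'_eq]; have := om_nonneg hΩ hR k; split_ifs <;> positivity
  calc ∑ k ∈ Finset.range K, om' Ω R k * |bq m n k|
      ≤ ∑ k ∈ Finset.range K, om' Ω R k * (10 * (lam m + lam n + 1) * chi m n k) :=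
        Finset.sum_le_sum fun k _ => mul_le_mul_of_nonneg_left (bq_le m n k) (h0 k)
    _ = 10 * (lam m + lam n + 1) * ∑ k ∈ Finset.range K, om' Ω R k * chi m n k := by
        rw [Finset.mul_sum]; apply Finset.sum_congr rfl; intro k _; ring
    _ ≤ 10 * (lam m + lam n + 1) * (3 * (om Ω R m * om Ω R n)) := by
        apply mul_le_mul_of_nonneg_left (sum_om'_chi hΩ hR m n K)
        have := lam_nonneg m; have := lam_nonneg n; positivity
    _ = _ := by ring

theorem bq_bound' : ∃ C, ∀ m n k, |bq m n k| ≤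
    C * (lam m + lam n + 1) * (2 * m + 1) * (2 * n + 1) := by
  refine ⟨10, fun m n k => (bq_le m n k).trans ?_⟩
  have h1 := chi_le_one m n k
  have h0 := lam_nonneg m
  have h0' := lam_nonneg n
  have h2 : (1 : ℝ) ≤ (2 * m + 1) * (2 * n + 1) := by
    nlinarith [(by positivity : (0 : ℝ) ≤ m), (by positivity : (0 : ℝ) ≤ n),
      (by positivity : (0 : ℝ) ≤ (m : ℝ) * n)]
  calc 10 * (lam m + lam n + 1) * chi m n k ≤ 10 * (lam m + lam n + 1) * 1 :=
        mul_le_mul_of_nonneg_left h1 (by positivity)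
    _ ≤ 10 * (lam m + lam n + 1) * ((2 * m + 1) * (2 * n + 1)) :=
        mul_le_mul_of_nonneg_left h2 (by positivity)
    _ = _ := by ring


theorem tq_bound : ∃ C ≥ 1, ∀ Ω R : ℝ, 1 ≤ Ω → 1 ≤ R → ∀ l m n K,
    ∑ k ∈ Finset.range K, om' Ω R k * |tq l m n k| ≤
      C * (lam l + lam m + lam n + 1) * om Ω R l * om Ω R m * om Ω R n := by
  refine ⟨80, by norm_num, fun Ω R hΩ hR l m n K => ?_⟩
  have hl0 := lam_nonneg l
  have hm0 := lam_nonneg m
  have hn0 := lam_nonneg n
  have ol := om_nonneg hΩ hR l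
  have omm := om_nonneg hΩ hR m
  have on := om_nonneg hΩ hR n
  have hMN := MN_le m n
  have hMN0 : (0 : ℝ) ≤ (2 * (m : ℝ) + 1) * (2 * n + 1) := by positivity
  have hR0 : (0 : ℝ) ≤ R := by linarith
  set S := Finset.range (m + n + 1) with hS
  -- first part
  have P1 : ∑ k ∈ Finset.range K, om' Ω R k *
      ∑ p ∈ S, chi l p k * (10 * (lam m + lam n + 1) * chi m n p) ≤
      60 * (lam l + lam m + lam n + 1) * (om Ω R l * om Ω R m * om Ω R n) := by
    calc ∑ k ∈ Finset.range K, om' Ω R k *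
          ∑ p ∈ S, chi l p k * (10 * (lam m + lam n + 1) * chi m n p)
        = ∑ p ∈ S, (10 * (lam m + lam n + 1) * chi m n p) *
            ∑ k ∈ Finset.range K, om' Ω R k * chi l p k := by
          simp only [Finset.mul_sum]
          rw [Finset.sum_comm]
          apply Finset.sum_congr rfl; intro p _
          apply Finset.sum_congr rfl; intro k _
          ring
      _ ≤ ∑ p ∈ S, (10 * (lam m + lam n + 1) * chi m n p) * (3 * (om Ω R l * om Ω R p)) := by
          apply Finset.sum_le_sum; intro p _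
          apply mul_le_mul_of_nonneg_left (sum_om'_chi hΩ hR l p K)
          have := chi_nonneg m n p
          positivity
      _ = 30 * (lam m + lam n + 1) * om Ω R l * ∑ p ∈ S, om Ω R p * chi m n p := by
          rw [Finset.mul_sum]; apply Finset.sum_congr rfl; intro p _; ring
      _ ≤ 30 * (lam m + lam n + 1) * om Ω R l * (2 * (om Ω R m * om Ω R n)) :=
          mul_le_mul_of_nonneg_left (sum_om_chi hΩ hR m n S) (by positivity)
      _ = 60 * (lam m + lam n + 1) * (om Ω R l * om Ω R m * om Ω R n) := by ring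
      _ ≤ _ := by
          apply mul_le_mul_of_nonneg_right _ (by positivity)
          linarith
  -- inner sums of the second part
  have inner : ∀ p, jc m n p * ∑ k ∈ Finset.range K, om' Ω R k * scb l p k ≤
      ((2 * (m : ℝ) + 1) * (2 * n + 1)) * (2 * om Ω R l * (om Ω R p * chi m n p))
      + ((2 * (m : ℝ) + 1) * (2 * n + 1)) * ((2 * l + 1) * om Ω R (l + m + n) * chi m n p)
      + ((2 * (m : ℝ) + 1) * (2 * n + 1)) * (Ω ^ 2 * (2 * l + 1) *
          ((if p = l then 1 else 0) + (if p = l + 1 then 1 else 0))) := by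
    intro p
    have hi0 : (0 : ℝ) ≤ ((if p = l then 1 else 0) + (if p = l + 1 then 1 else 0)) := by
      split_ifs <;> norm_num
    have hc0 := chi_nonneg m n p
    have ohp := om_nonneg hΩ hR p
    have ohs := om_nonneg hΩ hR (l + m + n)
    rcases Nat.eq_zero_or_pos p with hp | hp
    · subst hp
      rw [jc_zero, zero_mul]
      positivity
    · have h1 := sum_om'_le (Ω := Ω) (R := R) K _ (scb_nonneg l p)
      have h2 := sum_om_scb hΩ hR l p K hp
      have h3 := scb_zero_le l p hp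
      have h4 : ∑ k ∈ Finset.range K, om' Ω R k * scb l p k ≤
          2 * (om Ω R l * om Ω R p) + (2 * l + 1) * om Ω R (l + p) +
            Ω ^ 2 * ((2 * l + 1) * ((if p = l then 1 else 0) + (if p = l + 1 then 1 else 0))) := by
        have := mul_le_mul_of_nonneg_left h3 (sq_nonneg Ω)
        linarith
      have hj0 := jc_nonneg m n p
      have hj := jc_le m n p
      have hc1 := chi_le_one m n p
      have h5 : jc m n p * om Ω R (l + p) ≤
          ((2 * (m : ℝ) + 1) * (2 * n + 1)) * (om Ω R (l + m + n) * chi m n p) := by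
        by_cases hpm : p ≤ m + n
        · have : om Ω R (l + p) ≤ om Ω R (l + m + n) := om_mono hΩ hR (by omega)
          calc jc m n p * om Ω R (l + p) ≤
              (((2 * (m : ℝ) + 1) * (2 * n + 1)) * chi m n p) * om Ω R (l + m + n) :=
                mul_le_mul hj this (om_nonneg hΩ hR _) (by positivity)
            _ = _ := by ring
        · have : jc m n p = 0 := by unfold jc; rw [if_neg]; omega
          rw [this, zero_mul]; positivity
      have h6 : jc m n p ≤ (2 * (m : ℝ) + 1) * (2 * n + 1) := by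
        refine hj.trans ?_
        nlinarith
      calc jc m n p * ∑ k ∈ Finset.range K, om' Ω R k * scb l p k
          ≤ jc m n p * (2 * (om Ω R l * om Ω R p) + (2 * l + 1) * om Ω R (l + p) +
            Ω ^ 2 * ((2 * l + 1) * ((if p = l then 1 else 0) + (if p = l + 1 then 1 else 0)))) :=
            mul_le_mul_of_nonneg_left h4 hj0
        _ = jc m n p * (2 * (om Ω R l * om Ω R p)) + (2 * l + 1) * (jc m n p * om Ω R (l + p)) +
            jc m n p * (Ω ^ 2 * ((2 * l + 1) *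
              ((if p = l then 1 else 0) + (if p = l + 1 then 1 else 0)))) := by ring
        _ ≤ (((2 * (m : ℝ) + 1) * (2 * n + 1)) * chi m n p) * (2 * (om Ω R l * om Ω R p)) +
            (2 * l + 1) * (((2 * (m : ℝ) + 1) * (2 * n + 1)) * (om Ω R (l + m + n) * chi m n p)) +
            ((2 * (m : ℝ) + 1) * (2 * n + 1)) * (Ω ^ 2 * ((2 * l + 1) *
              ((if p = l then 1 else 0) + (if p = l + 1 then 1 else 0)))) := by
            gcongr
        _ = _ := by ring
  have P2 : ∑ k ∈ Finset.range K, om' Ω R k * ∑ p ∈ S, scb l p k * jc m n p ≤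
      14 * (lam l + lam m + lam n + 1) * (om Ω R l * om Ω R m * om Ω R n) := by
    have e1 : ∑ k ∈ Finset.range K, om' Ω R k * ∑ p ∈ S, scb l p k * jc m n p =
        ∑ p ∈ S, jc m n p * ∑ k ∈ Finset.range K, om' Ω R k * scb l p k := by
      simp only [Finset.mul_sum]
      rw [Finset.sum_comm]
      apply Finset.sum_congr rfl; intro p _
      apply Finset.sum_congr rfl; intro k _
      ring
    rw [e1]
    refine (Finset.sum_le_sum fun p _ => inner p).trans ?_
    simp only [Finset.sum_add_distrib, ← Finset.mul_sum]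
    -- (a)
    have ha : ((2 * (m : ℝ) + 1) * (2 * n + 1)) * (2 * om Ω R l * ∑ p ∈ S, om Ω R p * chi m n p) ≤
        4 * (lam l + lam m + lam n + 1) * (om Ω R l * om Ω R m * om Ω R n) := by
      have h1 := sum_om_chi hΩ hR m n S
      calc ((2 * (m : ℝ) + 1) * (2 * n + 1)) * (2 * om Ω R l * ∑ p ∈ S, om Ω R p * chi m n p)
          ≤ (lam l + lam m + lam n + 1) * (2 * om Ω R l * (2 * (om Ω R m * om Ω R n))) := by
            apply mul_le_mul (by linarith) _ _ (by positivity)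
            · exact mul_le_mul_of_nonneg_left h1 (by positivity)
            · apply mul_nonneg (by positivity)
              exact Finset.sum_nonneg fun p _ => mul_nonneg (om_nonneg hΩ hR p) (chi_nonneg m n p)
        _ = _ := by ring
    -- (b)
    have hb : ((2 * (m : ℝ) + 1) * (2 * n + 1)) * ((2 * l + 1) * om Ω R (l + m + n) *
        ∑ p ∈ S, chi m n p) ≤
        8 * (lam l + lam m + lam n + 1) * (om Ω R l * om Ω R m * om Ω R n) := by
      have hx0 : 0 ≤ ∑ p ∈ S, chi m n p := Finset.sum_nonneg fun p _ => chi_nonneg m n p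
      have h1 := poly_ineq (2 * l + 1) (2 * m + 1) (2 * n + 1) (∑ p ∈ S, chi m n p) Ω
        (by linarith [(by positivity : (0 : ℝ) ≤ l)]) (by linarith [(by positivity : (0 : ℝ) ≤ m)])
        (by linarith [(by positivity : (0 : ℝ) ≤ n)]) hΩ hx0 (sum_chi_le m n S) (sum_chi_le' m n S)
      rw [om_prod_eq]
      have e2 : ((2 * (m : ℝ) + 1) * (2 * n + 1)) * ((2 * l + 1) * om Ω R (l + m + n) *
          ∑ p ∈ S, chi m n p) = ((2 * (l : ℝ) + 1) * ((2 * m + 1) * (2 * n + 1)) *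
            ((2 * l + 1) + (2 * m + 1) + (2 * n + 1) - 2 + Ω) * ∑ p ∈ S, chi m n p) *
              R ^ (l + m + n) := by
        unfold om; push_cast; ring
      have e3 : (2 * (l : ℝ) + 1) ^ 2 + (2 * m + 1) ^ 2 + (2 * n + 1) ^ 2 - 2 =
          lam l + lam m + lam n + 1 := by unfold lam; ring
      rw [e3] at h1
      rw [e2]
      calc _ ≤ (8 * (lam l + lam m + lam n + 1) *
            ((2 * ↑l + 1 + Ω) * (2 * ↑m + 1 + Ω) * (2 * ↑n + 1 + Ω))) * R ^ (l + m + n) :=
            mul_le_mul_of_nonneg_right h1 (by positivity)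
        _ = _ := by ring
    -- (c)
    have hc : ((2 * (m : ℝ) + 1) * (2 * n + 1)) * (Ω ^ 2 * (2 * l + 1) *
        (∑ p ∈ S, (if p = l then (1 : ℝ) else 0) + ∑ p ∈ S, (if p = l + 1 then (1 : ℝ) else 0))) ≤
        2 * (lam l + lam m + lam n + 1) * (om Ω R l * om Ω R m * om Ω R n) := by
      have h1 : ∀ j, ∑ p ∈ S, (if p = j then (1 : ℝ) else 0) ≤ 1 := by
        intro j
        rw [Finset.sum_ite_eq']
        split_ifs <;> norm_num
      have h2 : Ω ^ 2 * (2 * (l : ℝ) + 1) ≤ om Ω R l * om Ω R m * om Ω R n := by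
        have g1 := om_ge hΩ hR l
        have g2 := om_ge hΩ hR m
        have g3 := om_ge hΩ hR n
        have hl' : (0 : ℝ) ≤ l := by positivity
        have hm' : (0 : ℝ) ≤ m := by positivity
        have hn' : (0 : ℝ) ≤ n := by positivity
        calc Ω ^ 2 * (2 * (l : ℝ) + 1) = (2 * (l : ℝ) + 1) * Ω * Ω := by ring
          _ ≤ om Ω R l * om Ω R m * om Ω R n := by
              apply mul_le_mul _ (by linarith) (by linarith) (by positivity)
              apply mul_le_mul (by linarith) (by linarith) (by linarith) (by positivity)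
      have h3 := h1 l
      have h4 := h1 (l + 1)
      have h5 : (0 : ℝ) ≤ ∑ p ∈ S, (if p = l then (1 : ℝ) else 0) :=
        Finset.sum_nonneg fun p _ => by split_ifs <;> norm_num
      have h6 : (0 : ℝ) ≤ ∑ p ∈ S, (if p = l + 1 then (1 : ℝ) else 0) :=
        Finset.sum_nonneg fun p _ => by split_ifs <;> norm_num
      calc ((2 * (m : ℝ) + 1) * (2 * n + 1)) * (Ω ^ 2 * (2 * l + 1) *
          (∑ p ∈ S, (if p = l then (1 : ℝ) else 0) + ∑ p ∈ S, (if p = l + 1 then (1 : ℝ) else 0)))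
          ≤ (lam l + lam m + lam n + 1) * (om Ω R l * om Ω R m * om Ω R n * 2) := by
            apply mul_le_mul (by linarith) _ (by positivity) (by positivity)
            apply mul_le_mul h2 (by linarith) (by positivity) (by positivity)
        _ = _ := by ring
    have e4 : ∀ x y z : ℝ, x + y + z ≤ 14 * (lam l + lam m + lam n + 1) *
        (om Ω R l * om Ω R m * om Ω R n) ↔ x + y + z ≤
        4 * (lam l + lam m + lam n + 1) * (om Ω R l * om Ω R m * om Ω R n)
        + 8 * (lam l + lam m + lam n + 1) * (om Ω R l * om Ω R m * om Ω R n)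
        + 2 * (lam l + lam m + lam n + 1) * (om Ω R l * om Ω R m * om Ω R n) := by
      intro x y z
      rw [show 14 * (lam l + lam m + lam n + 1) * (om Ω R l * om Ω R m * om Ω R n) =
        4 * (lam l + lam m + lam n + 1) * (om Ω R l * om Ω R m * om Ω R n)
        + 8 * (lam l + lam m + lam n + 1) * (om Ω R l * om Ω R m * om Ω R n)
        + 2 * (lam l + lam m + lam n + 1) * (om Ω R l * om Ω R m * om Ω R n) by ring]
    rw [e4]
    exact add_le_add (add_le_add ha hb) hc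
  calc ∑ k ∈ Finset.range K, om' Ω R k * |tq l m n k|
      ≤ ∑ k ∈ Finset.range K, (om' Ω R k *
          ∑ p ∈ S, chi l p k * (10 * (lam m + lam n + 1) * chi m n p) +
          om' Ω R k * ∑ p ∈ S, scb l p k * jc m n p) := by
        apply Finset.sum_le_sum; intro k _
        rw [← mul_add]
        exact mul_le_mul_of_nonneg_left (abs_tq_le l m n k) (om'_nonneg hΩ hR k)
    _ ≤ 60 * (lam l + lam m + lam n + 1) * (om Ω R l * om Ω R m * om Ω R n) +
        14 * (lam l + lam m + lam n + 1) * (om Ω R l * om Ω R m * om Ω R n) := by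
        rw [Finset.sum_add_distrib]; exact add_le_add P1 P2
    _ = 74 * ((lam l + lam m + lam n + 1) * (om Ω R l * om Ω R m * om Ω R n)) := by ring
    _ ≤ 80 * ((lam l + lam m + lam n + 1) * (om Ω R l * om Ω R m * om Ω R n)) := by
        apply mul_le_mul_of_nonneg_right (by norm_num) (by positivity)
    _ = _ := by ring

theorem tq_bound' : ∃ C, ∀ l m n k, |tq l m n k| ≤
    C * (lam l + lam m + lam n + 1) * (2 * l + 1) * (2 * m + 1) * (2 * n + 1) := by
  refine ⟨20, fun l m n k => (abs_tq_le l m n k).trans ?_⟩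
  have hl0 := lam_nonneg l
  have hm0 := lam_nonneg m
  have hn0 := lam_nonneg n
  have hl' : (0 : ℝ) ≤ l := by positivity
  have hm' : (0 : ℝ) ≤ m := by positivity
  have hn' : (0 : ℝ) ≤ n := by positivity
  have hs := sum_chi_le m n (Finset.range (m + n + 1))
  have hs' := sum_chi_le' m n (Finset.range (m + n + 1))
  have hs0 : 0 ≤ ∑ p ∈ Finset.range (m + n + 1), chi m n p :=
    Finset.sum_nonneg fun p _ => chi_nonneg m n p
  have h1 : ∑ p ∈ Finset.range (m + n + 1), chi l p k * (10 * (lam m + lam n + 1) * chi m n p) ≤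
      10 * (lam m + lam n + 1) * ∑ p ∈ Finset.range (m + n + 1), chi m n p := by
    rw [Finset.mul_sum]
    apply Finset.sum_le_sum; intro p _
    have h2 := chi_nonneg m n p
    calc chi l p k * (10 * (lam m + lam n + 1) * chi m n p) ≤
        1 * (10 * (lam m + lam n + 1) * chi m n p) :=
          mul_le_mul_of_nonneg_right (chi_le_one l p k) (by positivity)
      _ = _ := by ring
  have h2 : ∑ p ∈ Finset.range (m + n + 1), scb l p k * jc m n p ≤
      3 * (2 * l + 1) * ((2 * (m : ℝ) + 1) * (2 * n + 1)) *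
        ∑ p ∈ Finset.range (m + n + 1), chi m n p := by
    rw [Finset.mul_sum]
    apply Finset.sum_le_sum; intro p _
    calc scb l p k * jc m n p ≤ (3 * (2 * l + 1)) * (((2 * (m : ℝ) + 1) * (2 * n + 1)) *
          chi m n p) := mul_le_mul (scb_le l p k) (jc_le m n p) (jc_nonneg m n p) (by positivity)
      _ = _ := by ring
  have hL : (1 : ℝ) ≤ 2 * l + 1 := by linarith
  have hN : (1 : ℝ) ≤ 2 * n + 1 := by linarith
  have hM : (1 : ℝ) ≤ 2 * m + 1 := by linarith
  have h3 : 10 * (lam m + lam n + 1) * ∑ p ∈ Finset.range (m + n + 1), chi m n p ≤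
      10 * ((lam l + lam m + lam n + 1) * ((2 * l + 1) * (2 * m + 1) * (2 * n + 1))) := by
    have e1 : (2 * (m : ℝ) + 1) ≤ (2 * l + 1) * (2 * m + 1) * (2 * n + 1) := by
      calc (2 * (m : ℝ) + 1) = 1 * (2 * m + 1) * 1 := by ring
        _ ≤ _ := by gcongr
    calc 10 * (lam m + lam n + 1) * ∑ p ∈ Finset.range (m + n + 1), chi m n p
        = 10 * ((lam m + lam n + 1) * ∑ p ∈ Finset.range (m + n + 1), chi m n p) := by ring
      _ ≤ 10 * ((lam l + lam m + lam n + 1) * ((2 * l + 1) * (2 * m + 1) * (2 * n + 1))) := by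
          apply mul_le_mul_of_nonneg_left _ (by norm_num)
          exact mul_le_mul (by linarith) (hs.trans e1) hs0 (by positivity)
  have h4 : 3 * (2 * l + 1) * ((2 * (m : ℝ) + 1) * (2 * n + 1)) *
        ∑ p ∈ Finset.range (m + n + 1), chi m n p ≤
      10 * ((lam l + lam m + lam n + 1) * ((2 * l + 1) * (2 * m + 1) * (2 * n + 1))) := by
    have e2 : ∑ p ∈ Finset.range (m + n + 1), chi m n p ≤ lam l + lam m + lam n + 1 := by
      refine hs.trans ?_
      unfold lam at *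
      nlinarith
    calc 3 * (2 * l + 1) * ((2 * (m : ℝ) + 1) * (2 * n + 1)) *
        ∑ p ∈ Finset.range (m + n + 1), chi m n p
        ≤ 3 * (2 * l + 1) * ((2 * (m : ℝ) + 1) * (2 * n + 1)) * (lam l + lam m + lam n + 1) :=
          mul_le_mul_of_nonneg_left e2 (by positivity)
      _ = 3 * ((lam l + lam m + lam n + 1) * ((2 * l + 1) * (2 * m + 1) * (2 * n + 1))) := by ring
      _ ≤ _ := by apply mul_le_mul_of_nonneg_right (by norm_num) (by positivity)
  calc _ ≤ 10 * ((lam l + lam m + lam n + 1) * ((2 * l + 1) * (2 * m + 1) * (2 * n + 1))) +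
      10 * ((lam l + lam m + lam n + 1) * ((2 * l + 1) * (2 * m + 1) * (2 * n + 1))) :=
        add_le_add (h1.trans h3) (h2.trans h4)
    _ = _ := by ring

end Pool.Agent.MP_ae1fc5_gt
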