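import Pool.Agent.MP_ae1fc5_gt.Defs2

/-!
# MP_ae1fc5_gt, module E: polynomial identities for the coefficient arrays
-/

open scoped Quaternion ContDiff Matrix
open Set

noncomputable section

namespace Pool.Agent.MP_ae1fc5_gt

namespace ArrId

open Polynomial

/-- Chebyshev polynomials of the second kind with integer index. -/
def uu (n : ℤ) (y : ℝ) : ℝ := (Polynomial.Chebyshev.U ℝ n).eval y
/-- First derivative. -/
def uu' (n : ℤ) (y : ℝ) : ℝ := (derivative (Polynomial.Chebyshev.U ℝ n)).eval y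
/-- Second derivative. -/
def uu'' (n : ℤ) (y : ℝ) : ℝ := (derivative (derivative (Polynomial.Chebyshev.U ℝ n))).eval y
/-- Chebyshev polynomials of the first kind with integer index. -/
def tt (n : ℤ) (y : ℝ) : ℝ := (Polynomial.Chebyshev.T ℝ n).eval y

theorem cU_eq (n : ℕ) (y : ℝ) : cU n y = uu n y := rfl

theorem cU_even (k : ℕ) (y : ℝ) : cU (2 * k) y = uu (2 * (k : ℤ)) y := by
  rw [cU_eq]; push_cast; rfl

theorem cU_odd (p : ℕ) (hp : 1 ≤ p) (y : ℝ) : cU (2 * p - 1) y = uu (2 * (p : ℤ) - 1) y := by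
  rw [cU_eq]
  congr 1
  omega

theorem uu_rec (n : ℤ) (y : ℝ) : uu (n + 1) y = 2 * y * uu n y - uu (n - 1) y := by
  have := congrArg (Polynomial.eval y) (Polynomial.Chebyshev.U_add_one ℝ n)
  simpa [uu] using this

theorem tt_rec (n : ℤ) (y : ℝ) : tt (n + 1) y = 2 * y * tt n y - tt (n - 1) y := by
  have := congrArg (Polynomial.eval y) (Polynomial.Chebyshev.T_add_one ℝ n)
  simpa [tt] using this

theorem uu_neg (n : ℤ) (y : ℝ) : uu (-n - 2) y = - uu n y := by
  simp [uu]

theorem two_tt_mul_uu (n m : ℤ) (y : ℝ) :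
    2 * tt m y * uu n y = uu (n + m) y + uu (n - m) y := by
  induction m using Polynomial.Chebyshev.induct' with
  | zero => simp [tt]; ring
  | one =>
    have := uu_rec n y
    have h : tt 1 y = y := by simp [tt]
    rw [h]; linarith
  | add_two k ih1 ih2 =>
    have h1 := uu_rec (n + (k + 1)) y
    have h2 := uu_rec (n - (k + 1)) y
    have h3 := tt_rec (k + 1) y
    have e1 : n + ((k : ℤ) + 1) + 1 = n + (k + 2) := by ring
    have e2 : n + ((k : ℤ) + 1) - 1 = n + k := by ring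
    have e3 : n - ((k : ℤ) + 1) + 1 = n - k := by ring
    have e4 : n - ((k : ℤ) + 1) - 1 = n - (k + 2) := by ring
    have e5 : (k : ℤ) + 1 + 1 = k + 2 := by ring
    have e6 : (k : ℤ) + 1 - 1 = k := by ring
    rw [e1, e2] at h1
    rw [e3, e4] at h2
    rw [e5, e6] at h3
    rw [h3]
    linear_combination 2 * y * ih1 - ih2 - h1 - h2
  | neg k ih =>
    have h : tt (-k) y = tt k y := by simp [tt, Polynomial.Chebyshev.T_neg]
    rw [h, ih, sub_neg_eq_add, ← sub_eq_add_neg]
    ring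

theorem tt_eq (n : ℤ) (y : ℝ) : 2 * tt (n + 1) y = uu (n + 1) y - uu (n - 1) y := by
  have h := two_tt_mul_uu 0 (n + 1) y
  have h0 : uu 0 y = 1 := by simp [uu]
  have h1 : (0 : ℤ) - (n + 1) = -(n - 1) - 2 := by ring
  rw [h0, h1, uu_neg, zero_add] at h
  linarith

/-- The differential recurrence. -/
theorem uu'_eq (n : ℤ) (y : ℝ) :
    (1 - y ^ 2) * uu' n y = y * uu n y - (n + 1) * tt (n + 1) y := by
  have := congrArg (Polynomial.eval y) (Polynomial.Chebyshev.add_one_mul_T_eq_poly_in_U (R := ℝ) n)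
  simp only [eval_mul, eval_add, eval_sub, eval_one, eval_X, eval_pow, eval_intCast] at this
  simp only [uu', uu, tt]
  linarith

theorem uu'_eq' (n : ℤ) (y : ℝ) :
    (1 - y ^ 2) * uu' n y = (n + 2) / 2 * uu (n - 1) y - n / 2 * uu (n + 1) y := by
  have h1 := uu'_eq n y
  have h2 := tt_eq n y
  have h3 := uu_rec n y
  linear_combination h1 - (n + 1) / 2 * h2 - 1 / 2 * h3

theorem lap_uu (n : ℤ) (y : ℝ) :
    (1 - y ^ 2) * uu'' n y - 3 * y * uu' n y = -((n + 2) * n) * uu n y := by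
  have := congrArg (Polynomial.eval y)
    (Polynomial.Chebyshev.one_sub_X_sq_mul_derivative_derivative_U_eq_poly_in_U (R := ℝ) n)
  simp only [eval_mul, eval_add, eval_sub, eval_one, eval_X, eval_pow, eval_intCast,
    Function.iterate_succ, Function.iterate_zero, Function.comp_apply, id] at this
  simp only [uu'', uu', uu]
  norm_num at this
  linarith

/-! ### Sums with a single term -/

theorem sum_ite_eq' (K a : ℕ) (ha : a < K) (P : ℕ → Prop) [DecidablePred P]
    (hP : ∀ k, P k ↔ k = a) (f : ℕ → ℝ) :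
    ∑ k ∈ Finset.range K, (if P k then (1 : ℝ) else 0) * f k = f a := by
  have : ∀ k ∈ Finset.range K, (if P k then (1 : ℝ) else 0) * f k = if k = a then f k else 0 := by
    intro k _
    by_cases h : k = a
    · have := (hP k).2 h
      simp [h ▸ this, h]
    · have : ¬ P k := fun h' => h ((hP k).1 h')
      simp [h, this]
  rw [Finset.sum_congr rfl this, Finset.sum_ite_eq']
  simp [ha]

theorem sum_ite_false (K : ℕ) (P : ℕ → Prop) [DecidablePred P]
    (hP : ∀ k, ¬ P k) (f : ℕ → ℝ) :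
    ∑ k ∈ Finset.range K, (if P k then (1 : ℝ) else 0) * f k = 0 := by
  apply Finset.sum_eq_zero
  intro k _
  simp [hP k]

/-! ### The product formula -/

theorem chi_succ (m n k : ℕ) : chi (m + 1) n k = chi m n k
    + (if k = m + n + 1 then 1 else 0) + (if m < n ∧ k + m + 1 = n then 1 else 0)
    - (if n ≤ m ∧ k + n = m then 1 else 0) := by
  unfold chi
  split_ifs <;> first | omega | norm_num

theorem sum_chi_aux (m n : ℕ) (y : ℝ) : ∀ K, m + n < K →
    ∑ k ∈ Finset.range K, chi m n k * uu (2 * (k : ℤ)) y =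
      uu (2 * (m : ℤ)) y * uu (2 * (n : ℤ)) y := by
  induction m with
  | zero =>
    intro K hK
    have h0 : uu (2 * ((0 : ℕ) : ℤ)) y = 1 := by simp [uu]
    rw [h0, one_mul]
    have := sum_ite_eq' K n (by omega) (fun k => k ≤ 0 + n ∧ 0 ≤ n + k ∧ n ≤ 0 + k)
      (fun k => by omega) (fun k => uu (2 * (k : ℤ)) y)
    exact this
  | succ m ih =>
    intro K hK
    have h1 := ih K (by omega)
    have h2 : ∑ k ∈ Finset.range K, chi (m + 1) n k * uu (2 * (k : ℤ)) y =
        ∑ k ∈ Finset.range K, chi m n k * uu (2 * (k : ℤ)) y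
        + ∑ k ∈ Finset.range K, (if k = m + n + 1 then (1 : ℝ) else 0) * uu (2 * (k : ℤ)) y
        + ∑ k ∈ Finset.range K, (if m < n ∧ k + m + 1 = n then (1 : ℝ) else 0)
            * uu (2 * (k : ℤ)) y
        - ∑ k ∈ Finset.range K, (if n ≤ m ∧ k + n = m then (1 : ℝ) else 0)
            * uu (2 * (k : ℤ)) y := by
      rw [← Finset.sum_add_distrib, ← Finset.sum_add_distrib, ← Finset.sum_sub_distrib]
      apply Finset.sum_congr rfl
      intro k _
      rw [chi_succ]
      ring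
    rw [h2, h1, sum_ite_eq' K (m + n + 1) (by omega) (fun k => k = m + n + 1) (fun k => Iff.rfl)]
    have h3 := two_tt_mul_uu (2 * (n : ℤ)) (2 * (m : ℤ) + 2) y
    have h4 := tt_eq (2 * (m : ℤ) + 1) y
    have e1 : (2 * (m : ℤ) + 1 + 1) = 2 * m + 2 := by ring
    have e2 : (2 * (m : ℤ) + 1 - 1) = 2 * m := by ring
    have e3 : (2 * (n : ℤ) + (2 * m + 2)) = 2 * ((m + n + 1 : ℕ) : ℤ) := by push_cast; ring
    have e4 : 2 * ((m + 1 : ℕ) : ℤ) = 2 * (m : ℤ) + 2 := by push_cast; ring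
    rw [e1, e2] at h4
    rw [e3] at h3
    rw [e4]
    rcases lt_or_ge m n with h | h
    · rw [sum_ite_eq' K (n - m - 1) (by omega) (fun k => m < n ∧ k + m + 1 = n)
        (fun k => by omega), sum_ite_false K (fun k => n ≤ m ∧ k + n = m) (fun k => by omega)]
      have e5 : 2 * ((n - m - 1 : ℕ) : ℤ) = 2 * (n : ℤ) - (2 * m + 2) := by omega
      rw [e5]
      linear_combination uu (2 * (n : ℤ)) y * h4 - h3
    · rw [sum_ite_false K (fun k => m < n ∧ k + m + 1 = n) (fun k => by omega),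
        sum_ite_eq' K (m - n) (by omega) (fun k => n ≤ m ∧ k + n = m) (fun k => by omega)]
      have e5 : 2 * ((m - n : ℕ) : ℤ) = 2 * (m : ℤ) - 2 * n := by omega
      have e6 := uu_neg (2 * (m : ℤ) - 2 * n) y
      have e7 : (-(2 * (m : ℤ) - 2 * n) - 2) = 2 * (n : ℤ) - (2 * m + 2) := by ring
      rw [e7] at e6
      rw [e5]
      linear_combination uu (2 * (n : ℤ)) y * h4 - h3 - e6

theorem lam_eq (n : ℕ) : lam n = ((((2 * (n : ℤ)) : ℤ) : ℝ) + 2) * ((2 * (n : ℤ) : ℤ) : ℝ) := by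
  unfold lam; push_cast; ring

theorem lap_uu' (n : ℕ) (y : ℝ) :
    (1 - y ^ 2) * uu'' (2 * (n : ℤ)) y - 3 * y * uu' (2 * (n : ℤ)) y
      = -lam n * uu (2 * (n : ℤ)) y := by
  rw [lap_uu, lam_eq]

theorem sum_chi_poly (m n K : ℕ) (hK : m + n < K) :
    ∑ k ∈ Finset.range K, C (chi m n k) * Polynomial.Chebyshev.U ℝ (2 * (k : ℤ)) =
      Polynomial.Chebyshev.U ℝ (2 * (m : ℤ)) * Polynomial.Chebyshev.U ℝ (2 * (n : ℤ)) := by
  apply Polynomial.funext
  intro y
  rw [eval_finsetSum]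
  simp only [eval_mul, eval_C]
  exact sum_chi_aux m n y K hK

theorem sum_chi_d1 (m n K : ℕ) (hK : m + n < K) (y : ℝ) :
    ∑ k ∈ Finset.range K, chi m n k * uu' (2 * (k : ℤ)) y =
      uu' (2 * (m : ℤ)) y * uu (2 * (n : ℤ)) y + uu (2 * (m : ℤ)) y * uu' (2 * (n : ℤ)) y := by
  have h := congrArg (fun p => eval y (derivative p)) (sum_chi_poly m n K hK)
  simp only [derivative_sum, derivative_mul, derivative_C, zero_mul, zero_add, eval_finsetSum,
    eval_mul, eval_C, eval_add] at h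
  exact h

theorem sum_chi_d2 (m n K : ℕ) (hK : m + n < K) (y : ℝ) :
    ∑ k ∈ Finset.range K, chi m n k * uu'' (2 * (k : ℤ)) y =
      uu'' (2 * (m : ℤ)) y * uu (2 * (n : ℤ)) y + 2 * (uu' (2 * (m : ℤ)) y * uu' (2 * (n : ℤ)) y)
        + uu (2 * (m : ℤ)) y * uu'' (2 * (n : ℤ)) y := by
  have h := congrArg (fun p => eval y (derivative (derivative p))) (sum_chi_poly m n K hK)
  simp only [derivative_sum, derivative_mul, derivative_C, zero_mul, zero_add, eval_finsetSum,
    eval_mul, eval_C, eval_add, derivative_add] at h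
  unfold uu'' uu' uu
  rw [h]
  ring

/-- The gradient identity. -/
theorem sum_grad (m n K : ℕ) (hK : m + n < K) (y : ℝ) :
    ∑ k ∈ Finset.range K, chi m n k * ((lam m + lam n - lam k) / 2) * uu (2 * (k : ℤ)) y =
      (1 - y ^ 2) * (uu' (2 * (m : ℤ)) y * uu' (2 * (n : ℤ)) y) := by
  have h0 := sum_chi_aux m n y K hK
  have h1 := sum_chi_d1 m n K hK y
  have h2 := sum_chi_d2 m n K hK y
  have h3 : ∑ k ∈ Finset.range K, chi m n k * ((lam m + lam n - lam k) / 2) * uu (2 * (k : ℤ)) y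
      = (lam m + lam n) / 2 * (∑ k ∈ Finset.range K, chi m n k * uu (2 * (k : ℤ)) y)
        + (1 - y ^ 2) / 2 * (∑ k ∈ Finset.range K, chi m n k * uu'' (2 * (k : ℤ)) y)
        - 3 * y / 2 * (∑ k ∈ Finset.range K, chi m n k * uu' (2 * (k : ℤ)) y) := by
    rw [Finset.mul_sum, Finset.mul_sum, Finset.mul_sum, ← Finset.sum_add_distrib,
      ← Finset.sum_sub_distrib]
    apply Finset.sum_congr rfl
    intro k _
    have := lap_uu' k y
    linear_combination (-chi m n k / 2) * this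
  rw [h3, h0, h1, h2]
  have hm := lap_uu' m y
  have hn := lap_uu' n y
  linear_combination (uu (2 * (n : ℤ)) y / 2) * hm + (uu (2 * (m : ℤ)) y / 2) * hn

/-! ### The antiderivative -/

theorem jc_zero (m n : ℕ) : jc m n 0 = 0 := by
  unfold jc; simp

theorem jc_top (m n p : ℕ) (h : m + n < p) : jc m n p = 0 := by
  unfold jc
  rw [if_neg]
  omega

theorem jc_mul (m n p : ℕ) (h1 : p ≤ m + n + 1) (h2 : m ≤ n + p) (h3 : n ≤ m + p) :
    (4 * (p : ℝ) ^ 2 - 1) * jc m n p =
      2 * (((m : ℝ) + n + 1) ^ 2 - (p : ℝ) ^ 2) * ((p : ℝ) ^ 2 - ((m : ℝ) - n) ^ 2) := by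
  have hne : (4 * (p : ℝ) ^ 2 - 1) ≠ 0 := by
    intro h
    have : (4 * (p : ℤ) ^ 2 - 1) = 0 := by exact_mod_cast h
    omega
  unfold jc
  split_ifs with h
  · field_simp
  · rw [mul_zero]
    have : p = m + n + 1 ∨ m = n + p ∨ n = m + p := by omega
    rcases this with h | h | h <;> subst h <;> push_cast <;> ring

theorem jc_step (m n k : ℕ) :
    (2 * (k : ℝ) + 3) / 2 * jc m n (k + 1) - (2 * (k : ℝ) - 1) / 2 * jc m n k =
      chi m n k * ((lam m + lam n - lam k) / 2) := by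
  by_cases h : k ≤ m + n ∧ m ≤ n + k ∧ n ≤ m + k
  · have h1 := jc_mul m n k (by omega) h.2.1 h.2.2
    have h2 := jc_mul m n (k + 1) (by omega) (by omega) (by omega)
    have hc : chi m n k = 1 := by unfold chi; rw [if_pos h]
    have hk : (2 * (k : ℝ) + 1) ≠ 0 := by positivity
    rw [hc]
    apply mul_left_cancel₀ hk
    unfold lam
    push_cast at h2 ⊢
    linear_combination (1 / 2) * h2 - (1 / 2) * h1
  · have hc : chi m n k = 0 := by unfold chi; rw [if_neg h]
    have h1 : jc m n k = 0 := by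
      unfold jc
      rw [if_neg]
      omega
    have h2 : jc m n (k + 1) = 0 := by
      unfold jc
      rw [if_neg]
      omega
    rw [hc, h1, h2]
    ring

/-- Reindexing. -/
theorem sum_shift (N : ℕ) (c f : ℕ → ℝ) (g : ℤ → ℝ) (hc0 : c 0 = 0) (hcN : c (N + 1) = 0)
    (hf : ∀ k : ℕ, f (k + 1) = g k) :
    ∑ p ∈ Finset.range (N + 1), c p * f p = ∑ k ∈ Finset.range (N + 1), c (k + 1) * g k := by
  rw [Finset.sum_range_succ', Finset.sum_range_succ, hc0, hcN, zero_mul, zero_mul]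
  congr 1
  apply Finset.sum_congr rfl
  intro k _
  rw [hf]

theorem Jpol_eq (m n : ℕ) (y : ℝ) :
    Jpol m n y = ∑ p ∈ Finset.range (m + n + 1), jc m n p * uu (2 * (p : ℤ) - 1) y := by
  unfold Jpol
  apply Finset.sum_congr rfl
  intro p _
  rcases Nat.eq_zero_or_pos p with h | h
  · subst h
    rw [jc_zero, zero_mul, zero_mul]
  · rw [cU_odd p h]

/-- The polynomial `J`. -/
def JP (m n : ℕ) : ℝ[X] :=
  ∑ p ∈ Finset.range (m + n + 1), C (jc m n p) * Polynomial.Chebyshev.U ℝ (2 * (p : ℤ) - 1)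

theorem Jpol_eval (m n : ℕ) : Jpol m n = fun y => (JP m n).eval y := by
  funext y
  rw [Jpol_eq, JP, eval_finsetSum]
  simp only [eval_mul, eval_C]
  rfl

theorem JP_deriv_eval (m n : ℕ) (y : ℝ) :
    (1 - y ^ 2) * (derivative (JP m n)).eval y =
      (1 - y ^ 2) * (uu' (2 * (m : ℤ)) y * uu' (2 * (n : ℤ)) y) := by
  rw [← sum_grad m n (m + n + 1) (by omega) y]
  have h1 : (1 - y ^ 2) * (derivative (JP m n)).eval y =
      ∑ p ∈ Finset.range (m + n + 1),
        (jc m n p * ((2 * (p : ℝ) + 1) / 2)) * uu (2 * (p : ℤ) - 2) y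
      - ∑ p ∈ Finset.range (m + n + 1),
        (jc m n p * ((2 * (p : ℝ) - 1) / 2)) * uu (2 * (p : ℤ)) y := by
    rw [JP, derivative_sum, eval_finsetSum, Finset.mul_sum, ← Finset.sum_sub_distrib]
    apply Finset.sum_congr rfl
    intro p _
    simp only [derivative_mul, derivative_C, zero_mul, zero_add, eval_mul, eval_C]
    have := uu'_eq' (2 * (p : ℤ) - 1) y
    have e1 : 2 * (p : ℤ) - 1 - 1 = 2 * p - 2 := by ring
    have e2 : 2 * (p : ℤ) - 1 + 1 = 2 * p := by ring
    rw [e1, e2] at this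
    unfold uu' at this
    push_cast at this
    linear_combination (jc m n p) * this
  rw [h1, sum_shift (m + n) (fun p => jc m n p * ((2 * (p : ℝ) + 1) / 2))
    (fun p => uu (2 * (p : ℤ) - 2) y) (fun k => uu (2 * k) y) (by simp [jc_zero])
    (by simp [jc_top m n (m + n + 1) (by omega)])
    (fun k => by push_cast; congr 1; ring), ← Finset.sum_sub_distrib]
  apply Finset.sum_congr rfl
  intro k _
  rw [← jc_step m n k]
  push_cast
  ring

theorem JP_deriv (m n : ℕ) : derivative (JP m n) =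
    derivative (Polynomial.Chebyshev.U ℝ (2 * (m : ℤ))) *
      derivative (Polynomial.Chebyshev.U ℝ (2 * (n : ℤ))) := by
  have hne : (1 - X ^ 2 : ℝ[X]) ≠ 0 := by
    intro h
    have := congrArg (eval 0) h
    simp at this
  apply mul_left_cancel₀ hne
  apply Polynomial.funext
  intro y
  have := JP_deriv_eval m n y
  simp only [eval_mul, eval_sub, eval_one, eval_pow, eval_X]
  exact this

theorem deriv_cU_even (n : ℕ) : deriv (cU (2 * n)) = fun y => uu' (2 * (n : ℤ)) y := by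
  funext y
  have : cU (2 * n) = fun y => (Polynomial.Chebyshev.U ℝ (2 * (n : ℤ))).eval y := by
    funext z; exact cU_even n z
  rw [this, Polynomial.deriv]
  rfl

theorem deriv2_cU_even (n : ℕ) : deriv (deriv (cU (2 * n))) = fun y => uu'' (2 * (n : ℤ)) y := by
  rw [deriv_cU_even]
  funext y
  have : (fun y => uu' (2 * (n : ℤ)) y) =
    fun y => (derivative (Polynomial.Chebyshev.U ℝ (2 * (n : ℤ)))).eval y := rfl
  rw [this, Polynomial.deriv]
  rfl

theorem y_mul_uu (n : ℤ) (y : ℝ) : y * uu n y = (uu (n + 1) y + uu (n - 1) y) / 2 := by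
  have := uu_rec n y
  linarith

theorem sum_yj (m n : ℕ) (y : ℝ) (K : ℕ) (hK : m + n < K) :
    ∑ k ∈ Finset.range K, yj m n k * uu (2 * (k : ℤ)) y = y * Jpol m n y := by
  have h0 : ∑ k ∈ Finset.range K, yj m n k * uu (2 * (k : ℤ)) y =
      ∑ k ∈ Finset.range (m + n + 1), yj m n k * uu (2 * (k : ℤ)) y := by
    symm
    apply Finset.sum_subset
    · intro k hk
      rw [Finset.mem_range] at hk ⊢
      omega
    · intro k _ hk
      rw [Finset.mem_range] at hk
      unfold yj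
      rw [jc_top m n k (by omega), jc_top m n (k + 1) (by omega)]
      ring
  rw [h0, Jpol_eq, Finset.mul_sum]
  have h1 : ∑ p ∈ Finset.range (m + n + 1), y * (jc m n p * uu (2 * (p : ℤ) - 1) y) =
      ∑ p ∈ Finset.range (m + n + 1), jc m n p / 2 * uu (2 * (p : ℤ)) y
      + ∑ p ∈ Finset.range (m + n + 1), jc m n p / 2 * uu (2 * (p : ℤ) - 2) y := by
    rw [← Finset.sum_add_distrib]
    apply Finset.sum_congr rfl
    intro p _
    have := y_mul_uu (2 * (p : ℤ) - 1) y
    have e1 : 2 * (p : ℤ) - 1 - 1 = 2 * p - 2 := by ring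
    have e2 : 2 * (p : ℤ) - 1 + 1 = 2 * p := by ring
    rw [e1, e2] at this
    linear_combination (jc m n p) * this
  rw [h1, sum_shift (m + n) (fun p => jc m n p / 2)
    (fun p => uu (2 * (p : ℤ) - 2) y) (fun k => uu (2 * k) y) (by simp [jc_zero])
    (by simp [jc_top m n (m + n + 1) (by omega)])
    (fun k => by push_cast; congr 1; ring), ← Finset.sum_add_distrib]
  apply Finset.sum_congr rfl
  intro k _
  unfold yj
  ring

theorem chi_top (m n k : ℕ) (h : m + n < k) : chi m n k = 0 := by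
  unfold chi
  rw [if_neg]
  omega

theorem yj_top (m n k : ℕ) (h : m + n < k) : yj m n k = 0 := by
  unfold yj
  rw [jc_top m n k h, jc_top m n (k + 1) (by omega)]
  ring

theorem sum_cq (m n : ℕ) (y : ℝ) (K : ℕ) (hK : m + n < K) :
    ∑ k ∈ Finset.range K, cq m n k * uu (2 * (k : ℤ)) y =
      (2 - lam n) * (uu (2 * (m : ℤ)) y * uu (2 * (n : ℤ)) y)
        - (1 - y ^ 2) * (uu' (2 * (m : ℤ)) y * uu' (2 * (n : ℤ)) y) - y * Jpol m n y := by
  rw [← sum_chi_aux m n y K hK, ← sum_grad m n K hK y, ← sum_yj m n y K hK, Finset.mul_sum,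
    ← Finset.sum_sub_distrib, ← Finset.sum_sub_distrib]
  apply Finset.sum_congr rfl
  intro k _
  unfold cq
  ring

/-- `(1-y^2) U_(2l)' U_(2p-1)`. -/
theorem sum_sc (l p : ℕ) (hp : 1 ≤ p) (y : ℝ) (K : ℕ) (hK : l + p < K) :
    ∑ k ∈ Finset.range K, sc l p k * uu (2 * (k : ℤ)) y =
      (1 - y ^ 2) * uu' (2 * (l : ℤ)) y * uu (2 * (p : ℤ) - 1) y := by
  have h1 : ∑ k ∈ Finset.range K, sc l p k * uu (2 * (k : ℤ)) y =
      1 / 2 * (∑ k ∈ Finset.range K, chi l p k * uu (2 * (k : ℤ)) y)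
      + 1 / 2 * (∑ k ∈ Finset.range K, chi l (p - 1) k * uu (2 * (k : ℤ)) y)
      - (2 * l + 1) / 2 * (∑ k ∈ Finset.range K, (if k = p + l then (1 : ℝ) else 0)
          * uu (2 * (k : ℤ)) y)
      - (2 * l + 1) / 2 * (∑ k ∈ Finset.range K, (if l < p ∧ k + l + 1 = p then (1 : ℝ) else 0)
          * uu (2 * (k : ℤ)) y)
      + (2 * l + 1) / 2 * (∑ k ∈ Finset.range K, (if p ≤ l ∧ k + p = l then (1 : ℝ) else 0)
          * uu (2 * (k : ℤ)) y) := by
    rw [Finset.mul_sum, Finset.mul_sum, Finset.mul_sum, Finset.mul_sum, Finset.mul_sum,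
      ← Finset.sum_add_distrib, ← Finset.sum_sub_distrib, ← Finset.sum_sub_distrib,
      ← Finset.sum_add_distrib]
    apply Finset.sum_congr rfl
    intro k _
    unfold sc
    ring
  rw [h1, sum_chi_aux l p y K hK, sum_chi_aux l (p - 1) y K (by omega),
    sum_ite_eq' K (p + l) (by omega) (fun k => k = p + l) (fun k => Iff.rfl)]
  have h2 := uu'_eq (2 * (l : ℤ)) y
  have h3 := two_tt_mul_uu (2 * (p : ℤ) - 1) (2 * (l : ℤ) + 1) y
  have h4 := y_mul_uu (2 * (p : ℤ) - 1) y
  have e1 : 2 * (p : ℤ) - 1 + (2 * (l : ℤ) + 1) = 2 * ((p + l : ℕ) : ℤ) := by push_cast; ring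
  have e2 : 2 * (p : ℤ) - 1 - 1 = 2 * ((p - 1 : ℕ) : ℤ) := by omega
  have e3 : 2 * (p : ℤ) - 1 + 1 = 2 * (p : ℤ) := by ring
  rw [e1] at h3
  rw [e2, e3] at h4
  push_cast at h2
  rcases lt_or_ge l p with h | h
  · rw [sum_ite_eq' K (p - l - 1) (by omega) (fun k => l < p ∧ k + l + 1 = p)
      (fun k => by omega), sum_ite_false K (fun k => p ≤ l ∧ k + p = l) (fun k => by omega)]
    have e5 : 2 * ((p - l - 1 : ℕ) : ℤ) = 2 * (p : ℤ) - 1 - (2 * (l : ℤ) + 1) := by omega
    rw [e5]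
    linear_combination (-uu (2 * (p : ℤ) - 1) y) * h2 + (2 * (l : ℝ) + 1) / 2 * h3
      - uu (2 * (l : ℤ)) y * h4
  · rw [sum_ite_false K (fun k => l < p ∧ k + l + 1 = p) (fun k => by omega),
      sum_ite_eq' K (l - p) (by omega) (fun k => p ≤ l ∧ k + p = l) (fun k => by omega)]
    have e5 : 2 * ((l - p : ℕ) : ℤ) = 2 * (l : ℤ) - 2 * p := by omega
    have e6 := uu_neg (2 * (l : ℤ) - 2 * p) y
    have e7 : (-(2 * (l : ℤ) - 2 * p) - 2) = 2 * (p : ℤ) - 1 - (2 * (l : ℤ) + 1) := by ring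
    rw [e7] at e6
    rw [e5]
    linear_combination (-uu (2 * (p : ℤ) - 1) y) * h2 + (2 * (l : ℝ) + 1) / 2 * h3
      - uu (2 * (l : ℤ)) y * h4 + (2 * (l : ℝ) + 1) / 2 * e6

end ArrId

open ArrId

theorem sum_chi (m n : ℕ) (y : ℝ) :
    ∑ k ∈ Finset.range (m + n + 1), chi m n k * cU (2 * k) y = cU (2 * m) y * cU (2 * n) y := by
  simp only [cU_even]
  exact sum_chi_aux m n y _ (by omega)

theorem laplace_cU (n : ℕ) (y : ℝ) :
    (1 - y ^ 2) * deriv (deriv (cU (2 * n))) y - 3 * y * deriv (cU (2 * n)) y =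
      -lam n * cU (2 * n) y := by
  rw [deriv2_cU_even, deriv_cU_even, cU_even]
  exact lap_uu' n y

theorem Jpol_deriv (m n : ℕ) (y : ℝ) :
    HasDerivAt (Jpol m n) (deriv (cU (2 * m)) y * deriv (cU (2 * n)) y) y := by
  rw [deriv_cU_even, deriv_cU_even, Jpol_eval]
  have h := (JP m n).hasDerivAt y
  rw [JP_deriv, Polynomial.eval_mul] at h
  exact h

theorem Jpol_zero (m n : ℕ) : Jpol m n 0 = 0 := by
  rw [Jpol_eq]
  apply Finset.sum_eq_zero
  intro p _
  have : uu (2 * (p : ℤ) - 1) 0 = 0 := by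
    unfold uu
    apply Polynomial.Chebyshev.U_eval_zero_of_odd
    exact ⟨p - 1, by ring⟩
  rw [this, mul_zero]

theorem sum_bq (m n : ℕ) (y : ℝ) :
    ∑ k ∈ Finset.range (m + n + 1), bq m n k * cU (2 * k) y =
      (6 - 2 * lam n) * (cU (2 * m) y * cU (2 * n) y)
        - (1 - y ^ 2) * (deriv (cU (2 * m)) y * deriv (cU (2 * n)) y) - y * Jpol m n y := by
  simp only [cU_even, deriv_cU_even]
  rw [← sum_chi_aux m n y (m + n + 1) (by omega), ← sum_grad m n (m + n + 1) (by omega) y,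
    ← sum_yj m n y (m + n + 1) (by omega), Finset.mul_sum,
    ← Finset.sum_sub_distrib, ← Finset.sum_sub_distrib]
  apply Finset.sum_congr rfl
  intro k _
  unfold bq
  ring

theorem sum_tq (l m n : ℕ) (y : ℝ) :
    ∑ k ∈ Finset.range (l + m + n + 1), tq l m n k * cU (2 * k) y =
      cU (2 * l) y * ((2 - lam n) * (cU (2 * m) y * cU (2 * n) y)
        - (1 - y ^ 2) * (deriv (cU (2 * m)) y * deriv (cU (2 * n)) y) - y * Jpol m n y)
      - (1 - y ^ 2) * deriv (cU (2 * l)) y * Jpol m n y := by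
  simp only [cU_even, deriv_cU_even]
  rw [← sum_cq m n y (m + n + 1) (by omega)]
  have h1 : uu (2 * (l : ℤ)) y * ∑ k ∈ Finset.range (m + n + 1), cq m n k * uu (2 * (k : ℤ)) y
      = ∑ k ∈ Finset.range (l + m + n + 1),
        (∑ p ∈ Finset.range (m + n + 1), chi l p k * cq m n p) * uu (2 * (k : ℤ)) y := by
    rw [Finset.mul_sum]
    simp only [Finset.sum_mul]
    rw [Finset.sum_comm]
    apply Finset.sum_congr rfl
    intro p hp
    rw [Finset.mem_range] at hp
    have := sum_chi_aux l p y (l + m + n + 1) (by omega)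
    calc uu (2 * (l : ℤ)) y * (cq m n p * uu (2 * (p : ℤ)) y)
        = cq m n p * (uu (2 * (l : ℤ)) y * uu (2 * (p : ℤ)) y) := by ring
      _ = _ := by
        rw [← this, Finset.mul_sum]
        apply Finset.sum_congr rfl
        intro k _
        ring
  have h2 : (1 - y ^ 2) * uu' (2 * (l : ℤ)) y * Jpol m n y
      = ∑ k ∈ Finset.range (l + m + n + 1),
        (∑ p ∈ Finset.range (m + n + 1), sc l p k * jc m n p) * uu (2 * (k : ℤ)) y := by
    rw [Jpol_eq, Finset.mul_sum]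
    simp only [Finset.sum_mul]
    rw [Finset.sum_comm]
    apply Finset.sum_congr rfl
    intro p hp
    rw [Finset.mem_range] at hp
    rcases Nat.eq_zero_or_pos p with h | h
    · subst h
      simp [jc_zero]
    · have := sum_sc l p h y (l + m + n + 1) (by omega)
      calc (1 - y ^ 2) * uu' (2 * (l : ℤ)) y * (jc m n p * uu (2 * (p : ℤ) - 1) y)
          = jc m n p * ((1 - y ^ 2) * uu' (2 * (l : ℤ)) y * uu (2 * (p : ℤ) - 1) y) := by ring
        _ = _ := by
          rw [← this, Finset.mul_sum]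
          apply Finset.sum_congr rfl
          intro k _
          ring
  rw [h1, h2, ← Finset.sum_sub_distrib]
  apply Finset.sum_congr rfl
  intro k _
  unfold tq
  ring

theorem bq_support (m n k : ℕ) (h : m + n < k) : bq m n k = 0 := by
  unfold bq
  rw [chi_top m n k h, yj_top m n k h]
  ring

theorem tq_support (l m n k : ℕ) (h : l + m + n < k) : tq l m n k = 0 := by
  unfold tq
  have h1 : ∑ p ∈ Finset.range (m + n + 1), chi l p k * cq m n p = 0 := by
    apply Finset.sum_eq_zero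
    intro p hp
    rw [Finset.mem_range] at hp
    rw [chi_top l p k (by omega), zero_mul]
  have h2 : ∑ p ∈ Finset.range (m + n + 1), sc l p k * jc m n p = 0 := by
    apply Finset.sum_eq_zero
    intro p hp
    rw [Finset.mem_range] at hp
    unfold sc
    rw [chi_top l p k (by omega), chi_top l (p - 1) k (by omega), if_neg (by omega),
      if_neg (by omega), if_neg (by omega)]
    ring
  rw [h1, h2, sub_zero]

end Pool.Agent.MP_ae1fc5_gt
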