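import Pool.Agent.MP_ae1fc5_gt.Defs2

/-!
# MP_ae1fc5_gt, module D: the bump function
-/

open scoped Quaternion ContDiff Matrix Topology
open Set MeasureTheory

noncomputable section

namespace Pool.Agent.MP_ae1fc5_gt

namespace BumpAux

/-- The denominator of the generating function of the Chebyshev polynomials `U_n`. -/
def Dn (s y : ℝ) : ℝ := 1 - 2 * s * y + s ^ 2

/-- The integrals `int_0^q s^k / D^(k+1) ds`. -/
def G (k : ℕ) (q y : ℝ) : ℝ := ∫ s in (0 : ℝ)..q, s ^ k / Dn s y ^ (k + 1)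

/-- The domain of positivity. -/
def Jq (q : ℝ) : Set ℝ := {y | 2 * q * y < 1 + q ^ 2}

lemma isOpen_Jq (q : ℝ) : IsOpen (Jq q) :=
  isOpen_lt (by fun_prop) (by fun_prop)

lemma Dn_pos {q s y : ℝ} (hq : 0 < q) (hq1 : q < 1) (hs : 0 ≤ s) (hsq : s ≤ q)
    (hy : y ∈ Jq q) : 0 < Dn s y := by
  have hy' : 2 * q * y < 1 + q ^ 2 := hy
  rcases hs.eq_or_lt with rfl | hs
  · simp [Dn]
  · have h1 : 0 < s * (1 + q ^ 2 - 2 * q * y) := mul_pos hs (by linarith)
    have h2 : 0 ≤ (q - s) * (1 - q * s) := mul_nonneg (by linarith) (by nlinarith)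
    have h3 : 0 < q * Dn s y := by unfold Dn; nlinarith
    exact pos_of_mul_pos_right h3 hq.le

lemma continuousOn_integrand (k : ℕ) {q y : ℝ} (hq : 0 < q) (hq1 : q < 1) (hy : y ∈ Jq q) :
    ContinuousOn (fun s : ℝ => s ^ k / Dn s y ^ (k + 1)) (Icc 0 q) := by
  apply ContinuousOn.div
  · fun_prop
  · unfold Dn; fun_prop
  · intro s hs
    exact pow_ne_zero _ (Dn_pos hq hq1 hs.1 hs.2 hy).ne'

lemma intervalIntegrable_integrand (k : ℕ) {q y : ℝ} (hq : 0 < q) (hq1 : q < 1)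
    (hy : y ∈ Jq q) :
    IntervalIntegrable (fun s : ℝ => s ^ k / Dn s y ^ (k + 1)) volume 0 q := by
  apply ContinuousOn.intervalIntegrable
  rw [uIcc_of_le hq.le]
  exact continuousOn_integrand k hq hq1 hy

lemma hasDerivAt_G (k : ℕ) {q y : ℝ} (hq : 0 < q) (hq1 : q < 1) (hy : y ∈ Jq q) :
    HasDerivAt (G k q) (2 * (k + 1) * G (k + 1) q y) y := by
  -- a point of the domain to the right of `y`
  obtain ⟨y1, hy1, hyy1⟩ : ∃ y1 ∈ Jq q, y < y1 := by
    have hy' : 2 * q * y < 1 + q ^ 2 := hy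
    refine ⟨(y + (1 + q ^ 2) / (2 * q)) / 2, ?_, ?_⟩
    · show 2 * q * ((y + (1 + q ^ 2) / (2 * q)) / 2) < 1 + q ^ 2
      field_simp
      nlinarith
    · have : y < (1 + q ^ 2) / (2 * q) := by
        rw [lt_div_iff₀ (by positivity)]; linarith
      linarith
  have hle : ∀ x ∈ Iio y1, x ∈ Jq q := by
    intro x hx
    have hx' : x < y1 := hx
    have h1 : 2 * q * y1 < 1 + q ^ 2 := hy1
    show 2 * q * x < 1 + q ^ 2
    nlinarith
  have key := intervalIntegral.hasDerivAt_integral_of_dominated_loc_of_deriv_le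
    (μ := volume) (a := 0) (b := q) (x₀ := y) (s := Iio y1)
    (F := fun x s => s ^ k / Dn s x ^ (k + 1))
    (F' := fun x s => 2 * (k + 1) * (s ^ (k + 1) / Dn s x ^ (k + 1 + 1)))
    (bound := fun s => 2 * (k + 1) * (s ^ (k + 1) / Dn s y1 ^ (k + 1 + 1)))
    (Iio_mem_nhds hyy1) ?_ (intervalIntegrable_integrand k hq hq1 hy) ?_ ?_ ?_ ?_
  · have h := key.2
    unfold G
    rw [← intervalIntegral.integral_const_mul]
    exact h
  · filter_upwards [Iio_mem_nhds hyy1] with x hx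
    exact (intervalIntegrable_integrand k hq hq1 (hle x hx)).aestronglyMeasurable_restrict_uIoc
  · exact ((intervalIntegrable_integrand (k + 1) hq hq1 hy).const_mul
      (2 * ((k : ℝ) + 1))).aestronglyMeasurable_restrict_uIoc
  · refine Filter.Eventually.of_forall fun s hs x hx => ?_
    rw [uIoc_of_le hq.le] at hs
    have hD1 := Dn_pos hq hq1 hs.1.le hs.2 hy1
    have hD := Dn_pos hq hq1 hs.1.le hs.2 (hle x hx)
    have hle' : Dn s y1 ≤ Dn s x := by
      have hx' : x < y1 := hx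
      have := hs.1
      unfold Dn
      nlinarith
    have h0 : 0 ≤ s ^ (k + 1) := pow_nonneg hs.1.le _
    rw [Real.norm_of_nonneg (by positivity)]
    gcongr
  · exact (intervalIntegrable_integrand (k + 1) hq hq1 hy1).const_mul (2 * ((k : ℝ) + 1))
  · refine Filter.Eventually.of_forall fun s hs x hx => ?_
    rw [uIoc_of_le hq.le] at hs
    have hD := Dn_pos hq hq1 hs.1.le hs.2 (hle x hx)
    have h1 : HasDerivAt (fun x => Dn s x) (-(2 * s)) x := by
      unfold Dn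
      have := (((hasDerivAt_id x).const_mul (2 * s)).const_sub 1).add_const (s ^ 2)
      simpa using this
    have h2 := (h1.pow (k + 1)).inv (pow_ne_zero _ hD.ne')
    have h3 := h2.const_mul (s ^ k)
    refine (h3.congr_deriv ?_).congr_of_eventuallyEq ?_
    · have hD' := hD.ne'
      simp only [Nat.add_sub_cancel, Pi.pow_apply]
      push_cast
      field_simp
      ring
    · exact Filter.Eventually.of_forall fun z => by simp [div_eq_mul_inv]

lemma contDiffOn_G (n : ℕ) : ∀ (k : ℕ) {q : ℝ} (_ : 0 < q) (_ : q < 1),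
    ContDiffOn ℝ n (G k q) (Jq q) := by
  induction n with
  | zero =>
    intro k q hq hq1
    simp only [Nat.cast_zero]
    rw [contDiffOn_zero]
    intro y hy
    exact (hasDerivAt_G k hq hq1 hy).continuousAt.continuousWithinAt
  | succ n ih =>
    intro k q hq hq1
    push_cast
    rw [contDiffOn_succ_iff_deriv_of_isOpen (isOpen_Jq q)]
    refine ⟨fun y hy => (hasDerivAt_G k hq hq1 hy).differentiableAt.differentiableWithinAt,
      by simp, ?_⟩
    refine ContDiffOn.congr (f := fun y => 2 * ((k : ℝ) + 1) * G (k + 1) q y) ?_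
      (fun y hy => (hasDerivAt_G k hq hq1 hy).deriv)
    exact contDiffOn_const.mul (ih (k + 1) hq hq1)

lemma contDiffAt_G (k : ℕ) {q y : ℝ} (hq : 0 < q) (hq1 : q < 1) (hy : y ∈ Jq q) :
    ContDiffAt ℝ ∞ (G k q) y := by
  rw [contDiffAt_infty]
  intro n
  exact (contDiffOn_G n k hq hq1).contDiffAt ((isOpen_Jq q).mem_nhds hy)

/-! ### The series -/

lemma cU_zero (y : ℝ) : cU 0 y = 1 := by simp [cU]

lemma cU_one (y : ℝ) : cU 1 y = 2 * y := by simp [cU]

lemma cU_add_two (n : ℕ) (y : ℝ) : cU (n + 2) y = 2 * y * cU (n + 1) y - cU n y := by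
  unfold cU
  push_cast
  rw [Polynomial.Chebyshev.U_add_two]
  simp

lemma cU_two (y : ℝ) : cU 2 y = 4 * y ^ 2 - 1 := by
  have := cU_add_two 0 y
  rw [zero_add, zero_add, cU_zero, cU_one] at this
  rw [this]; ring

lemma cU_add_four (n : ℕ) (y : ℝ) :
    cU (n + 4) y = (4 * y ^ 2 - 2) * cU (n + 2) y - cU n y := by
  have h1 := cU_add_two (n + 2) y
  have h2 := cU_add_two (n + 1) y
  have h3 := cU_add_two n y
  have e1 : cU (n + 2 + 2) y = cU (n + 4) y := rfl
  have e2 : cU (n + 2 + 1) y = cU (n + 3) y := rfl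
  have e3 : cU (n + 1 + 2) y = cU (n + 3) y := rfl
  have e4 : cU (n + 1 + 1) y = cU (n + 2) y := rfl
  rw [e1, e2] at h1
  rw [e3, e4] at h2
  rw [h1, h2]
  linear_combination 1 * h3

lemma cU_step (a b : ℂ) (hab : a * b = 1) (y : ℝ) (hy : a + b = 2 * (y : ℂ)) (n : ℕ) :
    ((cU (n + 1) y : ℝ) : ℂ) = a * (cU n y : ℝ) + b ^ (n + 1) := by
  induction n with
  | zero => rw [zero_add, cU_zero, cU_one]; push_cast; linear_combination -1 * hy
  | succ n ih =>
    have e : cU (n + 1 + 1) y = cU (n + 2) y := rfl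
    rw [e, cU_add_two]
    push_cast
    rw [ih]
    have h2 : (2 : ℂ) * (y : ℂ) = a + b := hy.symm
    rw [h2]
    linear_combination (cU n y : ℂ) * hab

lemma cU_bound_aux (a b : ℂ) (hab : a * b = 1) (y : ℝ) (hy : a + b = 2 * (y : ℂ)) (r : ℝ)
    (ha : ‖a‖ ≤ r) (hb : ‖b‖ ≤ r) (n : ℕ) : |cU n y| ≤ (n + 1) * r ^ n := by
  have hr : 0 ≤ r := (norm_nonneg a).trans ha
  induction n with
  | zero => simp [cU_zero]
  | succ n ih =>
    have h := cU_step a b hab y hy n
    have h1 : |cU (n + 1) y| = ‖((cU (n + 1) y : ℝ) : ℂ)‖ := by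
      rw [Complex.norm_real, Real.norm_eq_abs]
    rw [h1, h]
    refine (norm_add_le _ _).trans ?_
    rw [norm_mul, norm_pow, Complex.norm_real, Real.norm_eq_abs]
    calc ‖a‖ * |cU n y| + ‖b‖ ^ (n + 1) ≤ r * ((n + 1) * r ^ n) + r ^ (n + 1) := by gcongr
      _ = _ := by push_cast; ring

lemma abs_cU_neg (n : ℕ) (y : ℝ) : |cU n (-y)| = |cU n y| := by
  unfold cU
  rw [Polynomial.Chebyshev.U_eval_neg, abs_mul]
  have : |(((n : ℤ).negOnePow : ℤ) : ℝ)| = 1 := by
    rcases Int.even_or_odd (n : ℤ) with h | h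
    · rw [Int.negOnePow_even _ h]; simp
    · rw [Int.negOnePow_odd _ h]; simp
  rw [this, one_mul]

lemma cU_bound {r : ℝ} (hr : 1 ≤ r) {y : ℝ} (hy : |y| ≤ (r + 1 / r) / 2) (n : ℕ) :
    |cU n y| ≤ (n + 1) * r ^ n := by
  have hr0 : 0 < r := by linarith
  rcases le_or_gt |y| 1 with h1 | h1
  · have hy2 : y ^ 2 ≤ 1 := by rw [← sq_abs]; nlinarith [abs_nonneg y]
    have hs : √(1 - y ^ 2) ^ 2 = 1 - y ^ 2 := Real.sq_sqrt (by linarith)
    refine cU_bound_aux (⟨y, √(1 - y ^ 2)⟩ : ℂ) (⟨y, -√(1 - y ^ 2)⟩ : ℂ) ?_ y ?_ r ?_ ?_ n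
    · apply Complex.ext
      · simp [Complex.mul_re]; nlinarith
      · simp [Complex.mul_im]; ring
    · apply Complex.ext
      · simp; ring
      · simp
    · rw [Complex.norm_def, Complex.normSq_mk]
      have : y * y + √(1 - y ^ 2) * √(1 - y ^ 2) = 1 := by nlinarith
      rw [this, Real.sqrt_one]; exact hr
    · rw [Complex.norm_def, Complex.normSq_mk]
      have : y * y + -√(1 - y ^ 2) * -√(1 - y ^ 2) = 1 := by nlinarith
      rw [this, Real.sqrt_one]; exact hr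
  · -- reduce to `1 < z := |y|`
    have hz : |cU n y| = |cU n (|y|)| := by
      rcases abs_choice y with h | h
      · rw [h]
      · rw [h, abs_cU_neg]
    rw [hz]
    set z := |y| with hzdef
    have hs : √(z ^ 2 - 1) ^ 2 = z ^ 2 - 1 := Real.sq_sqrt (by nlinarith)
    have hs0 := Real.sqrt_nonneg (z ^ 2 - 1)
    have hs1 : √(z ^ 2 - 1) ≤ (r - 1 / r) / 2 := by
      have h2 : 1 / r ≤ 1 := by rw [div_le_one hr0]; exact hr
      apply Real.sqrt_le_iff.mpr
      refine ⟨by linarith, ?_⟩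
      have h3 : z ^ 2 ≤ ((r + 1 / r) / 2) ^ 2 := by
        apply pow_le_pow_left₀ (by linarith) hy
      have h4 : ((r + 1 / r) / 2) ^ 2 - 1 = ((r - 1 / r) / 2) ^ 2 := by field_simp; ring
      linarith
    have hsz : √(z ^ 2 - 1) ≤ z := by
      apply Real.sqrt_le_iff.mpr
      exact ⟨by linarith, by linarith⟩
    refine cU_bound_aux ((z + √(z ^ 2 - 1) : ℝ) : ℂ) ((z - √(z ^ 2 - 1) : ℝ) : ℂ) ?_ z ?_ r
      ?_ ?_ n
    · rw [← Complex.ofReal_mul]
      have : (z + √(z ^ 2 - 1)) * (z - √(z ^ 2 - 1)) = 1 := by nlinarith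
      rw [this, Complex.ofReal_one]
    · push_cast; ring
    · rw [Complex.norm_real, Real.norm_eq_abs, abs_of_nonneg (by linarith)]
      linarith
    · rw [Complex.norm_real, Real.norm_eq_abs, abs_of_nonneg (by linarith)]
      linarith

/-- Even generating function. -/
lemma hasSum_gen {q r s y : ℝ} (hr : 1 ≤ r) (hq : 0 < q) (hqr : q * r < 1)
    (hy : |y| ≤ (r + 1 / r) / 2) (hs : 0 ≤ s) (hsq : s ≤ q) :
    Summable (fun n : ℕ => s ^ (2 * n) * cU (2 * n) y) ∧
    (∑' n : ℕ, s ^ (2 * n) * cU (2 * n) y) * (Dn s y * Dn s (-y)) = 1 + s ^ 2 := by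
  have hsum : Summable (fun n : ℕ => s ^ (2 * n) * cU (2 * n) y) := by
    have hz : ‖(q * r) ^ 2‖ < 1 := by
      rw [Real.norm_of_nonneg (by positivity)]
      have : 0 < q * r := by positivity
      nlinarith
    have h1 := (summable_pow_mul_geometric_of_norm_lt_one 1 hz).mul_left 2
    have h2 := summable_geometric_of_norm_lt_one hz
    refine Summable.of_norm_bounded (h1.add h2) (fun n => ?_)
    rw [norm_mul, Real.norm_eq_abs, Real.norm_eq_abs, abs_of_nonneg (by positivity)]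
    have hb := cU_bound hr hy (2 * n)
    push_cast at hb
    calc s ^ (2 * n) * |cU (2 * n) y| ≤ q ^ (2 * n) * ((2 * n + 1) * r ^ (2 * n)) := by gcongr
      _ = _ := by rw [pow_mul q, pow_mul r, mul_pow, mul_pow]; ring
  refine ⟨hsum, ?_⟩
  set S := ∑' n : ℕ, s ^ (2 * n) * cU (2 * n) y with hS
  have h1 := hsum.tsum_eq_zero_add
  have hsum1 := (summable_nat_add_iff 1).mpr hsum
  have hsum2 := (summable_nat_add_iff 2).mpr hsum
  have h2 := hsum1.tsum_eq_zero_add
  have h3 : ∀ n : ℕ, s ^ (2 * (n + 1 + 1)) * cU (2 * (n + 1 + 1)) y =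
      s ^ 2 * (4 * y ^ 2 - 2) * (s ^ (2 * (n + 1)) * cU (2 * (n + 1)) y)
        - s ^ 4 * (s ^ (2 * n) * cU (2 * n) y) := by
    intro n
    have e1 : 2 * (n + 1 + 1) = 2 * n + 4 := by ring
    have e2 : 2 * (n + 1) = 2 * n + 2 := by ring
    rw [e1, e2, cU_add_four]
    ring
  have h4 : ∑' n : ℕ, s ^ (2 * (n + 1 + 1)) * cU (2 * (n + 1 + 1)) y =
      s ^ 2 * (4 * y ^ 2 - 2) * (∑' n : ℕ, s ^ (2 * (n + 1)) * cU (2 * (n + 1)) y)
        - s ^ 4 * S := by
    rw [hS, ← tsum_mul_left, ← tsum_mul_left,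
      ← (hsum1.mul_left _).tsum_sub (hsum.mul_left _)]
    exact tsum_congr h3
  rw [h4] at h2
  simp only [mul_zero, pow_zero, cU_zero, mul_one, zero_add, cU_two] at h1 h2
  rw [← hS] at h1
  unfold Dn
  linear_combination h1 + h2 - s ^ 2 * (4 * y ^ 2 - 2) * h1


/-! ### Integral representation of the bump -/

/-- half-width of the neighbourhood of `[-1,1]` -/
def hw (q : ℝ) : ℝ := ((1 + 1 / q) / 2 + 1 / ((1 + 1 / q) / 2)) / 2

lemma one_lt_r {q : ℝ} (hq : 0 < q) (hq1 : q < 1) : 1 < (1 + 1 / q) / 2 := by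
  have : 1 < 1 / q := by rw [lt_div_iff₀ hq]; linarith
  linarith

lemma one_lt_hw {q : ℝ} (hq : 0 < q) (hq1 : q < 1) : 1 < hw q := by
  have hr := one_lt_r hq hq1
  unfold hw
  set r := (1 + 1 / q) / 2
  have hr0 : 0 < r := by linarith
  have h2 : 0 < (r - 1) ^ 2 / r := by have : 0 < r - 1 := by linarith
                                      positivity
  have h3 : (r + 1 / r) / 2 - 1 = (r - 1) ^ 2 / r / 2 := by field_simp; ring
  linarith

lemma q_mul_r {q : ℝ} (hq : 0 < q) : q * ((1 + 1 / q) / 2) = (q + 1) / 2 := by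
  field_simp

lemma mem_Jq {q y : ℝ} (hq : 0 < q) (hq1 : q < 1) (hy : |y| ≤ hw q) : y ∈ Jq q := by
  have hr := one_lt_r hq hq1
  have hqr := q_mul_r hq
  unfold hw at hy
  set r := (1 + 1 / q) / 2 with hrdef
  have hr0 : 0 < r := by linarith
  have hy' : y ≤ (r + 1 / r) / 2 := (le_abs_self y).trans hy
  show 2 * q * y < 1 + q ^ 2
  have h1 : 2 * q * y ≤ q * r + q / r := by
    calc 2 * q * y ≤ 2 * q * ((r + 1 / r) / 2) := by gcongr
      _ = _ := by field_simp
  have h2 : q * r + q / r < 1 + q ^ 2 := by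
    have h3 : 1 + q ^ 2 - (q * r + q / r) = (1 - q * r) * (r - q) / r := by field_simp; ring
    have h4 : 0 < (1 - q * r) * (r - q) / r := by
      apply div_pos (mul_pos _ _) hr0
      · linarith
      · linarith
    linarith
  linarith

lemma bump_eq {q y : ℝ} (hq : 0 < q) (hq1 : q < 1) (hy : |y| ≤ hw q) :
    bump q y = (G 0 q y + G 0 q (-y)) / (2 * q) := by
  have hJ : y ∈ Jq q := mem_Jq hq hq1 hy
  have hJ' : -y ∈ Jq q := mem_Jq hq hq1 (by rwa [abs_neg])
  have hr := one_lt_r hq hq1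
  have hqr := q_mul_r hq
  have hy0 : |y| ≤ ((1 + 1 / q) / 2 + 1 / ((1 + 1 / q) / 2)) / 2 := hy
  set r := (1 + 1 / q) / 2 with hrdef
  have hr0 : 0 < r := by linarith
  have hqr1 : q * r < 1 := by linarith
  have hz : ‖(q * r) ^ 2‖ < 1 := by
    rw [Real.norm_of_nonneg (by positivity)]
    have : 0 < q * r := by positivity
    nlinarith
  have h1 := (summable_pow_mul_geometric_of_norm_lt_one 1 hz).mul_left 2
  have h2 := summable_geometric_of_norm_lt_one hz
  have key := intervalIntegral.hasSum_integral_of_dominated_convergence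
    (μ := volume) (a := 0) (b := q) (F := fun (n : ℕ) t => t ^ (2 * n) * cU (2 * n) y)
    (f := fun t => (1 / Dn t y + 1 / Dn t (-y)) / 2)
    (fun (n : ℕ) _ => 2 * ((n : ℝ) ^ 1 * ((q * r) ^ 2) ^ n) + ((q * r) ^ 2) ^ n)
    (fun n => (by fun_prop : Continuous fun t : ℝ => t ^ (2 * n) * cU (2 * n) y).aestronglyMeasurable)
    ?_ (Filter.Eventually.of_forall fun t _ => h1.add h2) intervalIntegrable_const ?_
  · have e1 : ∀ n : ℕ, ∫ t in (0 : ℝ)..q, t ^ (2 * n) * cU (2 * n) y =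
        q * (q ^ (2 * n) / (2 * n + 1) * cU (2 * n) y) := by
      intro n
      rw [intervalIntegral.integral_mul_const, integral_pow]
      simp only [ne_eq, Nat.add_eq_zero_iff, one_ne_zero, and_false, not_false_eq_true,
        zero_pow, sub_zero]
      push_cast
      ring
    simp only [e1] at key
    have e2 : ∫ t in (0 : ℝ)..q, (1 / Dn t y + 1 / Dn t (-y)) / 2 =
        (G 0 q y + G 0 q (-y)) / 2 := by
      rw [intervalIntegral.integral_div, intervalIntegral.integral_add]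
      · simp [G]
      · simpa using intervalIntegrable_integrand 0 hq hq1 hJ
      · simpa using intervalIntegrable_integrand 0 hq hq1 hJ'
    rw [e2] at key
    have h3 := key.tsum_eq
    rw [tsum_mul_left] at h3
    unfold bump
    rw [eq_div_iff (by positivity)]
    linear_combination 2 * h3
  · intro n
    refine Filter.Eventually.of_forall fun t ht => ?_
    rw [uIoc_of_le hq.le] at ht
    have ht0 := ht.1.le
    have htq := ht.2
    rw [norm_mul, Real.norm_eq_abs, Real.norm_eq_abs, abs_of_nonneg (by positivity)]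
    have hb := cU_bound hr.le hy0 (2 * n)
    push_cast at hb
    calc t ^ (2 * n) * |cU (2 * n) y| ≤ q ^ (2 * n) * ((2 * n + 1) * r ^ (2 * n)) := by gcongr
      _ = _ := by rw [pow_mul q, pow_mul r, mul_pow, mul_pow]; ring
  · refine Filter.Eventually.of_forall fun t ht => ?_
    rw [uIoc_of_le hq.le] at ht
    obtain ⟨hs, he⟩ := hasSum_gen hr.le hq hqr1 hy0 ht.1.le ht.2
    have hD := Dn_pos hq hq1 ht.1.le ht.2 hJ
    have hD' := Dn_pos hq hq1 ht.1.le ht.2 hJ'
    have e3 : (1 / Dn t y + 1 / Dn t (-y)) / 2 = ∑' n : ℕ, t ^ (2 * n) * cU (2 * n) y := by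
      have e4 : Dn t y + Dn t (-y) = 2 * (1 + t ^ 2) := by unfold Dn; ring
      field_simp
      linear_combination e4 - 2 * he
    rw [e3]
    exact hs.hasSum

/-- The open neighbourhood of `[-1,1]` on which the representation holds. -/
def Nb (q : ℝ) : Set ℝ := {y | |y| < hw q}

lemma isOpen_Nb (q : ℝ) : IsOpen (Nb q) := isOpen_lt (by fun_prop) (by fun_prop)

lemma mem_Nb {q y : ℝ} (hq : 0 < q) (hq1 : q < 1) (hy : y ∈ I1) : y ∈ Nb q := by
  have h := one_lt_hw hq hq1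
  have h2 : |y| ≤ 1 := abs_le.mpr hy
  exact h2.trans_lt h

lemma Nb_Jq {q y : ℝ} (hq : 0 < q) (hq1 : q < 1) (hy : y ∈ Nb q) : y ∈ Jq q :=
  mem_Jq hq hq1 (le_of_lt hy)

lemma Nb_Jq' {q y : ℝ} (hq : 0 < q) (hq1 : q < 1) (hy : y ∈ Nb q) : -y ∈ Jq q :=
  mem_Jq hq hq1 (by rw [abs_neg]; exact le_of_lt hy)

lemma hasDerivAt_G_neg (k : ℕ) {q y : ℝ} (hq : 0 < q) (hq1 : q < 1) (hy : -y ∈ Jq q) :
    HasDerivAt (fun z => G k q (-z)) (-(2 * (k + 1) * G (k + 1) q (-y))) y := by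
  have := (hasDerivAt_G k hq hq1 hy).comp y (hasDerivAt_neg y)
  simpa [Function.comp_def] using this

lemma bump_eventuallyEq {q y : ℝ} (hq : 0 < q) (hq1 : q < 1) (hy : y ∈ Nb q) :
    bump q =ᶠ[𝓝 y] fun z => (G 0 q z + G 0 q (-z)) / (2 * q) := by
  filter_upwards [(isOpen_Nb q).mem_nhds hy] with z hz
  exact bump_eq hq hq1 (le_of_lt hz)

lemma deriv_bump {q y : ℝ} (hq : 0 < q) (hq1 : q < 1) (hy : y ∈ Nb q) :
    deriv (bump q) y = (G 1 q y - G 1 q (-y)) / q := by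
  rw [(bump_eventuallyEq hq hq1 hy).deriv_eq]
  have h := ((hasDerivAt_G 0 hq hq1 (Nb_Jq hq hq1 hy)).add
    (hasDerivAt_G_neg 0 hq hq1 (Nb_Jq' hq hq1 hy))).div_const (2 * q)
  rw [show (fun z => (G 0 q z + G 0 q (-z)) / (2 * q)) =
    (fun z => (G 0 q + fun z => G 0 q (-z)) z / (2 * q)) from rfl, h.deriv]
  push_cast
  field_simp
  ring

lemma deriv_deriv_bump {q y : ℝ} (hq : 0 < q) (hq1 : q < 1) (hy : y ∈ Nb q) :
    deriv (deriv (bump q)) y = 4 * (G 2 q y + G 2 q (-y)) / q := by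
  have he : deriv (bump q) =ᶠ[𝓝 y] fun z => (G 1 q z - G 1 q (-z)) / q := by
    filter_upwards [(isOpen_Nb q).mem_nhds hy] with z hz
    exact deriv_bump hq hq1 hz
  rw [he.deriv_eq]
  have h := ((hasDerivAt_G 1 hq hq1 (Nb_Jq hq hq1 hy)).sub
    (hasDerivAt_G_neg 1 hq hq1 (Nb_Jq' hq hq1 hy))).div_const q
  rw [show (fun z => (G 1 q z - G 1 q (-z)) / q) =
    (fun z => (G 1 q - fun z => G 1 q (-z)) z / q) from rfl, h.deriv]
  push_cast
  field_simp
  ring

lemma contDiffAt_bump {q y : ℝ} (hq : 0 < q) (hq1 : q < 1) (hy : y ∈ Nb q) :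
    ContDiffAt ℝ ∞ (bump q) y := by
  refine ContDiffAt.congr_of_eventuallyEq ?_ (bump_eventuallyEq hq hq1 hy)
  have h1 := contDiffAt_G 0 hq hq1 (Nb_Jq hq hq1 hy)
  have h2 := (contDiffAt_G 0 hq hq1 (Nb_Jq' hq hq1 hy)).comp y (contDiffAt_id.neg)
  exact (h1.add h2).div_const _

/-- The Laplace identity for the integrals. -/
lemma laplace_G {q y : ℝ} (hq : 0 < q) (hq1 : q < 1) (hy : y ∈ Jq q) :
    -(8 * (1 - y ^ 2)) * G 2 q y + 6 * y * G 1 q y + G 0 q y =
      q * (1 - q ^ 2) / Dn q y ^ 2 := by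
  have h0 := intervalIntegrable_integrand 0 hq hq1 hy
  have h1 := intervalIntegrable_integrand 1 hq hq1 hy
  have h2 := intervalIntegrable_integrand 2 hq hq1 hy
  have e : -(8 * (1 - y ^ 2)) * G 2 q y + 6 * y * G 1 q y + G 0 q y =
      ∫ s in (0 : ℝ)..q, (-(8 * (1 - y ^ 2)) * (s ^ 2 / Dn s y ^ (2 + 1))
        + 6 * y * (s ^ 1 / Dn s y ^ (1 + 1)) + s ^ 0 / Dn s y ^ (0 + 1)) := by
    rw [intervalIntegral.integral_add ((h2.const_mul _).add (h1.const_mul _)) h0,
      intervalIntegral.integral_add (h2.const_mul _) (h1.const_mul _),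
      intervalIntegral.integral_const_mul, intervalIntegral.integral_const_mul]
    rfl
  rw [e, intervalIntegral.integral_eq_sub_of_hasDerivAt
    (f := fun s => s * (1 - s ^ 2) / Dn s y ^ 2)]
  · simp
  · intro s hs
    rw [uIcc_of_le hq.le] at hs
    have hD := Dn_pos hq hq1 hs.1 hs.2 hy
    have hd : HasDerivAt (fun s => Dn s y) (2 * s - 2 * y) s := by
      unfold Dn
      have h3 : HasDerivAt (fun s : ℝ => 1 - 2 * s * y + s ^ 2) (-(2 * 1 * y) + (2 : ℕ) * s ^ 1 * 1) s :=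
        ((((hasDerivAt_id s).const_mul 2).mul_const y).const_sub 1).add ((hasDerivAt_id s).pow 2)
      refine h3.congr_deriv ?_
      push_cast; ring
    have hn : HasDerivAt (fun s : ℝ => s * (1 - s ^ 2)) (1 - 3 * s ^ 2) s := by
      have h3 : HasDerivAt (fun s : ℝ => s * (1 - s ^ 2)) (1 * (1 - s ^ 2) + s * (-((2 : ℕ) * s ^ 1 * 1))) s :=
        (hasDerivAt_id s).mul (((hasDerivAt_id s).pow 2).const_sub 1)
      refine h3.congr_deriv ?_
      push_cast; ring
    have h4 := hn.div (hd.pow 2) (pow_ne_zero 2 hD.ne')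
    refine h4.congr_deriv ?_
    simp only [Pi.pow_apply]
    have hD' := hD.ne'
    field_simp
    unfold Dn
    ring
  · exact ((h2.const_mul _).add (h1.const_mul _)).add h0


/-! ### Bounds -/

lemma Dn_sq (s y : ℝ) : Dn s y = (s - y) ^ 2 + (1 - y ^ 2) := by unfold Dn; ring

lemma one_sub_sq_nonneg {y : ℝ} (hy : y ∈ I1) : 0 ≤ 1 - y ^ 2 := by
  nlinarith [hy.1, hy.2]

lemma neg_mem_I1 {y : ℝ} (hy : y ∈ I1) : -y ∈ I1 := ⟨by linarith [hy.2], by linarith [hy.1]⟩

lemma one_sub_sq_le {s y : ℝ} (hs : 0 ≤ s) (hy : y ∈ I1) : (1 - s) ^ 2 ≤ Dn s y := by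
  unfold Dn; nlinarith [hy.2]

section

variable {q y : ℝ} (hq : 0 < q) (hq1 : q < 1) (hy : y ∈ I1)

include hq hq1 hy

lemma X_pos : 0 < √(Dn q y) :=
  Real.sqrt_pos.mpr (Dn_pos hq hq1 hq.le le_rfl (Nb_Jq hq hq1 (mem_Nb hq hq1 hy)))

lemma X_sq : √(Dn q y) ^ 2 = Dn q y :=
  Real.sq_sqrt (Dn_pos hq hq1 hq.le le_rfl (Nb_Jq hq hq1 (mem_Nb hq hq1 hy))).le

omit hq hq1 in
lemma abs_sub_le_X : |q - y| ≤ √(Dn q y) := by
  apply Real.abs_le_sqrt
  rw [Dn_sq]
  have := one_sub_sq_nonneg hy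
  linarith

lemma Dn_le {s : ℝ} (_ : 0 ≤ s) (hsq : s ≤ q) : Dn s y ≤ (√(Dn q y) + q - s) ^ 2 := by
  have hX := X_pos hq hq1 hy
  have hX2 := X_sq hq hq1 hy
  have h1 := (abs_le.mp (abs_sub_le_X (q := q) hy)).1
  set X := √(Dn q y)
  have h2 : Dn s y = X ^ 2 - 2 * (q - s) * (q - y) + (q - s) ^ 2 := by
    rw [hX2]; unfold Dn; ring
  have h3 : 0 ≤ (q - s) * (X + (q - y)) := mul_nonneg (by linarith) (by linarith)
  nlinarith

lemma le_Dn {s : ℝ} (hs : 0 ≤ s) (hsq : s ≤ q) : (√(Dn q y) + q - s) ^ 2 ≤ 9 * Dn s y := by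
  have hX := X_pos hq hq1 hy
  have hX2 := X_sq hq hq1 hy
  have h1 := (abs_le.mp (abs_sub_le_X (q := q) hy)).2
  set X := √(Dn q y)
  have h2 : Dn s y = X ^ 2 - 2 * (q - s) * (q - y) + (q - s) ^ 2 := by
    rw [hX2]; unfold Dn; ring
  have h3 : 0 ≤ (q - s) * (X - (q - y)) := mul_nonneg (by linarith) (by linarith)
  have hD1 : (X - (q - s)) ^ 2 ≤ Dn s y := by nlinarith
  have hD2 : (q - s) ^ 2 ≤ Dn s y := by
    refine le_trans ?_ (one_sub_sq_le hs hy)
    nlinarith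
  -- `X + h <= 3 sqrt D`
  have hD0 : 0 ≤ Dn s y := le_trans (sq_nonneg _) hD1
  have hD3 : X - (q - s) ≤ √(Dn s y) := Real.le_sqrt_of_sq_le hD1
  have hD4 : q - s ≤ √(Dn s y) := Real.le_sqrt_of_sq_le hD2
  have hD5 : √(Dn s y) ^ 2 = Dn s y := Real.sq_sqrt hD0
  have h5 : X + q - s ≤ 3 * √(Dn s y) := by linarith
  have h6 : 0 ≤ X + q - s := by linarith
  calc (X + q - s) ^ 2 ≤ (3 * √(Dn s y)) ^ 2 := pow_le_pow_left₀ h6 h5 2
    _ = 9 * Dn s y := by rw [mul_pow, hD5]; norm_num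

lemma G_nonneg (k : ℕ) : 0 ≤ G k q y := by
  apply intervalIntegral.integral_nonneg hq.le
  intro s hs
  have := Dn_pos hq hq1 hs.1 hs.2 (Nb_Jq hq hq1 (mem_Nb hq hq1 hy))
  have := hs.1
  positivity

end

lemma integral_inv_sq {X q : ℝ} (hX : 0 < X) (hq : 0 < q) :
    IntervalIntegrable (fun s : ℝ => 1 / (X + q - s) ^ 2) volume 0 q ∧
    ∫ s in (0 : ℝ)..q, 1 / (X + q - s) ^ 2 = q / (X * (X + q)) := by
  have hne : ∀ s ∈ uIcc 0 q, X + q - s ≠ 0 := by
    intro s hs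
    rw [uIcc_of_le hq.le] at hs
    have := hs.2
    have : 0 < X + q - s := by linarith
    exact this.ne'
  have hi : IntervalIntegrable (fun s : ℝ => 1 / (X + q - s) ^ 2) volume 0 q := by
    apply ContinuousOn.intervalIntegrable
    exact continuousOn_const.div (by fun_prop) (fun s hs => pow_ne_zero 2 (hne s hs))
  refine ⟨hi, ?_⟩
  rw [intervalIntegral.integral_eq_sub_of_hasDerivAt (f := fun s => 1 / (X + q - s)) ?_ hi]
  · have h1 : X + q ≠ 0 := by positivity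
    rw [add_sub_cancel_right, sub_zero]
    field_simp
    ring
  · intro s hs
    have h := hne s hs
    have h1 : HasDerivAt (fun s : ℝ => X + q - s) (-1) s := by
      simpa using (hasDerivAt_id s).const_sub (X + q)
    have h2 := h1.inv h
    simp only [one_div]
    refine h2.congr_deriv ?_
    field_simp

lemma integral_inv_four {X q : ℝ} (hX : 0 < X) (hq : 0 < q) :
    IntervalIntegrable (fun s : ℝ => 1 / (X + q - s) ^ 4) volume 0 q ∧
    ∫ s in (0 : ℝ)..q, 1 / (X + q - s) ^ 4 ≤ 1 / (3 * X ^ 3) := by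
  have hne : ∀ s ∈ uIcc 0 q, X + q - s ≠ 0 := by
    intro s hs
    rw [uIcc_of_le hq.le] at hs
    have := hs.2
    have : 0 < X + q - s := by linarith
    exact this.ne'
  have hi : IntervalIntegrable (fun s : ℝ => 1 / (X + q - s) ^ 4) volume 0 q := by
    apply ContinuousOn.intervalIntegrable
    exact continuousOn_const.div (by fun_prop) (fun s hs => pow_ne_zero 4 (hne s hs))
  refine ⟨hi, ?_⟩
  rw [intervalIntegral.integral_eq_sub_of_hasDerivAt
    (f := fun s => (1 / 3) * ((X + q - s) ^ 3)⁻¹) ?_ hi]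
  · have : 0 ≤ 1 / 3 * ((X + q - 0) ^ 3)⁻¹ := by
      have : 0 < X + q - 0 := by linarith
      positivity
    have e : 1 / 3 * ((X + q - q) ^ 3)⁻¹ = 1 / (3 * X ^ 3) := by
      rw [add_sub_cancel_right]; field_simp
    linarith
  · intro s hs
    have h := hne s hs
    have h1 : HasDerivAt (fun s : ℝ => X + q - s) (-1) s := by
      simpa using (hasDerivAt_id s).const_sub (X + q)
    have h2 := ((h1.pow 3).inv (pow_ne_zero 3 h)).const_mul (1 / 3)
    refine (h2.congr_deriv ?_).congr_of_eventuallyEq ?_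
    · simp only [Pi.pow_apply]
      push_cast
      field_simp
    · exact Filter.Eventually.of_forall fun z => by simp

section

variable {q y : ℝ} (hq : 0 < q) (hq1 : q < 1) (hy : y ∈ I1)

include hq hq1 hy

lemma le_G_zero : q / (√(Dn q y) * (√(Dn q y) + q)) ≤ G 0 q y := by
  have hX := X_pos hq hq1 hy
  obtain ⟨hi, he⟩ := integral_inv_sq hX hq
  rw [← he]
  have hJ := Nb_Jq hq hq1 (mem_Nb hq hq1 hy)
  unfold G
  apply intervalIntegral.integral_mono_on hq.le hi (intervalIntegrable_integrand 0 hq hq1 hJ)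
  intro s hs
  have hD := Dn_pos hq hq1 hs.1 hs.2 hJ
  simp only [pow_zero, zero_add, pow_one]
  exact one_div_le_one_div_of_le hD (Dn_le hq hq1 hy hs.1 hs.2)

lemma G_zero_le : G 0 q y ≤ 9 * (q / (√(Dn q y) * (√(Dn q y) + q))) := by
  have hX := X_pos hq hq1 hy
  obtain ⟨hi, he⟩ := integral_inv_sq hX hq
  rw [← he, ← intervalIntegral.integral_const_mul]
  have hJ := Nb_Jq hq hq1 (mem_Nb hq hq1 hy)
  unfold G
  apply intervalIntegral.integral_mono_on hq.le (intervalIntegrable_integrand 0 hq hq1 hJ)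
    (hi.const_mul 9)
  intro s hs
  have hD := Dn_pos hq hq1 hs.1 hs.2 hJ
  have h1 := le_Dn hq hq1 hy hs.1 hs.2
  have h2 : 0 < √(Dn q y) + q - s := by linarith [hs.2]
  simp only [pow_zero, zero_add, pow_one]
  rw [div_le_iff₀ hD]
  have h3 : 9 * (1 / (√(Dn q y) + q - s) ^ 2) * Dn s y =
      (9 * Dn s y) / (√(Dn q y) + q - s) ^ 2 := by ring
  rw [h3, le_div_iff₀ (by positivity)]
  linarith

lemma G_one_le : G 1 q y ≤ 27 * q / √(Dn q y) ^ 3 := by
  have hX := X_pos hq hq1 hy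
  obtain ⟨hi, he⟩ := integral_inv_four hX hq
  have hJ := Nb_Jq hq hq1 (mem_Nb hq hq1 hy)
  have h0 : G 1 q y ≤ ∫ s in (0 : ℝ)..q, 81 * q * (1 / (√(Dn q y) + q - s) ^ 4) := by
    unfold G
    apply intervalIntegral.integral_mono_on hq.le (intervalIntegrable_integrand 1 hq hq1 hJ)
      (hi.const_mul _)
    intro s hs
    have hD := Dn_pos hq hq1 hs.1 hs.2 hJ
    have h1 := le_Dn hq hq1 hy hs.1 hs.2
    have h2 : 0 < √(Dn q y) + q - s := by linarith [hs.2]
    simp only [pow_one, one_add_one_eq_two]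
    rw [div_le_iff₀ (by positivity)]
    have h3 : 81 * q * (1 / (√(Dn q y) + q - s) ^ 4) * Dn s y ^ 2 =
        q * (9 * Dn s y) ^ 2 / (√(Dn q y) + q - s) ^ 4 := by ring
    rw [h3, le_div_iff₀ (by positivity)]
    have h4 : ((√(Dn q y) + q - s) ^ 2) ^ 2 ≤ (9 * Dn s y) ^ 2 :=
      pow_le_pow_left₀ (by positivity) h1 2
    calc s * (√(Dn q y) + q - s) ^ 4 = s * ((√(Dn q y) + q - s) ^ 2) ^ 2 := by ring
      _ ≤ q * (9 * Dn s y) ^ 2 := by
        apply mul_le_mul hs.2 h4 (by positivity) hq.le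
  refine h0.trans ?_
  rw [intervalIntegral.integral_const_mul]
  calc 81 * q * ∫ s in (0 : ℝ)..q, 1 / (√(Dn q y) + q - s) ^ 4
      ≤ 81 * q * (1 / (3 * √(Dn q y) ^ 3)) := by gcongr
    _ = _ := by field_simp; norm_num

lemma G_zero_le' : G 0 q y ≤ q / (1 - q) := by
  have hX : 0 < 1 - q := by linarith
  obtain ⟨hi, he⟩ := integral_inv_sq hX hq
  have hJ := Nb_Jq hq hq1 (mem_Nb hq hq1 hy)
  have e : q / (1 - q) = q / ((1 - q) * (1 - q + q)) := by rw [sub_add_cancel, mul_one]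
  rw [e, ← he]
  unfold G
  apply intervalIntegral.integral_mono_on hq.le (intervalIntegrable_integrand 0 hq hq1 hJ) hi
  intro s hs
  have h1 := one_sub_sq_le hs.1 hy
  have h2 : 0 < 1 - s := by linarith [hs.2]
  simp only [pow_zero, zero_add, pow_one]
  have e2 : 1 - q + q - s = 1 - s := by ring
  rw [e2]
  exact one_div_le_one_div_of_le (by positivity) h1

lemma G_zero_mul_le : G 0 q y * √(1 - y ^ 2) ≤ Real.pi := by
  rcases (one_sub_sq_nonneg hy).eq_or_lt with h0 | h0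
  · rw [← h0, Real.sqrt_zero, mul_zero]; exact Real.pi_pos.le
  · have hw : 0 < √(1 - y ^ 2) := Real.sqrt_pos.mpr h0
    have hw2 : √(1 - y ^ 2) ^ 2 = 1 - y ^ 2 := Real.sq_sqrt h0.le
    set w := √(1 - y ^ 2)
    have hJ := Nb_Jq hq hq1 (mem_Nb hq hq1 hy)
    have hi := (intervalIntegrable_integrand 0 hq hq1 hJ).mul_const w
    have e : G 0 q y * w = Real.arctan ((q - y) / w) - Real.arctan ((0 - y) / w) := by
      unfold G
      rw [← intervalIntegral.integral_mul_const]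
      rw [intervalIntegral.integral_eq_sub_of_hasDerivAt
        (f := fun s => Real.arctan ((s - y) / w)) ?_ hi]
      intro s hs
      rw [uIcc_of_le hq.le] at hs
      have hD := Dn_pos hq hq1 hs.1 hs.2 hJ
      have h1 : HasDerivAt (fun s : ℝ => (s - y) / w) (1 / w) s :=
        ((hasDerivAt_id s).sub_const y).div_const w
      refine h1.arctan.congr_deriv ?_
      simp only [pow_zero, zero_add, pow_one]
      rw [Dn_sq, ← hw2]
      have : (0 : ℝ) < (s - y) ^ 2 + w ^ 2 := by positivity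
      field_simp
      ring
    rw [e]
    have h1 := Real.arctan_lt_pi_div_two ((q - y) / w)
    have h2 := Real.neg_pi_div_two_lt_arctan ((0 - y) / w)
    linarith

end


end BumpAux

open BumpAux in
theorem bump_bounds (q : ℝ) (hq : 4 / 5 ≤ q) (hq' : q < 1) (y : ℝ) (hy : y ∈ I1) :
    0 ≤ bump q y ∧ (1 - q) * bump q y ≤ 1 ∧
    1 / (6 * √((1 - q) ^ 2 + 2 * (1 - y ^ 2))) ≤ bump q y ∧
    bump q y * √(1 - y ^ 2) ≤ 4 ∧
    bump q y ≤ 6 * (1 / √(1 + q ^ 2 - 2 * q * y) + 1 / √(1 + q ^ 2 + 2 * q * y)) := by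
  have hq0 : 0 < q := by linarith
  have hy' := neg_mem_I1 hy
  have he := bump_eq hq0 hq' (le_of_lt (mem_Nb hq0 hq' hy))
  have hG := G_nonneg hq0 hq' hy 0
  have hG' := G_nonneg hq0 hq' hy' 0
  have eD : 1 + q ^ 2 - 2 * q * y = Dn q y := by unfold Dn; ring
  have eD' : 1 + q ^ 2 + 2 * q * y = Dn q (-y) := by unfold Dn; ring
  refine ⟨?_, ?_, ?_, ?_, ?_⟩
  · rw [he]; positivity
  · have h1 := G_zero_le' hq0 hq' hy
    have h2 := G_zero_le' hq0 hq' hy'
    have h3 : 0 < 1 - q := by linarith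
    rw [le_div_iff₀ h3] at h1 h2
    rw [he, mul_div_assoc', div_le_one (by positivity)]
    linarith
  · -- it suffices to treat the case of the larger of the two integrals
    have key : ∀ z : ℝ, z ∈ I1 → 0 ≤ z →
        1 / (6 * √((1 - q) ^ 2 + 2 * (1 - z ^ 2))) ≤ G 0 q z / (2 * q) := by
      intro z hz hz0
      have hX := X_pos hq0 hq' hz
      have hX2 := X_sq hq0 hq' hz
      have h1 := le_G_zero hq0 hq' hz
      set X := √(Dn q z) with hXdef
      have hXE : X ≤ √((1 - q) ^ 2 + 2 * (1 - z ^ 2)) := by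
        apply Real.sqrt_le_sqrt
        unfold Dn
        nlinarith [hz.2, mul_nonneg hz0 (by linarith [hz.2] : (0:ℝ) ≤ 1 - z)]
      have hX3 : X + q ≤ 3 := by
        have : X ^ 2 ≤ 2 := by
          rw [hX2]; unfold Dn; nlinarith
        nlinarith
      set E := √((1 - q) ^ 2 + 2 * (1 - z ^ 2))
      calc 1 / (6 * E) ≤ 1 / (2 * (X * (X + q))) := by
            apply one_div_le_one_div_of_le (by positivity)
            nlinarith
        _ = q / (X * (X + q)) / (2 * q) := by field_simp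
        _ ≤ G 0 q z / (2 * q) := by gcongr
    rw [he, add_div]
    have p1 : 0 ≤ G 0 q y / (2 * q) := by positivity
    have p2 : 0 ≤ G 0 q (-y) / (2 * q) := by positivity
    rcases le_total 0 y with h | h
    · have := key y hy h
      linarith
    · have := key (-y) hy' (by linarith)
      rw [neg_sq] at this
      linarith
  · have h1 := G_zero_mul_le hq0 hq' hy
    have h2 := G_zero_mul_le hq0 hq' hy'
    rw [neg_sq] at h2
    have hpi := Real.pi_lt_d2
    rw [he, div_mul_eq_mul_div, div_le_iff₀ (by positivity)]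
    nlinarith
  · rw [eD, eD']
    have key : ∀ z : ℝ, z ∈ I1 → G 0 q z / (2 * q) ≤ 6 * (1 / √(Dn q z)) := by
      intro z hz
      have hX := X_pos hq0 hq' hz
      have h1 := G_zero_le hq0 hq' hz
      set X := √(Dn q z) with hXdef
      calc G 0 q z / (2 * q) ≤ 9 * (q / (X * (X + q))) / (2 * q) := by gcongr
        _ = (9 / 2) / (X + q) * (1 / X) := by field_simp
        _ ≤ 6 * (1 / X) := by
          gcongr
          rw [div_le_iff₀ (by positivity)]
          linarith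
    rw [he, add_div, mul_add]
    exact add_le_add (key y hy) (key (-y) hy')

open BumpAux in
theorem bump_deriv (q : ℝ) (hq : 4 / 5 ≤ q) (hq' : q < 1) (y : ℝ) (hy : y ∈ I1) :
    ContDiffAt ℝ ∞ (bump q) y ∧
    -((1 - y ^ 2) * deriv (deriv (bump q)) y - 3 * y * deriv (bump q) y) + bump q y =
      (1 - q ^ 2) / 2 * (1 / (1 + q ^ 2 - 2 * q * y) ^ 2 + 1 / (1 + q ^ 2 + 2 * q * y) ^ 2) ∧
    (1 - y ^ 2) * deriv (bump q) y ^ 2 ≤
      2000 * (1 / (1 + q ^ 2 - 2 * q * y) ^ 2 + 1 / (1 + q ^ 2 + 2 * q * y) ^ 2) := by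
  have hq0 : 0 < q := by linarith
  have hy' := neg_mem_I1 hy
  have hN := mem_Nb hq0 hq' hy
  have hJ := Nb_Jq hq0 hq' hN
  have hJ' := Nb_Jq' hq0 hq' hN
  have he := bump_eq hq0 hq' (le_of_lt hN)
  have he1 := deriv_bump hq0 hq' hN
  have he2 := deriv_deriv_bump hq0 hq' hN
  have eD : 1 + q ^ 2 - 2 * q * y = Dn q y := by unfold Dn; ring
  have eD' : 1 + q ^ 2 + 2 * q * y = Dn q (-y) := by unfold Dn; ring
  have hD := Dn_pos hq0 hq' hq0.le le_rfl hJ
  have hD' := Dn_pos hq0 hq' hq0.le le_rfl hJ'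
  rw [eD, eD']
  refine ⟨contDiffAt_bump hq0 hq' hN, ?_, ?_⟩
  · have h1 := laplace_G hq0 hq' hJ
    have h2 := laplace_G hq0 hq' hJ'
    rw [neg_sq] at h2
    rw [he, he1, he2]
    have e : (1 - q ^ 2) / 2 * (1 / Dn q y ^ 2 + 1 / Dn q (-y) ^ 2) =
        (q * (1 - q ^ 2) / Dn q y ^ 2 + q * (1 - q ^ 2) / Dn q (-y) ^ 2) / (2 * q) := by
      field_simp
    rw [e, ← h1, ← h2]
    field_simp
    ring
  · have hX := X_pos hq0 hq' hy
    have hX' := X_pos hq0 hq' hy'
    have hX2 := X_sq hq0 hq' hy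
    have hX2' := X_sq hq0 hq' hy'
    have g1 := G_one_le hq0 hq' hy
    have g1' := G_one_le hq0 hq' hy'
    have g0 := G_nonneg hq0 hq' hy 1
    have g0' := G_nonneg hq0 hq' hy' 1
    have s0 := one_sub_sq_nonneg hy
    have sX : 1 - y ^ 2 ≤ √(Dn q y) ^ 2 := by
      rw [hX2, Dn_sq]; nlinarith [sq_nonneg (q - y)]
    have sX' : 1 - y ^ 2 ≤ √(Dn q (-y)) ^ 2 := by
      rw [hX2', Dn_sq]; nlinarith [sq_nonneg (q - -y)]
    rw [he1, ← hX2, ← hX2']
    set X := √(Dn q y)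
    set X' := √(Dn q (-y))
    have b1 : G 1 q y / q ≤ 27 / X ^ 3 := by
      rw [div_le_iff₀ hq0]
      calc G 1 q y ≤ 27 * q / X ^ 3 := g1
        _ = 27 / X ^ 3 * q := by ring
    have b1' : G 1 q (-y) / q ≤ 27 / X' ^ 3 := by
      rw [div_le_iff₀ hq0]
      calc G 1 q (-y) ≤ 27 * q / X' ^ 3 := g1'
        _ = 27 / X' ^ 3 * q := by ring
    have c1 : 0 ≤ G 1 q y / q := by positivity
    have c1' : 0 ≤ G 1 q (-y) / q := by positivity
    rw [sub_div]
    set u := G 1 q y / q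
    set u' := G 1 q (-y) / q
    have d1 : (1 - y ^ 2) * u ^ 2 ≤ 729 * (1 / (X ^ 2) ^ 2) := by
      calc (1 - y ^ 2) * u ^ 2 ≤ X ^ 2 * (27 / X ^ 3) ^ 2 := by gcongr
        _ = _ := by field_simp; norm_num
    have d1' : (1 - y ^ 2) * u' ^ 2 ≤ 729 * (1 / (X' ^ 2) ^ 2) := by
      calc (1 - y ^ 2) * u' ^ 2 ≤ X' ^ 2 * (27 / X' ^ 3) ^ 2 := by gcongr
        _ = _ := by field_simp; norm_num
    have d2 : (1 - y ^ 2) * (u - u') ^ 2 ≤ (1 - y ^ 2) * u ^ 2 + (1 - y ^ 2) * u' ^ 2 := by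
      have : 0 ≤ (1 - y ^ 2) * (2 * (u * u')) := by positivity
      nlinarith
    have p1 : 0 < 1 / (X ^ 2) ^ 2 := by positivity
    have p2 : 0 < 1 / (X' ^ 2) ^ 2 := by positivity
    linarith

end Pool.Agent.MP_ae1fc5_gt
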