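import Pool.Agent.MP_ae1fc5_gt.Defs2

/-!
# MP_ae1fc5_gt, module D3: size of the coefficients
-/

open scoped Quaternion ContDiff Matrix
open Set

noncomputable section

namespace Pool.Agent.MP_ae1fc5_gt

namespace Coef

/-- `U_n ((z+w)/2) = sum_k z^(n-k) w^k` if `z w = 1`. -/
theorem U_sum (z w : ℂ) (h : z * w = 1) (y : ℝ) (hy : z + w = 2 * (y : ℂ)) (n : ℕ) :
    ((cU n y : ℝ) : ℂ) = ∑ k ∈ Finset.range (n + 1), z ^ (n - k) * w ^ k := by
  have h0 : ((cU 0 y : ℝ) : ℂ) = ∑ k ∈ Finset.range (0 + 1), z ^ (0 - k) * w ^ k := by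
    simp [cU]
  have h1 : ((cU 1 y : ℝ) : ℂ) = ∑ k ∈ Finset.range (1 + 1), z ^ (1 - k) * w ^ k := by
    simp [cU, Finset.sum_range_succ, hy]
  have key : ∀ n : ℕ, ((cU n y : ℝ) : ℂ) = ∑ k ∈ Finset.range (n + 1), z ^ (n - k) * w ^ k ∧
      ((cU (n + 1) y : ℝ) : ℂ) = ∑ k ∈ Finset.range (n + 1 + 1), z ^ (n + 1 - k) * w ^ k := by
    intro n
    induction n with
    | zero => exact ⟨h0, by simpa using h1⟩
    | succ n ih =>
      refine ⟨ih.2, ?_⟩
      have hrec : cU (n + 1 + 1) y = 2 * y * cU (n + 1) y - cU n y := by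
        have := Polynomial.Chebyshev.U_add_two ℝ (n : ℤ)
        unfold cU
        have h2 : ((n + 1 + 1 : ℕ) : ℤ) = (n : ℤ) + 2 := by push_cast; ring
        have h3 : ((n + 1 : ℕ) : ℤ) = (n : ℤ) + 1 := by push_cast; ring
        rw [h2, h3, this]
        simp
      have e1 : ∑ k ∈ Finset.range (n + 1 + 1 + 1), z ^ (n + 1 + 1 - k) * w ^ k =
          z * (∑ k ∈ Finset.range (n + 1 + 1), z ^ (n + 1 - k) * w ^ k) + w ^ (n + 1 + 1) := by
        rw [Finset.sum_range_succ, Finset.mul_sum]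
        congr 1
        · apply Finset.sum_congr rfl
          intro k hk
          have : k ≤ n + 1 := by simpa [Nat.lt_succ_iff] using hk
          have e : n + 1 + 1 - k = (n + 1 - k) + 1 := by omega
          rw [e, pow_succ]; ring
        · simp
      have e2 : ∑ k ∈ Finset.range (n + 1 + 1), z ^ (n + 1 - k) * w ^ k =
          z * (∑ k ∈ Finset.range (n + 1), z ^ (n - k) * w ^ k) + w ^ (n + 1) := by
        rw [Finset.sum_range_succ, Finset.mul_sum]
        congr 1
        · apply Finset.sum_congr rfl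
          intro k hk
          have : k ≤ n := by simpa [Nat.lt_succ_iff] using hk
          have e : n + 1 - k = (n - k) + 1 := by omega
          rw [e, pow_succ]; ring
        · simp
      rw [hrec, e1]
      push_cast
      rw [ih.1, ih.2, ← hy, e2]
      have h5 : w * z = 1 := by rw [mul_comm]; exact h
      linear_combination (∑ k ∈ Finset.range (n + 1), z ^ (n - k) * w ^ k) * h5
  exact (key n).1

theorem exists_zw (r y : ℝ) (hr : 1 ≤ r) (hy : |y| ≤ (r + r⁻¹) / 2) :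
    ∃ z w : ℂ, z * w = 1 ∧ z + w = 2 * (y : ℂ) ∧ ‖z‖ ≤ r ∧ ‖w‖ ≤ r := by
  have hr0 : 0 < r := by linarith
  by_cases h : |y| ≤ 1
  · have h1 : 0 ≤ 1 - y ^ 2 := by
      have := abs_le.mp h
      nlinarith
    have hs := Real.sq_sqrt h1
    refine ⟨⟨y, √(1 - y ^ 2)⟩, ⟨y, -√(1 - y ^ 2)⟩, ?_, ?_, ?_, ?_⟩
    · apply Complex.ext <;> simp
      · nlinarith
      · ring
    · apply Complex.ext <;> simp
      ring
    · have : ‖(⟨y, √(1 - y ^ 2)⟩ : ℂ)‖ = 1 := by
        rw [Complex.norm_def, Complex.normSq_mk, Real.sqrt_eq_one]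
        nlinarith
      rw [this]; exact hr
    · have : ‖(⟨y, -√(1 - y ^ 2)⟩ : ℂ)‖ = 1 := by
        rw [Complex.norm_def, Complex.normSq_mk, Real.sqrt_eq_one]
        nlinarith
      rw [this]; exact hr
  · push Not at h
    have h1 : 0 ≤ y ^ 2 - 1 := by
      have : 1 < |y| ^ 2 := by nlinarith
      rw [sq_abs] at this
      linarith
    have hs := Real.sq_sqrt h1
    have hs0 := Real.sqrt_nonneg (y ^ 2 - 1)
    set s := √(y ^ 2 - 1) with hsdef
    -- |y| + s ≤ r
    have hinv : 0 < r⁻¹ := inv_pos.mpr hr0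
    have hinv1 : r * r⁻¹ = 1 := mul_inv_cancel₀ hr0.ne'
    have hinv2 : r⁻¹ ≤ 1 := inv_le_one_of_one_le₀ hr
    have hsr : s ≤ (r - r⁻¹) / 2 := by
      have h2 : s ^ 2 ≤ ((r - r⁻¹) / 2) ^ 2 := by
        rw [hs]
        have h3 : y ^ 2 ≤ ((r + r⁻¹) / 2) ^ 2 := by
          rw [← sq_abs]
          exact pow_le_pow_left₀ (abs_nonneg y) hy 2
        nlinarith
      exact le_of_sq_le_sq h2 (by linarith)
    have hsum : |y| + s ≤ r := by linarith
    refine ⟨((y + s : ℝ) : ℂ), ((y - s : ℝ) : ℂ), ?_, ?_, ?_, ?_⟩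
    · rw [← Complex.ofReal_mul]
      have : (y + s) * (y - s) = 1 := by nlinarith
      rw [this]; simp
    · push_cast; ring
    · rw [Complex.norm_real, Real.norm_eq_abs]
      calc |y + s| ≤ |y| + |s| := abs_add_le _ _
        _ = |y| + s := by rw [abs_of_nonneg hs0]
        _ ≤ r := hsum
    · rw [Complex.norm_real, Real.norm_eq_abs]
      calc |y - s| ≤ |y| + |s| := abs_sub _ _
        _ = |y| + s := by rw [abs_of_nonneg hs0]
        _ ≤ r := hsum

theorem abs_cU_le (r y : ℝ) (hr : 1 ≤ r) (hy : |y| ≤ (r + r⁻¹) / 2) (n : ℕ) :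
    |cU n y| ≤ (n + 1) * r ^ n := by
  obtain ⟨z, w, h1, h2, h3, h4⟩ := exists_zw r y hr hy
  have e := U_sum z w h1 y h2 n
  have : |cU n y| = ‖((cU n y : ℝ) : ℂ)‖ := by rw [Complex.norm_real, Real.norm_eq_abs]
  rw [this, e]
  calc ‖∑ k ∈ Finset.range (n + 1), z ^ (n - k) * w ^ k‖
      ≤ ∑ k ∈ Finset.range (n + 1), ‖z ^ (n - k) * w ^ k‖ := norm_sum_le _ _
    _ ≤ ∑ k ∈ Finset.range (n + 1), r ^ n := by
        apply Finset.sum_le_sum
        intro k hk
        have hk' : k ≤ n := by simpa [Nat.lt_succ_iff] using hk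
        rw [norm_mul, norm_pow, norm_pow]
        calc ‖z‖ ^ (n - k) * ‖w‖ ^ k ≤ r ^ (n - k) * r ^ k := by gcongr
          _ = r ^ n := by rw [← pow_add]; congr 1; omega
    _ = (n + 1) * r ^ n := by simp

/-- Summability of the bump series near `[-1,1]`. -/
theorem summable_bump (q : ℝ) (hq : 0 < q) (hq' : q < 1) :
    ∃ δ > 0, ∀ y ∈ Ioo (-1 - δ) (1 + δ),
      Summable (fun n : ℕ => q ^ (2 * n) / (2 * n + 1) * cU (2 * n) y) := by
  set r := (√q)⁻¹ with hr
  have hs0 : 0 < √q := Real.sqrt_pos.mpr hq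
  have hs1 : √q < 1 := by rw [Real.sqrt_lt' one_pos]; simpa using hq'
  have hr1 : 1 < r := (one_lt_inv₀ hs0).mpr hs1
  have hr0 : 0 < r := by linarith
  have hinv1 : r * r⁻¹ = 1 := mul_inv_cancel₀ hr0.ne'
  have hr2 : q * r ^ 2 = 1 := by
    rw [hr, inv_pow, Real.sq_sqrt hq.le, mul_inv_cancel₀ hq.ne']
  refine ⟨(r + r⁻¹) / 2 - 1, ?_, ?_⟩
  · have : 0 < (r - 1) ^ 2 * r⁻¹ := by
      have : 0 < r - 1 := by linarith
      positivity
    nlinarith
  · intro y hy
    have hy' : |y| ≤ (r + r⁻¹) / 2 := by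
      rw [abs_le]
      constructor <;> [linarith [hy.1]; linarith [hy.2]]
    have hb : ∀ n : ℕ, |cU (2 * n) y| ≤ (2 * n + 1) * r ^ (2 * n) := by
      intro n
      have := abs_cU_le r y hr1.le hy' (2 * n)
      push_cast at this
      exact this
    apply Summable.of_norm_bounded (g := fun n : ℕ => q ^ n) (summable_geometric_of_lt_one hq.le hq')
    intro n
    rw [Real.norm_eq_abs, abs_mul, abs_of_nonneg (by positivity : 0 ≤ q ^ (2 * n) / (2 * (n : ℝ) + 1))]
    calc q ^ (2 * n) / (2 * (n : ℝ) + 1) * |cU (2 * n) y|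
        ≤ q ^ (2 * n) / (2 * (n : ℝ) + 1) * ((2 * n + 1) * r ^ (2 * n)) := by
          gcongr
          exact hb n
      _ = q ^ (2 * n) * r ^ (2 * n) := by
          field_simp
      _ = q ^ n := by
          have : q ^ (2 * n) * r ^ (2 * n) = q ^ n * (q * r ^ 2) ^ n := by
            rw [mul_pow, ← pow_mul, two_mul, pow_add]; ring
          rw [this, hr2]; simp

/-- Telescoping bound. -/
theorem sum_inv_sq (K : ℕ) : ∑ n ∈ Finset.range K, 1 / (2 * (n : ℝ) + 1) ^ 2 ≤
    2 - (3 / 2) / (2 * (K : ℝ) + 1) := by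
  induction K with
  | zero => norm_num
  | succ K ih =>
    rw [Finset.sum_range_succ]
    push_cast
    have h : 1 / (2 * (K : ℝ) + 1) ^ 2 ≤
        (3 / 2) / (2 * (K : ℝ) + 1) - (3 / 2) / (2 * ((K : ℝ) + 1) + 1) := by
      have hK : (0 : ℝ) ≤ K := Nat.cast_nonneg K
      rw [div_sub_div _ _ (by positivity) (by positivity), div_le_div_iff₀ (by positivity) (by positivity)]
      nlinarith [mul_nonneg hK hK, mul_nonneg (mul_nonneg hK hK) hK]
    linarith

theorem sum_geom_le (q : ℝ) (hq : 0 ≤ q) (hq' : q < 1) (K : ℕ) :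
    ∑ n ∈ Finset.range K, q ^ n ≤ 1 / (1 - q) := by
  rw [one_div, ← tsum_geometric_of_lt_one hq hq']
  exact (summable_geometric_of_lt_one hq hq').sum_le_tsum _ (fun n _ => by positivity)

end Coef

open Coef in
theorem coef_small (ε : ℝ) (hε : 0 < ε) (hε' : ε < 1) (W : ℝ) (hW : 1 ≤ W) :
    ∃ a₀ > 0, ∀ a, 0 < a → a < a₀ → ∀ c, 1 ≤ c → c ≤ 1 + √a →
      (∃ R, 1 < R ∧ ∀ K, ∑ n ∈ Finset.range K, (2 * n + 1 + W) * R ^ n * |coefA c ε a n| ≤ 10 * ε) ∧
      ∃ δ > 0, ∀ y ∈ Ioo (-1 - δ) (1 + δ),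
        1 + ∑' n, coefA c ε a n * cU (2 * n) y = c * (1 - ε * a * bump (1 - a) y) := by
  refine ⟨min (1 / 2) ((ε / (1 + W)) ^ 2), by positivity, ?_⟩
  intro a ha haa c hc hc'
  have ha1 : a < 1 / 2 := lt_of_lt_of_le haa (min_le_left _ _)
  have ha2 : a < (ε / (1 + W)) ^ 2 := lt_of_lt_of_le haa (min_le_right _ _)
  have hW0 : 0 < 1 + W := by linarith
  have hsa : √a < ε / (1 + W) := by
    rw [Real.sqrt_lt' (by positivity)]
    exact ha2
  have hsa' : (1 + W) * √a ≤ ε := by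
    rw [lt_div_iff₀ hW0] at hsa
    linarith
  have hsa0 : 0 < √a := Real.sqrt_pos.mpr ha
  have hsq : √a * √a = a := Real.mul_self_sqrt ha.le
  have hsa1 : √a ≤ 1 := by
    rw [Real.sqrt_le_left (by norm_num)]
    linarith
  have hc2 : c ≤ 2 := by linarith
  set q := 1 - a with hq
  have hq0 : 0 < q := by linarith
  have hq1 : q < 1 := by linarith
  constructor
  · refine ⟨q⁻¹, (one_lt_inv₀ hq0).mpr hq1, ?_⟩
    intro K
    -- termwise bound
    have hterm : ∀ n : ℕ, (2 * (n : ℝ) + 1 + W) * q⁻¹ ^ n * |coefA c ε a n| ≤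
        (if n = 0 then (1 + W) * √a else 0) + 2 * ε * a * q ^ n
          + 2 * ε * a * W * ((√a * q ^ n + (√a)⁻¹ * (1 / (2 * (n : ℝ) + 1) ^ 2)) / 2) := by
      intro n
      have hn : (0 : ℝ) < 2 * n + 1 := by positivity
      have h1 : |coefA c ε a n| ≤ (if n = 0 then √a else 0) + 2 * ε * a * (q ^ (2 * n) / (2 * n + 1)) := by
        unfold coefA
        rw [← hq]
        have h2 : |c * ε * a * q ^ (2 * n) / (2 * (n : ℝ) + 1)| ≤ 2 * ε * a * (q ^ (2 * n) / (2 * n + 1)) := by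
          rw [abs_of_nonneg (by positivity)]
          have : c * ε * a * q ^ (2 * n) / (2 * (n : ℝ) + 1) = c * (ε * a * (q ^ (2 * n) / (2 * n + 1))) := by
            ring
          rw [this]
          have h3 : 0 ≤ ε * a * (q ^ (2 * n) / (2 * (n : ℝ) + 1)) := by positivity
          nlinarith
        have h4 : |(if n = 0 then c - 1 else 0 : ℝ)| ≤ (if n = 0 then √a else 0) := by
          split_ifs with h0
          · rw [abs_of_nonneg (by linarith)]
            linarith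
          · simp
        exact (abs_sub _ _).trans (add_le_add h4 h2)
      have h5 : (2 * (n : ℝ) + 1 + W) * q⁻¹ ^ n * |coefA c ε a n| ≤
          (2 * (n : ℝ) + 1 + W) * q⁻¹ ^ n *
            ((if n = 0 then √a else 0) + 2 * ε * a * (q ^ (2 * n) / (2 * n + 1))) := by
        gcongr
      refine h5.trans ?_
      have hqq : q⁻¹ ^ n * q ^ (2 * n) = q ^ n := by
        rw [two_mul, pow_add, ← mul_assoc, ← mul_pow, inv_mul_cancel₀ hq0.ne']; simp
      have e1 : (2 * (n : ℝ) + 1 + W) * q⁻¹ ^ n *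
            ((if n = 0 then √a else 0) + 2 * ε * a * (q ^ (2 * n) / (2 * n + 1))) =
          (2 * (n : ℝ) + 1 + W) * q⁻¹ ^ n * (if n = 0 then √a else 0)
          + 2 * ε * a * (q⁻¹ ^ n * q ^ (2 * n))
          + 2 * ε * a * W * ((q⁻¹ ^ n * q ^ (2 * n)) * (1 / (2 * n + 1))) := by
        field_simp
        ring
      rw [e1, hqq]
      have h6 : (2 * (n : ℝ) + 1 + W) * q⁻¹ ^ n * (if n = 0 then √a else 0) =
          (if n = 0 then (1 + W) * √a else 0) := by
        split_ifs with h0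
        · subst h0; simp
        · simp
      rw [h6]
      have h7 : q ^ n * (1 / (2 * (n : ℝ) + 1)) ≤
          (√a * q ^ n + (√a)⁻¹ * (1 / (2 * (n : ℝ) + 1) ^ 2)) / 2 := by
        have hqn0 : 0 ≤ q ^ n := by positivity
        have hqn1 : q ^ n ≤ 1 := pow_le_one₀ hq0.le hq1.le
        set u := q ^ n
        set v := 1 / (2 * (n : ℝ) + 1) with hv
        have hv2 : 1 / (2 * (n : ℝ) + 1) ^ 2 = v ^ 2 := by rw [hv]; field_simp
        rw [hv2]
        have h8 : 0 ≤ (√a * u - v) ^ 2 * (√a)⁻¹ := by positivity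
        have h9 : (√a * u - v) ^ 2 * (√a)⁻¹ = √a * u ^ 2 - 2 * (u * v) + (√a)⁻¹ * v ^ 2 := by
          field_simp
          ring
        have h10 : √a * u ^ 2 ≤ √a * u := by
          have : u ^ 2 ≤ u := by nlinarith
          gcongr
        linarith
      gcongr
    have hsum := Finset.sum_le_sum (fun n (_ : n ∈ Finset.range K) => hterm n)
    refine hsum.trans ?_
    rw [Finset.sum_add_distrib, Finset.sum_add_distrib]
    have s1 : ∑ n ∈ Finset.range K, (if n = 0 then (1 + W) * √a else 0) ≤ (1 + W) * √a := by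
      rw [Finset.sum_ite_eq' (Finset.range K) 0 (fun _ => (1 + W) * √a)]
      split_ifs
      · exact le_rfl
      · positivity
    have hg := sum_geom_le q hq0.le hq1 K
    have hqa : 1 - q = a := by rw [hq]; ring
    rw [hqa] at hg
    have s2 : ∑ n ∈ Finset.range K, 2 * ε * a * q ^ n ≤ 2 * ε := by
      rw [← Finset.mul_sum]
      calc 2 * ε * a * ∑ n ∈ Finset.range K, q ^ n ≤ 2 * ε * a * (1 / a) := by gcongr
        _ = 2 * ε := by field_simp
    have s3 : ∑ n ∈ Finset.range K,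
        2 * ε * a * W * ((√a * q ^ n + (√a)⁻¹ * (1 / (2 * (n : ℝ) + 1) ^ 2)) / 2) ≤
        3 * ε * W * √a := by
      rw [← Finset.mul_sum, ← Finset.sum_div, Finset.sum_add_distrib, ← Finset.mul_sum,
        ← Finset.mul_sum]
      have hi : ∑ n ∈ Finset.range K, 1 / (2 * (n : ℝ) + 1) ^ 2 ≤ 2 := by
        have := sum_inv_sq K
        have h0 : (0 : ℝ) < (3 / 2) / (2 * (K : ℝ) + 1) := by positivity
        linarith
      calc 2 * ε * a * W * ((√a * ∑ n ∈ Finset.range K, q ^ n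
            + (√a)⁻¹ * ∑ n ∈ Finset.range K, 1 / (2 * (n : ℝ) + 1) ^ 2) / 2)
          ≤ 2 * ε * a * W * ((√a * (1 / a) + (√a)⁻¹ * 2) / 2) := by gcongr
        _ = 3 * ε * W * √a := by
            have h2 : a * (√a)⁻¹ = √a := by
              nth_rw 1 [← hsq]; rw [mul_assoc, mul_inv_cancel₀ hsa0.ne', mul_one]
            have : √a * (1 / a) = (√a)⁻¹ := by
              rw [mul_one_div, div_eq_iff ha.ne', mul_comm, h2]
            rw [this]
            calc 2 * ε * a * W * (((√a)⁻¹ + (√a)⁻¹ * 2) / 2) = 3 * ε * W * (a * (√a)⁻¹) := by ring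
              _ = 3 * ε * W * √a := by rw [h2]
    have h11 : 3 * ε * W * √a ≤ 3 * ε := by
      have : W * √a ≤ 1 := by nlinarith
      nlinarith
    linarith
  · obtain ⟨δ, hδ, hsum⟩ := summable_bump q hq0 hq1
    refine ⟨δ, hδ, ?_⟩
    intro y hy
    have hS := hsum y hy
    have e : (fun n : ℕ => coefA c ε a n * cU (2 * n) y) =
        fun n => (if n = 0 then c - 1 else 0) * cU (2 * n) y
          - (c * ε * a) * (q ^ (2 * n) / (2 * n + 1) * cU (2 * n) y) := by
      funext n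
      unfold coefA
      rw [← hq]
      ring
    have hS1 : HasSum (fun n : ℕ => (if n = 0 then c - 1 else 0) * cU (2 * n) y) (c - 1) := by
      have := hasSum_single (f := fun n : ℕ => (if n = 0 then c - 1 else 0) * cU (2 * n) y) 0
        (by intro n hn; simp [hn])
      simpa [cU] using this
    rw [e, (hS1.sub (hS.mul_left (c * ε * a)).hasSum).tsum_eq, tsum_mul_left]
    have hb : bump q y = ∑' n : ℕ, q ^ (2 * n) / (2 * n + 1) * cU (2 * n) y := rfl
    rw [← hb]
    ring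

end Pool.Agent.MP_ae1fc5_gt
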