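import Mathlib

/-!
# MP_ae1fc5_gt: Riemannian metrics, Ricci flow and diffeomorphisms on the 3-sphere

The 3-sphere is the unit sphere of the quaternions.  It is parallelised by the left-invariant
vector fields `E i (x) = x * im i` (`im 0, im 1, im 2` are the quaternions i, j, k), which are
orthonormal for the round metric of curvature 1 and satisfy `[E i, E j] = 2 * sum_k eps i j k * E k`.

* A smooth function on the sphere is represented by its positively homogeneous extension of degree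
  0 to the punctured space of nonzero quaternions (smooth there iff the function is smooth).
* A tensor field of type (0,2) on the sphere is represented by the matrix of its components with
  respect to the frame `E i`; a Riemannian metric is a smooth field of positive definite matrices.
* A diffeomorphism of the sphere is represented by its positively homogeneous extension of degree 1.
-/

open scoped Quaternion ContDiff Matrix
open Set

noncomputable section

namespace Pool.Agent.MP_ae1fc5_gt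

/-- The imaginary units i, j, k. -/
def im : Fin 3 → ℍ[ℝ] := ![⟨0, 1, 0, 0⟩, ⟨0, 0, 1, 0⟩, ⟨0, 0, 0, 1⟩]

/-- The derivative of `f` along the left-invariant vector field `E i (x) = x * im i`. -/
def D (i : Fin 3) (f : ℍ[ℝ] → ℝ) (x : ℍ[ℝ]) : ℝ := fderiv ℝ f x (x * im i)

/-- The Levi-Civita symbol. -/
def eps (i j k : Fin 3) : ℝ :=
  (((j : ℕ) : ℝ) - ((i : ℕ) : ℝ)) * (((k : ℕ) : ℝ) - ((j : ℕ) : ℝ)) *
    (((k : ℕ) : ℝ) - ((i : ℕ) : ℝ)) / 2

/-- Fields of 3 by 3 matrices: components of (0,2)-tensor fields with respect to the frame. -/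
abbrev Field := ℍ[ℝ] → Matrix (Fin 3) (Fin 3) ℝ

/-- `g` is (the component matrix of) a smooth Riemannian metric on the 3-sphere. -/
structure IsMetric (g : Field) : Prop where
  homog : ∀ (r : ℝ) (x : ℍ[ℝ]), 0 < r → g (r • x) = g x
  smooth : ∀ i j, ContDiffOn ℝ ∞ (fun x => g x i j) {0}ᶜ
  posDef : ∀ x, x ≠ 0 → (g x).PosDef

/-- Koszul formula: `chrLow g x i j k = g (nabla_{E i} E j, E k)`. -/
def chrLow (g : Field) (x : ℍ[ℝ]) (i j k : Fin 3) : ℝ :=
  (D i (fun z => g z j k) x + D j (fun z => g z i k) x - D k (fun z => g z i j) x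
    + ∑ l, 2 * eps i j l * g x l k - ∑ l, 2 * eps i k l * g x l j
    - ∑ l, 2 * eps j k l * g x l i) / 2

/-- Connection coefficients of the Levi-Civita connection:
`nabla_{E i} E j = sum_k chr g x i j k * E k`. -/
def chr (g : Field) (x : ℍ[ℝ]) (i j k : Fin 3) : ℝ :=
  ∑ l, (g x)⁻¹ k l * chrLow g x i j l

/-- The Ricci tensor: `ric g x j k` is the trace over `i` of the curvature
`R(E i, E j) E k = nabla_i nabla_j E k - nabla_j nabla_i E k - nabla_{[E i, E j]} E k`. -/
def ric (g : Field) (x : ℍ[ℝ]) (j k : Fin 3) : ℝ :=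
  ∑ i, (D i (fun z => chr g z j k i) x - D j (fun z => chr g z i k i) x
    + ∑ m, (chr g x j k m * chr g x i m i - chr g x i k m * chr g x j m i
        - 2 * eps i j m * chr g x m k i))

/-- The scalar curvature. -/
def scal (g : Field) (x : ℍ[ℝ]) : ℝ := ∑ j, ∑ k, (g x)⁻¹ j k * ric g x j k

/-- `G` is a smooth Ricci flow on the 3-sphere on the time interval `[0, T)`. -/
structure IsRicciFlow (G : ℝ → Field) (T : ℝ) : Prop where
  metric : ∀ t ∈ Ico 0 T, IsMetric (G t)
  smooth : ∀ i j, ContDiffOn ℝ ∞ (fun p : ℝ × ℍ[ℝ] => G p.1 p.2 i j) (Ico 0 T ×ˢ {0}ᶜ)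
  flow : ∀ t ∈ Ico 0 T, ∀ x, x ≠ 0 → ∀ i j,
    HasDerivWithinAt (fun s => G s x i j) (-2 * ric (G t) x i j) (Ico 0 T) t

/-- The maximal existence time `T(g)` of the Ricci flow starting at the metric `g`
(the supremum of the lengths of all smooth Ricci flows starting at `g`). -/
def maxTime (g : Field) : EReal :=
  sSup {τ : EReal | ∃ T : ℝ, τ = (T : EReal) ∧ 0 < T ∧
    ∃ G : ℝ → Field, IsRicciFlow G T ∧ ∀ x, x ≠ 0 → G 0 x = g x}

/-- Diffeomorphisms of the 3-sphere (`map` and its inverse `inv`), extended as positively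
homogeneous maps of degree 1 of the space of quaternions. -/
structure Diffeo where
  map : ℍ[ℝ] → ℍ[ℝ]
  inv : ℍ[ℝ] → ℍ[ℝ]
  smooth_map : ContDiffOn ℝ ∞ map {0}ᶜ
  smooth_inv : ContDiffOn ℝ ∞ inv {0}ᶜ
  homog_map : ∀ (r : ℝ) (x : ℍ[ℝ]), 0 < r → map (r • x) = r • map x
  homog_inv : ∀ (r : ℝ) (x : ℍ[ℝ]), 0 < r → inv (r • x) = r • inv x
  norm_map : ∀ x, ‖map x‖ = ‖x‖
  norm_inv : ∀ x, ‖inv x‖ = ‖x‖
  left_inv : ∀ x, x ≠ 0 → inv (map x) = x
  right_inv : ∀ x, x ≠ 0 → map (inv x) = x

/-- The matrix of the differential of `φ` at a point `x` of the sphere with respect to the frame: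
`dφ (E i (x)) = sum_k jac φ x k i * E k (φ x)`. -/
def jac (φ : Diffeo) (x : ℍ[ℝ]) (k i : Fin 3) : ℝ :=
  inner ℝ (φ.map x * im k) (fderiv ℝ φ.map x (x * im i))

/-- The components of the pull-back `φ^* g` at a point `x` of the sphere. -/
def pull (φ : Diffeo) (g : Field) (x : ℍ[ℝ]) (i j : Fin 3) : ℝ :=
  ∑ k, ∑ l, jac φ x k i * g (φ.map x) k l * jac φ x l j

/-- The norm `|φ^* g - g_round|` with respect to `g_round` at a point `x` of the sphere. -/
def pullDist (φ : Diffeo) (g : Field) (x : ℍ[ℝ]) : ℝ :=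
  Real.sqrt (∑ i, ∑ j, (pull φ g x i j - if i = j then 1 else 0) ^ 2)

/-- The rotationally symmetric metric `α g_round + β dy ⊗ dy`, where `y = Re x` (on the sphere). -/
def rot (α β : ℝ → ℝ) : Field := fun x i j =>
  α (x.re / ‖x‖) * (if i = j then 1 else 0)
    + β (x.re / ‖x‖) * ((![x.imI, x.imJ, x.imK] i / ‖x‖) * (![x.imI, x.imJ, x.imK] j / ‖x‖))

/-- The Chebyshev polynomial of the second kind of degree `n`, as a function. -/
def cU (n : ℕ) (y : ℝ) : ℝ := (Polynomial.Chebyshev.U ℝ (n : ℤ)).eval y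

end Pool.Agent.MP_ae1fc5_gt
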