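import Pool.Agent.MP_ae1fc5_gt.Defs

/-!
# MP_ae1fc5_gt: auxiliary definitions (Ricci tensor of rotationally symmetric metrics, bump, arrays)
-/

open scoped Quaternion ContDiff Matrix
open Set

noncomputable section

namespace Pool.Agent.MP_ae1fc5_gt

/-- Coefficient of `g_round` in the Ricci tensor of `α g_round + β dy ⊗ dy`; arguments are the
values of `α, α', α'', β, β'` at `y`. -/
def Pf (α α1 α2 β β1 y : ℝ) : ℝ :=
  2 + 2 * (α1 / (2 * α)) * y + 2 * y * ((α1 / 2 + β * y) / (α + β * (1 - y ^ 2)))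
  - ((α1 * β / α - β1 / 2) / (α + β * (1 - y ^ 2))) * (1 - y ^ 2) * y
  - (1 - y ^ 2) * ((α2 / 2 + β1 * y + β) / (α + β * (1 - y ^ 2))
      - (α1 / 2 + β * y) * (α1 + β1 * (1 - y ^ 2) - 2 * y * β) / (α + β * (1 - y ^ 2)) ^ 2)
  - 2 * (α1 / (2 * α)) * ((α1 / 2 + β * y) / (α + β * (1 - y ^ 2))) * (1 - y ^ 2)
  + ((α1 / 2 + β * y) / (α + β * (1 - y ^ 2))) ^ 2 * (1 - y ^ 2)
  + ((α1 / 2 + β * y) / (α + β * (1 - y ^ 2)))
    * ((α1 * β / α - β1 / 2) / (α + β * (1 - y ^ 2))) * (1 - y ^ 2) ^ 2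

/-- Coefficient of `dy ⊗ dy` in the Ricci tensor of `α g_round + β dy ⊗ dy`. -/
def Qf (α α1 α2 β β1 y : ℝ) : ℝ :=
  ((α2 / 2 + β1 * y + β) / (α + β * (1 - y ^ 2))
      - (α1 / 2 + β * y) * (α1 + β1 * (1 - y ^ 2) - 2 * y * β) / (α + β * (1 - y ^ 2)) ^ 2)
  - 2 * (α2 / (2 * α) - α1 ^ 2 / (2 * α ^ 2))
  + 3 * y * ((α1 * β / α - β1 / 2) / (α + β * (1 - y ^ 2)))
  + 2 * (α1 / (2 * α)) ^ 2
  - 2 * (α1 / (2 * α)) * ((α1 * β / α - β1 / 2) / (α + β * (1 - y ^ 2))) * (1 - y ^ 2)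
  - ((α1 / 2 + β * y) / (α + β * (1 - y ^ 2)))
    * ((α1 * β / α - β1 / 2) / (α + β * (1 - y ^ 2))) * (1 - y ^ 2)
  - ((α1 / 2 + β * y) / (α + β * (1 - y ^ 2))) ^ 2

/-- The interval `[-1, 1]`. -/
abbrev I1 : Set ℝ := Icc (-1) 1

/-- The bump function `sum_n q^(2n)/(2n+1) U_(2n)(y)`. -/
def bump (q y : ℝ) : ℝ := ∑' n : ℕ, q ^ (2 * n) / (2 * n + 1) * cU (2 * n) y

/-- Coefficients (with respect to `U_(2n)`) of `c (1 - ε a bump (1-a) y) - 1`. -/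
def coefA (c ε a : ℝ) (n : ℕ) : ℝ :=
  (if n = 0 then c - 1 else 0) - c * ε * a * (1 - a) ^ (2 * n) / (2 * n + 1)

/-- Minus the Laplace eigenvalue of `U_(2n)`. -/
def lam (n : ℕ) : ℝ := 4 * n * (n + 1)

/-- `U_(2m) U_(2n) = sum_k chi m n k U_(2k)`. -/
def chi (m n k : ℕ) : ℝ := if k ≤ m + n ∧ m ≤ n + k ∧ n ≤ m + k then 1 else 0

/-- `J m n = sum_p jc m n p U_(2p-1)` is the odd antiderivative of `U_(2m)' U_(2n)'`. -/
def jc (m n p : ℕ) : ℝ :=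
  if 1 ≤ p ∧ p ≤ m + n ∧ m + 1 ≤ n + p ∧ n + 1 ≤ m + p then
    2 * (((m : ℝ) + n + 1) ^ 2 - (p : ℝ) ^ 2) * ((p : ℝ) ^ 2 - ((m : ℝ) - n) ^ 2)
      / (4 * (p : ℝ) ^ 2 - 1)
  else 0

/-- coefficients of `y * J m n`. -/
def yj (m n k : ℕ) : ℝ := (jc m n k + jc m n (k + 1)) / 2

/-- coefficients of the quadratic part of the nonlinearity. -/
def bq (m n k : ℕ) : ℝ :=
  chi m n k * (6 - 2 * lam n - (lam m + lam n - lam k) / 2) - yj m n k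

/-- coefficients of the bracket in the cubic part of the nonlinearity. -/
def cq (m n k : ℕ) : ℝ :=
  chi m n k * (2 - lam n - (lam m + lam n - lam k) / 2) - yj m n k

/-- for `p ≥ 1`: `(1-y^2) U_(2l)' U_(2p-1) = sum_k sc l p k U_(2k)`. -/
def sc (l p k : ℕ) : ℝ :=
  (chi l p k + chi l (p - 1) k) / 2
  - (2 * l + 1) / 2 * ((if k = p + l then 1 else 0) + (if l < p ∧ k + l + 1 = p then 1 else 0)
      - (if p ≤ l ∧ k + p = l then 1 else 0))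

/-- coefficients of the cubic part of the nonlinearity. -/
def tq (l m n k : ℕ) : ℝ :=
  ∑ p ∈ Finset.range (m + n + 1), chi l p k * cq m n p
  - ∑ p ∈ Finset.range (m + n + 1), sc l p k * jc m n p

/-- The odd antiderivative of `U_(2m)' U_(2n)'`. -/
def Jpol (m n : ℕ) (y : ℝ) : ℝ := ∑ p ∈ Finset.range (m + n + 1), jc m n p * cU (2 * p - 1) y

/-- weights -/
def om (Ω R : ℝ) (n : ℕ) : ℝ := (2 * n + 1 + Ω) * R ^ n

/-- weights for the right-hand side -/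
def om' (Ω R : ℝ) (n : ℕ) : ℝ := om Ω R n + if n = 0 then Ω ^ 2 else 0

/-- Right-hand side of the normalised Ricci flow in the conformal gauge, `g = V^(-2) g_round`:
arguments are `V, V_y, V_yy` and `J = int_0^y V_y^2` at the point `y`. -/
def rhs (V V1 V2 J y : ℝ) : ℝ :=
  V ^ 2 * ((1 - y ^ 2) * V2 - 3 * y * V1) - V * (1 - y ^ 2) * V1 ^ 2 + 2 * V * (V ^ 2 - 1)
    - (y * V + (1 - y ^ 2) * V1) * J

/-- `V` solves the normalised Ricci flow in the conformal gauge on `[0,Λ] × (-c,c)`. -/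
structure IsSol (Λ c : ℝ) (V : ℝ → ℝ → ℝ) : Prop where
  smooth : ContDiffOn ℝ ∞ (fun p : ℝ × ℝ => V p.1 p.2) (Icc 0 Λ ×ˢ Ioo (-c) c)
  pos : ∀ t ∈ Icc 0 Λ, ∀ y ∈ Ioo (-c) c, 0 < V t y
  pde : ∀ t ∈ Icc 0 Λ, ∀ y ∈ Ioo (-c) c,
    HasDerivWithinAt (fun s => V s y)
      (rhs (V t y) (deriv (V t) y) (deriv (deriv (V t)) y) (∫ z in (0 : ℝ)..y, deriv (V t) z ^ 2) y)
      (Icc 0 Λ) t

end Pool.Agent.MP_ae1fc5_gt
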