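import Pool.Agent.MP_ae1fc5_gt.FixedPointC

/-!
# MP_ae1fc5_gt, module G: the abstract fixed point theorem
-/

set_option autoImplicit false

open Set MeasureTheory Filter
open scoped ENNReal Topology

noncomputable section

namespace Pool.Agent.MP_ae1fc5_gt
namespace FP

theorem tsum_le_of_range {f : ℕ → ℝ} (hf : ∀ k, 0 ≤ f k) {B : ℝ}
    (h : ∀ K, ∑ k ∈ Finset.range K, f k ≤ B) : ∑' k, ENNReal.ofReal (f k) ≤ ENNReal.ofReal B := by
  apply ENNReal.tsum_le_of_sum_range_le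
  intro K
  rw [← ENNReal.ofReal_sum_of_nonneg fun k _ => hf k]
  exact ENNReal.ofReal_le_ofReal (h K)

theorem geom_two : ∑' n : ℕ, (2⁻¹ : ℝ≥0∞) ^ n = 2 := by
  rw [ENNReal.tsum_geometric, ENNReal.one_sub_inv_two, inv_inv]

theorem eq_zero_of_le {a K : ℝ≥0∞} (hK : K ≠ ∞) (h : ∀ J : ℕ, a ≤ (2⁻¹ : ℝ≥0∞) ^ J * K) : a = 0 := by
  have h1 : Tendsto (fun J : ℕ => (2⁻¹ : ℝ≥0∞) ^ J * K) atTop (𝓝 (0 * K)) := by
    apply ENNReal.Tendsto.mul_const _ (Or.inr hK)
    exact ENNReal.tendsto_pow_atTop_nhds_zero_of_lt_one (by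
      rw [ENNReal.inv_lt_one]; exact ENNReal.one_lt_two)
  rw [zero_mul] at h1
  exact le_antisymm (ge_of_tendsto' h1 h) bot_le

section
variable {Λ : ℝ} {la mu w w' kap nu : ℕ → ℝ} {b : ℕ → ℕ → ℕ → ℝ} {t : ℕ → ℕ → ℕ → ℕ → ℝ}
  {C3 : ℝ} {C2 : ℕ → ℝ}

/-- weights -/
def eW (w : ℕ → ℝ) (n : ℕ) : ℝ≥0∞ := ENNReal.ofReal (w n)
/-- weights -/
def eL (la : ℕ → ℝ) (n : ℕ) : ℝ≥0∞ := ENNReal.ofReal (la n + 1)

theorem Sx_ne_top (hw : ∀ n, 0 < w n) {x : ℕ → ℝ → ℝ} (h : nrm Λ (eW w) (eL la) x ≠ ∞) (n : ℕ) :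
    Sx (x n) ≠ ∞ := by
  intro hS
  apply h
  have h1 : eW w n * (Sx (x n) + eL la n * Ix Λ (x n)) ≤ nrm Λ (eW w) (eL la) x :=
    ENNReal.le_tsum n
  rw [hS, top_add, ENNReal.mul_top] at h1
  · exact top_le_iff.1 h1
  · exact (ENNReal.ofReal_pos.2 (hw n)).ne'

theorem gd_of_nrm (hw : ∀ n, 0 < w n) {x : ℕ → ℝ → ℝ} (hx : ∀ n, Continuous (x n))
    (h : nrm Λ (eW w) (eL la) x ≠ ∞) : Gd w x (fun n => (Sx (x n)).toReal) := by
  have hS := Sx_ne_top hw h
  refine ⟨hx, fun n s => ?_, ?_⟩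
  · have h1 := ENNReal.toReal_mono (hS n) (le_Sx (x n) s)
    rwa [toReal_enorm, Real.norm_eq_abs] at h1
  · have h1 : ∑' n, eW w n * Sx (x n) ≠ ∞ := by
      refine ne_top_of_le_ne_top h (ENNReal.tsum_le_tsum fun n => ?_)
      gcongr
      exact le_self_add
    have h2 := ENNReal.summable_toReal h1
    refine h2.congr fun n => ?_
    rw [ENNReal.toReal_mul, eW, ENNReal.toReal_ofReal (hw n).le]

theorem tsum_toReal_le (hw : ∀ n, 0 < w n) {x : ℕ → ℝ → ℝ} {B : ℝ} (hB : 0 ≤ B)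
    (h : nrm Λ (eW w) (eL la) x ≤ ENNReal.ofReal B) :
    ∑' n, w n * (Sx (x n)).toReal ≤ B := by
  have hne : nrm Λ (eW w) (eL la) x ≠ ∞ := ne_top_of_le_ne_top ENNReal.ofReal_ne_top h
  have hS := Sx_ne_top hw hne
  have h1 : ∑' n, eW w n * Sx (x n) ≤ ENNReal.ofReal B := by
    refine le_trans (ENNReal.tsum_le_tsum fun n => ?_) h
    gcongr
    exact le_self_add
  have h2 : ∑' n, w n * (Sx (x n)).toReal = (∑' n, eW w n * Sx (x n)).toReal := by
    rw [ENNReal.tsum_toReal_eq]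
    · refine tsum_congr fun n => ?_
      rw [ENNReal.toReal_mul, eW, ENNReal.toReal_ofReal (hw n).le]
    · intro n
      exact ENNReal.mul_ne_top ENNReal.ofReal_ne_top (hS n)
  rw [h2]
  have h3 := ENNReal.toReal_mono ENNReal.ofReal_ne_top h1
  rwa [ENNReal.toReal_ofReal hB] at h3

/-- the map -/
def Ph (Λ : ℝ) (mu a : ℕ → ℝ) (b : ℕ → ℕ → ℕ → ℝ) (t : ℕ → ℕ → ℕ → ℕ → ℝ) (x : ℕ → ℝ → ℝ)
    (k : ℕ) (s : ℝ) : ℝ := lin Λ (mu k) (a k) s + duh Λ (mu k) (NN b t x k) s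

theorem duh_sub {Λ mu : ℝ} {g h : ℝ → ℝ} (hg : Continuous g) (hh : Continuous h) (s : ℝ) :
    duh Λ mu g s - duh Λ mu h s = duh Λ mu (fun r => g r - h r) s := by
  unfold duh
  rw [← intervalIntegral.integral_sub]
  · apply intervalIntegral.integral_congr
    intro r _
    show Real.exp (-mu * (cl Λ s - r)) * g r - Real.exp (-mu * (cl Λ s - r)) * h r =
      Real.exp (-mu * (cl Λ s - r)) * (g r - h r)
    ring
  · apply Continuous.intervalIntegrable
    fun_prop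
  · apply Continuous.intervalIntegrable
    fun_prop

theorem nrm_duh_le (hΛ : 0 ≤ Λ) (hla : ∀ n, 0 ≤ la n)
    (hk1 : ∀ n, ∀ s ∈ Icc 0 Λ, Real.exp (-(mu n) * s) ≤ kap n)
    (hk2 : ∀ n, (la n + 1) * ∫ s in (0 : ℝ)..Λ, Real.exp (-(mu n) * s) ≤ kap n)
    {c' : ℝ≥0∞} (hk : ∀ n, eW w n * ENNReal.ofReal (kap n) ≤ c' * eW w' n)
    {g : ℕ → ℝ → ℝ} (hg : ∀ n, Continuous (g n)) :
    nrm Λ (eW w) (eL la) (fun k => duh Λ (mu k) (g k)) ≤ 2 * c' * ∑' k, eW w' k * Ix Λ (g k) := by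
  unfold nrm
  rw [← ENNReal.tsum_mul_left]
  refine ENNReal.tsum_le_tsum fun k => ?_
  calc eW w k * (Sx (duh Λ (mu k) (g k)) + eL la k * Ix Λ (duh Λ (mu k) (g k))) ≤
        eW w k * (2 * (ENNReal.ofReal (kap k) * Ix Λ (g k))) := by
        gcongr
        exact duh_bound hΛ (hla k) (hk1 k) (hk2 k) (hg k)
    _ = 2 * (eW w k * ENNReal.ofReal (kap k)) * Ix Λ (g k) := by ring
    _ ≤ 2 * (c' * eW w' k) * Ix Λ (g k) :=
        mul_le_mul' (mul_le_mul' le_rfl (hk k)) le_rfl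
    _ = _ := by ring

theorem nrm_lin_le (hΛ : 0 ≤ Λ) (hla : ∀ n, 0 ≤ la n)
    (hk1 : ∀ n, ∀ s ∈ Icc 0 Λ, Real.exp (-(mu n) * s) ≤ kap n)
    (hk2 : ∀ n, (la n + 1) * ∫ s in (0 : ℝ)..Λ, Real.exp (-(mu n) * s) ≤ kap n)
    {c' : ℝ≥0∞} (hk : ∀ n, eW w n * ENNReal.ofReal (kap n) ≤ c' * eW w' n) (a : ℕ → ℝ) :
    nrm Λ (eW w) (eL la) (fun k => lin Λ (mu k) (a k)) ≤ 2 * c' * ∑' k, eW w' k * ‖a k‖ₑ := by
  unfold nrm
  rw [← ENNReal.tsum_mul_left]
  refine ENNReal.tsum_le_tsum fun k => ?_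
  calc eW w k * (Sx (lin Λ (mu k) (a k)) + eL la k * Ix Λ (lin Λ (mu k) (a k))) ≤
        eW w k * (2 * (ENNReal.ofReal (kap k) * ‖a k‖ₑ)) := by
        gcongr
        exact lin_bound hΛ (hla k) (hk1 k) (hk2 k) (a k)
    _ = 2 * (eW w k * ENNReal.ofReal (kap k)) * ‖a k‖ₑ := by ring
    _ ≤ 2 * (c' * eW w' k) * ‖a k‖ₑ :=
        mul_le_mul' (mul_le_mul' le_rfl (hk k)) le_rfl
    _ = _ := by ring

end

end FP

open Pool.Agent.MP_ae1fc5_gt.FP in
theorem fixed_point (Λ : ℝ) (hΛ : 0 < Λ) (la mu w w' kap nu : ℕ → ℝ)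
    (b : ℕ → ℕ → ℕ → ℝ) (t : ℕ → ℕ → ℕ → ℕ → ℝ) (C C' C3 : ℝ) (C2 : ℕ → ℝ)
    (hC : 1 ≤ C) (hC' : 1 ≤ C')
    (hla : ∀ n, 0 ≤ la n) (hw : ∀ n, 0 < w n) (hw' : ∀ n, 0 < w' n) (hnu : ∀ n, 0 ≤ nu n)
    (hk1 : ∀ n, ∀ s ∈ Icc 0 Λ, Real.exp (-(mu n) * s) ≤ kap n)
    (hk2 : ∀ n, (la n + 1) * ∫ s in (0 : ℝ)..Λ, Real.exp (-(mu n) * s) ≤ kap n)
    (hk : ∀ n, w n * kap n ≤ C' * w' n)
    (hb : ∀ m n K, ∑ k ∈ Finset.range K, w' k * |b m n k| ≤ C * (la m + la n + 1) * w m * w n)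
    (ht : ∀ l m n K, ∑ k ∈ Finset.range K, w' k * |t l m n k| ≤
      C * (la l + la m + la n + 1) * w l * w m * w n)
    (hnu3 : ∀ n, (la n + 1) * nu n ≤ C3 * w n)
    (hb2 : ∀ k m n, |b m n k| ≤ C2 k * (la m + la n + 1) * nu m * nu n)
    (ht2 : ∀ k l m n, |t l m n k| ≤ C2 k * (la l + la m + la n + 1) * nu l * nu m * nu n)
    (a : ℕ → ℝ) (ε : ℝ) (hε : 80 * C * C' ^ 2 * ε ≤ 1)
    (ha : ∀ K, ∑ n ∈ Finset.range K, w' n * |a n| ≤ ε) :
    ∃ (x : ℕ → ℝ → ℝ) (A : ℕ → ℝ), (∀ n, ContinuousOn (x n) (Icc 0 Λ)) ∧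
      (∀ n, ∀ s ∈ Icc 0 Λ, |x n s| ≤ A n) ∧ Summable (fun n => w n * A n) ∧
      ∑' n, w n * A n ≤ 4 * C' * ε ∧
      ∀ k, ∀ s ∈ Icc 0 Λ, x k s = Real.exp (-(mu k) * s) * a k +
        ∫ r in (0 : ℝ)..s, Real.exp (-(mu k) * (s - r)) *
          ((∑' p : ℕ × ℕ, b p.1 p.2 k * x p.1 r * x p.2 r) +
            ∑' p : ℕ × ℕ × ℕ, t p.1 p.2.1 p.2.2 k * x p.1 r * x p.2.1 r * x p.2.2 r) := by
  have hε0 : 0 ≤ ε := by simpa using ha 0
  have hD : Dat w la nu b t C3 C2 := ⟨hla, hw, hnu, hnu3, hb2, ht2⟩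
  set W := eW w with hW
  set L := eL la with hL
  set W' := eW w' with hW'
  set c : ℝ≥0∞ := ENNReal.ofReal C with hc
  set c' : ℝ≥0∞ := ENNReal.ofReal C' with hc'
  set e : ℝ≥0∞ := ENNReal.ofReal ε with he
  have hC0 : 0 ≤ C := by linarith
  have hC'0 : 0 ≤ C' := by linarith
  have hkE : ∀ n, eW w n * ENNReal.ofReal (kap n) ≤ c' * eW w' n := by
    intro n
    rw [eW, eW, ← ENNReal.ofReal_mul (hw n).le, hc', ← ENNReal.ofReal_mul hC'0]
    exact ENNReal.ofReal_le_ofReal (hk n)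
  have haE : ∑' k, eW w' k * ‖a k‖ₑ ≤ e := by
    have h1 := tsum_le_of_range (f := fun k => w' k * |a k|)
      (fun k => mul_nonneg (hw' k).le (abs_nonneg _)) ha
    refine le_trans (le_of_eq (tsum_congr fun k => ?_)) h1
    rw [eW, ENNReal.ofReal_mul (hw' k).le, Real.enorm_eq_ofReal_abs]
  have hbE : ∀ m n, ∑' k, W' k * ‖b m n k‖ₑ ≤ c * (L m + L n) * W m * W n := by
    intro m n
    have h1 := tsum_le_of_range (f := fun k => w' k * |b m n k|)
      (fun k => mul_nonneg (hw' k).le (abs_nonneg _)) (hb m n)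
    have h2 : ∑' k, W' k * ‖b m n k‖ₑ = ∑' k, ENNReal.ofReal (w' k * |b m n k|) := by
      refine tsum_congr fun k => ?_
      rw [hW', eW, ENNReal.ofReal_mul (hw' k).le, Real.enorm_eq_ofReal_abs]
    rw [h2]
    refine h1.trans ?_
    have h3 : c * (L m + L n) * W m * W n =
        ENNReal.ofReal (C * ((la m + 1) + (la n + 1)) * w m * w n) := by
      have l1 : 0 ≤ la m + 1 := by linarith [hla m]
      have l2 : 0 ≤ la n + 1 := by linarith [hla n]
      rw [hc, hL, hW, eL, eL, eW, eW, ← ENNReal.ofReal_add l1 l2, ← ENNReal.ofReal_mul hC0,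
        ← ENNReal.ofReal_mul (by positivity), ← ENNReal.ofReal_mul (by
          have := hw m; positivity)]
    rw [h3]
    apply ENNReal.ofReal_le_ofReal
    have h5 : la m + la n + 1 ≤ (la m + 1) + (la n + 1) := by linarith
    exact mul_le_mul_of_nonneg_right (mul_le_mul_of_nonneg_right
      (mul_le_mul_of_nonneg_left h5 hC0) (hw m).le) (hw n).le
  have htE : ∀ l m n, ∑' k, W' k * ‖t l m n k‖ₑ ≤ c * (L l + L m + L n) * W l * W m * W n := by
    intro l m n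
    have h1 := tsum_le_of_range (f := fun k => w' k * |t l m n k|)
      (fun k => mul_nonneg (hw' k).le (abs_nonneg _)) (ht l m n)
    have h2 : ∑' k, W' k * ‖t l m n k‖ₑ = ∑' k, ENNReal.ofReal (w' k * |t l m n k|) := by
      refine tsum_congr fun k => ?_
      rw [hW', eW, ENNReal.ofReal_mul (hw' k).le, Real.enorm_eq_ofReal_abs]
    rw [h2]
    refine h1.trans ?_
    have h3 : c * (L l + L m + L n) * W l * W m * W n =
        ENNReal.ofReal (C * ((la l + 1) + (la m + 1) + (la n + 1)) * w l * w m * w n) := by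
      have l0 : 0 ≤ la l + 1 := by linarith [hla l]
      have l1 : 0 ≤ la m + 1 := by linarith [hla m]
      have l2 : 0 ≤ la n + 1 := by linarith [hla n]
      rw [hc, hL, hW, eL, eL, eL, eW, eW, eW, ← ENNReal.ofReal_add l0 l1,
        ← ENNReal.ofReal_add (by positivity) l2, ← ENNReal.ofReal_mul hC0,
        ← ENNReal.ofReal_mul (by positivity), ← ENNReal.ofReal_mul (by
          have := hw l; positivity), ← ENNReal.ofReal_mul (by
          have := hw l; have := hw m; positivity)]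
    rw [h3]
    apply ENNReal.ofReal_le_ofReal
    have h5 : la l + la m + la n + 1 ≤ (la l + 1) + (la m + 1) + (la n + 1) := by linarith
    exact mul_le_mul_of_nonneg_right (mul_le_mul_of_nonneg_right (mul_le_mul_of_nonneg_right
      (mul_le_mul_of_nonneg_left h5 hC0) (hw l).le) (hw m).le) (hw n).le
  -- the radius
  set ρ : ℝ≥0∞ := 4 * c' * e with hρ
  have hρ' : ρ = ENNReal.ofReal (4 * C' * ε) := by
    rw [hρ, hc', he, ENNReal.ofReal_mul (by positivity), ENNReal.ofReal_mul (by norm_num)]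
    congr 2
    simp
  have hρtop : ρ ≠ ∞ := by rw [hρ']; exact ENNReal.ofReal_ne_top
  have hhalf : 2 * c' * c * (ρ + ρ + (ρ ^ 2 + ρ * ρ + ρ ^ 2)) ≤ 2⁻¹ := by
    have h2 : (2 : ℝ≥0∞) = ENNReal.ofReal 2 := by simp
    have hi : (2⁻¹ : ℝ≥0∞) = ENNReal.ofReal (2⁻¹) := by
      rw [ENNReal.ofReal_inv_of_pos (by norm_num)]; simp
    have p0 : 0 ≤ 4 * C' * ε := by positivity
    rw [hρ', hi, h2, hc, hc', ← ENNReal.ofReal_pow p0, ← ENNReal.ofReal_mul p0,
      ← ENNReal.ofReal_add p0 p0, ← ENNReal.ofReal_add (by positivity) (by positivity),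
      ← ENNReal.ofReal_add (by positivity) (by positivity),
      ← ENNReal.ofReal_add (by positivity) (by positivity), ← ENNReal.ofReal_mul (by norm_num),
      ← ENNReal.ofReal_mul (by positivity), ← ENNReal.ofReal_mul (by positivity)]
    apply ENNReal.ofReal_le_ofReal
    have q0 : 0 ≤ C * C' ^ 2 * ε := by positivity
    have q1 : C * C' ^ 2 * ε ≤ 1 / 80 := by linarith
    have q2 : C' * ε ≤ C * C' ^ 2 * ε := by
      have : 1 ≤ C * C' := by nlinarith
      have : 0 ≤ C' * ε := by positivity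
      nlinarith
    have q3 : 0 ≤ C' * ε := by positivity
    have e1 : 2 * C' * C * (4 * C' * ε + 4 * C' * ε + ((4 * C' * ε) ^ 2 + 4 * C' * ε * (4 * C' * ε) +
        (4 * C' * ε) ^ 2)) = 16 * (C * C' ^ 2 * ε) + 96 * (C * C' ^ 2 * ε) * (C' * ε) := by ring
    rw [e1]
    have q4 : (C * C' ^ 2 * ε) * (C' * ε) ≤ (1 / 80) * (1 / 80) :=
      mul_le_mul q1 (q2.trans q1) q3 (by norm_num)
    linarith
  -- properties of the map
  have hΛ0 : 0 ≤ Λ := hΛ.le
  have hPc : ∀ (x : ℕ → ℝ → ℝ), (∀ n, Continuous (x n)) → nrm Λ W L x ≠ ∞ →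
      ∀ n, Continuous (Ph Λ mu a b t x n) := by
    intro x hx hn n
    have hg := gd_of_nrm hw hx hn
    exact (continuous_lin _ _ _).add (continuous_duh (continuous_NN hD hg n))
  have hlip : ∀ (x y : ℕ → ℝ → ℝ), (∀ n, Continuous (x n)) → (∀ n, Continuous (y n)) →
      nrm Λ W L x ≤ ρ → nrm Λ W L y ≤ ρ →
      nrm Λ W L (fun n s => Ph Λ mu a b t x n s - Ph Λ mu a b t y n s) ≤
        2⁻¹ * nrm Λ W L (fun n s => x n s - y n s) := by
    intro x y hx hy hxr hyr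
    have hxt : nrm Λ W L x ≠ ∞ := ne_top_of_le_ne_top hρtop hxr
    have hyt : nrm Λ W L y ≠ ∞ := ne_top_of_le_ne_top hρtop hyr
    have gx := gd_of_nrm hw hx hxt
    have gy := gd_of_nrm hw hy hyt
    have h1 : nrm Λ W L (fun n s => Ph Λ mu a b t x n s - Ph Λ mu a b t y n s) =
        nrm Λ W L (fun k => duh Λ (mu k) (fun r => NN b t x k r - NN b t y k r)) := by
      congr 1
      funext k s
      rw [← duh_sub (continuous_NN hD gx k) (continuous_NN hD gy k)]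
      unfold Ph
      ring
    rw [h1]
    have h2 := nrm_duh_le hΛ0 hla hk1 hk2 hkE
      (g := fun k r => NN b t x k r - NN b t y k r)
      (fun k => (continuous_NN hD gx k).sub (continuous_NN hD gy k))
    have h3 := NN_int_sub_le (Λ := Λ) hD hbE htE gx gy
    calc nrm Λ W L (fun k => duh Λ (mu k) (fun r => NN b t x k r - NN b t y k r)) ≤
          2 * c' * ∑' k, eW w' k * Ix Λ (fun r => NN b t x k r - NN b t y k r) := h2
      _ ≤ 2 * c' * (c * nrm Λ W L (fun n s => x n s - y n s) * (nrm Λ W L x + nrm Λ W L y +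
        (nrm Λ W L x ^ 2 + nrm Λ W L x * nrm Λ W L y + nrm Λ W L y ^ 2))) := by
          gcongr
      _ ≤ 2 * c' * (c * nrm Λ W L (fun n s => x n s - y n s) * (ρ + ρ + (ρ ^ 2 + ρ * ρ + ρ ^ 2))) := by
          gcongr
      _ = (2 * c' * c * (ρ + ρ + (ρ ^ 2 + ρ * ρ + ρ ^ 2))) * nrm Λ W L (fun n s => x n s - y n s) := by
          ring
      _ ≤ 2⁻¹ * nrm Λ W L (fun n s => x n s - y n s) := by gcongr
  -- the iteration
  let X : ℕ → ℕ → ℝ → ℝ := fun j => (Ph Λ mu a b t)^[j] (fun _ _ => 0)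
  have hX0 : X 0 = fun _ _ => 0 := rfl
  have hXs : ∀ j, X (j + 1) = Ph Λ mu a b t (X j) := by
    intro j
    exact Function.iterate_succ_apply' _ _ _
  have hz : nrm Λ W L (X 0) = 0 := by
    rw [hX0]
    unfold nrm
    have : ∀ n, W n * (Sx (fun _ => (0 : ℝ)) + L n * Ix Λ (fun _ => (0 : ℝ))) = 0 := by
      intro n
      have h1 : Sx (fun _ => (0 : ℝ)) = 0 := le_antisymm (Sx_le fun s => by simp) bot_le
      have h2 : Ix Λ (fun _ => (0 : ℝ)) = 0 := by unfold Ix; simp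
      rw [h1, h2]; simp
    simp only [this, tsum_zero]
  have hX1 : nrm Λ W L (X 1) ≤ 2 * c' * e := by
    have h1 : X 1 = fun k => lin Λ (mu k) (a k) := by
      rw [hXs 0, hX0]
      funext k s
      have : NN b t (fun _ _ => 0) k = fun _ => 0 := by
        funext r
        unfold NN
        simp
      unfold Ph
      rw [this]
      unfold duh
      simp
    rw [h1]
    refine (nrm_lin_le hΛ0 hla hk1 hk2 hkE a).trans ?_
    gcongr
  have hinv : ∀ j, (∀ n, Continuous (X j n)) ∧ nrm Λ W L (X j) ≤ ρ := by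
    intro j
    induction j with
    | zero =>
      refine ⟨fun n => ?_, ?_⟩
      · rw [hX0]; exact continuous_const
      · rw [hz]; exact bot_le
    | succ j ih =>
      have hfin : nrm Λ W L (X j) ≠ ∞ := ne_top_of_le_ne_top hρtop ih.2
      refine ⟨fun n => ?_, ?_⟩
      · rw [hXs j]; exact hPc _ ih.1 hfin n
      · have c1 : ∀ n, Continuous (X 1 n) := by
          intro n
          rw [hXs 0]
          refine hPc _ (fun n => ?_) ?_ n
          · rw [hX0]; exact continuous_const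
          · rw [hz]; exact ENNReal.zero_ne_top
        have h1 := hlip (X j) (X 0) ih.1 (fun n => by rw [hX0]; exact continuous_const) ih.2
          (by rw [hz]; exact bot_le)
        rw [← hXs j, ← hXs 0] at h1
        have h2 : nrm Λ W L (X (j + 1)) ≤ nrm Λ W L (X 1) +
            nrm Λ W L (fun n s => X (j + 1) n s - X 1 n s) := by
          have h3 : X (j + 1) = fun n s => X 1 n s + (X (j + 1) n s - X 1 n s) := by
            funext n s; ring
          nth_rewrite 1 [h3]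
          exact nrm_add_le c1
        have h4 : nrm Λ W L (fun n s => X j n s - X 0 n s) = nrm Λ W L (X j) := by
          congr 1
          funext n s
          rw [hX0]; simp
        rw [h4] at h1
        calc nrm Λ W L (X (j + 1)) ≤ 2 * c' * e + 2⁻¹ * ρ :=
              h2.trans (add_le_add hX1 (h1.trans (by gcongr; exact ih.2)))
          _ = 2 * c' * e + 2 * c' * e := by
              rw [hρ]
              congr 1
              rw [← mul_assoc, ← mul_assoc]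
              congr 2
              have : (4 : ℝ≥0∞) = 2 * 2 := by norm_num
              rw [this, ← mul_assoc, ENNReal.inv_mul_cancel (by norm_num) (by norm_num), one_mul]
          _ = ρ := by rw [hρ]; ring
  let d : ℕ → ℕ → ℝ → ℝ := fun j n s => X (j + 1) n s - X j n s
  have hdc : ∀ j n, Continuous (d j n) := fun j n => ((hinv (j + 1)).1 n).sub ((hinv j).1 n)
  have hd : ∀ j, nrm Λ W L (d j) ≤ (2⁻¹ : ℝ≥0∞) ^ j * (2 * c' * e) := by
    intro j
    induction j with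
    | zero =>
      rw [pow_zero, one_mul]
      refine le_trans (nrm_mono fun n s => ?_) hX1
      show ‖X 1 n s - X 0 n s‖ₑ ≤ ‖X 1 n s‖ₑ
      rw [hX0]; simp
    | succ j ih =>
      have h1 := hlip (X (j + 1)) (X j) (hinv (j + 1)).1 (hinv j).1 (hinv (j + 1)).2 (hinv j).2
      rw [← hXs (j + 1), ← hXs j] at h1
      refine h1.trans ?_
      rw [pow_succ', mul_assoc]
      gcongr
  have he2 : 2 * c' * e ≠ ∞ := ENNReal.mul_ne_top (ENNReal.mul_ne_top (by norm_num)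
    ENNReal.ofReal_ne_top) ENNReal.ofReal_ne_top
  have hsumd : ∀ J, ∑' j, nrm Λ W L (d (j + J)) ≤ (2⁻¹ : ℝ≥0∞) ^ J * ρ := by
    intro J
    calc ∑' j, nrm Λ W L (d (j + J)) ≤ ∑' j, (2⁻¹ : ℝ≥0∞) ^ (j + J) * (2 * c' * e) :=
          ENNReal.tsum_le_tsum fun j => hd _
      _ = ∑' j, (2⁻¹ : ℝ≥0∞) ^ j * ((2⁻¹ : ℝ≥0∞) ^ J * (2 * c' * e)) := by
          refine tsum_congr fun j => ?_
          rw [pow_add]; ring
      _ = (2⁻¹ : ℝ≥0∞) ^ J * ρ := by
          rw [ENNReal.tsum_mul_right, geom_two, hρ]; ring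
  have hWpos : ∀ n, W n ≠ 0 := fun n => (ENNReal.ofReal_pos.2 (hw n)).ne'
  have hWtop : ∀ n, W n ≠ ∞ := fun n => ENNReal.ofReal_ne_top
  have hSd : ∀ n, ∑' j, Sx (d j n) ≠ ∞ := by
    intro n hcon
    have h1 : W n * ∑' j, Sx (d j n) ≤ ρ := by
      rw [← ENNReal.tsum_mul_left]
      refine le_trans (ENNReal.tsum_le_tsum fun j => ?_) (le_trans (hsumd 0) (by simp))
      have h2 : W n * (Sx (d j n) + L n * Ix Λ (d j n)) ≤ nrm Λ W L (d j) := ENNReal.le_tsum n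
      refine le_trans ?_ h2
      gcongr
      exact le_self_add
    rw [hcon, ENNReal.mul_top (hWpos n)] at h1
    exact hρtop (top_le_iff.1 h1)
  have hSd' : ∀ j n, Sx (d j n) ≠ ∞ := fun j n =>
    ne_top_of_le_ne_top (hSd n) (ENNReal.le_tsum j)
  have hSsum : ∀ n, Summable fun j => (Sx (d j n)).toReal := fun n =>
    ENNReal.summable_toReal (hSd n)
  have hdb : ∀ j n s, ‖d j n s‖ ≤ (Sx (d j n)).toReal := by
    intro j n s
    have h1 := ENNReal.toReal_mono (hSd' j n) (le_Sx (d j n) s)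
    rwa [toReal_enorm] at h1
  have hdsum : ∀ n s, Summable fun j => d j n s := fun n s =>
    Summable.of_norm_bounded (hSsum n) (fun j => hdb j n s)
  let x : ℕ → ℝ → ℝ := fun n s => ∑' j, d j n s
  have hxc : ∀ n, Continuous (x n) := fun n =>
    continuous_tsum (fun j => hdc j n) (hSsum n) (fun j s => hdb j n s)
  have htel : ∀ J n s, x n s - X J n s = ∑' j, d (j + J) n s := by
    intro J n s
    have h1 := (hdsum n s).sum_add_tsum_nat_add J
    have h2 : ∑ j ∈ Finset.range J, d j n s = X J n s := by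
      have h3 := Finset.sum_range_sub (fun j => X j n s) J
      have h4 : X 0 n s = 0 := by rw [hX0]
      rw [h4, sub_zero] at h3
      exact h3
    rw [h2] at h1
    show (∑' j, d j n s) - X J n s = _
    rw [← h1]; ring
  have hxX : ∀ J, nrm Λ W L (fun n s => x n s - X J n s) ≤ (2⁻¹ : ℝ≥0∞) ^ J * ρ := by
    intro J
    refine le_trans (nrm_tsum_le (d := fun j => d (j + J)) (fun j n => hdc _ n) (fun n s => ?_))
      (hsumd J)
    show ‖x n s - X J n s‖ₑ ≤ _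
    rw [htel]
    exact enorm_tsum_le_tsum_enorm
  have hxρ : nrm Λ W L x ≤ ρ := by
    have h1 := hxX 0
    rw [pow_zero, one_mul] at h1
    refine le_trans (nrm_mono fun n s => ?_) h1
    have : X 0 n s = 0 := by rw [hX0]
    rw [this, sub_zero]
  have hfix : nrm Λ W L (fun n s => x n s - Ph Λ mu a b t x n s) = 0 := by
    apply eq_zero_of_le (K := ρ) hρtop
    intro J
    have h1 : (fun n s => x n s - Ph Λ mu a b t x n s) =
        fun n s => (x n s - X (J + 1) n s) + (X (J + 1) n s - Ph Λ mu a b t x n s) := by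
      funext n s; ring
    rw [h1]
    refine (nrm_add_le fun n => (hxc n).sub ((hinv (J + 1)).1 n)).trans ?_
    have h2 := hlip (X J) x (hinv J).1 hxc (hinv J).2 hxρ
    rw [← hXs J] at h2
    have h3 : nrm Λ W L (fun n s => X J n s - x n s) = nrm Λ W L (fun n s => x n s - X J n s) := by
      apply le_antisymm <;>
      · refine nrm_mono fun n s => le_of_eq ?_
        rw [← enorm_neg]; congr 1; ring
    rw [h3] at h2
    calc nrm Λ W L (fun n s => x n s - X (J + 1) n s) +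
          nrm Λ W L (fun n s => X (J + 1) n s - Ph Λ mu a b t x n s) ≤
          (2⁻¹ : ℝ≥0∞) ^ (J + 1) * ρ + 2⁻¹ * ((2⁻¹ : ℝ≥0∞) ^ J * ρ) :=
          add_le_add (hxX (J + 1)) (h2.trans (by gcongr; exact hxX J))
      _ = (2⁻¹ + 2⁻¹) * ((2⁻¹ : ℝ≥0∞) ^ J * ρ) := by rw [pow_succ]; ring
      _ = (2⁻¹ : ℝ≥0∞) ^ J * ρ := by rw [ENNReal.inv_two_add_inv_two, one_mul]
  have hfix' : ∀ n s, x n s = Ph Λ mu a b t x n s := by
    intro n s
    have h1 : W n * (Sx (fun s => x n s - Ph Λ mu a b t x n s) +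
        L n * Ix Λ (fun s => x n s - Ph Λ mu a b t x n s)) = 0 := by
      unfold nrm at hfix
      exact (ENNReal.tsum_eq_zero.1 hfix) n
    rcases mul_eq_zero.1 h1 with h2 | h2
    · exact absurd h2 (hWpos n)
    · have h3 : Sx (fun s => x n s - Ph Λ mu a b t x n s) = 0 := (add_eq_zero.1 h2).1
      have h4 := le_Sx (fun s => x n s - Ph Λ mu a b t x n s) s
      rw [h3] at h4
      have h5 : ‖x n s - Ph Λ mu a b t x n s‖ₑ = 0 := le_antisymm h4 bot_le
      rw [enorm_eq_zero, sub_eq_zero] at h5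
      exact h5
  have hxt : nrm Λ W L x ≠ ∞ := ne_top_of_le_ne_top hρtop hxρ
  have gx := gd_of_nrm hw hxc hxt
  refine ⟨x, fun n => (Sx (x n)).toReal, fun n => (hxc n).continuousOn, fun n s _ => gx.bd n s,
    gx.sm, ?_, ?_⟩
  · apply tsum_toReal_le (Λ := Λ) (la := la) hw (by positivity)
    rw [← hρ']; exact hxρ
  · intro k s hs
    rw [hfix' k s]
    unfold Ph lin duh
    rw [cl_of_mem hs]
    rfl

end Pool.Agent.MP_ae1fc5_gt
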