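import Pool.Agent.MP_ae1fc5_gt.Defs2

/-!
# MP_ae1fc5_gt, module G part 1: norms and multilinear estimates
-/

set_option autoImplicit false

open Set MeasureTheory
open scoped ENNReal

noncomputable section

namespace Pool.Agent.MP_ae1fc5_gt
namespace FP

/-- sup norm -/
def Sx (f : ℝ → ℝ) : ℝ≥0∞ := ⨆ s, ‖f s‖ₑ

/-- L1 norm -/
def Ix (Λ : ℝ) (f : ℝ → ℝ) : ℝ≥0∞ := ∫⁻ s in Icc 0 Λ, ‖f s‖ₑ

/-- the norm -/
def nrm (Λ : ℝ) (W L : ℕ → ℝ≥0∞) (x : ℕ → ℝ → ℝ) : ℝ≥0∞ :=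
  ∑' n, W n * (Sx (x n) + L n * Ix Λ (x n))

theorem le_Sx (f : ℝ → ℝ) (s : ℝ) : ‖f s‖ₑ ≤ Sx f := le_iSup (fun s => ‖f s‖ₑ) s

theorem Sx_le {f : ℝ → ℝ} {c : ℝ≥0∞} (h : ∀ s, ‖f s‖ₑ ≤ c) : Sx f ≤ c := iSup_le h

theorem aem {Λ : ℝ} {f : ℝ → ℝ} (hf : Continuous f) :
    AEMeasurable (fun r => ‖f r‖ₑ) (volume.restrict (Icc 0 Λ)) :=
  hf.enorm.aemeasurable

variable {Λ : ℝ} {W L W' : ℕ → ℝ≥0∞}

theorem int_mul_le {f g : ℝ → ℝ} (hf : Continuous f) :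
    ∫⁻ r in Icc 0 Λ, ‖f r‖ₑ * ‖g r‖ₑ ≤ Ix Λ f * Sx g := by
  unfold Ix
  rw [← lintegral_mul_const'' _ (aem hf)]
  exact lintegral_mono fun r => mul_le_mul_right (le_Sx g r) _

theorem int_mul_le' {f g : ℝ → ℝ} (hg : Continuous g) :
    ∫⁻ r in Icc 0 Λ, ‖f r‖ₑ * ‖g r‖ₑ ≤ Sx f * Ix Λ g := by
  rw [mul_comm (Sx f)]
  refine le_trans (le_of_eq ?_) (int_mul_le hg)
  exact lintegral_congr fun r => mul_comm _ _

theorem tsum_two (f g : ℕ → ℝ≥0∞) :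
    ∑' p : ℕ × ℕ, f p.1 * g p.2 = (∑' m, f m) * ∑' n, g n := by
  rw [ENNReal.tsum_prod', ← ENNReal.tsum_mul_right]
  refine tsum_congr fun m => ?_
  change ∑' b, f m * g b = _
  rw [ENNReal.tsum_mul_left]

theorem tsum_three (f g h : ℕ → ℝ≥0∞) :
    ∑' p : ℕ × ℕ × ℕ, f p.1 * (g p.2.1 * h p.2.2) = (∑' m, f m) * ((∑' n, g n) * ∑' n, h n) := by
  rw [ENNReal.tsum_prod', ← ENNReal.tsum_mul_right]
  refine tsum_congr fun m => ?_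
  rw [← tsum_two g h]
  change ∑' b : ℕ × ℕ, f m * (g b.1 * h b.2) = _
  rw [ENNReal.tsum_mul_left]

theorem bil {c : ℝ≥0∞} {β : ℕ → ℕ → ℕ → ℝ≥0∞}
    (hb : ∀ m n, ∑' k, W' k * β m n k ≤ c * (L m + L n) * W m * W n)
    {x y : ℕ → ℝ → ℝ} (hx : ∀ n, Continuous (x n)) (hy : ∀ n, Continuous (y n)) :
    ∑' k, W' k * ∫⁻ r in Icc 0 Λ, ∑' p : ℕ × ℕ, β p.1 p.2 k * (‖x p.1 r‖ₑ * ‖y p.2 r‖ₑ) ≤
      c * nrm Λ W L x * nrm Λ W L y := by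
  have h1 : ∀ k, ∫⁻ r in Icc 0 Λ, ∑' p : ℕ × ℕ, β p.1 p.2 k * (‖x p.1 r‖ₑ * ‖y p.2 r‖ₑ) =
      ∑' p : ℕ × ℕ, β p.1 p.2 k * ∫⁻ r in Icc 0 Λ, ‖x p.1 r‖ₑ * ‖y p.2 r‖ₑ := by
    intro k
    rw [lintegral_tsum]
    · refine tsum_congr fun p => ?_
      rw [lintegral_const_mul'']
      exact (aem (hx _)).mul (aem (hy _))
    · intro p
      exact ((aem (hx _)).mul (aem (hy _))).const_mul _
  have h2 : ∑' k, W' k * ∫⁻ r in Icc 0 Λ, ∑' p : ℕ × ℕ, β p.1 p.2 k * (‖x p.1 r‖ₑ * ‖y p.2 r‖ₑ) =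
      ∑' p : ℕ × ℕ, (∑' k, W' k * β p.1 p.2 k) * ∫⁻ r in Icc 0 Λ, ‖x p.1 r‖ₑ * ‖y p.2 r‖ₑ := by
    calc _ = ∑' k, ∑' p : ℕ × ℕ, W' k * (β p.1 p.2 k * ∫⁻ r in Icc 0 Λ, ‖x p.1 r‖ₑ * ‖y p.2 r‖ₑ) := by
          refine tsum_congr fun k => ?_
          rw [h1, ENNReal.tsum_mul_left]
      _ = ∑' p : ℕ × ℕ, ∑' k, W' k * (β p.1 p.2 k * ∫⁻ r in Icc 0 Λ, ‖x p.1 r‖ₑ * ‖y p.2 r‖ₑ) :=
          ENNReal.tsum_comm
      _ = _ := by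
          refine tsum_congr fun p => ?_
          rw [← ENNReal.tsum_mul_right]
          exact tsum_congr fun k => by ring
  have h3 : ∀ p : ℕ × ℕ, (∑' k, W' k * β p.1 p.2 k) * ∫⁻ r in Icc 0 Λ, ‖x p.1 r‖ₑ * ‖y p.2 r‖ₑ ≤
      c * ((W p.1 * (Sx (x p.1) + L p.1 * Ix Λ (x p.1))) *
        (W p.2 * (Sx (y p.2) + L p.2 * Ix Λ (y p.2)))) := by
    intro p
    have e1 : ∫⁻ r in Icc 0 Λ, ‖x p.1 r‖ₑ * ‖y p.2 r‖ₑ ≤ Ix Λ (x p.1) * Sx (y p.2) :=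
      int_mul_le (hx _)
    have e2 : ∫⁻ r in Icc 0 Λ, ‖x p.1 r‖ₑ * ‖y p.2 r‖ₑ ≤ Sx (x p.1) * Ix Λ (y p.2) :=
      int_mul_le' (hy _)
    set J := ∫⁻ r in Icc 0 Λ, ‖x p.1 r‖ₑ * ‖y p.2 r‖ₑ
    calc (∑' k, W' k * β p.1 p.2 k) * J ≤ (c * (L p.1 + L p.2) * W p.1 * W p.2) * J := by
          gcongr; exact hb _ _
      _ = c * (W p.1 * W p.2 * (L p.1 * J + L p.2 * J)) := by ring
      _ ≤ c * (W p.1 * W p.2 * (L p.1 * (Ix Λ (x p.1) * Sx (y p.2)) +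
            L p.2 * (Sx (x p.1) * Ix Λ (y p.2)))) := by gcongr
      _ ≤ c * (W p.1 * W p.2 * ((Sx (x p.1) + L p.1 * Ix Λ (x p.1)) *
            (Sx (y p.2) + L p.2 * Ix Λ (y p.2)))) := by
          gcongr
          have : (Sx (x p.1) + L p.1 * Ix Λ (x p.1)) * (Sx (y p.2) + L p.2 * Ix Λ (y p.2)) =
            (L p.1 * (Ix Λ (x p.1) * Sx (y p.2)) + L p.2 * (Sx (x p.1) * Ix Λ (y p.2))) +
            (Sx (x p.1) * Sx (y p.2) + L p.1 * Ix Λ (x p.1) * (L p.2 * Ix Λ (y p.2))) := by ring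
          rw [this]
          exact le_self_add
      _ = _ := by ring
  rw [h2]
  calc _ ≤ ∑' p : ℕ × ℕ, c * ((W p.1 * (Sx (x p.1) + L p.1 * Ix Λ (x p.1))) *
        (W p.2 * (Sx (y p.2) + L p.2 * Ix Λ (y p.2)))) := ENNReal.tsum_le_tsum h3
    _ = c * nrm Λ W L x * nrm Λ W L y := by
        rw [ENNReal.tsum_mul_left, mul_assoc]
        congr 1
        exact tsum_two (fun n => W n * (Sx (x n) + L n * Ix Λ (x n)))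
          (fun n => W n * (Sx (y n) + L n * Ix Λ (y n)))

theorem tril {c : ℝ≥0∞} {τ : ℕ → ℕ → ℕ → ℕ → ℝ≥0∞}
    (ht : ∀ l m n, ∑' k, W' k * τ l m n k ≤ c * (L l + L m + L n) * W l * W m * W n)
    {x y z : ℕ → ℝ → ℝ} (hx : ∀ n, Continuous (x n)) (hy : ∀ n, Continuous (y n))
    (hz : ∀ n, Continuous (z n)) :
    ∑' k, W' k * ∫⁻ r in Icc 0 Λ, ∑' p : ℕ × ℕ × ℕ, τ p.1 p.2.1 p.2.2 k *
        (‖x p.1 r‖ₑ * ‖y p.2.1 r‖ₑ * ‖z p.2.2 r‖ₑ) ≤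
      c * nrm Λ W L x * nrm Λ W L y * nrm Λ W L z := by
  have hm : ∀ p : ℕ × ℕ × ℕ, AEMeasurable (fun r => ‖x p.1 r‖ₑ * ‖y p.2.1 r‖ₑ * ‖z p.2.2 r‖ₑ)
      (volume.restrict (Icc 0 Λ)) := fun p => ((aem (hx _)).mul (aem (hy _))).mul (aem (hz _))
  have h1 : ∀ k, ∫⁻ r in Icc 0 Λ, ∑' p : ℕ × ℕ × ℕ, τ p.1 p.2.1 p.2.2 k *
        (‖x p.1 r‖ₑ * ‖y p.2.1 r‖ₑ * ‖z p.2.2 r‖ₑ) =
      ∑' p : ℕ × ℕ × ℕ, τ p.1 p.2.1 p.2.2 k *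
        ∫⁻ r in Icc 0 Λ, ‖x p.1 r‖ₑ * ‖y p.2.1 r‖ₑ * ‖z p.2.2 r‖ₑ := by
    intro k
    rw [lintegral_tsum]
    · refine tsum_congr fun p => ?_
      rw [lintegral_const_mul'']
      exact hm p
    · intro p
      exact (hm p).const_mul _
  have h2 : ∑' k, W' k * ∫⁻ r in Icc 0 Λ, ∑' p : ℕ × ℕ × ℕ, τ p.1 p.2.1 p.2.2 k *
        (‖x p.1 r‖ₑ * ‖y p.2.1 r‖ₑ * ‖z p.2.2 r‖ₑ) =
      ∑' p : ℕ × ℕ × ℕ, (∑' k, W' k * τ p.1 p.2.1 p.2.2 k) *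
        ∫⁻ r in Icc 0 Λ, ‖x p.1 r‖ₑ * ‖y p.2.1 r‖ₑ * ‖z p.2.2 r‖ₑ := by
    calc _ = ∑' k, ∑' p : ℕ × ℕ × ℕ, W' k * (τ p.1 p.2.1 p.2.2 k *
              ∫⁻ r in Icc 0 Λ, ‖x p.1 r‖ₑ * ‖y p.2.1 r‖ₑ * ‖z p.2.2 r‖ₑ) := by
          refine tsum_congr fun k => ?_
          rw [h1, ENNReal.tsum_mul_left]
      _ = ∑' p : ℕ × ℕ × ℕ, ∑' k, W' k * (τ p.1 p.2.1 p.2.2 k *
              ∫⁻ r in Icc 0 Λ, ‖x p.1 r‖ₑ * ‖y p.2.1 r‖ₑ * ‖z p.2.2 r‖ₑ) := ENNReal.tsum_comm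
      _ = _ := by
          refine tsum_congr fun p => ?_
          rw [← ENNReal.tsum_mul_right]
          exact tsum_congr fun k => by ring
  have h3 : ∀ p : ℕ × ℕ × ℕ, (∑' k, W' k * τ p.1 p.2.1 p.2.2 k) *
        ∫⁻ r in Icc 0 Λ, ‖x p.1 r‖ₑ * ‖y p.2.1 r‖ₑ * ‖z p.2.2 r‖ₑ ≤
      c * ((W p.1 * (Sx (x p.1) + L p.1 * Ix Λ (x p.1))) *
        ((W p.2.1 * (Sx (y p.2.1) + L p.2.1 * Ix Λ (y p.2.1))) *
        (W p.2.2 * (Sx (z p.2.2) + L p.2.2 * Ix Λ (z p.2.2))))) := by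
    intro p
    have e1 : ∫⁻ r in Icc 0 Λ, ‖x p.1 r‖ₑ * ‖y p.2.1 r‖ₑ * ‖z p.2.2 r‖ₑ ≤
        Ix Λ (x p.1) * Sx (y p.2.1) * Sx (z p.2.2) := by
      unfold Ix
      rw [← lintegral_mul_const'' _ (aem (hx _)),
        ← lintegral_mul_const'' _ ((aem (hx _)).mul_const _)]
      exact lintegral_mono fun r => mul_le_mul' (mul_le_mul' le_rfl (le_Sx _ r)) (le_Sx _ r)
    have e2 : ∫⁻ r in Icc 0 Λ, ‖x p.1 r‖ₑ * ‖y p.2.1 r‖ₑ * ‖z p.2.2 r‖ₑ ≤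
        Sx (x p.1) * Ix Λ (y p.2.1) * Sx (z p.2.2) := by
      unfold Ix
      rw [← lintegral_const_mul'' _ (aem (hy _)),
        ← lintegral_mul_const'' _ ((aem (hy _)).const_mul _)]
      exact lintegral_mono fun r => mul_le_mul' (mul_le_mul' (le_Sx _ r) le_rfl) (le_Sx _ r)
    have e3 : ∫⁻ r in Icc 0 Λ, ‖x p.1 r‖ₑ * ‖y p.2.1 r‖ₑ * ‖z p.2.2 r‖ₑ ≤
        Sx (x p.1) * Sx (y p.2.1) * Ix Λ (z p.2.2) := by
      unfold Ix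
      rw [← lintegral_const_mul'' _ (aem (hz _))]
      exact lintegral_mono fun r => mul_le_mul' (mul_le_mul' (le_Sx _ r) (le_Sx _ r)) le_rfl
    set J := ∫⁻ r in Icc 0 Λ, ‖x p.1 r‖ₑ * ‖y p.2.1 r‖ₑ * ‖z p.2.2 r‖ₑ
    set a1 := Sx (x p.1)
    set a2 := Sx (y p.2.1)
    set a3 := Sx (z p.2.2)
    set b1 := Ix Λ (x p.1)
    set b2 := Ix Λ (y p.2.1)
    set b3 := Ix Λ (z p.2.2)
    set l1 := L p.1
    set l2 := L p.2.1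
    set l3 := L p.2.2
    calc (∑' k, W' k * τ p.1 p.2.1 p.2.2 k) * J ≤
          (c * (l1 + l2 + l3) * W p.1 * W p.2.1 * W p.2.2) * J := by
          gcongr; exact ht _ _ _
      _ = c * (W p.1 * W p.2.1 * W p.2.2 * (l1 * J + l2 * J + l3 * J)) := by ring
      _ ≤ c * (W p.1 * W p.2.1 * W p.2.2 * (l1 * (b1 * a2 * a3) + l2 * (a1 * b2 * a3) +
            l3 * (a1 * a2 * b3))) := by gcongr
      _ ≤ c * (W p.1 * W p.2.1 * W p.2.2 * ((a1 + l1 * b1) * ((a2 + l2 * b2) * (a3 + l3 * b3)))) := by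
          gcongr
          have : (a1 + l1 * b1) * ((a2 + l2 * b2) * (a3 + l3 * b3)) =
            (l1 * (b1 * a2 * a3) + l2 * (a1 * b2 * a3) + l3 * (a1 * a2 * b3)) +
            (a1 * a2 * a3 + l1 * b1 * (l2 * b2) * a3 + l1 * b1 * a2 * (l3 * b3) +
              a1 * (l2 * b2) * (l3 * b3) + l1 * b1 * (l2 * b2) * (l3 * b3)) := by ring
          rw [this]
          exact le_self_add
      _ = _ := by ring
  rw [h2]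
  calc _ ≤ ∑' p : ℕ × ℕ × ℕ, c * ((W p.1 * (Sx (x p.1) + L p.1 * Ix Λ (x p.1))) *
        ((W p.2.1 * (Sx (y p.2.1) + L p.2.1 * Ix Λ (y p.2.1))) *
        (W p.2.2 * (Sx (z p.2.2) + L p.2.2 * Ix Λ (z p.2.2))))) := ENNReal.tsum_le_tsum h3
    _ = c * nrm Λ W L x * nrm Λ W L y * nrm Λ W L z := by
        rw [ENNReal.tsum_mul_left, mul_assoc, mul_assoc]
        congr 1
        exact tsum_three (fun n => W n * (Sx (x n) + L n * Ix Λ (x n)))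
          (fun n => W n * (Sx (y n) + L n * Ix Λ (y n)))
          (fun n => W n * (Sx (z n) + L n * Ix Λ (z n)))

/-! ### elementary properties of the norm -/

theorem Sx_add_le (f g : ℝ → ℝ) : Sx (fun s => f s + g s) ≤ Sx f + Sx g :=
  Sx_le fun s => (enorm_add_le _ _).trans (add_le_add (le_Sx f s) (le_Sx g s))

theorem Ix_add_le {f g : ℝ → ℝ} (hf : Continuous f) :
    Ix Λ (fun s => f s + g s) ≤ Ix Λ f + Ix Λ g := by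
  unfold Ix
  rw [← lintegral_add_left' (aem hf)]
  exact lintegral_mono fun s => enorm_add_le _ _

theorem nrm_mono {x y : ℕ → ℝ → ℝ} (h : ∀ n s, ‖x n s‖ₑ ≤ ‖y n s‖ₑ) :
    nrm Λ W L x ≤ nrm Λ W L y := by
  unfold nrm
  refine ENNReal.tsum_le_tsum fun n => ?_
  gcongr
  · exact Sx_le fun s => (h n s).trans (le_Sx _ s)
  · exact lintegral_mono fun s => h n s

theorem nrm_add_le {x y : ℕ → ℝ → ℝ} (hx : ∀ n, Continuous (x n)) :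
    nrm Λ W L (fun n s => x n s + y n s) ≤ nrm Λ W L x + nrm Λ W L y := by
  unfold nrm
  rw [← ENNReal.tsum_add]
  refine ENNReal.tsum_le_tsum fun n => ?_
  calc W n * (Sx (fun s => x n s + y n s) + L n * Ix Λ (fun s => x n s + y n s)) ≤
        W n * ((Sx (x n) + Sx (y n)) + L n * (Ix Λ (x n) + Ix Λ (y n))) := by
        gcongr
        · exact Sx_add_le _ _
        · exact Ix_add_le (hx n)
    _ = _ := by ring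

theorem nrm_tsum_le {d : ℕ → ℕ → ℝ → ℝ} (hd : ∀ j n, Continuous (d j n)) {x : ℕ → ℝ → ℝ}
    (h : ∀ n s, ‖x n s‖ₑ ≤ ∑' j, ‖d j n s‖ₑ) :
    nrm Λ W L x ≤ ∑' j, nrm Λ W L (d j) := by
  unfold nrm
  rw [ENNReal.tsum_comm]
  refine ENNReal.tsum_le_tsum fun n => ?_
  rw [ENNReal.tsum_mul_left]
  gcongr
  rw [ENNReal.tsum_add, ENNReal.tsum_mul_left]
  gcongr
  · exact Sx_le fun s => (h n s).trans (ENNReal.tsum_le_tsum fun j => le_Sx _ s)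
  · unfold Ix
    rw [← lintegral_tsum fun j => aem (hd j n)]
    exact lintegral_mono fun s => h n s

end FP
end Pool.Agent.MP_ae1fc5_gt
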