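import Pool.Agent.MP_ae1fc5_gt.FixedPointA

/-!
# MP_ae1fc5_gt, module G part 2: Duhamel integral
-/

set_option autoImplicit false

open Set MeasureTheory
open scoped ENNReal

noncomputable section

namespace Pool.Agent.MP_ae1fc5_gt
namespace FP

/-- clamping to the interval -/
def cl (Λ s : ℝ) : ℝ := max 0 (min s Λ)

theorem cl_mem {Λ : ℝ} (hΛ : 0 ≤ Λ) (s : ℝ) : cl Λ s ∈ Icc 0 Λ :=
  ⟨le_max_left _ _, max_le hΛ (min_le_right _ _)⟩

theorem cl_of_mem {Λ s : ℝ} (hs : s ∈ Icc 0 Λ) : cl Λ s = s := by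
  unfold cl
  rw [min_eq_left hs.2, max_eq_right hs.1]

theorem continuous_cl (Λ : ℝ) : Continuous (cl Λ) :=
  continuous_const.max (continuous_id.min continuous_const)

/-- Duhamel integral -/
def duh (Λ mu : ℝ) (g : ℝ → ℝ) (s : ℝ) : ℝ :=
  ∫ r in (0 : ℝ)..cl Λ s, Real.exp (-mu * (cl Λ s - r)) * g r

theorem duh_eq (Λ mu : ℝ) (g : ℝ → ℝ) (s : ℝ) :
    duh Λ mu g s = Real.exp (-mu * cl Λ s) * ∫ r in (0 : ℝ)..cl Λ s, Real.exp (mu * r) * g r := by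
  unfold duh
  rw [← intervalIntegral.integral_const_mul]
  apply intervalIntegral.integral_congr
  intro r _
  show Real.exp (-mu * (cl Λ s - r)) * g r = Real.exp (-mu * cl Λ s) * (Real.exp (mu * r) * g r)
  rw [← mul_assoc, ← Real.exp_add]
  congr 2
  ring

theorem continuous_duh {Λ mu : ℝ} {g : ℝ → ℝ} (hg : Continuous g) : Continuous (duh Λ mu g) := by
  have h1 : Continuous (fun s : ℝ => Real.exp (mu * s) * g s) := by fun_prop
  have h2 : Continuous (fun b : ℝ => ∫ r in (0 : ℝ)..b, Real.exp (mu * r) * g r) :=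
    intervalIntegral.continuous_primitive (fun a b => h1.intervalIntegrable a b) 0
  have h3 := continuous_cl Λ
  have h4 : duh Λ mu g = fun s => Real.exp (-mu * cl Λ s) *
      (fun b : ℝ => ∫ r in (0 : ℝ)..b, Real.exp (mu * r) * g r) (cl Λ s) := by
    funext s
    exact duh_eq Λ mu g s
  rw [h4]
  exact (Real.continuous_exp.comp (continuous_const.mul h3)).mul (h2.comp h3)

theorem enorm_duh_le {Λ mu : ℝ} (hΛ : 0 ≤ Λ) (g : ℝ → ℝ) (s : ℝ) :
    ‖duh Λ mu g s‖ₑ ≤ ∫⁻ r in Ioc 0 (cl Λ s), ‖Real.exp (-mu * (cl Λ s - r))‖ₑ * ‖g r‖ₑ := by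
  unfold duh
  rw [intervalIntegral.integral_of_le (cl_mem hΛ s).1]
  refine (enorm_integral_le_lintegral_enorm _).trans (le_of_eq ?_)
  exact lintegral_congr fun r => enorm_mul _ _

theorem Sx_duh_le {Λ mu kap : ℝ} (hΛ : 0 ≤ Λ)
    (hk1 : ∀ s ∈ Icc 0 Λ, Real.exp (-mu * s) ≤ kap) (g : ℝ → ℝ) :
    Sx (duh Λ mu g) ≤ ENNReal.ofReal kap * Ix Λ g := by
  refine Sx_le fun s => (enorm_duh_le hΛ g s).trans ?_
  have hc := cl_mem hΛ s
  calc ∫⁻ r in Ioc 0 (cl Λ s), ‖Real.exp (-mu * (cl Λ s - r))‖ₑ * ‖g r‖ₑ ≤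
      ∫⁻ r in Ioc 0 (cl Λ s), ENNReal.ofReal kap * ‖g r‖ₑ := by
        refine setLIntegral_mono' measurableSet_Ioc fun r hr => ?_
        gcongr
        rw [Real.enorm_of_nonneg (Real.exp_pos _).le]
        exact ENNReal.ofReal_le_ofReal (hk1 _ ⟨by linarith [hr.2], by linarith [hr.1, hc.2]⟩)
    _ ≤ ∫⁻ r in Icc 0 Λ, ENNReal.ofReal kap * ‖g r‖ₑ :=
        lintegral_mono_set fun r hr => ⟨hr.1.le, hr.2.trans hc.2⟩
    _ = ENNReal.ofReal kap * Ix Λ g := by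
        rw [lintegral_const_mul' _ _ ENNReal.ofReal_ne_top]; rfl

/-- kernel -/
def ker (Λ mu : ℝ) : ℝ → ℝ≥0∞ := (Icc 0 Λ).indicator fun u => ENNReal.ofReal (Real.exp (-mu * u))

theorem measurable_ker (Λ mu : ℝ) : Measurable (ker Λ mu) := by
  unfold ker
  refine Measurable.indicator ?_ measurableSet_Icc
  exact ENNReal.measurable_ofReal.comp (Real.continuous_exp.comp (continuous_const.mul continuous_id)).measurable

theorem lintegral_ker {Λ mu : ℝ} (hΛ : 0 ≤ Λ) :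
    ∫⁻ u, ker Λ mu u = ENNReal.ofReal (∫ s in (0 : ℝ)..Λ, Real.exp (-mu * s)) := by
  unfold ker
  rw [lintegral_indicator measurableSet_Icc, intervalIntegral.integral_of_le hΛ,
    ← integral_Icc_eq_integral_Ioc, ← ofReal_integral_eq_lintegral_ofReal]
  · exact (Real.continuous_exp.comp (continuous_const.mul continuous_id)).continuousOn.integrableOn_Icc
  · exact Filter.Eventually.of_forall fun s => (Real.exp_pos _).le

theorem Ix_duh_le {Λ mu : ℝ} (hΛ : 0 ≤ Λ) {g : ℝ → ℝ} (hg : Continuous g) :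
    Ix Λ (duh Λ mu g) ≤ ENNReal.ofReal (∫ s in (0 : ℝ)..Λ, Real.exp (-mu * s)) * Ix Λ g := by
  have h1 : ∀ s ∈ Icc 0 Λ, ‖duh Λ mu g s‖ₑ ≤ ∫⁻ r in Icc 0 Λ, ker Λ mu (s - r) * ‖g r‖ₑ := by
    intro s hs
    refine (enorm_duh_le hΛ g s).trans ?_
    rw [cl_of_mem hs]
    calc ∫⁻ r in Ioc 0 s, ‖Real.exp (-mu * (s - r))‖ₑ * ‖g r‖ₑ ≤
        ∫⁻ r in Ioc 0 s, ker Λ mu (s - r) * ‖g r‖ₑ := by
          refine setLIntegral_mono' measurableSet_Ioc fun r hr => ?_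
          gcongr
          have hm : s - r ∈ Icc 0 Λ := ⟨by linarith [hr.2], by linarith [hr.1, hs.2]⟩
          unfold ker
          rw [indicator_of_mem hm, Real.enorm_of_nonneg (Real.exp_pos _).le]
      _ ≤ ∫⁻ r in Icc 0 Λ, ker Λ mu (s - r) * ‖g r‖ₑ :=
          lintegral_mono_set fun r hr => ⟨hr.1.le, hr.2.trans hs.2⟩
  have hmeas : Measurable (Function.uncurry fun s r : ℝ => ker Λ mu (s - r) * ‖g r‖ₑ) := by
    apply Measurable.mul
    · exact (measurable_ker Λ mu).comp (measurable_fst.sub measurable_snd)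
    · exact hg.enorm.measurable.comp measurable_snd
  calc Ix Λ (duh Λ mu g) ≤ ∫⁻ s in Icc 0 Λ, ∫⁻ r in Icc 0 Λ, ker Λ mu (s - r) * ‖g r‖ₑ :=
        setLIntegral_mono' measurableSet_Icc h1
    _ = ∫⁻ r in Icc 0 Λ, ∫⁻ s in Icc 0 Λ, ker Λ mu (s - r) * ‖g r‖ₑ :=
        lintegral_lintegral_swap hmeas.aemeasurable
    _ ≤ ∫⁻ r in Icc 0 Λ, (∫⁻ u, ker Λ mu u) * ‖g r‖ₑ := by
        refine lintegral_mono fun r => ?_
        have hm : Measurable fun s => ker Λ mu (s - r) :=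
          (measurable_ker Λ mu).comp (measurable_id.sub_const r)
        calc ∫⁻ s in Icc 0 Λ, ker Λ mu (s - r) * ‖g r‖ₑ ≤ ∫⁻ s, ker Λ mu (s - r) * ‖g r‖ₑ :=
              setLIntegral_le_lintegral _ _
          _ = (∫⁻ s, ker Λ mu (s - r)) * ‖g r‖ₑ := lintegral_mul_const _ hm
          _ = (∫⁻ u, ker Λ mu u) * ‖g r‖ₑ := by
              rw [lintegral_sub_right_eq_self (fun u => ker Λ mu u) r]
    _ = _ := by
        rw [lintegral_ker hΛ, lintegral_const_mul' _ _ ENNReal.ofReal_ne_top]; rfl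

theorem duh_bound {Λ mu kap la : ℝ} (hΛ : 0 ≤ Λ) (hla : 0 ≤ la)
    (hk1 : ∀ s ∈ Icc 0 Λ, Real.exp (-mu * s) ≤ kap)
    (hk2 : (la + 1) * ∫ s in (0 : ℝ)..Λ, Real.exp (-mu * s) ≤ kap)
    {g : ℝ → ℝ} (hg : Continuous g) :
    Sx (duh Λ mu g) + ENNReal.ofReal (la + 1) * Ix Λ (duh Λ mu g) ≤
      2 * (ENNReal.ofReal kap * Ix Λ g) := by
  rw [two_mul]
  refine add_le_add (Sx_duh_le hΛ hk1 g) ?_
  calc ENNReal.ofReal (la + 1) * Ix Λ (duh Λ mu g) ≤ ENNReal.ofReal (la + 1) *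
        (ENNReal.ofReal (∫ s in (0 : ℝ)..Λ, Real.exp (-mu * s)) * Ix Λ g) := by
        gcongr; exact Ix_duh_le hΛ hg
    _ = ENNReal.ofReal ((la + 1) * ∫ s in (0 : ℝ)..Λ, Real.exp (-mu * s)) * Ix Λ g := by
        rw [ENNReal.ofReal_mul (by linarith), mul_assoc]
    _ ≤ _ := by gcongr

/-- the linear part -/
def lin (Λ mu a s : ℝ) : ℝ := Real.exp (-mu * cl Λ s) * a

theorem continuous_lin (Λ mu a : ℝ) : Continuous (lin Λ mu a) :=
  (Real.continuous_exp.comp (continuous_const.mul (continuous_cl Λ))).mul continuous_const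

theorem lin_bound {Λ mu kap la : ℝ} (hΛ : 0 ≤ Λ) (hla : 0 ≤ la)
    (hk1 : ∀ s ∈ Icc 0 Λ, Real.exp (-mu * s) ≤ kap)
    (hk2 : (la + 1) * ∫ s in (0 : ℝ)..Λ, Real.exp (-mu * s) ≤ kap) (a : ℝ) :
    Sx (lin Λ mu a) + ENNReal.ofReal (la + 1) * Ix Λ (lin Λ mu a) ≤
      2 * (ENNReal.ofReal kap * ‖a‖ₑ) := by
  rw [two_mul]
  refine add_le_add ?_ ?_
  · refine Sx_le fun s => ?_
    unfold lin
    rw [enorm_mul, Real.enorm_of_nonneg (Real.exp_pos _).le]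
    gcongr
    exact hk1 _ (cl_mem hΛ s)
  · have h1 : Ix Λ (lin Λ mu a) =
        ENNReal.ofReal (∫ s in (0 : ℝ)..Λ, Real.exp (-mu * s)) * ‖a‖ₑ := by
      rw [← lintegral_ker hΛ]
      unfold ker
      rw [lintegral_indicator measurableSet_Icc, ← lintegral_mul_const' _ _ enorm_ne_top]
      unfold Ix
      refine setLIntegral_congr_fun measurableSet_Icc fun s hs => ?_
      show ‖lin Λ mu a s‖ₑ = _
      unfold lin
      rw [enorm_mul, Real.enorm_of_nonneg (Real.exp_pos _).le, cl_of_mem hs]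
    rw [h1, ← mul_assoc, ← ENNReal.ofReal_mul (by linarith)]
    gcongr

end FP
end Pool.Agent.MP_ae1fc5_gt
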