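import Pool.Agent.MP_ae1fc5_gt.FixedPointB

/-!
# MP_ae1fc5_gt, module G part 3: the nonlinearity
-/

set_option autoImplicit false

open Set MeasureTheory
open scoped ENNReal

noncomputable section

namespace Pool.Agent.MP_ae1fc5_gt
namespace FP

/-- the nonlinearity -/
def NN (b : ℕ → ℕ → ℕ → ℝ) (t : ℕ → ℕ → ℕ → ℕ → ℝ) (x : ℕ → ℝ → ℝ) (k : ℕ) (r : ℝ) : ℝ :=
  (∑' p : ℕ × ℕ, b p.1 p.2 k * x p.1 r * x p.2 r) +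
    ∑' p : ℕ × ℕ × ℕ, t p.1 p.2.1 p.2.2 k * x p.1 r * x p.2.1 r * x p.2.2 r

/-- data of the nonlinearity: pointwise bounds -/
structure Dat (w la nu : ℕ → ℝ) (b : ℕ → ℕ → ℕ → ℝ) (t : ℕ → ℕ → ℕ → ℕ → ℝ) (C3 : ℝ)
    (C2 : ℕ → ℝ) : Prop where
  hla : ∀ n, 0 ≤ la n
  hw : ∀ n, 0 < w n
  hnu : ∀ n, 0 ≤ nu n
  hnu3 : ∀ n, (la n + 1) * nu n ≤ C3 * w n
  hb2 : ∀ k m n, |b m n k| ≤ C2 k * (la m + la n + 1) * nu m * nu n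
  ht2 : ∀ k l m n, |t l m n k| ≤ C2 k * (la l + la m + la n + 1) * nu l * nu m * nu n

/-- good sequences of functions -/
structure Gd (w : ℕ → ℝ) (x : ℕ → ℝ → ℝ) (A : ℕ → ℝ) : Prop where
  cont : ∀ n, Continuous (x n)
  bd : ∀ n s, |x n s| ≤ A n
  sm : Summable fun n => w n * A n

theorem Gd.nonneg {w : ℕ → ℝ} {x : ℕ → ℝ → ℝ} {A : ℕ → ℝ} (h : Gd w x A) (n : ℕ) : 0 ≤ A n :=
  (abs_nonneg _).trans (h.bd n 0)

variable {w la nu : ℕ → ℝ} {b : ℕ → ℕ → ℕ → ℝ} {t : ℕ → ℕ → ℕ → ℕ → ℝ} {C3 : ℝ} {C2 : ℕ → ℝ}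

theorem b_le (hD : Dat w la nu b t C3 C2) (k m n : ℕ) :
    |b m n k| ≤ |C2 k| * ((C3 * w m) * (C3 * w n)) := by
  have h1 := hD.hb2 k m n
  have a1 := hD.hla m
  have a2 := hD.hla n
  have n1 := hD.hnu m
  have n2 := hD.hnu n
  calc |b m n k| ≤ C2 k * (la m + la n + 1) * nu m * nu n := h1
    _ = C2 k * ((la m + la n + 1) * (nu m * nu n)) := by ring
    _ ≤ |C2 k| * ((la m + la n + 1) * (nu m * nu n)) := by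
        gcongr; exact le_abs_self _
    _ ≤ |C2 k| * (((la m + 1) * nu m) * ((la n + 1) * nu n)) := by
        refine mul_le_mul_of_nonneg_left ?_ (abs_nonneg _)
        nlinarith [mul_nonneg n1 n2, mul_nonneg (mul_nonneg a1 a2) (mul_nonneg n1 n2)]
    _ ≤ |C2 k| * ((C3 * w m) * (C3 * w n)) := by
        have p2 : 0 ≤ (la n + 1) * nu n := mul_nonneg (by linarith) n2
        have c1 := (mul_nonneg (by linarith) n1).trans (hD.hnu3 m)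
        exact mul_le_mul_of_nonneg_left (mul_le_mul (hD.hnu3 m) (hD.hnu3 n) p2 c1) (abs_nonneg _)

theorem t_le (hD : Dat w la nu b t C3 C2) (k l m n : ℕ) :
    |t l m n k| ≤ |C2 k| * ((C3 * w l) * ((C3 * w m) * (C3 * w n))) := by
  have h1 := hD.ht2 k l m n
  have a0 := hD.hla l
  have a1 := hD.hla m
  have a2 := hD.hla n
  have n0 := hD.hnu l
  have n1 := hD.hnu m
  have n2 := hD.hnu n
  calc |t l m n k| ≤ C2 k * (la l + la m + la n + 1) * nu l * nu m * nu n := h1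
    _ = C2 k * ((la l + la m + la n + 1) * (nu l * nu m * nu n)) := by ring
    _ ≤ |C2 k| * ((la l + la m + la n + 1) * (nu l * nu m * nu n)) := by
        gcongr; exact le_abs_self _
    _ ≤ |C2 k| * (((la l + 1) * nu l) * (((la m + 1) * nu m) * ((la n + 1) * nu n))) := by
        refine mul_le_mul_of_nonneg_left ?_ (abs_nonneg _)
        have e : ((la l + 1) * nu l) * (((la m + 1) * nu m) * ((la n + 1) * nu n)) =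
          (la l + 1) * (la m + 1) * (la n + 1) * (nu l * nu m * nu n) := by ring
        rw [e]
        refine mul_le_mul_of_nonneg_right ?_ (mul_nonneg (mul_nonneg n0 n1) n2)
        have := mul_nonneg a0 a1
        have := mul_nonneg a0 a2
        have := mul_nonneg a1 a2
        have := mul_nonneg (mul_nonneg a0 a1) a2
        nlinarith
    _ ≤ |C2 k| * ((C3 * w l) * ((C3 * w m) * (C3 * w n))) := by
        have p1 : 0 ≤ (la m + 1) * nu m := mul_nonneg (by linarith) n1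
        have p2 : 0 ≤ (la n + 1) * nu n := mul_nonneg (by linarith) n2
        have c1 := (mul_nonneg (by linarith) n0).trans (hD.hnu3 l)
        have c2 := p1.trans (hD.hnu3 m)
        exact mul_le_mul_of_nonneg_left (mul_le_mul (hD.hnu3 l)
          (mul_le_mul (hD.hnu3 m) (hD.hnu3 n) p2 c2) (mul_nonneg p1 p2) c1) (abs_nonneg _)

theorem sum_b (hD : Dat w la nu b t C3 C2) {A B : ℕ → ℝ} (hA : ∀ n, 0 ≤ A n) (hB : ∀ n, 0 ≤ B n)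
    (sA : Summable fun n => w n * A n) (sB : Summable fun n => w n * B n) (k : ℕ) :
    Summable fun p : ℕ × ℕ => |b p.1 p.2 k| * (A p.1 * B p.2) := by
  have h0 : Summable fun p : ℕ × ℕ => (w p.1 * A p.1) * (w p.2 * B p.2) :=
    sA.mul_of_nonneg sB (fun n => mul_nonneg (hD.hw n).le (hA n))
      (fun n => mul_nonneg (hD.hw n).le (hB n))
  refine Summable.of_nonneg_of_le (fun p => ?_) (fun p => ?_) (h0.mul_left (|C2 k| * C3 ^ 2))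
  · have := hA p.1
    have := hB p.2
    positivity
  · have h1 := b_le hD k p.1 p.2
    calc |b p.1 p.2 k| * (A p.1 * B p.2) ≤
          (|C2 k| * ((C3 * w p.1) * (C3 * w p.2))) * (A p.1 * B p.2) :=
          mul_le_mul_of_nonneg_right h1 (mul_nonneg (hA _) (hB _))
      _ = _ := by ring

theorem sum_t (hD : Dat w la nu b t C3 C2) {A B E : ℕ → ℝ} (hA : ∀ n, 0 ≤ A n) (hB : ∀ n, 0 ≤ B n)
    (hE : ∀ n, 0 ≤ E n)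
    (sA : Summable fun n => w n * A n) (sB : Summable fun n => w n * B n)
    (sE : Summable fun n => w n * E n) (k : ℕ) :
    Summable fun p : ℕ × ℕ × ℕ => |t p.1 p.2.1 p.2.2 k| * (A p.1 * (B p.2.1 * E p.2.2)) := by
  have pA : ∀ n, 0 ≤ w n * A n := fun n => mul_nonneg (hD.hw n).le (hA n)
  have pB : ∀ n, 0 ≤ w n * B n := fun n => mul_nonneg (hD.hw n).le (hB n)
  have pE : ∀ n, 0 ≤ w n * E n := fun n => mul_nonneg (hD.hw n).le (hE n)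
  have h0 : Summable fun p : ℕ × ℕ => (w p.1 * B p.1) * (w p.2 * E p.2) :=
    sB.mul_of_nonneg sE pB pE
  have h1 : Summable fun p : ℕ × ℕ × ℕ => (w p.1 * A p.1) * ((w p.2.1 * B p.2.1) * (w p.2.2 * E p.2.2)) :=
    sA.mul_of_nonneg h0 pA (fun p => mul_nonneg (pB _) (pE _))
  refine Summable.of_nonneg_of_le (fun p => ?_) (fun p => ?_) (h1.mul_left (|C2 k| * C3 ^ 3))
  · have := hA p.1
    have := hB p.2.1
    have := hE p.2.2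
    positivity
  · have h1 := t_le hD k p.1 p.2.1 p.2.2
    calc |t p.1 p.2.1 p.2.2 k| * (A p.1 * (B p.2.1 * E p.2.2)) ≤
          (|C2 k| * ((C3 * w p.1) * ((C3 * w p.2.1) * (C3 * w p.2.2)))) *
            (A p.1 * (B p.2.1 * E p.2.2)) :=
          mul_le_mul_of_nonneg_right h1 (mul_nonneg (hA _) (mul_nonneg (hB _) (hE _)))
      _ = _ := by ring

theorem term2_le {x : ℕ → ℝ → ℝ} {A : ℕ → ℝ} (hx : Gd w x A) (k : ℕ) (p : ℕ × ℕ) (r : ℝ) :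
    ‖b p.1 p.2 k * x p.1 r * x p.2 r‖ ≤ |b p.1 p.2 k| * (A p.1 * A p.2) := by
  rw [mul_assoc, norm_mul, norm_mul]
  simp only [Real.norm_eq_abs]
  exact mul_le_mul_of_nonneg_left (mul_le_mul (hx.bd _ _) (hx.bd _ _) (abs_nonneg _) (hx.nonneg _))
    (abs_nonneg _)

theorem term3_le {x : ℕ → ℝ → ℝ} {A : ℕ → ℝ} (hx : Gd w x A) (k : ℕ) (p : ℕ × ℕ × ℕ) (r : ℝ) :
    ‖t p.1 p.2.1 p.2.2 k * x p.1 r * x p.2.1 r * x p.2.2 r‖ ≤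
      |t p.1 p.2.1 p.2.2 k| * (A p.1 * (A p.2.1 * A p.2.2)) := by
  rw [mul_assoc, mul_assoc, norm_mul, norm_mul, norm_mul]
  simp only [Real.norm_eq_abs]
  exact mul_le_mul_of_nonneg_left (mul_le_mul (hx.bd _ _)
    (mul_le_mul (hx.bd _ _) (hx.bd _ _) (abs_nonneg _) (hx.nonneg _))
    (mul_nonneg (abs_nonneg _) (abs_nonneg _)) (hx.nonneg _)) (abs_nonneg _)

theorem summable2 (hD : Dat w la nu b t C3 C2) {x : ℕ → ℝ → ℝ} {A : ℕ → ℝ} (hx : Gd w x A)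
    (k : ℕ) (r : ℝ) : Summable fun p : ℕ × ℕ => b p.1 p.2 k * x p.1 r * x p.2 r :=
  Summable.of_norm_bounded (sum_b hD hx.nonneg hx.nonneg hx.sm hx.sm k)
    (fun p => term2_le hx k p r)

theorem summable3 (hD : Dat w la nu b t C3 C2) {x : ℕ → ℝ → ℝ} {A : ℕ → ℝ} (hx : Gd w x A)
    (k : ℕ) (r : ℝ) :
    Summable fun p : ℕ × ℕ × ℕ => t p.1 p.2.1 p.2.2 k * x p.1 r * x p.2.1 r * x p.2.2 r :=
  Summable.of_norm_bounded (sum_t hD hx.nonneg hx.nonneg hx.nonneg hx.sm hx.sm hx.sm k)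
    (fun p => term3_le hx k p r)

theorem continuous_NN (hD : Dat w la nu b t C3 C2) {x : ℕ → ℝ → ℝ} {A : ℕ → ℝ} (hx : Gd w x A)
    (k : ℕ) : Continuous (NN b t x k) := by
  unfold NN
  refine Continuous.add ?_ ?_
  · refine continuous_tsum (fun p => ?_) (sum_b hD hx.nonneg hx.nonneg hx.sm hx.sm k)
      (fun p r => term2_le hx k p r)
    exact (continuous_const.mul (hx.cont _)).mul (hx.cont _)
  · refine continuous_tsum (fun p => ?_)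
      (sum_t hD hx.nonneg hx.nonneg hx.nonneg hx.sm hx.sm hx.sm k) (fun p r => term3_le hx k p r)
    exact ((continuous_const.mul (hx.cont _)).mul (hx.cont _)).mul (hx.cont _)

theorem NN_sub_le (hD : Dat w la nu b t C3 C2) {x y : ℕ → ℝ → ℝ} {A B : ℕ → ℝ} (hx : Gd w x A)
    (hy : Gd w y B) (k : ℕ) (r : ℝ) :
    ‖NN b t x k r - NN b t y k r‖ₑ ≤
      (∑' p : ℕ × ℕ, ‖b p.1 p.2 k‖ₑ * (‖x p.1 r - y p.1 r‖ₑ * ‖x p.2 r‖ₑ)) +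
      (∑' p : ℕ × ℕ, ‖b p.1 p.2 k‖ₑ * (‖y p.1 r‖ₑ * ‖x p.2 r - y p.2 r‖ₑ)) +
      (∑' p : ℕ × ℕ × ℕ, ‖t p.1 p.2.1 p.2.2 k‖ₑ *
        (‖x p.1 r - y p.1 r‖ₑ * ‖x p.2.1 r‖ₑ * ‖x p.2.2 r‖ₑ)) +
      (∑' p : ℕ × ℕ × ℕ, ‖t p.1 p.2.1 p.2.2 k‖ₑ *
        (‖y p.1 r‖ₑ * ‖x p.2.1 r - y p.2.1 r‖ₑ * ‖x p.2.2 r‖ₑ)) +
      (∑' p : ℕ × ℕ × ℕ, ‖t p.1 p.2.1 p.2.2 k‖ₑ *
        (‖y p.1 r‖ₑ * ‖y p.2.1 r‖ₑ * ‖x p.2.2 r - y p.2.2 r‖ₑ)) := by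
  have e1 : NN b t x k r - NN b t y k r =
      (∑' p : ℕ × ℕ, (b p.1 p.2 k * x p.1 r * x p.2 r - b p.1 p.2 k * y p.1 r * y p.2 r)) +
      ∑' p : ℕ × ℕ × ℕ, (t p.1 p.2.1 p.2.2 k * x p.1 r * x p.2.1 r * x p.2.2 r -
        t p.1 p.2.1 p.2.2 k * y p.1 r * y p.2.1 r * y p.2.2 r) := by
    rw [(summable2 hD hx k r).tsum_sub (summable2 hD hy k r),
      (summable3 hD hx k r).tsum_sub (summable3 hD hy k r)]
    unfold NN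
    ring
  have e2 : ‖∑' p : ℕ × ℕ, (b p.1 p.2 k * x p.1 r * x p.2 r - b p.1 p.2 k * y p.1 r * y p.2 r)‖ₑ ≤
      (∑' p : ℕ × ℕ, ‖b p.1 p.2 k‖ₑ * (‖x p.1 r - y p.1 r‖ₑ * ‖x p.2 r‖ₑ)) +
      (∑' p : ℕ × ℕ, ‖b p.1 p.2 k‖ₑ * (‖y p.1 r‖ₑ * ‖x p.2 r - y p.2 r‖ₑ)) := by
    rw [← ENNReal.tsum_add]
    refine enorm_tsum_le_tsum_enorm.trans (ENNReal.tsum_le_tsum fun p => ?_)
    have : b p.1 p.2 k * x p.1 r * x p.2 r - b p.1 p.2 k * y p.1 r * y p.2 r =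
      b p.1 p.2 k * ((x p.1 r - y p.1 r) * x p.2 r) + b p.1 p.2 k * (y p.1 r * (x p.2 r - y p.2 r)) := by
      ring
    rw [this]
    refine (enorm_add_le _ _).trans (le_of_eq ?_)
    simp only [enorm_mul]
  have e3 : ‖∑' p : ℕ × ℕ × ℕ, (t p.1 p.2.1 p.2.2 k * x p.1 r * x p.2.1 r * x p.2.2 r -
        t p.1 p.2.1 p.2.2 k * y p.1 r * y p.2.1 r * y p.2.2 r)‖ₑ ≤
      (∑' p : ℕ × ℕ × ℕ, ‖t p.1 p.2.1 p.2.2 k‖ₑ *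
        (‖x p.1 r - y p.1 r‖ₑ * ‖x p.2.1 r‖ₑ * ‖x p.2.2 r‖ₑ)) +
      (∑' p : ℕ × ℕ × ℕ, ‖t p.1 p.2.1 p.2.2 k‖ₑ *
        (‖y p.1 r‖ₑ * ‖x p.2.1 r - y p.2.1 r‖ₑ * ‖x p.2.2 r‖ₑ)) +
      (∑' p : ℕ × ℕ × ℕ, ‖t p.1 p.2.1 p.2.2 k‖ₑ *
        (‖y p.1 r‖ₑ * ‖y p.2.1 r‖ₑ * ‖x p.2.2 r - y p.2.2 r‖ₑ)) := by
    rw [← ENNReal.tsum_add, ← ENNReal.tsum_add]
    refine enorm_tsum_le_tsum_enorm.trans (ENNReal.tsum_le_tsum fun p => ?_)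
    have : t p.1 p.2.1 p.2.2 k * x p.1 r * x p.2.1 r * x p.2.2 r -
        t p.1 p.2.1 p.2.2 k * y p.1 r * y p.2.1 r * y p.2.2 r =
      t p.1 p.2.1 p.2.2 k * ((x p.1 r - y p.1 r) * x p.2.1 r * x p.2.2 r) +
      t p.1 p.2.1 p.2.2 k * (y p.1 r * (x p.2.1 r - y p.2.1 r) * x p.2.2 r) +
      t p.1 p.2.1 p.2.2 k * (y p.1 r * y p.2.1 r * (x p.2.2 r - y p.2.2 r)) := by
      ring
    rw [this]
    refine (enorm_add_le _ _).trans ?_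
    refine (add_le_add (enorm_add_le _ _) le_rfl).trans (le_of_eq ?_)
    simp only [enorm_mul]
  rw [e1]
  refine (enorm_add_le _ _).trans ((add_le_add e2 e3).trans (le_of_eq ?_))
  ring

theorem lint5 {μ : Measure ℝ} {f f1 f2 f3 f4 f5 : ℝ → ℝ≥0∞} (h1 : AEMeasurable f1 μ)
    (h2 : AEMeasurable f2 μ) (h3 : AEMeasurable f3 μ) (h4 : AEMeasurable f4 μ)
    (h : ∀ r, f r ≤ f1 r + f2 r + f3 r + f4 r + f5 r) :
    ∫⁻ r, f r ∂μ ≤ ∫⁻ r, f1 r ∂μ + ∫⁻ r, f2 r ∂μ + ∫⁻ r, f3 r ∂μ + ∫⁻ r, f4 r ∂μ +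
      ∫⁻ r, f5 r ∂μ := by
  have e1 : ∫⁻ r, (f1 r + f2 r) ∂μ = ∫⁻ r, f1 r ∂μ + ∫⁻ r, f2 r ∂μ := lintegral_add_left' h1 _
  have e2 : ∫⁻ r, (f1 r + f2 r + f3 r) ∂μ = ∫⁻ r, (f1 r + f2 r) ∂μ + ∫⁻ r, f3 r ∂μ :=
    lintegral_add_left' (h1.add h2) _
  have e3 : ∫⁻ r, (f1 r + f2 r + f3 r + f4 r) ∂μ = ∫⁻ r, (f1 r + f2 r + f3 r) ∂μ + ∫⁻ r, f4 r ∂μ :=
    lintegral_add_left' ((h1.add h2).add h3) _
  have e4 : ∫⁻ r, (f1 r + f2 r + f3 r + f4 r + f5 r) ∂μ =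
      ∫⁻ r, (f1 r + f2 r + f3 r + f4 r) ∂μ + ∫⁻ r, f5 r ∂μ :=
    lintegral_add_left' (((h1.add h2).add h3).add h4) _
  rw [← e1, ← e2, ← e3, ← e4]
  exact lintegral_mono h

theorem NN_int_sub_le (hD : Dat w la nu b t C3 C2) {Λ : ℝ} {W L W' : ℕ → ℝ≥0∞} {c : ℝ≥0∞}
    (hb : ∀ m n, ∑' k, W' k * ‖b m n k‖ₑ ≤ c * (L m + L n) * W m * W n)
    (ht : ∀ l m n, ∑' k, W' k * ‖t l m n k‖ₑ ≤ c * (L l + L m + L n) * W l * W m * W n)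
    {x y : ℕ → ℝ → ℝ} {A B : ℕ → ℝ} (hx : Gd w x A) (hy : Gd w y B) :
    ∑' k, W' k * Ix Λ (fun r => NN b t x k r - NN b t y k r) ≤
      c * nrm Λ W L (fun n s => x n s - y n s) * (nrm Λ W L x + nrm Λ W L y +
        (nrm Λ W L x ^ 2 + nrm Λ W L x * nrm Λ W L y + nrm Λ W L y ^ 2)) := by
  have cd : ∀ n, Continuous (fun s => x n s - y n s) := fun n => (hx.cont n).sub (hy.cont n)
  have m2 : ∀ (u v : ℕ → ℝ → ℝ), (∀ n, Continuous (u n)) → (∀ n, Continuous (v n)) → ∀ k,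
      AEMeasurable (fun r => ∑' p : ℕ × ℕ, ‖b p.1 p.2 k‖ₑ * (‖u p.1 r‖ₑ * ‖v p.2 r‖ₑ))
        (volume.restrict (Icc 0 Λ)) := by
    intro u v hu hv k
    exact AEMeasurable.tsum fun p => ((aem (hu _)).mul (aem (hv _))).const_mul _
  have m3 : ∀ (u v z : ℕ → ℝ → ℝ), (∀ n, Continuous (u n)) → (∀ n, Continuous (v n)) →
      (∀ n, Continuous (z n)) → ∀ k,
      AEMeasurable (fun r => ∑' p : ℕ × ℕ × ℕ, ‖t p.1 p.2.1 p.2.2 k‖ₑ *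
        (‖u p.1 r‖ₑ * ‖v p.2.1 r‖ₑ * ‖z p.2.2 r‖ₑ)) (volume.restrict (Icc 0 Λ)) := by
    intro u v z hu hv hz k
    exact AEMeasurable.tsum fun p =>
      (((aem (hu _)).mul (aem (hv _))).mul (aem (hz _))).const_mul _
  have h1 : ∀ k, Ix Λ (fun r => NN b t x k r - NN b t y k r) ≤
      (∫⁻ r in Icc 0 Λ, ∑' p : ℕ × ℕ, ‖b p.1 p.2 k‖ₑ * (‖x p.1 r - y p.1 r‖ₑ * ‖x p.2 r‖ₑ)) +
      (∫⁻ r in Icc 0 Λ, ∑' p : ℕ × ℕ, ‖b p.1 p.2 k‖ₑ * (‖y p.1 r‖ₑ * ‖x p.2 r - y p.2 r‖ₑ)) +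
      (∫⁻ r in Icc 0 Λ, ∑' p : ℕ × ℕ × ℕ, ‖t p.1 p.2.1 p.2.2 k‖ₑ *
        (‖x p.1 r - y p.1 r‖ₑ * ‖x p.2.1 r‖ₑ * ‖x p.2.2 r‖ₑ)) +
      (∫⁻ r in Icc 0 Λ, ∑' p : ℕ × ℕ × ℕ, ‖t p.1 p.2.1 p.2.2 k‖ₑ *
        (‖y p.1 r‖ₑ * ‖x p.2.1 r - y p.2.1 r‖ₑ * ‖x p.2.2 r‖ₑ)) +
      (∫⁻ r in Icc 0 Λ, ∑' p : ℕ × ℕ × ℕ, ‖t p.1 p.2.1 p.2.2 k‖ₑ *
        (‖y p.1 r‖ₑ * ‖y p.2.1 r‖ₑ * ‖x p.2.2 r - y p.2.2 r‖ₑ)) := by
    intro k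
    unfold Ix
    have q1 := m2 (fun n s => x n s - y n s) x cd hx.cont k
    have q2 := m2 y (fun n s => x n s - y n s) hy.cont cd k
    have q3 := m3 (fun n s => x n s - y n s) x x cd hx.cont hx.cont k
    have q4 := m3 y (fun n s => x n s - y n s) x hy.cont cd hx.cont k
    exact lint5 q1 q2 q3 q4 (fun r => NN_sub_le hD hx hy k r)
  have h2 : ∑' k, W' k * Ix Λ (fun r => NN b t x k r - NN b t y k r) ≤
      (∑' k, W' k * ∫⁻ r in Icc 0 Λ, ∑' p : ℕ × ℕ, ‖b p.1 p.2 k‖ₑ * (‖x p.1 r - y p.1 r‖ₑ * ‖x p.2 r‖ₑ)) +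
      (∑' k, W' k * ∫⁻ r in Icc 0 Λ, ∑' p : ℕ × ℕ, ‖b p.1 p.2 k‖ₑ * (‖y p.1 r‖ₑ * ‖x p.2 r - y p.2 r‖ₑ)) +
      (∑' k, W' k * ∫⁻ r in Icc 0 Λ, ∑' p : ℕ × ℕ × ℕ, ‖t p.1 p.2.1 p.2.2 k‖ₑ *
        (‖x p.1 r - y p.1 r‖ₑ * ‖x p.2.1 r‖ₑ * ‖x p.2.2 r‖ₑ)) +
      (∑' k, W' k * ∫⁻ r in Icc 0 Λ, ∑' p : ℕ × ℕ × ℕ, ‖t p.1 p.2.1 p.2.2 k‖ₑ *
        (‖y p.1 r‖ₑ * ‖x p.2.1 r - y p.2.1 r‖ₑ * ‖x p.2.2 r‖ₑ)) +
      (∑' k, W' k * ∫⁻ r in Icc 0 Λ, ∑' p : ℕ × ℕ × ℕ, ‖t p.1 p.2.1 p.2.2 k‖ₑ *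
        (‖y p.1 r‖ₑ * ‖y p.2.1 r‖ₑ * ‖x p.2.2 r - y p.2.2 r‖ₑ)) := by
    rw [← ENNReal.tsum_add, ← ENNReal.tsum_add, ← ENNReal.tsum_add, ← ENNReal.tsum_add]
    refine ENNReal.tsum_le_tsum fun k => ?_
    refine (mul_le_mul_right (h1 k) (W' k)).trans (le_of_eq ?_)
    simp only [mul_add]
  refine h2.trans ?_
  have g1 := bil (Λ := Λ) hb cd hx.cont
  have g2 := bil (Λ := Λ) hb hy.cont cd
  have g3 := tril (Λ := Λ) ht cd hx.cont hx.cont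
  have g4 := tril (Λ := Λ) ht hy.cont cd hx.cont
  have g5 := tril (Λ := Λ) ht hy.cont hy.cont cd
  refine (add_le_add (add_le_add (add_le_add (add_le_add g1 g2) g3) g4) g5).trans (le_of_eq ?_)
  ring

end FP
end Pool.Agent.MP_ae1fc5_gt
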