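import Pool.Agent.MP_ae1fc5_gt.Defs2

/-!
# MP_ae1fc5_gt, module B: the Ricci tensor of rotationally symmetric metrics
-/

open scoped Quaternion ContDiff Matrix Topology
open Set

noncomputable section

namespace Pool.Agent.MP_ae1fc5_gt

namespace RicciRot

/-- Derivative of a scalar function along the three frame fields. -/
def HD (f : ℍ[ℝ] → ℝ) (d : Fin 3 → ℝ) (x : ℍ[ℝ]) : Prop :=
  ∃ L : ℍ[ℝ] →L[ℝ] ℝ, HasFDerivAt f L x ∧ ∀ i, L (x * im i) = d i

lemma HD.D_eq {f : ℍ[ℝ] → ℝ} {d : Fin 3 → ℝ} {x : ℍ[ℝ]} (h : HD f d x) (i : Fin 3) :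
    D i f x = d i := by
  obtain ⟨L, hL, hd⟩ := h
  rw [D, hL.fderiv, hd i]

lemma HD.const (c : ℝ) (x : ℍ[ℝ]) : HD (fun _ => c) (fun _ => 0) x :=
  ⟨0, hasFDerivAt_const c x, fun i => by simp⟩

lemma HD.add {f g : ℍ[ℝ] → ℝ} {d e : Fin 3 → ℝ} {x : ℍ[ℝ]} (hf : HD f d x) (hg : HD g e x) :
    HD (fun z => f z + g z) (fun i => d i + e i) x := by
  obtain ⟨L, hL, hd⟩ := hf
  obtain ⟨M, hM, he⟩ := hg
  exact ⟨L + M, hL.add hM, fun i => by simp [hd i, he i]⟩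

lemma HD.sub {f g : ℍ[ℝ] → ℝ} {d e : Fin 3 → ℝ} {x : ℍ[ℝ]} (hf : HD f d x) (hg : HD g e x) :
    HD (fun z => f z - g z) (fun i => d i - e i) x := by
  obtain ⟨L, hL, hd⟩ := hf
  obtain ⟨M, hM, he⟩ := hg
  exact ⟨L - M, hL.sub hM, fun i => by simp [hd i, he i]⟩

lemma HD.mul {f g : ℍ[ℝ] → ℝ} {d e : Fin 3 → ℝ} {x : ℍ[ℝ]} (hf : HD f d x) (hg : HD g e x) :
    HD (fun z => f z * g z) (fun i => d i * g x + f x * e i) x := by
  obtain ⟨L, hL, hd⟩ := hf
  obtain ⟨M, hM, he⟩ := hg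
  exact ⟨f x • M + g x • L, hL.mul hM, fun i => by simp [hd i, he i]; ring⟩

lemma HD.congr {f g : ℍ[ℝ] → ℝ} {d e : Fin 3 → ℝ} {x : ℍ[ℝ]} (hf : HD f d x)
    (hfg : g =ᶠ[𝓝 x] f) (hde : ∀ i, e i = d i) : HD g e x := by
  obtain ⟨L, hL, hd⟩ := hf
  exact ⟨L, hL.congr_of_eventuallyEq hfg, fun i => by rw [hd i, hde i]⟩

/-- `Re x / |x|`. -/
def eta (x : ℍ[ℝ]) : ℝ := x.re / ‖x‖

/-- `(Im x)_i / |x|`. -/
def xi (x : ℍ[ℝ]) (i : Fin 3) : ℝ := ![x.imI, x.imJ, x.imK] i / ‖x‖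

lemma rot_apply (α β : ℝ → ℝ) (x : ℍ[ℝ]) (i j : Fin 3) :
    rot α β x i j = α (eta x) * (if i = j then 1 else 0) + β (eta x) * (xi x i * xi x j) := rfl

lemma norm_sq_eq (x : ℍ[ℝ]) : ‖x‖ ^ 2 = x.re ^ 2 + x.imI ^ 2 + x.imJ ^ 2 + x.imK ^ 2 := by
  rw [sq, ← Quaternion.normSq_eq_norm_mul_self, Quaternion.normSq_def']

lemma sum_xi_sq (x : ℍ[ℝ]) (hx : x ≠ 0) :
    xi x 0 ^ 2 + xi x 1 ^ 2 + xi x 2 ^ 2 = 1 - eta x ^ 2 := by
  have hn : ‖x‖ ≠ 0 := norm_ne_zero_iff.mpr hx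
  have h := norm_sq_eq x
  simp only [xi, eta, Matrix.cons_val_zero, Matrix.cons_val_one, Matrix.cons_val]
  field_simp
  linarith

lemma eta_mem (x : ℍ[ℝ]) (hx : x ≠ 0) : eta x ∈ I1 := by
  have h := sum_xi_sq x hx
  have h2 : eta x ^ 2 ≤ 1 := by nlinarith [sq_nonneg (xi x 0), sq_nonneg (xi x 1), sq_nonneg (xi x 2)]
  exact abs_le.mp ((sq_le_one_iff_abs_le_one _).mp h2)

lemma mul_im_comp (x : ℍ[ℝ]) (i : Fin 3) :
    (x * im i).re = -![x.imI, x.imJ, x.imK] i ∧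
    ![(x * im i).imI, (x * im i).imJ, (x * im i).imK] =
      fun j => x.re * (if i = j then 1 else 0) + ∑ l, eps i j l * ![x.imI, x.imJ, x.imK] l := by
  constructor
  · rw [Quaternion.re_mul]
    fin_cases i <;> simp [im]
  · rw [Quaternion.imI_mul, Quaternion.imJ_mul, Quaternion.imK_mul]
    funext j
    fin_cases i <;> fin_cases j <;> simp [im, eps, Fin.sum_univ_three] <;> norm_num

lemma inner_mul_im (x : ℍ[ℝ]) (i : Fin 3) : inner ℝ x (x * im i) = 0 := by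
  rw [Quaternion.inner_def, Quaternion.re_mul, Quaternion.re_star, Quaternion.imI_star,
    Quaternion.imJ_star, Quaternion.imK_star, Quaternion.re_mul, Quaternion.imI_mul,
    Quaternion.imJ_mul, Quaternion.imK_mul]
  fin_cases i <;> simp [im] <;> ring

lemma hd_norm (x : ℍ[ℝ]) (hx : x ≠ 0) : HD (fun z => ‖z‖⁻¹) (fun _ => 0) x := by
  have hn : ‖x‖ ≠ 0 := norm_ne_zero_iff.mpr hx
  have h1 : HasFDerivAt (fun z : ℍ[ℝ] => ‖z‖ ^ 2) (2 • (innerSL ℝ x)) x :=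
    (hasStrictFDerivAt_norm_sq x).hasFDerivAt
  have h2 := (h1.sqrt (by positivity))
  have h3 := (hasDerivAt_inv (x := √(‖x‖ ^ 2)) (by positivity)).comp_hasFDerivAt x h2
  refine ⟨_, h3.congr_of_eventuallyEq (Filter.Eventually.of_forall fun z => ?_), fun i => ?_⟩
  · simp
  · simp [inner_mul_im]

/-- the real part as a continuous linear map -/
def reL : ℍ[ℝ] →L[ℝ] ℝ := ⟨⟨⟨fun q => q.re, by simp⟩, by simp⟩, Quaternion.continuous_re⟩

/-- the imaginary parts as continuous linear maps -/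
def imL : Fin 3 → (ℍ[ℝ] →L[ℝ] ℝ) :=
  ![⟨⟨⟨fun q => q.imI, by simp⟩, by simp⟩, Quaternion.continuous_imI⟩,
    ⟨⟨⟨fun q => q.imJ, by simp⟩, by simp⟩, Quaternion.continuous_imJ⟩,
    ⟨⟨⟨fun q => q.imK, by simp⟩, by simp⟩, Quaternion.continuous_imK⟩]

lemma imL_apply (i : Fin 3) (x : ℍ[ℝ]) : imL i x = ![x.imI, x.imJ, x.imK] i := by
  fin_cases i <;> rfl

lemma reL_apply (x : ℍ[ℝ]) : reL x = x.re := rfl

lemma hd_eta (x : ℍ[ℝ]) (hx : x ≠ 0) : HD eta (fun i => -xi x i) x := by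
  have h : HD (fun z : ℍ[ℝ] => z.re) (fun i => (x * im i).re) x :=
    ⟨reL, reL.hasFDerivAt, fun i => rfl⟩
  refine (h.mul (hd_norm x hx)).congr (Filter.Eventually.of_forall fun z => ?_) fun i => ?_
  · simp [eta, div_eq_mul_inv]
  · rw [(mul_im_comp x i).1]
    simp [xi, div_eq_mul_inv]

/-- The derivative of `xi j` along `E i`. -/
def X (x : ℍ[ℝ]) (i j : Fin 3) : ℝ :=
  eta x * (if i = j then 1 else 0) + ∑ l, eps i j l * xi x l

lemma hd_xi (x : ℍ[ℝ]) (hx : x ≠ 0) (j : Fin 3) : HD (fun z => xi z j) (fun i => X x i j) x := by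
  have h : HD (fun z : ℍ[ℝ] => imL j z) (fun i => imL j (x * im i)) x :=
    ⟨imL j, (imL j).hasFDerivAt, fun i => rfl⟩
  refine (h.mul (hd_norm x hx)).congr (Filter.Eventually.of_forall fun z => ?_) fun i => ?_
  · simp only [imL_apply, xi, div_eq_mul_inv]
  · rw [imL_apply, (mul_im_comp x i).2]
    simp only [X, xi, eta, div_eq_mul_inv, Finset.sum_mul, add_mul, mul_zero, add_zero]
    congr 1
    · ring
    · exact Finset.sum_congr rfl fun l _ => by ring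

lemma hd_comp (x : ℍ[ℝ]) (hx : x ≠ 0) (f : ℝ → ℝ) (f1 : ℝ)
    (hf : HasDerivWithinAt f f1 I1 (eta x)) :
    HD (fun z => f (eta z)) (fun i => -(f1 * xi x i)) x := by
  obtain ⟨L, hL, hd⟩ := hd_eta x hx
  have h1 : HasFDerivWithinAt eta L {0}ᶜ x := hL.hasFDerivWithinAt
  have h2 := hf.comp_hasFDerivWithinAt x h1 (fun z hz => eta_mem z hz)
  have h3 := h2.hasFDerivAt (IsOpen.mem_nhds isOpen_compl_singleton hx)
  refine ⟨_, h3, fun i => ?_⟩
  simp [hd i]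

/-- The Kronecker symbol. -/
def dl (i j : Fin 3) : ℝ := if i = j then 1 else 0

/-- Claimed Christoffel symbols. -/
def Gam (u p r : ℝ) (x : ℍ[ℝ]) (i j k : Fin 3) : ℝ :=
  eps i j k - u * (xi x i * dl j k + xi x j * dl i k) + p * dl i j * xi x k
    + r * (xi x i * xi x j * xi x k)

/-- Derivative of the claimed Christoffel symbols along `E l`. -/
def dGam (u u1 p p1 r r1 : ℝ) (x : ℍ[ℝ]) (i j k l : Fin 3) : ℝ :=
  u1 * xi x l * (xi x i * dl j k + xi x j * dl i k) - u * (X x l i * dl j k + X x l j * dl i k)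
    - p1 * xi x l * dl i j * xi x k + p * dl i j * X x l k
    - r1 * xi x l * (xi x i * xi x j * xi x k)
    + r * (X x l i * xi x j * xi x k + xi x i * X x l j * xi x k + xi x i * xi x j * X x l k)

lemma hd_Gam (u p r : ℝ → ℝ) (u1 p1 r1 : ℝ) (x : ℍ[ℝ]) (hx : x ≠ 0)
    (hu : HasDerivWithinAt u u1 I1 (eta x)) (hp : HasDerivWithinAt p p1 I1 (eta x))
    (hr : HasDerivWithinAt r r1 I1 (eta x)) (i j k : Fin 3) :
    HD (fun z => Gam (u (eta z)) (p (eta z)) (r (eta z)) z i j k)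
      (fun l => dGam (u (eta x)) u1 (p (eta x)) p1 (r (eta x)) r1 x i j k l) x := by
  have hu' := hd_comp x hx u u1 hu
  have hp' := hd_comp x hx p p1 hp
  have hr' := hd_comp x hx r r1 hr
  have h := ((((HD.const (eps i j k) x).sub (hu'.mul (((hd_xi x hx i).mul (HD.const (dl j k) x)).add
    ((hd_xi x hx j).mul (HD.const (dl i k) x))))).add
    ((hp'.mul (HD.const (dl i j) x)).mul (hd_xi x hx k))).add
    (hr'.mul (((hd_xi x hx i).mul (hd_xi x hx j)).mul (hd_xi x hx k))))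
  refine h.congr (Filter.Eventually.of_forall fun z => ?_) fun l => ?_
  · simp only [Gam]
  · simp only [dGam]
    ring

/-- The inverse matrix of `rot α β x`. -/
def rotInv (α β : ℝ → ℝ) (x : ℍ[ℝ]) : Matrix (Fin 3) (Fin 3) ℝ :=
  Matrix.of fun i j => (α (eta x))⁻¹ *
      (dl i j - β (eta x) / (α (eta x) + β (eta x) * (1 - eta x ^ 2)) * (xi x i * xi x j))

lemma rot_mul_inv (α β : ℝ → ℝ) (x : ℍ[ℝ]) (hx : x ≠ 0) (ha : α (eta x) ≠ 0)
    (hA : α (eta x) + β (eta x) * (1 - eta x ^ 2) ≠ 0) :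
    rot α β x * rotInv α β x = 1 := by
  ext i j
  rw [Matrix.mul_apply, Fin.sum_univ_three, rotInv]
  simp only [rot_apply, Matrix.of_apply, Matrix.one_apply]
  rw [← sum_xi_sq x hx] at hA ⊢
  generalize α (eta x) = a at *
  generalize β (eta x) = b at *
  generalize xi x = ξ at *
  fin_cases i <;> fin_cases j <;> simp [dl] <;> field_simp <;> ring

lemma inv_rot (α β : ℝ → ℝ) (x : ℍ[ℝ]) (hx : x ≠ 0) (ha : α (eta x) ≠ 0)
    (hA : α (eta x) + β (eta x) * (1 - eta x ^ 2) ≠ 0) :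
    (rot α β x)⁻¹ = rotInv α β x :=
  Matrix.inv_eq_right_inv (rot_mul_inv α β x hx ha hA)

lemma chrLow_rot (α β : ℝ → ℝ) (a1 b1 u p r : ℝ) (x : ℍ[ℝ]) (hx : x ≠ 0)
    (hα : HasDerivWithinAt α a1 I1 (eta x)) (hβ : HasDerivWithinAt β b1 I1 (eta x))
    (hu : u * α (eta x) = a1 / 2)
    (hp : p * (α (eta x) + β (eta x) * (1 - eta x ^ 2)) = a1 / 2 + β (eta x) * eta x)
    (hr : r * (α (eta x) + β (eta x) * (1 - eta x ^ 2)) = 2 * u * β (eta x) - b1 / 2)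
    (i j k : Fin 3) :
    chrLow (rot α β) x i j k = ∑ l, rot α β x k l * Gam u p r x i j l := by
  have hD : ∀ i j k, D i (fun z => rot α β z j k) x =
      -(a1 * xi x i) * dl j k - b1 * xi x i * (xi x j * xi x k)
        + β (eta x) * (X x i j * xi x k + xi x j * X x i k) := by
    intro i j k
    have hα' := hd_comp x hx α a1 hα
    have hβ' := hd_comp x hx β b1 hβ
    have h := (hα'.mul (HD.const (dl j k) x)).add (hβ'.mul ((hd_xi x hx j).mul (hd_xi x hx k)))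
    rw [(h.congr (g := fun z => rot α β z j k) (Filter.Eventually.of_forall fun z => rfl)
      fun l => rfl).D_eq i]
    ring
  have key : chrLow (rot α β) x i j k - ∑ l, rot α β x k l * Gam u p r x i j l =
      (xi x i * dl j k + xi x j * dl i k) * (u * α (eta x) - a1 / 2)
      - dl i j * xi x k * (p * (α (eta x) + β (eta x) * (xi x 0 ^ 2 + xi x 1 ^ 2 + xi x 2 ^ 2))
        - (a1 / 2 + β (eta x) * eta x))
      - xi x i * xi x j * xi x k * (r * (α (eta x) +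
        β (eta x) * (xi x 0 ^ 2 + xi x 1 ^ 2 + xi x 2 ^ 2)) - (2 * u * β (eta x) - b1 / 2)) := by
    simp only [chrLow, hD, Fin.sum_univ_three]
    simp only [rot_apply, X, Gam, Fin.sum_univ_three]
    generalize α (eta x) = a at *
    generalize β (eta x) = b at *
    generalize eta x = y at *
    generalize xi x = ξ at *
    fin_cases i <;> fin_cases j <;> fin_cases k <;> simp [dl, eps] <;> ring
  rw [sum_xi_sq x hx, hu, hp, hr, sub_self, sub_self, sub_self] at key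
  linarith

lemma chr_rot (α β : ℝ → ℝ) (a1 b1 u p r : ℝ) (x : ℍ[ℝ]) (hx : x ≠ 0)
    (hα : HasDerivWithinAt α a1 I1 (eta x)) (hβ : HasDerivWithinAt β b1 I1 (eta x))
    (ha : α (eta x) ≠ 0) (hA : α (eta x) + β (eta x) * (1 - eta x ^ 2) ≠ 0)
    (hu : u * α (eta x) = a1 / 2)
    (hp : p * (α (eta x) + β (eta x) * (1 - eta x ^ 2)) = a1 / 2 + β (eta x) * eta x)
    (hr : r * (α (eta x) + β (eta x) * (1 - eta x ^ 2)) = 2 * u * β (eta x) - b1 / 2)
    (i j k : Fin 3) :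
    chr (rot α β) x i j k = Gam u p r x i j k := by
  have h1 : (rot α β x)⁻¹ * (rot α β x) = 1 := by
    rw [inv_rot α β x hx ha hA]
    exact mul_eq_one_comm.mp (rot_mul_inv α β x hx ha hA)
  have h2 : chr (rot α β) x i j k =
      ((rot α β x)⁻¹ *ᵥ ((rot α β x) *ᵥ (fun l => Gam u p r x i j l))) k := by
    simp only [chr, chrLow_rot α β a1 b1 u p r x hx hα hβ hu hp hr, Matrix.mulVec, dotProduct]
  rw [h2, Matrix.mulVec_mulVec, h1, Matrix.one_mulVec]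

lemma ric_of_chr (g : Field) (u p r : ℝ → ℝ) (u1 p1 r1 : ℝ) (x : ℍ[ℝ]) (hx : x ≠ 0)
    (hg : ∀ z, z ≠ 0 → ∀ i j k, chr g z i j k = Gam (u (eta z)) (p (eta z)) (r (eta z)) z i j k)
    (hu : HasDerivWithinAt u u1 I1 (eta x)) (hp : HasDerivWithinAt p p1 I1 (eta x))
    (hr : HasDerivWithinAt r r1 I1 (eta x)) (j k : Fin 3) :
    ric g x j k =
      (2 + 2 * u (eta x) * eta x + 2 * eta x * p (eta x) - r (eta x) * (1 - eta x ^ 2) * eta x
        - (1 - eta x ^ 2) * p1 - 2 * u (eta x) * p (eta x) * (1 - eta x ^ 2)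
        + p (eta x) ^ 2 * (1 - eta x ^ 2) + p (eta x) * r (eta x) * (1 - eta x ^ 2) ^ 2) * dl j k +
      (p1 - 2 * u1 + 3 * eta x * r (eta x) + 2 * u (eta x) ^ 2
        - 2 * u (eta x) * r (eta x) * (1 - eta x ^ 2) - p (eta x) * r (eta x) * (1 - eta x ^ 2)
        - p (eta x) ^ 2) * (xi x j * xi x k) := by
  have hD : ∀ i j k l, D l (fun z => chr g z i j k) x =
      dGam (u (eta x)) u1 (p (eta x)) p1 (r (eta x)) r1 x i j k l := by
    intro i j k l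
    refine ((hd_Gam u p r u1 p1 r1 x hx hu hp hr i j k).congr
      (g := fun z => chr g z i j k) ?_ fun l => rfl).D_eq l
    filter_upwards [IsOpen.mem_nhds isOpen_compl_singleton hx] with z hz
    exact hg z hz i j k
  simp only [ric, hD]
  simp only [hg x hx]
  rw [← sum_xi_sq x hx]
  simp only [Gam, dGam, X, Fin.sum_univ_three]
  generalize u (eta x) = u at *
  generalize p (eta x) = p at *
  generalize r (eta x) = r at *
  generalize eta x = y at *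
  generalize xi x = ξ at *
  clear hD hg
  fin_cases j <;> fin_cases k <;> simp [dl, eps] <;> ring

end RicciRot

open RicciRot

theorem ric_rot (α α1 α2 β β1 β2 : ℝ → ℝ)
    (hα : ∀ y ∈ I1, HasDerivWithinAt α (α1 y) I1 y)
    (hα1 : ∀ y ∈ I1, HasDerivWithinAt α1 (α2 y) I1 y)
    (hβ : ∀ y ∈ I1, HasDerivWithinAt β (β1 y) I1 y)
    (hβ1 : ∀ y ∈ I1, HasDerivWithinAt β1 (β2 y) I1 y)
    (pos : ∀ y ∈ I1, 0 < α y) (pos' : ∀ y ∈ I1, 0 < α y + β y * (1 - y ^ 2))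
    (x : ℍ[ℝ]) (hx : x ≠ 0) (j k : Fin 3) :
    ric (rot α β) x j k =
      rot (fun y => Pf (α y) (α1 y) (α2 y) (β y) (β1 y) y)
        (fun y => Qf (α y) (α1 y) (α2 y) (β y) (β1 y) y) x j k := by
  have hy : eta x ∈ I1 := eta_mem x hx
  have hid : HasDerivWithinAt (fun y : ℝ => y) 1 I1 (eta x) := hasDerivWithinAt_id _ _
  have hA : HasDerivWithinAt (fun y => α y + β y * (1 - y ^ 2))
      (α1 (eta x) + β1 (eta x) * (1 - eta x ^ 2) - 2 * eta x * β (eta x)) I1 (eta x) := by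
    have h := (hα _ hy).add ((hβ _ hy).mul ((hasDerivWithinAt_const (eta x) I1 (1 : ℝ)).sub
      (hid.pow 2)))
    refine (h.congr_deriv ?_)
    simp
    ring
  have hu : HasDerivWithinAt (fun y => α1 y / (2 * α y))
      (α2 (eta x) / (2 * α (eta x)) - α1 (eta x) ^ 2 / (2 * α (eta x) ^ 2)) I1 (eta x) := by
    have h := (hα1 _ hy).div ((hα _ hy).const_mul 2) (by have := pos _ hy; positivity)
    refine (h.congr_deriv ?_)
    have := (pos _ hy).ne'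
    field_simp
  have hp : HasDerivWithinAt (fun y => (α1 y / 2 + β y * y) / (α y + β y * (1 - y ^ 2)))
      ((α2 (eta x) / 2 + β1 (eta x) * eta x + β (eta x)) /
          (α (eta x) + β (eta x) * (1 - eta x ^ 2))
        - (α1 (eta x) / 2 + β (eta x) * eta x) *
          (α1 (eta x) + β1 (eta x) * (1 - eta x ^ 2) - 2 * eta x * β (eta x)) /
          (α (eta x) + β (eta x) * (1 - eta x ^ 2)) ^ 2) I1 (eta x) := by
    have h := (((hα1 _ hy).div_const 2).add ((hβ _ hy).mul hid)).div hA (pos' _ hy).ne'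
    refine (h.congr_deriv ?_)
    have := (pos' _ hy).ne'
    simp only [Pi.add_apply, Pi.mul_apply]
    field_simp
    ring
  obtain ⟨r1, hr⟩ : ∃ r1, HasDerivWithinAt
      (fun y => (α1 y * β y / α y - β1 y / 2) / (α y + β y * (1 - y ^ 2))) r1 I1 (eta x) :=
    ⟨_, ((((hα1 _ hy).mul (hβ _ hy)).div (hα _ hy) (pos _ hy).ne').sub
      ((hβ1 _ hy).div_const 2)).div hA (pos' _ hy).ne'⟩
  have hchr : ∀ z, z ≠ 0 → ∀ i j k, chr (rot α β) z i j k =
      Gam ((fun y => α1 y / (2 * α y)) (eta z))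
        ((fun y => (α1 y / 2 + β y * y) / (α y + β y * (1 - y ^ 2))) (eta z))
        ((fun y => (α1 y * β y / α y - β1 y / 2) / (α y + β y * (1 - y ^ 2))) (eta z)) z i j k := by
    intro z hz i j k
    have hz' : eta z ∈ I1 := eta_mem z hz
    have h1 := (pos _ hz').ne'
    have h2 := (pos' _ hz').ne'
    refine chr_rot α β (α1 (eta z)) (β1 (eta z)) _ _ _ z hz (hα _ hz') (hβ _ hz') h1 h2 ?_ ?_ ?_
      i j k
    · field_simp
    · field_simp
    · field_simp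
  rw [ric_of_chr (rot α β) _ _ _ _ _ _ x hx hchr hu hp hr j k, rot_apply, Pf, Qf, dl]

theorem scal_conf (v v1 v2 : ℝ → ℝ)
    (hv : ∀ y ∈ I1, HasDerivWithinAt v (v1 y) I1 y)
    (hv1 : ∀ y ∈ I1, HasDerivWithinAt v1 (v2 y) I1 y)
    (pos : ∀ y ∈ I1, 0 < v y) (x : ℍ[ℝ]) (hx : x ≠ 0) :
    scal (rot (fun y => (v y)⁻¹ ^ 2) (fun _ => 0)) x =
      (fun y => 6 * v y ^ 2 + 4 * v y * ((1 - y ^ 2) * v2 y - 3 * y * v1 y)
        - 6 * (1 - y ^ 2) * v1 y ^ 2) (x.re / ‖x‖) := by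
  have hy : eta x ∈ I1 := eta_mem x hx
  have hα : ∀ y ∈ I1, HasDerivWithinAt (fun y => (v y)⁻¹ ^ 2) (-2 * v1 y / v y ^ 3) I1 y := by
    intro y hy
    have h0 := (pos y hy).ne'
    have h := ((hv y hy).inv h0).pow 2
    refine h.congr_deriv ?_
    rw [Pi.inv_apply, show (2 - 1 : ℕ) = 1 from rfl, pow_one]
    push_cast
    field_simp
  have hα1 : ∀ y ∈ I1, HasDerivWithinAt (fun y => -2 * v1 y / v y ^ 3)
      (-2 * v2 y / v y ^ 3 + 6 * v1 y ^ 2 / v y ^ 4) I1 y := by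
    intro y hy
    have h0 := (pos y hy).ne'
    have h := ((hv1 y hy).const_mul (-2)).div ((hv y hy).pow 3) (pow_ne_zero 3 h0)
    refine h.congr_deriv ?_
    simp only [Pi.pow_apply]
    field_simp
    push_cast
    ring
  have h0 := (pos _ hy).ne'
  have hric := ric_rot (fun y => (v y)⁻¹ ^ 2) (fun y => -2 * v1 y / v y ^ 3)
    (fun y => -2 * v2 y / v y ^ 3 + 6 * v1 y ^ 2 / v y ^ 4) (fun _ => 0) (fun _ => 0) (fun _ => 0)
    hα hα1 (fun y _ => hasDerivWithinAt_const _ _ _) (fun y _ => hasDerivWithinAt_const _ _ _)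
    (fun y hy => by have := pos y hy; positivity)
    (fun y hy => by have := pos y hy; simp only [zero_mul, add_zero]; positivity) x hx
  have hinv := inv_rot (fun y => (v y)⁻¹ ^ 2) (fun _ => 0) x hx (by positivity)
    (by simp only [zero_mul, add_zero]; positivity)
  simp only [scal, hric, hinv, rotInv, Matrix.of_apply, rot_apply, Fin.sum_univ_three]
  change _ = 6 * v (eta x) ^ 2 + 4 * v (eta x) * ((1 - eta x ^ 2) * v2 (eta x)
    - 3 * eta x * v1 (eta x)) - 6 * (1 - eta x ^ 2) * v1 (eta x) ^ 2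
  have hs := sum_xi_sq x hx
  obtain ⟨P, hP⟩ : ∃ P, P = Pf ((v (eta x))⁻¹ ^ 2) (-2 * v1 (eta x) / v (eta x) ^ 3)
    (-2 * v2 (eta x) / v (eta x) ^ 3 + 6 * v1 (eta x) ^ 2 / v (eta x) ^ 4) 0 0 (eta x) := ⟨_, rfl⟩
  obtain ⟨Q, hQ⟩ : ∃ Q, Q = Qf ((v (eta x))⁻¹ ^ 2) (-2 * v1 (eta x) / v (eta x) ^ 3)
    (-2 * v2 (eta x) / v (eta x) ^ 3 + 6 * v1 (eta x) ^ 2 / v (eta x) ^ 4) 0 0 (eta x) := ⟨_, rfl⟩
  rw [← hP, ← hQ]
  trans v (eta x) ^ 2 * (3 * P + (xi x 0 ^ 2 + xi x 1 ^ 2 + xi x 2 ^ 2) * Q)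
  · simp [dl]
    ring
  rw [hs, hP, hQ, Pf, Qf]
  simp only [zero_mul, mul_zero, add_zero, zero_div, sub_zero]
  field_simp
  ring

end Pool.Agent.MP_ae1fc5_gt
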