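import Pool.Agent.MP_ae1fc5_gt.Defs2

/-!
# MP_ae1fc5_gt, module B2: smoothness and positivity of rotationally symmetric metrics
-/

open scoped Quaternion ContDiff Matrix
open Set

noncomputable section

namespace Pool.Agent.MP_ae1fc5_gt

namespace RotMetric

/-- `Re x / |x|`. -/
def eta (x : ℍ[ℝ]) : ℝ := x.re / ‖x‖

/-- the components of `Im x / |x|`. -/
def xi (x : ℍ[ℝ]) (i : Fin 3) : ℝ := ![x.imI, x.imJ, x.imK] i / ‖x‖

theorem rot_apply (α β : ℝ → ℝ) (x : ℍ[ℝ]) (i j : Fin 3) :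
    rot α β x i j = α (eta x) * (if i = j then 1 else 0) + β (eta x) * (xi x i * xi x j) := rfl

theorem norm_sq (x : ℍ[ℝ]) :
    ‖x‖ ^ 2 = x.re ^ 2 + x.imI ^ 2 + x.imJ ^ 2 + x.imK ^ 2 := by
  have h := Quaternion.normSq_eq_norm_mul_self x
  rw [Quaternion.normSq_def'] at h
  rw [sq ‖x‖, ← h]

theorem eta_sq (x : ℍ[ℝ]) (hx : x ≠ 0) :
    xi x 0 ^ 2 + xi x 1 ^ 2 + xi x 2 ^ 2 = 1 - eta x ^ 2 := by
  have hn : ‖x‖ ≠ 0 := norm_ne_zero_iff.mpr hx
  have h := norm_sq x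
  simp only [xi, eta, Matrix.cons_val_zero, Matrix.cons_val_one, Matrix.cons_val]
  field_simp
  linarith

theorem eta_mem (x : ℍ[ℝ]) : eta x ∈ I1 := by
  rcases eq_or_ne x 0 with rfl | hx
  · simp [eta, I1]
  · have h := eta_sq x hx
    have h1 : eta x ^ 2 ≤ 1 := by
      nlinarith [sq_nonneg (xi x 0), sq_nonneg (xi x 1), sq_nonneg (xi x 2)]
    exact ⟨by nlinarith, by nlinarith⟩

/-- the real part as a continuous linear map. -/
def reL : ℍ[ℝ] →L[ℝ] ℝ where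
  toFun x := x.re
  map_add' _ _ := rfl
  map_smul' _ _ := rfl
  cont := Quaternion.continuous_re

/-- the first imaginary part as a continuous linear map. -/
def imIL : ℍ[ℝ] →L[ℝ] ℝ where
  toFun x := x.imI
  map_add' _ _ := rfl
  map_smul' _ _ := rfl
  cont := Quaternion.continuous_imI

/-- the second imaginary part as a continuous linear map. -/
def imJL : ℍ[ℝ] →L[ℝ] ℝ where
  toFun x := x.imJ
  map_add' _ _ := rfl
  map_smul' _ _ := rfl
  cont := Quaternion.continuous_imJ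

/-- the third imaginary part as a continuous linear map. -/
def imKL : ℍ[ℝ] →L[ℝ] ℝ where
  toFun x := x.imK
  map_add' _ _ := rfl
  map_smul' _ _ := rfl
  cont := Quaternion.continuous_imK

theorem contDiffOn_re : ContDiff ℝ ∞ (fun x : ℍ[ℝ] => x.re) := reL.contDiff

theorem contDiffOn_imI : ContDiff ℝ ∞ (fun x : ℍ[ℝ] => x.imI) := imIL.contDiff

theorem contDiffOn_imJ : ContDiff ℝ ∞ (fun x : ℍ[ℝ] => x.imJ) := imJL.contDiff

theorem contDiffOn_imK : ContDiff ℝ ∞ (fun x : ℍ[ℝ] => x.imK) := imKL.contDiff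

theorem contDiffOn_norm : ContDiffOn ℝ ∞ (fun x : ℍ[ℝ] => ‖x‖) {0}ᶜ := fun _ hx =>
  (contDiffAt_norm ℝ hx).contDiffWithinAt

theorem contDiffOn_eta : ContDiffOn ℝ ∞ eta {0}ᶜ :=
  contDiffOn_re.contDiffOn.div contDiffOn_norm fun _ hx => norm_ne_zero_iff.mpr hx

theorem contDiffOn_xi (i : Fin 3) : ContDiffOn ℝ ∞ (fun x => xi x i) {0}ᶜ := by
  refine ContDiffOn.div ?_ contDiffOn_norm fun _ hx => norm_ne_zero_iff.mpr hx
  fin_cases i
  · exact contDiffOn_imI.contDiffOn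
  · exact contDiffOn_imJ.contDiffOn
  · exact contDiffOn_imK.contDiffOn

theorem eta_smul (r : ℝ) (x : ℍ[ℝ]) (hr : 0 < r) : eta (r • x) = eta x := by
  simp only [eta, norm_smul, Real.norm_of_nonneg hr.le, Quaternion.re_smul, smul_eq_mul]
  exact mul_div_mul_left _ _ hr.ne'

theorem xi_smul (r : ℝ) (x : ℍ[ℝ]) (hr : 0 < r) (i : Fin 3) : xi (r • x) i = xi x i := by
  have : ![(r • x).imI, (r • x).imJ, (r • x).imK] i = r * ![x.imI, x.imJ, x.imK] i := by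
    fin_cases i <;> simp
  simp only [xi, norm_smul, Real.norm_of_nonneg hr.le, this]
  exact mul_div_mul_left _ _ hr.ne'

end RotMetric

open RotMetric

theorem isMetric_rot (α β : ℝ → ℝ) (hα : ContDiffOn ℝ ∞ α I1) (hβ : ContDiffOn ℝ ∞ β I1)
    (pos : ∀ y ∈ I1, 0 < α y) (pos' : ∀ y ∈ I1, 0 < α y + β y * (1 - y ^ 2)) :
    IsMetric (rot α β) where
  homog r x hr := by
    ext i j
    simp only [rot_apply, eta_smul r x hr, xi_smul r x hr]
  smooth i j := by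
    simp only [rot_apply]
    exact ((hα.comp contDiffOn_eta fun x _ => eta_mem x).mul contDiffOn_const).add
      ((hβ.comp contDiffOn_eta fun x _ => eta_mem x).mul
        ((contDiffOn_xi i).mul (contDiffOn_xi j)))
  posDef x hx := by
    refine Matrix.PosDef.of_dotProduct_mulVec_pos ?_ fun v hv => ?_
    · ext i j
      simp only [Matrix.conjTranspose_apply, star_trivial, rot_apply, eq_comm (a := i) (b := j)]
      ring
    · have hs : xi x 0 ^ 2 + xi x 1 ^ 2 + xi x 2 ^ 2 = 1 - eta x ^ 2 := eta_sq x hx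
      have hp := pos _ (eta_mem x)
      have hp' := pos' _ (eta_mem x)
      have hform : star v ⬝ᵥ (rot α β x *ᵥ v) =
          α (eta x) * (v 0 ^ 2 + v 1 ^ 2 + v 2 ^ 2) +
            β (eta x) * (xi x 0 * v 0 + xi x 1 * v 1 + xi x 2 * v 2) ^ 2 := by
        simp only [dotProduct, Matrix.mulVec, Fin.sum_univ_three, Pi.star_apply, star_trivial,
          rot_apply]
        simp
        ring
      rw [hform]
      have hv2 : 0 < v 0 ^ 2 + v 1 ^ 2 + v 2 ^ 2 := by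
        by_contra hcon
        apply hv
        have h0 : v 0 = 0 := by nlinarith [sq_nonneg (v 0), sq_nonneg (v 1), sq_nonneg (v 2)]
        have h1 : v 1 = 0 := by nlinarith [sq_nonneg (v 0), sq_nonneg (v 1), sq_nonneg (v 2)]
        have h2 : v 2 = 0 := by nlinarith [sq_nonneg (v 0), sq_nonneg (v 1), sq_nonneg (v 2)]
        funext i
        fin_cases i
        · exact h0
        · exact h1
        · exact h2
      have hcs : (xi x 0 * v 0 + xi x 1 * v 1 + xi x 2 * v 2) ^ 2 ≤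
          (1 - eta x ^ 2) * (v 0 ^ 2 + v 1 ^ 2 + v 2 ^ 2) := by
        rw [← hs]
        nlinarith [sq_nonneg (xi x 0 * v 1 - xi x 1 * v 0), sq_nonneg (xi x 0 * v 2 - xi x 2 * v 0),
          sq_nonneg (xi x 1 * v 2 - xi x 2 * v 1)]
      rcases le_or_gt 0 (β (eta x)) with hb | hb
      · have : 0 ≤ β (eta x) * (xi x 0 * v 0 + xi x 1 * v 1 + xi x 2 * v 2) ^ 2 := by positivity
        have : 0 < α (eta x) * (v 0 ^ 2 + v 1 ^ 2 + v 2 ^ 2) := by positivity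
        linarith
      · have h1 : β (eta x) * ((1 - eta x ^ 2) * (v 0 ^ 2 + v 1 ^ 2 + v 2 ^ 2)) ≤
            β (eta x) * (xi x 0 * v 0 + xi x 1 * v 1 + xi x 2 * v 2) ^ 2 :=
          mul_le_mul_of_nonpos_left hcs hb.le
        have h2 : 0 < (α (eta x) + β (eta x) * (1 - eta x ^ 2)) *
            (v 0 ^ 2 + v 1 ^ 2 + v 2 ^ 2) := by positivity
        linarith

theorem smooth_rot (T : ℝ) (α β : ℝ → ℝ → ℝ)
    (hα : ContDiffOn ℝ ∞ (fun p : ℝ × ℝ => α p.1 p.2) (Ico 0 T ×ˢ I1))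
    (hβ : ContDiffOn ℝ ∞ (fun p : ℝ × ℝ => β p.1 p.2) (Ico 0 T ×ˢ I1)) (i j : Fin 3) :
    ContDiffOn ℝ ∞ (fun p : ℝ × ℍ[ℝ] => rot (α p.1) (β p.1) p.2 i j) (Ico 0 T ×ˢ {0}ᶜ) := by
  have hsnd : MapsTo (fun p : ℝ × ℍ[ℝ] => p.2) (Ico 0 T ×ˢ {0}ᶜ) ({0}ᶜ : Set ℍ[ℝ]) :=
    fun p hp => hp.2
  have hη : ContDiffOn ℝ ∞ (fun p : ℝ × ℍ[ℝ] => (p.1, eta p.2)) (Ico 0 T ×ˢ {0}ᶜ) :=
    contDiffOn_fst.prodMk (contDiffOn_eta.comp contDiffOn_snd hsnd)
  have hmaps : MapsTo (fun p : ℝ × ℍ[ℝ] => (p.1, eta p.2)) (Ico 0 T ×ˢ {0}ᶜ)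
      (Ico 0 T ×ˢ I1) := fun p hp => ⟨hp.1, eta_mem p.2⟩
  simp only [rot_apply]
  exact ((hα.comp hη hmaps).mul contDiffOn_const).add ((hβ.comp hη hmaps).mul
    (((contDiffOn_xi i).comp contDiffOn_snd hsnd).mul ((contDiffOn_xi j).comp contDiffOn_snd hsnd)))

end Pool.Agent.MP_ae1fc5_gt
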