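import Pool.Agent.MP_ae1fc5_gt.Defs2
import Pool.Agent.MP_ae1fc5_gt.RicciRot
import Pool.Agent.MP_ae1fc5_gt.RotMetric

/-!
# MP_ae1fc5_gt, module M: the Ricci flow on the sphere from the one-dimensional flow
-/

open scoped Quaternion ContDiff Matrix
open Set

noncomputable section

namespace Pool.Agent.MP_ae1fc5_gt

namespace FlowOfRot

theorem Pf_smul (k α α1 α2 β β1 y : ℝ) (hk : 0 < k) (hα : 0 < α)
    (hA : 0 < α + β * (1 - y ^ 2)) :
    Pf (k * α) (k * α1) (k * α2) (k * β) (k * β1) y = Pf α α1 α2 β β1 y := by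
  have hk' := hk.ne'
  have hα' := hα.ne'
  have hA' := hA.ne'
  have e : k * α + k * β * (1 - y ^ 2) = k * (α + β * (1 - y ^ 2)) := by ring
  have e1 : k * α1 / (2 * (k * α)) = α1 / (2 * α) := by field_simp
  have e2 : (k * α1 / 2 + k * β * y) / (k * (α + β * (1 - y ^ 2))) =
      (α1 / 2 + β * y) / (α + β * (1 - y ^ 2)) := by
    rw [show k * α1 / 2 + k * β * y = k * (α1 / 2 + β * y) by ring]
    exact mul_div_mul_left _ _ hk'
  have e3 : (k * α1 * (k * β) / (k * α) - k * β1 / 2) / (k * (α + β * (1 - y ^ 2))) =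
      (α1 * β / α - β1 / 2) / (α + β * (1 - y ^ 2)) := by
    rw [show k * α1 * (k * β) / (k * α) - k * β1 / 2 = k * (α1 * β / α - β1 / 2) by
      field_simp]
    exact mul_div_mul_left _ _ hk'
  have e4 : (k * α2 / 2 + k * β1 * y + k * β) / (k * (α + β * (1 - y ^ 2))) =
      (α2 / 2 + β1 * y + β) / (α + β * (1 - y ^ 2)) := by
    rw [show k * α2 / 2 + k * β1 * y + k * β = k * (α2 / 2 + β1 * y + β) by ring]
    exact mul_div_mul_left _ _ hk'
  have e5 : (k * α1 / 2 + k * β * y) * (k * α1 + k * β1 * (1 - y ^ 2) - 2 * y * (k * β)) /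
      (k * (α + β * (1 - y ^ 2))) ^ 2 =
      (α1 / 2 + β * y) * (α1 + β1 * (1 - y ^ 2) - 2 * y * β) / (α + β * (1 - y ^ 2)) ^ 2 := by
    rw [show (k * α1 / 2 + k * β * y) * (k * α1 + k * β1 * (1 - y ^ 2) - 2 * y * (k * β)) =
      k ^ 2 * ((α1 / 2 + β * y) * (α1 + β1 * (1 - y ^ 2) - 2 * y * β)) by ring,
      mul_pow]
    exact mul_div_mul_left _ _ (pow_ne_zero 2 hk')
  unfold Pf
  rw [e, e1, e2, e3, e4, e5]

theorem Qf_smul (k α α1 α2 β β1 y : ℝ) (hk : 0 < k) (hα : 0 < α)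
    (hA : 0 < α + β * (1 - y ^ 2)) :
    Qf (k * α) (k * α1) (k * α2) (k * β) (k * β1) y = Qf α α1 α2 β β1 y := by
  have hk' := hk.ne'
  have hα' := hα.ne'
  have hA' := hA.ne'
  have e : k * α + k * β * (1 - y ^ 2) = k * (α + β * (1 - y ^ 2)) := by ring
  have e1 : k * α1 / (2 * (k * α)) = α1 / (2 * α) := by field_simp
  have e1' : k * α2 / (2 * (k * α)) = α2 / (2 * α) := by field_simp
  have e1'' : (k * α1) ^ 2 / (2 * (k * α) ^ 2) = α1 ^ 2 / (2 * α ^ 2) := by field_simp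
  have e2 : (k * α1 / 2 + k * β * y) / (k * (α + β * (1 - y ^ 2))) =
      (α1 / 2 + β * y) / (α + β * (1 - y ^ 2)) := by
    rw [show k * α1 / 2 + k * β * y = k * (α1 / 2 + β * y) by ring]
    exact mul_div_mul_left _ _ hk'
  have e3 : (k * α1 * (k * β) / (k * α) - k * β1 / 2) / (k * (α + β * (1 - y ^ 2))) =
      (α1 * β / α - β1 / 2) / (α + β * (1 - y ^ 2)) := by
    rw [show k * α1 * (k * β) / (k * α) - k * β1 / 2 = k * (α1 * β / α - β1 / 2) by
      field_simp]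
    exact mul_div_mul_left _ _ hk'
  have e4 : (k * α2 / 2 + k * β1 * y + k * β) / (k * (α + β * (1 - y ^ 2))) =
      (α2 / 2 + β1 * y + β) / (α + β * (1 - y ^ 2)) := by
    rw [show k * α2 / 2 + k * β1 * y + k * β = k * (α2 / 2 + β1 * y + β) by ring]
    exact mul_div_mul_left _ _ hk'
  have e5 : (k * α1 / 2 + k * β * y) * (k * α1 + k * β1 * (1 - y ^ 2) - 2 * y * (k * β)) /
      (k * (α + β * (1 - y ^ 2))) ^ 2 =
      (α1 / 2 + β * y) * (α1 + β1 * (1 - y ^ 2) - 2 * y * β) / (α + β * (1 - y ^ 2)) ^ 2 := by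
    rw [show (k * α1 / 2 + k * β * y) * (k * α1 + k * β1 * (1 - y ^ 2) - 2 * y * (k * β)) =
      k ^ 2 * ((α1 / 2 + β * y) * (α1 + β1 * (1 - y ^ 2) - 2 * y * β)) by ring,
      mul_pow]
    exact mul_div_mul_left _ _ (pow_ne_zero 2 hk')
  unfold Qf
  rw [e, e1, e1', e1'', e2, e3, e4, e5]

/-- the time change -/
def tau (t : ℝ) : ℝ := -Real.log (1 - 4 * t) / 4

theorem one_sub_pos {Λ t : ℝ} (ht : t ∈ Ico 0 ((1 - Real.exp (-4 * Λ)) / 4)) :
    0 < 1 - 4 * t := by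
  have := Real.exp_pos (-4 * Λ)
  have h := ht.2
  linarith

theorem tau_mem {Λ t : ℝ} (ht : t ∈ Ico 0 ((1 - Real.exp (-4 * Λ)) / 4)) :
    tau t ∈ Icc 0 Λ := by
  have h1 := one_sub_pos ht
  have h2 := ht.2
  have h3 := ht.1
  unfold tau
  constructor
  · have : Real.log (1 - 4 * t) ≤ 0 := Real.log_nonpos h1.le (by linarith)
    linarith
  · have : -4 * Λ ≤ Real.log (1 - 4 * t) := by
      rw [Real.le_log_iff_exp_le h1]
      linarith
    linarith

theorem tau_hasDerivAt {t : ℝ} (h : 0 < 1 - 4 * t) :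
    HasDerivAt tau ((1 - 4 * t)⁻¹) t := by
  have h1 : HasDerivAt (fun t : ℝ => 1 - 4 * t) (-4) t := by
    have := ((hasDerivAt_id t).const_mul (4 : ℝ)).const_sub 1
    simpa using this
  have h2 := (h1.log h.ne').neg.div_const 4
  refine h2.congr_deriv ?_
  field_simp

theorem uI1 : UniqueDiffOn ℝ I1 := uniqueDiffOn_Icc (by norm_num)

end FlowOfRot

open FlowOfRot in
theorem flow_of_rot (Λ : ℝ) (hΛ : 0 < Λ) (al be : ℝ → ℝ → ℝ)
    (hal : ContDiffOn ℝ ∞ (fun p : ℝ × ℝ => al p.1 p.2) (Icc 0 Λ ×ˢ I1))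
    (hbe : ContDiffOn ℝ ∞ (fun p : ℝ × ℝ => be p.1 p.2) (Icc 0 Λ ×ˢ I1))
    (pos : ∀ t ∈ Icc 0 Λ, ∀ y ∈ I1, 0 < al t y ∧ 0 < al t y + be t y * (1 - y ^ 2))
    (hal' : ∀ t ∈ Icc 0 Λ, ∀ y ∈ I1, HasDerivWithinAt (fun s => al s y)
        (-2 * Pf (al t y) (derivWithin (al t) I1 y) (derivWithin (derivWithin (al t) I1) I1 y)
          (be t y) (derivWithin (be t) I1 y) y + 4 * al t y) (Icc 0 Λ) t)
    (hbe' : ∀ t ∈ Icc 0 Λ, ∀ y ∈ I1, HasDerivWithinAt (fun s => be s y)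
        (-2 * Qf (al t y) (derivWithin (al t) I1 y) (derivWithin (derivWithin (al t) I1) I1 y)
          (be t y) (derivWithin (be t) I1 y) y + 4 * be t y) (Icc 0 Λ) t) :
    ∃ G : ℝ → Field, IsRicciFlow G ((1 - Real.exp (-4 * Λ)) / 4) ∧
      G 0 = rot (al 0) (be 0) := by
  set T : ℝ := (1 - Real.exp (-4 * Λ)) / 4 with hT
  have slice : ∀ (f : ℝ → ℝ → ℝ),
      ContDiffOn ℝ ∞ (fun p : ℝ × ℝ => f p.1 p.2) (Icc 0 Λ ×ˢ I1) →
      ∀ t ∈ Icc 0 Λ, ContDiffOn ℝ ∞ (f t) I1 := by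
    intro f hf t ht
    have h1 : ContDiffOn ℝ ∞ (fun y : ℝ => ((t, y) : ℝ × ℝ)) I1 :=
      (contDiff_prodMk_right t).contDiffOn
    exact hf.comp h1 (fun y hy => ⟨ht, hy⟩)
  have smT : ∀ (f : ℝ → ℝ → ℝ),
      ContDiffOn ℝ ∞ (fun p : ℝ × ℝ => f p.1 p.2) (Icc 0 Λ ×ˢ I1) →
      ContDiffOn ℝ ∞ (fun p : ℝ × ℝ => (1 - 4 * p.1) * f (tau p.1) p.2) (Ico 0 T ×ˢ I1) := by
    intro f hf
    have h1 : ContDiffOn ℝ ∞ (fun p : ℝ × ℝ => 1 - 4 * p.1) (Ico 0 T ×ˢ I1) := by fun_prop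
    have h2 : ContDiffOn ℝ ∞ (fun p : ℝ × ℝ => tau p.1) (Ico 0 T ×ˢ I1) := by
      unfold tau
      exact ((h1.log (fun p hp => (one_sub_pos hp.1).ne')).neg).div_const 4
    have h3 : ContDiffOn ℝ ∞ (fun p : ℝ × ℝ => ((tau p.1, p.2) : ℝ × ℝ)) (Ico 0 T ×ˢ I1) :=
      h2.prodMk contDiffOn_snd
    exact h1.mul (hf.comp h3 (fun p hp => ⟨tau_mem hp.1, hp.2⟩))
  refine ⟨fun t => rot (fun y => (1 - 4 * t) * al (tau t) y) (fun y => (1 - 4 * t) * be (tau t) y),
    ⟨?_, ?_, ?_⟩, ?_⟩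
  · intro t ht
    have h1 := one_sub_pos ht
    have h2 := tau_mem ht
    apply isMetric_rot
    · exact contDiffOn_const.mul (slice al hal _ h2)
    · exact contDiffOn_const.mul (slice be hbe _ h2)
    · exact fun y hy => mul_pos h1 (pos _ h2 y hy).1
    · intro y hy
      have := mul_pos h1 (pos _ h2 y hy).2
      linarith
  · intro i j
    exact smooth_rot T (fun t y => (1 - 4 * t) * al (tau t) y)
      (fun t y => (1 - 4 * t) * be (tau t) y) (smT al hal) (smT be hbe) i j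
  · intro t ht x hx i j
    have h1 := one_sub_pos ht
    have h2 := tau_mem ht
    have hη : x.re / ‖x‖ ∈ I1 := by
      have hx' : 0 < ‖x‖ := norm_pos_iff.mpr hx
      have h3 : |x.re| ≤ ‖x‖ := by
        rw [← Real.sqrt_sq_eq_abs]
        rw [show ‖x‖ = Real.sqrt (‖x‖ ^ 2) by rw [Real.sqrt_sq (norm_nonneg x)]]
        apply Real.sqrt_le_sqrt
        rw [sq ‖x‖, ← Quaternion.normSq_eq_norm_mul_self, Quaternion.normSq_def']
        nlinarith [sq_nonneg x.imI, sq_nonneg x.imJ, sq_nonneg x.imK]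
      rw [abs_le] at h3
      constructor
      · rw [le_div_iff₀ hx']; linarith
      · rw [div_le_iff₀ hx']; linarith
    set y := x.re / ‖x‖ with hy
    -- Ricci tensor
    have cal := slice al hal _ h2
    have cbe := slice be hbe _ h2
    have cal1 : ContDiffOn ℝ ∞ (derivWithin (al (tau t)) I1) I1 :=
      cal.derivWithin uI1 (by simp)
    have cbe1 : ContDiffOn ℝ ∞ (derivWithin (be (tau t)) I1) I1 :=
      cbe.derivWithin uI1 (by simp)
    have dal : ∀ z ∈ I1, HasDerivWithinAt (fun z => (1 - 4 * t) * al (tau t) z)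
        ((1 - 4 * t) * derivWithin (al (tau t)) I1 z) I1 z := fun z hz =>
      ((cal.differentiableOn (by simp) z hz).hasDerivWithinAt).const_mul _
    have dbe : ∀ z ∈ I1, HasDerivWithinAt (fun z => (1 - 4 * t) * be (tau t) z)
        ((1 - 4 * t) * derivWithin (be (tau t)) I1 z) I1 z := fun z hz =>
      ((cbe.differentiableOn (by simp) z hz).hasDerivWithinAt).const_mul _
    have dal1 : ∀ z ∈ I1, HasDerivWithinAt (fun z => (1 - 4 * t) * derivWithin (al (tau t)) I1 z)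
        ((1 - 4 * t) * derivWithin (derivWithin (al (tau t)) I1) I1 z) I1 z := fun z hz =>
      ((cal1.differentiableOn (by simp) z hz).hasDerivWithinAt).const_mul _
    have dbe1 : ∀ z ∈ I1, HasDerivWithinAt (fun z => (1 - 4 * t) * derivWithin (be (tau t)) I1 z)
        ((1 - 4 * t) * derivWithin (derivWithin (be (tau t)) I1) I1 z) I1 z := fun z hz =>
      ((cbe1.differentiableOn (by simp) z hz).hasDerivWithinAt).const_mul _
    have hric := ric_rot _ _ _ _ _ _ dal dal1 dbe dbe1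
      (fun z hz => mul_pos h1 (pos _ h2 z hz).1)
      (fun z hz => by have := mul_pos h1 (pos _ h2 z hz).2; linarith) x hx i j
    rw [hric]
    -- derivative in time
    have hder : ∀ (f : ℝ → ℝ → ℝ) (P : ℝ), HasDerivWithinAt (fun s => f s y)
        (-2 * P + 4 * f (tau t) y) (Icc 0 Λ) (tau t) →
        HasDerivWithinAt (fun s => (1 - 4 * s) * f (tau s) y) (-2 * P) (Ico 0 T) t := by
      intro f P hf
      have g1 : HasDerivWithinAt (fun s : ℝ => 1 - 4 * s) (-4) (Ico 0 T) t := by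
        have := (((hasDerivAt_id t).const_mul (4 : ℝ)).const_sub 1).hasDerivWithinAt (s := Ico 0 T)
        simpa using this
      have g2 : HasDerivWithinAt (fun s => f (tau s) y)
          ((-2 * P + 4 * f (tau t) y) * (1 - 4 * t)⁻¹) (Ico 0 T) t := by
        exact HasDerivWithinAt.comp t hf (tau_hasDerivAt h1).hasDerivWithinAt
          (fun s hs => tau_mem hs)
      refine (g1.mul g2).congr_deriv ?_
      field_simp
      ring
    have hal2 := hder al _ (hal' _ h2 y hη)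
    have hbe2 := hder be _ (hbe' _ h2 y hη)
    have key := (hal2.mul_const (if i = j then (1 : ℝ) else 0)).add
      (hbe2.mul_const ((![x.imI, x.imJ, x.imK] i / ‖x‖) * (![x.imI, x.imJ, x.imK] j / ‖x‖)))
    refine key.congr_deriv ?_
    unfold rot
    rw [← hy]
    dsimp only
    rw [Pf_smul _ _ _ _ _ _ _ h1 (pos _ h2 y hη).1 (pos _ h2 y hη).2,
      Qf_smul _ _ _ _ _ _ _ h1 (pos _ h2 y hη).1 (pos _ h2 y hη).2]
    ring
  · have : tau 0 = 0 := by simp [tau]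
    funext x i j
    simp [rot, this]

end Pool.Agent.MP_ae1fc5_gt
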