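import Mathlib

/-! MP_ae1fc5_gt, module A: joint smoothness on a product of two intervals from partial
derivatives, and smoothness of integrals with a parameter. -/

open scoped ContDiff Topology
open Set

noncomputable section

namespace Pool.Agent.MP_ae1fc5_gt

namespace PartialsAux

/-- Differentiability on a product from the two partial derivatives, the first continuous. -/
theorem hasFDerivWithinAt_of_partials {I J : Set ℝ} (hI : Convex ℝ I) (F F1 F2 : ℝ → ℝ → ℝ)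
    (h1 : ∀ t ∈ I, ∀ y ∈ J, HasDerivWithinAt (fun s => F s y) (F1 t y) I t)
    (h2 : ∀ t ∈ I, ∀ y ∈ J, HasDerivWithinAt (fun z => F t z) (F2 t y) J y)
    (c1 : ContinuousOn (fun p : ℝ × ℝ => F1 p.1 p.2) (I ×ˢ J))
    {t0 y0 : ℝ} (ht0 : t0 ∈ I) (hy0 : y0 ∈ J) :
    HasFDerivWithinAt (fun p : ℝ × ℝ => F p.1 p.2)
      (F1 t0 y0 • ContinuousLinearMap.fst ℝ ℝ ℝ + F2 t0 y0 • ContinuousLinearMap.snd ℝ ℝ ℝ)
      (I ×ˢ J) (t0, y0) := by
  rw [hasFDerivWithinAt_iff_isLittleO, Asymptotics.isLittleO_iff]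
  intro ε hε
  have hc : ∀ᶠ p : ℝ × ℝ in 𝓝[I ×ˢ J] (t0, y0), ‖F1 p.1 p.2 - F1 t0 y0‖ < ε / 2 := by
    have := (c1 (t0, y0) ⟨ht0, hy0⟩)
    have h := this.eventually (Metric.ball_mem_nhds (F1 t0 y0) (half_pos hε))
    filter_upwards [h] with p hp
    simpa [dist_eq_norm] using hp
  rw [nhdsWithin_prod_eq, Filter.eventually_prod_iff] at hc
  obtain ⟨pa, hpa, pb, hpb, hab⟩ := hc
  obtain ⟨δ, hδ, hδ'⟩ := Metric.mem_nhdsWithin_iff.mp hpa
  have hd : ∀ᶠ z in 𝓝[J] y0, ‖F t0 z - F t0 y0 - F2 t0 y0 * (z - y0)‖ ≤ ε / 2 * ‖z - y0‖ := by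
    have h := (hasDerivWithinAt_iff_isLittleO.mp (h2 t0 ht0 y0 hy0))
    have := Asymptotics.isLittleO_iff.mp h (half_pos hε)
    filter_upwards [this] with z hz
    simpa [mul_comm] using hz
  have hball : ∀ᶠ t in 𝓝[I] t0, t ∈ Metric.ball t0 δ ∩ I :=
    Filter.inter_mem (mem_nhdsWithin_of_mem_nhds (Metric.ball_mem_nhds _ hδ))
      self_mem_nhdsWithin
  rw [nhdsWithin_prod_eq]
  filter_upwards [(hball.prod_mk (hpb.and (hd.and self_mem_nhdsWithin)))] with p hp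
  obtain ⟨hp1, hp2, hp3, hp4⟩ := hp
  have hmv : ‖(F p.1 p.2 - F1 t0 y0 * p.1) - (F t0 p.2 - F1 t0 y0 * t0)‖
      ≤ ε / 2 * ‖p.1 - t0‖ := by
    have hconv : Convex ℝ (Metric.ball t0 δ ∩ I) := (convex_ball _ _).inter hI
    refine hconv.norm_image_sub_le_of_norm_hasDerivWithin_le
      (f := fun s => F s p.2 - F1 t0 y0 * s) (f' := fun s => F1 s p.2 - F1 t0 y0)
      (fun s hs => ?_) (fun s hs => ?_) ⟨Metric.mem_ball_self hδ, ht0⟩ hp1
    · have := ((h1 s hs.2 p.2 hp4).mono (inter_subset_right (s := Metric.ball t0 δ))).fun_sub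
        (((hasDerivWithinAt_id s (Metric.ball t0 δ ∩ I)).const_mul (F1 t0 y0)))
      simpa using this
    · exact (hab (hδ' hs) hp2).le
  have key : F p.1 p.2 - F t0 y0 - (F1 t0 y0 * (p.1 - t0) + F2 t0 y0 * (p.2 - y0)) =
      ((F p.1 p.2 - F1 t0 y0 * p.1) - (F t0 p.2 - F1 t0 y0 * t0)) +
      (F t0 p.2 - F t0 y0 - F2 t0 y0 * (p.2 - y0)) := by ring
  have e1 : ‖p.1 - t0‖ ≤ ‖p - (t0, y0)‖ := norm_fst_le (p - (t0, y0))
  have e2 : ‖p.2 - y0‖ ≤ ‖p - (t0, y0)‖ := norm_snd_le (p - (t0, y0))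
  calc ‖F p.1 p.2 - F t0 y0 - (F1 t0 y0 • ContinuousLinearMap.fst ℝ ℝ ℝ +
        F2 t0 y0 • ContinuousLinearMap.snd ℝ ℝ ℝ) (p - (t0, y0))‖
      = ‖F p.1 p.2 - F t0 y0 - (F1 t0 y0 * (p.1 - t0) + F2 t0 y0 * (p.2 - y0))‖ := by
        simp
    _ ≤ ε / 2 * ‖p.1 - t0‖ + ε / 2 * ‖p.2 - y0‖ := by
        rw [key]
        exact (norm_add_le _ _).trans (add_le_add hmv hp3)
    _ ≤ ε / 2 * ‖p - (t0, y0)‖ + ε / 2 * ‖p - (t0, y0)‖ := by gcongr
    _ = ε * ‖p - (t0, y0)‖ := by ring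

theorem uniqueDiffOn_of_convex {I : Set ℝ} (hI : Convex ℝ I) (hI' : (interior I).Nonempty) :
    UniqueDiffOn ℝ I := uniqueDiffOn_convex hI hI'

/-- `y ↦ ∫_0^y f` has derivative `f y` within an interval on which `f` is continuous. -/
theorem hasDerivWithinAt_integral {J : Set ℝ} (hJ : Convex ℝ J) (h0 : (0 : ℝ) ∈ J) (f : ℝ → ℝ)
    (hf : ContinuousOn f J) {y : ℝ} (hy : y ∈ J) :
    HasDerivWithinAt (fun y => ∫ z in (0 : ℝ)..y, f z) (f y) J y := by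
  have hoc := hJ.ordConnected
  have hsub : ∀ a ∈ J, ∀ b ∈ J, uIcc a b ⊆ J := fun a ha b hb => hoc.uIcc_subset ha hb
  have hint : ∀ a ∈ J, ∀ b ∈ J, IntervalIntegrable f MeasureTheory.volume a b :=
    fun a ha b hb => (hf.mono (hsub a ha b hb)).intervalIntegrable
  rw [hasDerivWithinAt_iff_isLittleO, Asymptotics.isLittleO_iff]
  intro ε hε
  have hc := (hf y hy).eventually (Metric.ball_mem_nhds (f y) hε)
  obtain ⟨δ, hδ, hδ'⟩ := Metric.mem_nhdsWithin_iff.mp hc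
  have hball : ∀ᶠ t in 𝓝[J] y, t ∈ Metric.ball y δ ∩ J :=
    Filter.inter_mem (mem_nhdsWithin_of_mem_nhds (Metric.ball_mem_nhds _ hδ))
      self_mem_nhdsWithin
  filter_upwards [hball] with z hz
  have e1 : (∫ x in (0 : ℝ)..z, f x) - (∫ x in (0 : ℝ)..y, f x) = ∫ x in y..z, f x := by
    rw [intervalIntegral.integral_interval_sub_left (hint 0 h0 z hz.2) (hint 0 h0 y hy)]
  have e2 : (∫ x in (0 : ℝ)..z, f x) - (∫ x in (0 : ℝ)..y, f x) - (z - y) • f y =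
      ∫ x in y..z, (f x - f y) := by
    rw [e1, intervalIntegral.integral_sub (hint y hy z hz.2) (by simp)]
    simp
  rw [e2]
  refine (intervalIntegral.norm_integral_le_of_norm_le_const (C := ε) (fun x hx => ?_))
  have hx' : x ∈ Metric.ball y δ ∩ J := by
    have : uIcc y z ⊆ Metric.ball y δ ∩ J :=
      ((convex_ball y δ).inter hJ).ordConnected.uIcc_subset ⟨Metric.mem_ball_self hδ, hy⟩ hz
    exact this (uIoc_subset_uIcc hx)
  have := hδ' hx'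
  exact (mem_ball_iff_norm.mp this).le

/-- Derivative of an integral with a parameter, within an interval. -/
theorem hasDerivWithinAt_param {I J : Set ℝ} (hI : Convex ℝ I) (hJ : Convex ℝ J)
    (h0 : (0 : ℝ) ∈ J) (F F1 : ℝ → ℝ → ℝ)
    (hF : ContinuousOn (fun p : ℝ × ℝ => F p.1 p.2) (I ×ˢ J))
    (h1 : ∀ t ∈ I, ∀ y ∈ J, HasDerivWithinAt (fun s => F s y) (F1 t y) I t)
    (c1 : ContinuousOn (fun p : ℝ × ℝ => F1 p.1 p.2) (I ×ˢ J))
    {t y : ℝ} (ht : t ∈ I) (hy : y ∈ J) :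
    HasDerivWithinAt (fun s => ∫ z in (0 : ℝ)..y, F s z) (∫ z in (0 : ℝ)..y, F1 t z) I t := by
  have hoc := hJ.ordConnected
  have hsub : uIcc 0 y ⊆ J := hoc.uIcc_subset h0 hy
  have hint : ∀ G : ℝ → ℝ → ℝ, ContinuousOn (fun p : ℝ × ℝ => G p.1 p.2) (I ×ˢ J) → ∀ s ∈ I,
      IntervalIntegrable (G s) MeasureTheory.volume 0 y := by
    intro G hG s hs
    refine ContinuousOn.intervalIntegrable ?_
    have : ContinuousOn (fun z : ℝ => (s, z)) (uIcc 0 y) := by fun_prop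
    exact hG.comp this (fun z hz => ⟨hs, hsub hz⟩)
  rw [hasDerivWithinAt_iff_isLittleO, Asymptotics.isLittleO_iff]
  intro ε hε
  set η : ℝ := ε / (|y| + 1) with hη
  have hy1 : 0 < |y| + 1 := by positivity
  have hηpos : 0 < η := div_pos hε hy1
  have hK : ContinuousOn (Function.uncurry F1) (I ×ˢ uIcc 0 y) :=
    c1.mono (prod_mono_right hsub)
  obtain ⟨v, hv, hvK⟩ := IsCompact.mem_uniformity_of_prod (isCompact_uIcc (a := (0 : ℝ)) (b := y))
    hK ht (Metric.dist_mem_uniformity hηpos)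
  obtain ⟨δ, hδ, hδ'⟩ := Metric.mem_nhdsWithin_iff.mp hv
  have hball : ∀ᶠ s in 𝓝[I] t, s ∈ Metric.ball t δ ∩ I :=
    Filter.inter_mem (mem_nhdsWithin_of_mem_nhds (Metric.ball_mem_nhds _ hδ))
      self_mem_nhdsWithin
  filter_upwards [hball] with s hs
  have e2 : (∫ z in (0 : ℝ)..y, F s z) - (∫ z in (0 : ℝ)..y, F t z) -
      (s - t) • ∫ z in (0 : ℝ)..y, F1 t z =
      ∫ z in (0 : ℝ)..y, (F s z - F t z - (s - t) * F1 t z) := by
    rw [intervalIntegral.integral_sub ((hint F hF s hs.2).sub (hint F hF t ht))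
      ((hint F1 c1 t ht).const_mul _), intervalIntegral.integral_sub (hint F hF s hs.2)
      (hint F hF t ht), intervalIntegral.integral_const_mul, smul_eq_mul]
  rw [e2]
  have hb : ‖∫ z in (0 : ℝ)..y, (F s z - F t z - (s - t) * F1 t z)‖ ≤
      (η * ‖s - t‖) * |y - 0| := by
    refine (intervalIntegral.norm_integral_le_of_norm_le_const (fun z hz => ?_))
    have hz' : z ∈ uIcc 0 y := uIoc_subset_uIcc hz
    have hconv : Convex ℝ (Metric.ball t δ ∩ I) := (convex_ball _ _).inter hI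
    have := hconv.norm_image_sub_le_of_norm_hasDerivWithin_le
      (f := fun s => F s z - F1 t z * s) (f' := fun s => F1 s z - F1 t z) (C := η)
      (fun r hr => by
        have := ((h1 r hr.2 z (hsub hz')).mono (inter_subset_right (s := Metric.ball t δ))).fun_sub
          (((hasDerivWithinAt_id r (Metric.ball t δ ∩ I)).const_mul (F1 t z)))
        simpa using this)
      (fun r hr => by
        have := hvK r (hδ' hr) z hz'
        simpa [dist_eq_norm] using (le_of_lt this)) ⟨Metric.mem_ball_self hδ, ht⟩ hs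
    have e3 : F s z - F t z - (s - t) * F1 t z =
        (F s z - F1 t z * s) - (F t z - F1 t z * t) := by ring
    rw [e3]
    exact this
  refine hb.trans ?_
  have : η * |y| ≤ ε := by
    rw [hη, div_mul_eq_mul_div, div_le_iff₀ hy1]
    nlinarith [abs_nonneg y]
  calc (η * ‖s - t‖) * |y - 0| = (η * |y|) * ‖s - t‖ := by rw [sub_zero]; ring
    _ ≤ ε * ‖s - t‖ := by gcongr

/-- Joint continuity of an integral with a parameter. -/
theorem continuousOn_param {I J : Set ℝ} (hJ : Convex ℝ J)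
    (h0 : (0 : ℝ) ∈ J) (F : ℝ → ℝ → ℝ)
    (hF : ContinuousOn (fun p : ℝ × ℝ => F p.1 p.2) (I ×ˢ J)) :
    ContinuousOn (fun p : ℝ × ℝ => ∫ z in (0 : ℝ)..p.2, F p.1 z) (I ×ˢ J) := by
  rintro ⟨t, y⟩ ⟨ht, hy⟩
  simp only at ht hy
  have hoc := hJ.ordConnected
  have hint : ∀ s ∈ I, ∀ a ∈ J, ∀ b ∈ J,
      IntervalIntegrable (F s) MeasureTheory.volume a b := by
    intro s hs a ha b hb
    refine ContinuousOn.intervalIntegrable ?_
    have : ContinuousOn (fun z : ℝ => (s, z)) (uIcc a b) := by fun_prop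
    exact hF.comp this (fun z hz => ⟨hs, hoc.uIcc_subset ha hb hz⟩)
  rw [ContinuousWithinAt, Metric.tendsto_nhds]
  intro ε hε
  set η : ℝ := ε / 2 / (|y| + 1) with hη
  have hy1 : 0 < |y| + 1 := by positivity
  have hηpos : 0 < η := div_pos (half_pos hε) hy1
  set M : ℝ := |F t y| + 1 with hM
  have hMpos : 0 < M := by positivity
  have hK : ContinuousOn (Function.uncurry F) (I ×ˢ uIcc 0 y) :=
    hF.mono (prod_mono_right (hoc.uIcc_subset h0 hy))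
  obtain ⟨v, hv, hvK⟩ := IsCompact.mem_uniformity_of_prod (isCompact_uIcc (a := (0 : ℝ)) (b := y))
    hK ht (Metric.dist_mem_uniformity hηpos)
  have hc : ∀ᶠ p : ℝ × ℝ in 𝓝[I ×ˢ J] (t, y), ‖F p.1 p.2‖ < M := by
    have h := (hF (t, y) ⟨ht, hy⟩).eventually (Metric.ball_mem_nhds (F t y) one_pos)
    filter_upwards [h] with p hp
    have h2 : ‖F p.1 p.2 - F t y‖ < 1 := by simpa [dist_eq_norm] using hp
    have h3 := norm_sub_norm_le (F p.1 p.2) (F t y)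
    rw [hM, ← Real.norm_eq_abs]
    linarith
  rw [nhdsWithin_prod_eq, Filter.eventually_prod_iff] at hc
  obtain ⟨pa, hpa, pb, hpb, hab⟩ := hc
  obtain ⟨δ, hδ, hδ'⟩ := Metric.mem_nhdsWithin_iff.mp hpb
  have hball : ∀ᶠ z in 𝓝[J] y, z ∈ Metric.ball y δ ∩ J :=
    Filter.inter_mem (mem_nhdsWithin_of_mem_nhds (Metric.ball_mem_nhds _ hδ))
      self_mem_nhdsWithin
  have hball2 : ∀ᶠ z in 𝓝[J] y, z ∈ Metric.ball y (ε / 2 / M) :=
    mem_nhdsWithin_of_mem_nhds (Metric.ball_mem_nhds _ (div_pos (half_pos hε) hMpos))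
  have hvI : ∀ᶠ s in 𝓝[I] t, s ∈ v ∧ s ∈ I := Filter.inter_mem hv self_mem_nhdsWithin
  rw [nhdsWithin_prod_eq]
  filter_upwards [((hvI.and hpa).prod_mk (hball.and hball2))] with p hp
  obtain ⟨⟨⟨hp1, hp2⟩, hp3⟩, hp4, hp5⟩ := hp
  rw [Real.dist_eq]
  have e : (∫ z in (0 : ℝ)..p.2, F p.1 z) - (∫ z in (0 : ℝ)..y, F t z) =
      (∫ z in (0 : ℝ)..y, (F p.1 z - F t z)) + ∫ z in y..p.2, F p.1 z := by
    rw [intervalIntegral.integral_sub (hint p.1 hp2 0 h0 y hy) (hint t ht 0 h0 y hy),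
      ← intervalIntegral.integral_add_adjacent_intervals (hint p.1 hp2 0 h0 y hy)
        (hint p.1 hp2 y hy p.2 hp4.2)]
    ring
  rw [e]
  have b1 : ‖∫ z in (0 : ℝ)..y, (F p.1 z - F t z)‖ ≤ η * |y - 0| := by
    refine (intervalIntegral.norm_integral_le_of_norm_le_const (fun z hz => ?_))
    have := hvK p.1 hp1 z (uIoc_subset_uIcc hz)
    simpa [dist_eq_norm] using (le_of_lt this)
  have b2 : ‖∫ z in y..p.2, F p.1 z‖ ≤ M * |p.2 - y| := by
    refine (intervalIntegral.norm_integral_le_of_norm_le_const (fun z hz => ?_))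
    have hx' : z ∈ Metric.ball y δ ∩ J := by
      have : uIcc y p.2 ⊆ Metric.ball y δ ∩ J :=
        ((convex_ball y δ).inter hJ).ordConnected.uIcc_subset ⟨Metric.mem_ball_self hδ, hy⟩ hp4
      exact this (uIoc_subset_uIcc hz)
    exact (hab hp3 (hδ' hx')).le
  have b3 : M * |p.2 - y| < ε / 2 := by
    have : |p.2 - y| < ε / 2 / M := by simpa [Real.dist_eq] using hp5
    rw [lt_div_iff₀ hMpos] at this
    linarith
  have b4 : η * |y - 0| ≤ ε / 2 := by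
    rw [sub_zero, hη, div_mul_eq_mul_div, div_le_iff₀ hy1]
    nlinarith [abs_nonneg y]
  rw [← Real.norm_eq_abs]
  calc ‖(∫ z in (0 : ℝ)..y, (F p.1 z - F t z)) + ∫ z in y..p.2, F p.1 z‖
      ≤ ‖∫ z in (0 : ℝ)..y, (F p.1 z - F t z)‖ + ‖∫ z in y..p.2, F p.1 z‖ := norm_add_le _ _
    _ < ε := by linarith

end PartialsAux

open PartialsAux

theorem contDiffOn_of_partials (n : ℕ) {I J : Set ℝ} (hI : Convex ℝ I) (hJ : Convex ℝ J)
    (hI' : (interior I).Nonempty) (hJ' : (interior J).Nonempty) (F F1 F2 : ℝ → ℝ → ℝ)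
    (h1 : ∀ t ∈ I, ∀ y ∈ J, HasDerivWithinAt (fun s => F s y) (F1 t y) I t)
    (h2 : ∀ t ∈ I, ∀ y ∈ J, HasDerivWithinAt (fun z => F t z) (F2 t y) J y)
    (c1 : ContDiffOn ℝ n (fun p : ℝ × ℝ => F1 p.1 p.2) (I ×ˢ J))
    (c2 : ContDiffOn ℝ n (fun p : ℝ × ℝ => F2 p.1 p.2) (I ×ˢ J)) :
    ContDiffOn ℝ (n + 1 : ℕ) (fun p : ℝ × ℝ => F p.1 p.2) (I ×ˢ J) := by
  have hu : UniqueDiffOn ℝ (I ×ˢ J) :=
    (uniqueDiffOn_convex hI hI').prod (uniqueDiffOn_convex hJ hJ')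
  have hd : ∀ p ∈ I ×ˢ J, HasFDerivWithinAt (fun p : ℝ × ℝ => F p.1 p.2)
      (F1 p.1 p.2 • ContinuousLinearMap.fst ℝ ℝ ℝ + F2 p.1 p.2 • ContinuousLinearMap.snd ℝ ℝ ℝ)
      (I ×ˢ J) p := fun p hp =>
    hasFDerivWithinAt_of_partials hI F F1 F2 h1 h2 c1.continuousOn hp.1 hp.2
  push_cast
  rw [contDiffOn_succ_iff_hasFDerivWithinAt_of_uniqueDiffOn hu]
  refine ⟨by simp, fun p => F1 p.1 p.2 • ContinuousLinearMap.fst ℝ ℝ ℝ +
    F2 p.1 p.2 • ContinuousLinearMap.snd ℝ ℝ ℝ, ?_, hd⟩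
  exact (c1.smul contDiffOn_const).add (c2.smul contDiffOn_const)

theorem contDiffOn_integral_snd (n : ℕ) {I J : Set ℝ} (hI : Convex ℝ I) (hJ : Convex ℝ J)
    (hI' : (interior I).Nonempty) (hJ' : (interior J).Nonempty) (h0 : (0 : ℝ) ∈ J)
    (F : ℝ → ℝ → ℝ) (hF : ContDiffOn ℝ n (fun p : ℝ × ℝ => F p.1 p.2) (I ×ˢ J)) :
    ContDiffOn ℝ n (fun p : ℝ × ℝ => ∫ z in (0 : ℝ)..p.2, F p.1 z) (I ×ˢ J) := by
  have hu : UniqueDiffOn ℝ (I ×ˢ J) :=
    (uniqueDiffOn_convex hI hI').prod (uniqueDiffOn_convex hJ hJ')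
  induction n generalizing F with
  | zero =>
    have : ContinuousOn (fun p : ℝ × ℝ => F p.1 p.2) (I ×ˢ J) := hF.continuousOn
    simpa using continuousOn_param hJ h0 F this
  | succ n ih =>
    have hF' : ContDiffOn ℝ (n + 1) (fun p : ℝ × ℝ => F p.1 p.2) (I ×ˢ J) := by
      exact_mod_cast hF
    have hFn : ContDiffOn ℝ n (fun p : ℝ × ℝ => F p.1 p.2) (I ×ˢ J) :=
      hF'.of_le (by exact_mod_cast Nat.le_succ n)
    set F1 : ℝ → ℝ → ℝ := fun t z =>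
      fderivWithin ℝ (fun p : ℝ × ℝ => F p.1 p.2) (I ×ˢ J) (t, z) (1, 0) with hF1
    have c1 : ContDiffOn ℝ n (fun p : ℝ × ℝ => F1 p.1 p.2) (I ×ˢ J) := by
      have := hF'.fderivWithin hu (m := n) le_rfl
      exact this.clm_apply contDiffOn_const
    have h1 : ∀ t ∈ I, ∀ y ∈ J, HasDerivWithinAt (fun s => F s y) (F1 t y) I t := by
      intro t ht y hy
      have hdiff : HasFDerivWithinAt (fun p : ℝ × ℝ => F p.1 p.2)
          (fderivWithin ℝ (fun p : ℝ × ℝ => F p.1 p.2) (I ×ˢ J) (t, y)) (I ×ˢ J) (t, y) :=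
        ((hF'.differentiableOn (by simp)) (t, y) ⟨ht, hy⟩).hasFDerivWithinAt
      have hg : HasDerivWithinAt (fun s : ℝ => (s, y)) ((1 : ℝ), (0 : ℝ)) I t :=
        (hasDerivWithinAt_id t I).prodMk (hasDerivWithinAt_const t I y)
      have hm : MapsTo (fun s : ℝ => (s, y)) I (I ×ˢ J) := fun s hs => ⟨hs, hy⟩
      exact hdiff.comp_hasDerivWithinAt t hg hm
    have hc : ContinuousOn (fun p : ℝ × ℝ => F p.1 p.2) (I ×ˢ J) := hF'.continuousOn
    refine contDiffOn_of_partials n hI hJ hI' hJ' (fun t y => ∫ z in (0 : ℝ)..y, F t z)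
      (fun t y => ∫ z in (0 : ℝ)..y, F1 t z) F ?_ ?_ (ih F1 c1) hFn
    · intro t ht y hy
      exact hasDerivWithinAt_param hI hJ h0 F F1 hc h1 c1.continuousOn ht hy
    · intro t ht y hy
      refine hasDerivWithinAt_integral hJ h0 (F t) ?_ hy
      have : ContinuousOn (fun z : ℝ => (t, z)) J := by fun_prop
      exact hc.comp this (fun z hz => ⟨ht, hz⟩)

theorem contDiffOn_integral_fst (n : ℕ) {I J : Set ℝ} (hI : Convex ℝ I) (hJ : Convex ℝ J)
    (hI' : (interior I).Nonempty) (hJ' : (interior J).Nonempty) (h0 : (0 : ℝ) ∈ I)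
    (F : ℝ → ℝ → ℝ) (hF : ContDiffOn ℝ n (fun p : ℝ × ℝ => F p.1 p.2) (I ×ˢ J)) :
    ContDiffOn ℝ n (fun p : ℝ × ℝ => ∫ s in (0 : ℝ)..p.1, F s p.2) (I ×ˢ J) := by
  have hsw : ContDiffOn ℝ n (fun p : ℝ × ℝ => (p.2, p.1)) (J ×ˢ I) :=
    (contDiff_snd.prodMk contDiff_fst).contDiffOn
  have hsw' : ContDiffOn ℝ n (fun p : ℝ × ℝ => (p.2, p.1)) (I ×ˢ J) :=
    (contDiff_snd.prodMk contDiff_fst).contDiffOn
  have h1 : ContDiffOn ℝ n (fun p : ℝ × ℝ => (fun a b => F b a) p.1 p.2) (J ×ˢ I) :=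
    hF.comp hsw (fun p hp => ⟨hp.2, hp.1⟩)
  have h2 := contDiffOn_integral_snd n hJ hI hJ' hI' h0 (fun a b => F b a) h1
  exact h2.comp hsw' (fun p hp => ⟨hp.2, hp.1⟩)

end Pool.Agent.MP_ae1fc5_gt
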