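import Pool.Agent.MP_ae1fc5_gt.Natural
import Pool.Agent.MP_ae1fc5_gt.Partials
import Pool.Agent.MP_ae1fc5_gt.Ode

/-!
# MP_ae1fc5_gt, module L: from the conformal gauge to the Ricci flow (one-dimensional form)
-/

open scoped Quaternion ContDiff Matrix
open Set

noncomputable section

namespace Pool.Agent.MP_ae1fc5_gt

namespace Gauge

/-! ### Calculus of smooth functions of two variables on a product of intervals -/

/-- smooth functions of two variables -/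
def Sm (I J : Set ℝ) (F : ℝ → ℝ → ℝ) : Prop :=
  ContDiffOn ℝ ∞ (fun p : ℝ × ℝ => F p.1 p.2) (I ×ˢ J)

/-- partial derivative in the second variable -/
def dY (I J : Set ℝ) (F : ℝ → ℝ → ℝ) (t y : ℝ) : ℝ :=
  fderivWithin ℝ (fun p : ℝ × ℝ => F p.1 p.2) (I ×ˢ J) (t, y) (0, 1)

/-- partial derivative in the first variable -/
def dT (I J : Set ℝ) (F : ℝ → ℝ → ℝ) (t y : ℝ) : ℝ :=
  fderivWithin ℝ (fun p : ℝ × ℝ => F p.1 p.2) (I ×ˢ J) (t, y) (1, 0)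

section calculus

variable {I J : Set ℝ} (hI : UniqueDiffOn ℝ I) (hJ : UniqueDiffOn ℝ J) {F G : ℝ → ℝ → ℝ}

include hI hJ in
theorem sm_dY (hF : Sm I J F) : Sm I J (dY I J F) := by
  have h := hF.fderivWithin (m := ∞) (hI.prod hJ) (by simp)
  exact h.clm_apply contDiffOn_const

include hI hJ in
theorem sm_dT (hF : Sm I J F) : Sm I J (dT I J F) := by
  have h := hF.fderivWithin (m := ∞) (hI.prod hJ) (by simp)
  exact h.clm_apply contDiffOn_const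

theorem hasDeriv_dY (hF : Sm I J F) {t y : ℝ} (ht : t ∈ I) (hy : y ∈ J) :
    HasDerivWithinAt (F t) (dY I J F t y) J y := by
  have h := ((hF.differentiableOn (by simp)) (t, y) ⟨ht, hy⟩).hasFDerivWithinAt
  have h2 : HasDerivWithinAt (fun z : ℝ => ((t, z) : ℝ × ℝ)) ((0 : ℝ), (1 : ℝ)) J y :=
    (hasDerivWithinAt_const y J t).prodMk (hasDerivWithinAt_id y J)
  exact h.comp_hasDerivWithinAt y h2 (fun z hz => Set.mk_mem_prod ht hz)

theorem hasDeriv_dT (hF : Sm I J F) {t y : ℝ} (ht : t ∈ I) (hy : y ∈ J) :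
    HasDerivWithinAt (fun s => F s y) (dT I J F t y) I t := by
  have h := ((hF.differentiableOn (by simp)) (t, y) ⟨ht, hy⟩).hasFDerivWithinAt
  have h2 : HasDerivWithinAt (fun s : ℝ => ((s, y) : ℝ × ℝ)) ((1 : ℝ), (0 : ℝ)) I t :=
    (hasDerivWithinAt_id t I).prodMk (hasDerivWithinAt_const t I y)
  exact h.comp_hasDerivWithinAt t h2 (fun z hz => Set.mk_mem_prod hz hy)

theorem Sm.cont_y (hF : Sm I J F) {t : ℝ} (ht : t ∈ I) : ContinuousOn (F t) J :=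
  hF.continuousOn.comp (f := fun z : ℝ => ((t, z) : ℝ × ℝ)) (by fun_prop) (fun z hz => ⟨ht, hz⟩)

theorem Sm.cont_t (hF : Sm I J F) {y : ℝ} (hy : y ∈ J) : ContinuousOn (fun s => F s y) I :=
  hF.continuousOn.comp (f := fun s : ℝ => ((s, y) : ℝ × ℝ)) (by fun_prop) (fun z hz => ⟨hz, hy⟩)

theorem Sm.congr (hF : Sm I J F) (h : ∀ t ∈ I, ∀ y ∈ J, G t y = F t y) : Sm I J G :=
  ContDiffOn.congr hF (fun p hp => h p.1 hp.1 p.2 hp.2)

theorem Sm.add (hF : Sm I J F) (hG : Sm I J G) : Sm I J (fun t y => F t y + G t y) :=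
  ContDiffOn.add hF hG

theorem Sm.sub (hF : Sm I J F) (hG : Sm I J G) : Sm I J (fun t y => F t y - G t y) :=
  ContDiffOn.sub hF hG

theorem Sm.mul (hF : Sm I J F) (hG : Sm I J G) : Sm I J (fun t y => F t y * G t y) :=
  ContDiffOn.mul hF hG

theorem Sm.neg (hF : Sm I J F) : Sm I J (fun t y => -F t y) :=
  ContDiffOn.neg hF

theorem Sm.pow (hF : Sm I J F) (n : ℕ) : Sm I J (fun t y => F t y ^ n) :=
  ContDiffOn.pow hF n

theorem Sm.exp (hF : Sm I J F) : Sm I J (fun t y => Real.exp (F t y)) :=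
  ContDiffOn.exp hF

theorem Sm.div (hF : Sm I J F) (hG : Sm I J G) (h : ∀ t ∈ I, ∀ y ∈ J, G t y ≠ 0) :
    Sm I J (fun t y => F t y / G t y) :=
  ContDiffOn.div hF hG (fun p hp => h p.1 hp.1 p.2 hp.2)

theorem sm_const (c : ℝ) : Sm I J (fun _ _ => c) := contDiffOn_const

theorem sm_snd : Sm I J (fun _ y => y) := contDiff_snd.contDiffOn

theorem Sm.comp_snd {J' : Set ℝ} {Y : ℝ → ℝ → ℝ} (hF : Sm I J' F) (hY : Sm I J Y)
    (hm : ∀ t ∈ I, ∀ y ∈ J, Y t y ∈ J') : Sm I J (fun t y => F t (Y t y)) := by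
  have h : ContDiffOn ℝ ∞ (fun p : ℝ × ℝ => ((p.1, Y p.1 p.2) : ℝ × ℝ)) (I ×ˢ J) :=
    contDiff_fst.contDiffOn.prodMk hY
  exact ContDiffOn.comp (g := fun p : ℝ × ℝ => F p.1 p.2) hF h
    (fun p hp => ⟨hp.1, hm p.1 hp.1 p.2 hp.2⟩)

theorem Sm.comp_contDiff {g : ℝ → ℝ} (hg : ContDiff ℝ ∞ g) (hF : Sm I J F) :
    Sm I J (fun t y => g (F t y)) :=
  hg.comp_contDiffOn hF

theorem Sm.integral_fst (hI : Convex ℝ I) (hJ : Convex ℝ J)
    (hI' : (interior I).Nonempty) (hJ' : (interior J).Nonempty) (h0 : (0 : ℝ) ∈ I)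
    (hF : Sm I J F) : Sm I J (fun t y => ∫ s in (0 : ℝ)..t, F s y) := by
  refine contDiffOn_infty.2 fun n => ?_
  exact contDiffOn_integral_fst n hI hJ hI' hJ' h0 F (hF.of_le (by exact_mod_cast le_top))

theorem Sm.integral_snd (hI : Convex ℝ I) (hJ : Convex ℝ J)
    (hI' : (interior I).Nonempty) (hJ' : (interior J).Nonempty) (h0 : (0 : ℝ) ∈ J)
    (hF : Sm I J F) : Sm I J (fun t y => ∫ z in (0 : ℝ)..y, F t z) := by
  refine contDiffOn_infty.2 fun n => ?_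
  exact contDiffOn_integral_snd n hI hJ hI' hJ' h0 F (hF.of_le (by exact_mod_cast le_top))

end calculus

/-! ### The entire function `(e^z - 1)/z` -/

/-- `(e^z - 1)/z` -/
def E (z : ℝ) : ℝ := dslope Real.exp 0 z

theorem mul_E (z : ℝ) : z * E z = Real.exp z - 1 := by
  have h := sub_smul_dslope Real.exp 0 z
  simpa [E] using h

theorem contDiff_E : ContDiff ℝ ∞ E := by
  rw [contDiff_iff_contDiffAt]
  intro z
  by_cases hz : z = 0
  · subst hz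
    have h0 : AnalyticAt ℝ Real.exp 0 := analyticAt_rexp
    obtain ⟨p, hp⟩ := h0
    have h1 := hp.has_fpower_series_dslope_fslope
    exact (h1.analyticAt).contDiffAt
  · have h1 : E =ᶠ[nhds z] fun x => (Real.exp x - 1) / x := by
      filter_upwards [isOpen_ne.mem_nhds hz] with x hx
      rw [E, dslope_of_ne _ hx, slope_def_field]
      simp
    refine ContDiffAt.congr_of_eventuallyEq ?_ h1
    exact (Real.contDiff_exp.contDiffAt.sub contDiffAt_const).div contDiffAt_id hz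

/-! ### One-variable derivative computations -/

section onevar

variable {vf v1f v2f Yf Wf W1f : ℝ → ℝ} {y : ℝ}

theorem der_rho (hY : HasDerivAt Yf (Wf y) y) (hy : 1 - y ^ 2 ≠ 0) :
    HasDerivAt (fun z => (1 - Yf z ^ 2) / (1 - z ^ 2))
      (-2 * Yf y * Wf y / (1 - y ^ 2) + 2 * y * (1 - Yf y ^ 2) / (1 - y ^ 2) ^ 2) y := by
  have h := ((hY.fun_pow 2).const_sub 1).fun_div (((hasDerivAt_id' y).fun_pow 2).const_sub 1) hy
  refine h.congr_deriv ?_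
  simp only [Nat.cast_ofNat]
  field_simp
  ring

theorem der_rho1 (hY : HasDerivAt Yf (Wf y) y) (hW : HasDerivAt Wf (W1f y) y)
    (hy : 1 - y ^ 2 ≠ 0) :
    HasDerivAt (fun z => -2 * Yf z * Wf z / (1 - z ^ 2) + 2 * z * (1 - Yf z ^ 2) / (1 - z ^ 2) ^ 2)
      (-2 * (Wf y ^ 2 + Yf y * W1f y) / (1 - y ^ 2) - 8 * y * Yf y * Wf y / (1 - y ^ 2) ^ 2
      + 2 * (1 - Yf y ^ 2) / (1 - y ^ 2) ^ 2 + 8 * y ^ 2 * (1 - Yf y ^ 2) / (1 - y ^ 2) ^ 3) y := by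
  have hq := ((hasDerivAt_id' y).fun_pow 2).const_sub 1
  have h1 := ((hY.const_mul (-2)).fun_mul hW).fun_div hq hy
  have h2 := (((hasDerivAt_id' y).const_mul 2).fun_mul ((hY.fun_pow 2).const_sub 1)).fun_div
    (hq.fun_pow 2) (pow_ne_zero 2 hy)
  refine (h1.fun_add h2).congr_deriv ?_
  simp only [Nat.cast_ofNat]
  field_simp
  ring

theorem der_al {ρf : ℝ → ℝ} {ρ1 : ℝ} (hv : HasDerivAt vf (v1f y * Wf y) y)
    (hρ : HasDerivAt ρf ρ1 y) (hvp : 0 < vf y) :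
    HasDerivAt (fun z => ρf z / vf z ^ 2)
      (ρ1 / vf y ^ 2 - 2 * v1f y * Wf y * ρf y / vf y ^ 3) y := by
  have h := hρ.fun_div (hv.fun_pow 2) (pow_ne_zero 2 hvp.ne')
  refine h.congr_deriv ?_
  simp only [Nat.cast_ofNat]
  field_simp
  ring

theorem der_al1 {ρf ρ1f : ℝ → ℝ} {ρ2 : ℝ} (hv : HasDerivAt vf (v1f y * Wf y) y)
    (hv1 : HasDerivAt v1f (v2f y * Wf y) y) (hW : HasDerivAt Wf (W1f y) y)
    (hρ : HasDerivAt ρf (ρ1f y) y) (hρ1 : HasDerivAt ρ1f ρ2 y) (hvp : 0 < vf y) :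
    HasDerivAt (fun z => ρ1f z / vf z ^ 2 - 2 * v1f z * Wf z * ρf z / vf z ^ 3)
      (ρ2 / vf y ^ 2 - 4 * v1f y * Wf y * ρ1f y / vf y ^ 3 - 2 * v2f y * Wf y ^ 2 * ρf y / vf y ^ 3
      - 2 * v1f y * W1f y * ρf y / vf y ^ 3 + 6 * v1f y ^ 2 * Wf y ^ 2 * ρf y / vf y ^ 4) y := by
  have h1 := hρ1.fun_div (hv.fun_pow 2) (pow_ne_zero 2 hvp.ne')
  have h2 := (((hv1.const_mul 2).fun_mul hW).fun_mul hρ).fun_div (hv.fun_pow 3)
    (pow_ne_zero 3 hvp.ne')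
  refine (h1.fun_sub h2).congr_deriv ?_
  simp only [Nat.cast_ofNat]
  field_simp
  ring

theorem der_A {ρf : ℝ → ℝ} {ρ1 : ℝ} (hv : HasDerivAt vf (v1f y * Wf y) y)
    (hW : HasDerivAt Wf (W1f y) y)
    (hρ : HasDerivAt ρf ρ1 y) (hvp : 0 < vf y) (hρp : 0 < ρf y) :
    HasDerivAt (fun z => Wf z ^ 2 / (ρf z * vf z ^ 2))
      (2 * Wf y * W1f y / (ρf y * vf y ^ 2) - 2 * v1f y * Wf y ^ 3 / (ρf y * vf y ^ 3)
      - Wf y ^ 2 * ρ1 / (ρf y ^ 2 * vf y ^ 2)) y := by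
  have h := (hW.fun_pow 2).fun_div (hρ.fun_mul (hv.fun_pow 2)) (by positivity)
  refine h.congr_deriv ?_
  simp only [Nat.cast_ofNat]
  field_simp
  ring

theorem der_be {Af alf : ℝ → ℝ} {A1 al1 : ℝ} (hA : HasDerivAt Af A1 y)
    (hal : HasDerivAt alf al1 y) (hy : 1 - y ^ 2 ≠ 0) :
    HasDerivAt (fun z => (Af z - alf z) / (1 - z ^ 2))
      ((A1 - al1) / (1 - y ^ 2) + 2 * y * (Af y - alf y) / (1 - y ^ 2) ^ 2) y := by
  have h := (hA.fun_sub hal).fun_div (((hasDerivAt_id' y).fun_pow 2).const_sub 1) hy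
  refine h.congr_deriv ?_
  simp only [Nat.cast_ofNat]
  field_simp
  ring

end onevar

theorem derivWithin_of_hasDerivAt {g : ℝ → ℝ} {g' y : ℝ} (hy : y ∈ Ioo (-1 : ℝ) 1)
    (h : HasDerivAt g g' y) : derivWithin g I1 y = g' := by
  rw [derivWithin_of_mem_nhds (Icc_mem_nhds hy.1 hy.2)]
  exact h.deriv

theorem one_var (vf v1f v2f Yf Wf W1f al be : ℝ → ℝ)
    (hY : ∀ y ∈ Ioo (-1 : ℝ) 1, HasDerivAt Yf (Wf y) y)
    (hW : ∀ y ∈ Ioo (-1 : ℝ) 1, HasDerivAt Wf (W1f y) y)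
    (hv : ∀ y ∈ Ioo (-1 : ℝ) 1, HasDerivAt vf (v1f y * Wf y) y)
    (hv1 : ∀ y ∈ Ioo (-1 : ℝ) 1, HasDerivAt v1f (v2f y * Wf y) y)
    (hvp : ∀ y ∈ Ioo (-1 : ℝ) 1, 0 < vf y) (hWp : ∀ y ∈ Ioo (-1 : ℝ) 1, 0 < Wf y)
    (hYm : ∀ y ∈ Ioo (-1 : ℝ) 1, Yf y ^ 2 < 1)
    (hal : ∀ y ∈ Ioo (-1 : ℝ) 1, al y = (1 - Yf y ^ 2) / (1 - y ^ 2) / vf y ^ 2)
    (hbe : ∀ y ∈ Ioo (-1 : ℝ) 1, be y =
      (Wf y ^ 2 / ((1 - Yf y ^ 2) / (1 - y ^ 2) * vf y ^ 2)
        - (1 - Yf y ^ 2) / (1 - y ^ 2) / vf y ^ 2) / (1 - y ^ 2))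
    (y : ℝ) (hy : y ∈ Ioo (-1 : ℝ) 1) :
    Pf (al y) (derivWithin al I1 y) (derivWithin (derivWithin al I1) I1 y) (be y)
        (derivWithin be I1 y) y =
      (1 - Yf y ^ 2) / (1 - y ^ 2) * (2 - 4 * Yf y * v1f y / vf y +
        (1 - Yf y ^ 2) * (v2f y / vf y - 2 * v1f y ^ 2 / vf y ^ 2)) ∧
    Pf (al y) (derivWithin al I1 y) (derivWithin (derivWithin al I1) I1 y) (be y)
        (derivWithin be I1 y) y +
      (1 - y ^ 2) * Qf (al y) (derivWithin al I1 y) (derivWithin (derivWithin al I1) I1 y) (be y)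
        (derivWithin be I1 y) y =
      Wf y ^ 2 / ((1 - Yf y ^ 2) / (1 - y ^ 2)) * (2 - 4 * Yf y * v1f y / vf y +
        (1 - Yf y ^ 2) * (2 * v2f y / vf y - 2 * v1f y ^ 2 / vf y ^ 2)) := by
  have hsq : ∀ z ∈ Ioo (-1 : ℝ) 1, 0 < 1 - z ^ 2 := fun z hz => by nlinarith [hz.1, hz.2]
  have hr : ∀ z ∈ Ioo (-1 : ℝ) 1, 0 < (1 - Yf z ^ 2) / (1 - z ^ 2) := fun z hz =>
    div_pos (by linarith [hYm z hz]) (hsq z hz)
  have dρ : ∀ z ∈ Ioo (-1 : ℝ) 1, _ := fun z hz => der_rho (hY z hz) (hsq z hz).ne'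
  have dρ1 : ∀ z ∈ Ioo (-1 : ℝ) 1, _ := fun z hz => der_rho1 (hY z hz) (hW z hz) (hsq z hz).ne'
  have dal : ∀ z ∈ Ioo (-1 : ℝ) 1, _ := fun z hz => der_al (hv z hz) (dρ z hz) (hvp z hz)
  have dal1 : ∀ z ∈ Ioo (-1 : ℝ) 1, _ := fun z hz =>
    der_al1 (hv z hz) (hv1 z hz) (hW z hz) (dρ z hz) (dρ1 z hz) (hvp z hz)
  have dA : ∀ z ∈ Ioo (-1 : ℝ) 1, _ := fun z hz =>
    der_A (hv z hz) (hW z hz) (dρ z hz) (hvp z hz) (hr z hz)
  have dbe : ∀ z ∈ Ioo (-1 : ℝ) 1, _ := fun z hz => der_be (dA z hz) (dal z hz) (hsq z hz).ne'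
  have nh : Ioo (-1 : ℝ) 1 ∈ nhds y := Ioo_mem_nhds hy.1 hy.2
  have eal : ∀ z ∈ Ioo (-1 : ℝ) 1, al =ᶠ[nhds z] fun z => (1 - Yf z ^ 2) / (1 - z ^ 2) / vf z ^ 2 :=
    fun z hz => by
      filter_upwards [Ioo_mem_nhds hz.1 hz.2] with x hx using hal x hx
  have ebe : be =ᶠ[nhds y] fun z => (Wf z ^ 2 / ((1 - Yf z ^ 2) / (1 - z ^ 2) * vf z ^ 2)
        - (1 - Yf z ^ 2) / (1 - z ^ 2) / vf z ^ 2) / (1 - z ^ 2) := by
    filter_upwards [nh] with x hx using hbe x hx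
  have k1 : ∀ z ∈ Ioo (-1 : ℝ) 1, derivWithin al I1 z = _ := fun z hz =>
    derivWithin_of_hasDerivAt hz ((dal z hz).congr_of_eventuallyEq (eal z hz))
  have k2 : derivWithin be I1 y = _ :=
    derivWithin_of_hasDerivAt hy ((dbe y hy).congr_of_eventuallyEq ebe)
  have k3 : derivWithin (derivWithin al I1) I1 y = _ :=
    derivWithin_of_hasDerivAt hy ((dal1 y hy).congr_of_eventuallyEq
      (Filter.eventuallyEq_of_mem nh (fun x hx => k1 x hx)))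
  refine natural (vf y) (v1f y) (v2f y) (Yf y) y (Wf y) (W1f y) _ _ _ _ _ _ _ _ _ _
    (hvp y hy) (hWp y hy) (by linarith [hsq y hy]) (hYm y hy) rfl rfl rfl (hal y hy) (k1 y hy)
    k3 rfl rfl ?_ ?_
  · rw [hbe y hy, hal y hy]
  · rw [k2, hal y hy, k1 y hy]

/-! ### Continuity of `Pf`, `Qf` -/

theorem cont_Pf {a a1 a2 b b1 : ℝ → ℝ} (ha : ContinuousOn a I1) (ha1 : ContinuousOn a1 I1)
    (ha2 : ContinuousOn a2 I1) (hb : ContinuousOn b I1) (hb1 : ContinuousOn b1 I1)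
    (pos : ∀ y ∈ I1, 0 < a y) (pos' : ∀ y ∈ I1, 0 < a y + b y * (1 - y ^ 2)) :
    ContinuousOn (fun y => Pf (a y) (a1 y) (a2 y) (b y) (b1 y) y) I1 := by
  have p1 : ∀ y ∈ I1, a y ≠ 0 := fun y hy => (pos y hy).ne'
  have p2 : ∀ y ∈ I1, 2 * a y ≠ 0 := fun y hy => mul_ne_zero two_ne_zero (p1 y hy)
  have p3 : ∀ y ∈ I1, a y + b y * (1 - y ^ 2) ≠ 0 := fun y hy => (pos' y hy).ne'
  have p4 : ∀ y ∈ I1, (a y + b y * (1 - y ^ 2)) ^ 2 ≠ 0 := fun y hy => pow_ne_zero 2 (p3 y hy)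
  unfold Pf
  fun_prop (disch := assumption)

theorem cont_Qf {a a1 a2 b b1 : ℝ → ℝ} (ha : ContinuousOn a I1) (ha1 : ContinuousOn a1 I1)
    (ha2 : ContinuousOn a2 I1) (hb : ContinuousOn b I1) (hb1 : ContinuousOn b1 I1)
    (pos : ∀ y ∈ I1, 0 < a y) (pos' : ∀ y ∈ I1, 0 < a y + b y * (1 - y ^ 2)) :
    ContinuousOn (fun y => Qf (a y) (a1 y) (a2 y) (b y) (b1 y) y) I1 := by
  have p1 : ∀ y ∈ I1, a y ≠ 0 := fun y hy => (pos y hy).ne'
  have p2 : ∀ y ∈ I1, 2 * a y ≠ 0 := fun y hy => mul_ne_zero two_ne_zero (p1 y hy)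
  have p3 : ∀ y ∈ I1, a y + b y * (1 - y ^ 2) ≠ 0 := fun y hy => (pos' y hy).ne'
  have p4 : ∀ y ∈ I1, (a y + b y * (1 - y ^ 2)) ^ 2 ≠ 0 := fun y hy => pow_ne_zero 2 (p3 y hy)
  have p5 : ∀ y ∈ I1, 2 * a y ^ 2 ≠ 0 := fun y hy =>
    mul_ne_zero two_ne_zero (pow_ne_zero 2 (p1 y hy))
  unfold Qf
  fun_prop (disch := assumption)

/-! ### Time derivatives -/

theorem ftc {Λ : ℝ} {h : ℝ → ℝ} (hh : ContinuousOn h (Icc 0 Λ)) {t : ℝ} (ht : t ∈ Icc 0 Λ) :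
    HasDerivWithinAt (fun u => ∫ s in (0 : ℝ)..u, h s) (h t) (Icc 0 Λ) t := by
  have : Fact (t ∈ Icc 0 Λ) := ⟨ht⟩
  have hint : IntervalIntegrable h MeasureTheory.volume 0 t := by
    refine ContinuousOn.intervalIntegrable (hh.mono ?_)
    rw [uIcc_of_le ht.1]
    exact Icc_subset_Icc le_rfl ht.2
  refine intervalIntegral.integral_hasDerivWithinAt_right hint ?_ (hh t ht)
  exact hh.stronglyMeasurableAtFilter_nhdsWithin measurableSet_Icc t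

/-- derivative in time of `ρ / v²` -/
theorem dt_al {I : Set ℝ} {t : ℝ} {gf vf : ℝ → ℝ} {V1 V2 J Y f : ℝ}
    (hg : HasDerivWithinAt gf (Y * f) I t)
    (hv : HasDerivWithinAt vf (rhs (vf t) V1 V2 J Y + V1 * (-f * (1 - Y ^ 2))) I t)
    (hJ : J = vf t * V1 - f) (hvp : 0 < vf t) :
    HasDerivWithinAt (fun s => Real.exp (2 * gf s) / vf s ^ 2)
      (-2 * (Real.exp (2 * gf t) * (2 - 4 * Y * V1 / vf t +
        (1 - Y ^ 2) * (V2 / vf t - 2 * V1 ^ 2 / vf t ^ 2)))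
        + 4 * (Real.exp (2 * gf t) / vf t ^ 2)) I t := by
  have h := ((hg.const_mul 2).exp).fun_div (hv.fun_pow 2) (pow_ne_zero 2 hvp.ne')
  refine h.congr_deriv ?_
  simp only [Nat.cast_ofNat, rhs, hJ]
  field_simp
  ring

/-- derivative in time of `W² / (ρ v²)` -/
theorem dt_A {I : Set ℝ} {t : ℝ} {gf vf wf : ℝ → ℝ} {V1 V2 J Y f : ℝ}
    (hg : HasDerivWithinAt gf (Y * f) I t)
    (hw : HasDerivWithinAt wf (2 * Y * f - (1 - Y ^ 2) * (vf t * V2)) I t)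
    (hv : HasDerivWithinAt vf (rhs (vf t) V1 V2 J Y + V1 * (-f * (1 - Y ^ 2))) I t)
    (hJ : J = vf t * V1 - f) (hvp : 0 < vf t) :
    HasDerivWithinAt (fun s => Real.exp (wf s) ^ 2 / (Real.exp (2 * gf s) * vf s ^ 2))
      (-2 * (Real.exp (wf t) ^ 2 / Real.exp (2 * gf t) * (2 - 4 * Y * V1 / vf t +
        (1 - Y ^ 2) * (2 * V2 / vf t - 2 * V1 ^ 2 / vf t ^ 2)))
        + 4 * (Real.exp (wf t) ^ 2 / (Real.exp (2 * gf t) * vf t ^ 2))) I t := by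
  have hpos : Real.exp (2 * gf t) * vf t ^ 2 ≠ 0 := by positivity
  have h := ((hw.exp).fun_pow 2).fun_div (((hg.const_mul 2).exp).fun_mul (hv.fun_pow 2)) hpos
  refine h.congr_deriv ?_
  simp only [Nat.cast_ofNat, rhs, hJ]
  field_simp
  ring

theorem unique_deriv {I : Set ℝ} (hI : UniqueDiffOn ℝ I) {g : ℝ → ℝ} {t a b : ℝ} (ht : t ∈ I)
    (h1 : HasDerivWithinAt g a I t) (h2 : HasDerivWithinAt g b I t) : a = b := by
  rw [← h1.derivWithin (hI t ht), ← h2.derivWithin (hI t ht)]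

/-- chain rule for `s ↦ V s (Y s)` -/
theorem chain {I J : Set ℝ} (hI : UniqueDiffOn ℝ I) {V : ℝ → ℝ → ℝ} (sV : Sm I J V)
    {Yf : ℝ → ℝ} {t Y' R : ℝ} (ht : t ∈ I) (hm : ∀ s ∈ I, Yf s ∈ J)
    (hY : HasDerivWithinAt Yf Y' I t)
    (hR : HasDerivWithinAt (fun s => V s (Yf t)) R I t) :
    HasDerivWithinAt (fun s => V s (Yf s)) (R + dY I J V t (Yf t) * Y') I t := by
  have hF := ((sV.differentiableOn (by simp)) (t, Yf t) ⟨ht, hm t ht⟩).hasFDerivWithinAt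
  have hs : HasDerivWithinAt (fun s => ((s, Yf s) : ℝ × ℝ)) ((1 : ℝ), Y') I t :=
    (hasDerivWithinAt_id t I).prodMk hY
  have h := hF.comp_hasDerivWithinAt t hs (fun s hs => Set.mk_mem_prod hs (hm s hs))
  refine HasDerivWithinAt.congr_deriv (f := fun s => V s (Yf s)) h ?_
  have e : ((1 : ℝ), Y') = ((1 : ℝ), (0 : ℝ)) + Y' • ((0 : ℝ), (1 : ℝ)) := by
    ext <;> simp
  rw [e, map_add, map_smul]
  have h1 : dT I J V t (Yf t) = R :=
    unique_deriv hI ht (hasDeriv_dT sV ht (hm t ht)) hR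
  rw [← h1]
  simp only [dT, dY, smul_eq_mul]
  ring

end Gauge

open Gauge in
theorem exists_rot_flow (Λ c : ℝ) (hΛ : 0 < Λ) (hc : 1 < c) (V : ℝ → ℝ → ℝ) (hV : IsSol Λ c V) :
    ∃ al be : ℝ → ℝ → ℝ,
      ContDiffOn ℝ ∞ (fun p : ℝ × ℝ => al p.1 p.2) (Icc 0 Λ ×ˢ I1) ∧
      ContDiffOn ℝ ∞ (fun p : ℝ × ℝ => be p.1 p.2) (Icc 0 Λ ×ˢ I1) ∧
      (∀ t ∈ Icc 0 Λ, ∀ y ∈ I1, 0 < al t y ∧ 0 < al t y + be t y * (1 - y ^ 2)) ∧
      (∀ y ∈ I1, al 0 y = (V 0 y)⁻¹ ^ 2 ∧ be 0 y = 0) ∧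
      (∀ t ∈ Icc 0 Λ, ∀ y ∈ I1, HasDerivWithinAt (fun s => al s y)
        (-2 * Pf (al t y) (derivWithin (al t) I1 y) (derivWithin (derivWithin (al t) I1) I1 y)
          (be t y) (derivWithin (be t) I1 y) y + 4 * al t y) (Icc 0 Λ) t) ∧
      (∀ t ∈ Icc 0 Λ, ∀ y ∈ I1, HasDerivWithinAt (fun s => be s y)
        (-2 * Qf (al t y) (derivWithin (al t) I1 y) (derivWithin (derivWithin (al t) I1) I1 y)
          (be t y) (derivWithin (be t) I1 y) y + 4 * be t y) (Icc 0 Λ) t) := by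
  have cI : Convex ℝ (Icc 0 Λ) := convex_Icc 0 Λ
  have cJ : Convex ℝ (Ioo (-c) c) := convex_Ioo _ _
  have c1 : Convex ℝ I1 := convex_Icc _ _
  have iI : (interior (Icc 0 Λ)).Nonempty := by
    rw [interior_Icc]; exact ⟨Λ / 2, by constructor <;> linarith⟩
  have iJ : (interior (Ioo (-c) c)).Nonempty := by
    rw [interior_Ioo]; exact ⟨0, by constructor <;> linarith⟩
  have i1 : (interior I1).Nonempty := by
    rw [interior_Icc]; exact ⟨0, by constructor <;> norm_num⟩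
  have uI : UniqueDiffOn ℝ (Icc 0 Λ) := uniqueDiffOn_Icc hΛ
  have uJ : UniqueDiffOn ℝ (Ioo (-c) c) := isOpen_Ioo.uniqueDiffOn
  have u1 : UniqueDiffOn ℝ I1 := uniqueDiffOn_Icc (by norm_num)
  have z0 : (0 : ℝ) ∈ Icc 0 Λ := ⟨le_rfl, hΛ.le⟩
  have zJ : (0 : ℝ) ∈ Ioo (-c) c := by constructor <;> linarith
  have sV : Sm (Icc 0 Λ) (Ioo (-c) c) V := hV.smooth
  obtain ⟨V1, hV1⟩ : ∃ F, F = dY (Icc 0 Λ) (Ioo (-c) c) V := ⟨_, rfl⟩
  have sV1 : Sm (Icc 0 Λ) (Ioo (-c) c) V1 := hV1 ▸ sm_dY uI uJ sV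
  obtain ⟨V2, hV2⟩ : ∃ F, F = dY (Icc 0 Λ) (Ioo (-c) c) V1 := ⟨_, rfl⟩
  have sV2 : Sm (Icc 0 Λ) (Ioo (-c) c) V2 := hV2 ▸ sm_dY uI uJ sV1
  have dV : ∀ t ∈ Icc 0 Λ, ∀ y ∈ Ioo (-c) c, HasDerivAt (V t) (V1 t y) y := fun t ht y hy => by
    rw [hV1]; exact (hasDeriv_dY sV ht hy).hasDerivAt (isOpen_Ioo.mem_nhds hy)
  have dV1 : ∀ t ∈ Icc 0 Λ, ∀ y ∈ Ioo (-c) c, HasDerivAt (V1 t) (V2 t y) y := fun t ht y hy => by
    rw [hV2]; exact (hasDeriv_dY sV1 ht hy).hasDerivAt (isOpen_Ioo.mem_nhds hy)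
  have eV1 : ∀ t ∈ Icc 0 Λ, ∀ y ∈ Ioo (-c) c, deriv (V t) y = V1 t y :=
    fun t ht y hy => (dV t ht y hy).deriv
  have eV2 : ∀ t ∈ Icc 0 Λ, ∀ y ∈ Ioo (-c) c, deriv (deriv (V t)) y = V2 t y := by
    intro t ht y hy
    have h : deriv (V t) =ᶠ[nhds y] V1 t :=
      Filter.eventuallyEq_of_mem (isOpen_Ioo.mem_nhds hy) (fun x hx => eV1 t ht x hx)
    rw [h.deriv_eq]
    exact (dV1 t ht y hy).deriv
  -- the primitive
  obtain ⟨Jf, hJf⟩ : ∃ F : ℝ → ℝ → ℝ, F = fun t y => ∫ z in (0 : ℝ)..y, V1 t z ^ 2 := ⟨_, rfl⟩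
  have sJ : Sm (Icc 0 Λ) (Ioo (-c) c) Jf := by
    rw [hJf]; exact Sm.integral_snd cI cJ iI iJ zJ (sV1.pow 2)
  have dJ : ∀ t ∈ Icc 0 Λ, ∀ y ∈ Ioo (-c) c, HasDerivAt (Jf t) (V1 t y ^ 2) y := by
    intro t ht y hy
    have hcont : ContinuousOn (fun z => V1 t z ^ 2) (Ioo (-c) c) := (sV1.pow 2).cont_y ht
    have hsub : uIcc 0 y ⊆ Ioo (-c) c := (ordConnected_Ioo).uIcc_subset zJ hy
    rw [hJf]
    exact intervalIntegral.integral_hasDerivAt_right (hcont.mono hsub).intervalIntegrable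
      (hcont.stronglyMeasurableAtFilter isOpen_Ioo y hy)
      (hcont.continuousAt (isOpen_Ioo.mem_nhds hy))
  have eJ : ∀ t ∈ Icc 0 Λ, ∀ y ∈ Ioo (-c) c,
      (∫ z in (0 : ℝ)..y, deriv (V t) z ^ 2) = Jf t y := by
    intro t ht y hy
    rw [hJf]
    refine intervalIntegral.integral_congr fun z hz => ?_
    have hsub : uIcc 0 y ⊆ Ioo (-c) c := (ordConnected_Ioo).uIcc_subset zJ hy
    simp only [eV1 t ht z (hsub hz)]
  have pde : ∀ t ∈ Icc 0 Λ, ∀ y ∈ Ioo (-c) c, HasDerivWithinAt (fun s => V s y)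
      (rhs (V t y) (V1 t y) (V2 t y) (Jf t y) y) (Icc 0 Λ) t := by
    intro t ht y hy
    have h := hV.pde t ht y hy
    rwa [eV1 t ht y hy, eV2 t ht y hy, eJ t ht y hy] at h
  obtain ⟨f, hf⟩ : ∃ F : ℝ → ℝ → ℝ, F = fun t y => V t y * V1 t y - Jf t y := ⟨_, rfl⟩
  have sf : Sm (Icc 0 Λ) (Ioo (-c) c) f := by rw [hf]; exact (sV.mul sV1).sub sJ
  have df : ∀ t ∈ Icc 0 Λ, ∀ y ∈ Ioo (-c) c, HasDerivAt (f t) (V t y * V2 t y) y := by
    intro t ht y hy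
    rw [hf]
    exact (((dV t ht y hy).fun_mul (dV1 t ht y hy)).fun_sub (dJ t ht y hy)).congr_deriv (by ring)
  obtain ⟨Y, sY, mY, Y0, tY, rY, yY⟩ := ode_flow Λ c hΛ hc f sf
  have sYm : Sm (Icc 0 Λ) I1 Y := sY
  have sub1 : ∀ y ∈ I1, y ∈ Ioo (-c) c := fun y hy => ⟨by linarith [hy.1], by linarith [hy.2]⟩
  have mYJ : ∀ t ∈ Icc 0 Λ, ∀ y ∈ I1, Y t y ∈ Ioo (-c) c := fun t ht y hy => sub1 _ (mY t ht y hy)
  have sVY : Sm (Icc 0 Λ) I1 (fun t y => V t (Y t y)) := sV.comp_snd sYm mYJ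
  have sV1Y : Sm (Icc 0 Λ) I1 (fun t y => V1 t (Y t y)) := sV1.comp_snd sYm mYJ
  have sV2Y : Sm (Icc 0 Λ) I1 (fun t y => V2 t (Y t y)) := sV2.comp_snd sYm mYJ
  have sfY : Sm (Icc 0 Λ) I1 (fun t y => f t (Y t y)) := sf.comp_snd sYm mYJ
  obtain ⟨g, hg⟩ : ∃ F : ℝ → ℝ → ℝ, F = fun t y => ∫ s in (0 : ℝ)..t, Y s y * f s (Y s y) :=
    ⟨_, rfl⟩
  have sYf : Sm (Icc 0 Λ) I1 (fun t y => Y t y * f t (Y t y)) := sYm.mul sfY
  have sg : Sm (Icc 0 Λ) I1 g := by rw [hg]; exact sYf.integral_fst cI c1 iI i1 z0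
  have dg : ∀ t ∈ Icc 0 Λ, ∀ y ∈ I1,
      HasDerivWithinAt (fun s => g s y) (Y t y * f t (Y t y)) (Icc 0 Λ) t := by
    intro t ht y hy
    rw [hg]; exact ftc (sYf.cont_t hy) ht
  have sρ : Sm (Icc 0 Λ) I1 (fun t y => Real.exp (2 * g t y)) := ((sm_const 2).mul sg).exp
  obtain ⟨K, hK⟩ : ∃ F : ℝ → ℝ → ℝ, F = fun t y => ∫ s in (0 : ℝ)..t,
      V s (Y s y) * V2 s (Y s y) * Real.exp (2 * g s y) := ⟨_, rfl⟩
  have sKi : Sm (Icc 0 Λ) I1 (fun t y => V t (Y t y) * V2 t (Y t y) * Real.exp (2 * g t y)) :=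
    (sVY.mul sV2Y).mul sρ
  have sK : Sm (Icc 0 Λ) I1 K := by rw [hK]; exact sKi.integral_fst cI c1 iI i1 z0
  have dK : ∀ t ∈ Icc 0 Λ, ∀ y ∈ I1, HasDerivWithinAt (fun s => K s y)
      (V t (Y t y) * V2 t (Y t y) * Real.exp (2 * g t y)) (Icc 0 Λ) t := by
    intro t ht y hy
    rw [hK]; exact ftc (sKi.cont_t hy) ht
  have rY' : ∀ t ∈ Icc 0 Λ, ∀ y ∈ I1, 1 - Y t y ^ 2 = (1 - y ^ 2) * Real.exp (2 * g t y) := by
    intro t ht y hy
    rw [hg]; exact rY t ht y hy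
  obtain ⟨w, hw⟩ : ∃ F : ℝ → ℝ → ℝ, F = fun t y => 2 * g t y - (1 - y ^ 2) * K t y := ⟨_, rfl⟩
  have s1y : Sm (Icc 0 Λ) I1 (fun _ y => 1 - y ^ 2) := (sm_const 1).sub (sm_snd.pow 2)
  have sw : Sm (Icc 0 Λ) I1 w := by
    rw [hw]; exact ((sm_const 2).mul sg).sub (s1y.mul sK)
  have dw : ∀ t ∈ Icc 0 Λ, ∀ y ∈ I1, HasDerivWithinAt (fun s => w s y)
      (2 * Y t y * f t (Y t y) - (1 - Y t y ^ 2) * (V t (Y t y) * V2 t (Y t y))) (Icc 0 Λ) t := by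
    intro t ht y hy
    rw [hw]
    have h := ((dg t ht y hy).const_mul 2).fun_sub ((dK t ht y hy).const_mul (1 - y ^ 2))
    refine h.congr_deriv ?_
    rw [rY' t ht y hy]
    ring
  have sW : Sm (Icc 0 Λ) I1 (fun t y => Real.exp (w t y)) := sw.exp
  have yY' : ∀ t ∈ Icc 0 Λ, ∀ y ∈ I1, HasDerivWithinAt (Y t) (Real.exp (w t y)) I1 y := by
    intro t ht y hy
    have h := yY t ht y hy
    have hsub : uIcc 0 t ⊆ Icc 0 Λ := by
      rw [uIcc_of_le ht.1]; exact Icc_subset_Icc le_rfl ht.2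
    have e : (∫ s in (0 : ℝ)..t,
          (2 * Y s y * f s (Y s y) - (1 - (Y s y) ^ 2) * deriv (f s) (Y s y))) = w t y := by
      rw [hw, hg, hK]
      have e1 : (∫ s in (0 : ℝ)..t,
          (2 * Y s y * f s (Y s y) - (1 - (Y s y) ^ 2) * deriv (f s) (Y s y))) =
          ∫ s in (0 : ℝ)..t, (2 * (Y s y * f s (Y s y)) -
            (1 - y ^ 2) * (V s (Y s y) * V2 s (Y s y) * Real.exp (2 * g s y))) := by
        refine intervalIntegral.integral_congr fun s hs => ?_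
        have hs' := hsub hs
        rw [(df s hs' _ (mYJ s hs' y hy)).deriv, rY' s hs' y hy]
        ring
      rw [e1, intervalIntegral.integral_sub, intervalIntegral.integral_const_mul,
        intervalIntegral.integral_const_mul]
      · exact (((sYf.cont_t hy).mono hsub).intervalIntegrable).const_mul 2
      · exact (((sKi.cont_t hy).mono hsub).intervalIntegrable).const_mul _
    rw [e] at h
    exact h
  obtain ⟨al, hal⟩ : ∃ F : ℝ → ℝ → ℝ, F = fun t y => Real.exp (2 * g t y) / V t (Y t y) ^ 2 :=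
    ⟨_, rfl⟩
  obtain ⟨be, hbe⟩ : ∃ F : ℝ → ℝ → ℝ, F = fun t y => -2 * K t y * al t y *
      E (-2 * (1 - y ^ 2) * K t y) := ⟨_, rfl⟩
  have pV : ∀ t ∈ Icc 0 Λ, ∀ y ∈ I1, 0 < V t (Y t y) := fun t ht y hy =>
    hV.pos t ht _ (mYJ t ht y hy)
  have sal : Sm (Icc 0 Λ) I1 al := by
    rw [hal]; exact sρ.div (sVY.pow 2) (fun t ht y hy => pow_ne_zero 2 (pV t ht y hy).ne')
  have sbe : Sm (Icc 0 Λ) I1 be := by
    rw [hbe]
    exact ((((sm_const (-2)).mul sK).mul sal)).mul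
      (Sm.comp_contDiff contDiff_E (((sm_const (-2)).mul s1y).mul sK))
  have pal : ∀ t ∈ Icc 0 Λ, ∀ y ∈ I1, 0 < al t y := by
    intro t ht y hy
    have := pV t ht y hy
    rw [hal]; positivity
  have eA : ∀ t ∈ Icc 0 Λ, ∀ y ∈ I1, al t y + be t y * (1 - y ^ 2) =
      Real.exp (w t y) ^ 2 / (Real.exp (2 * g t y) * V t (Y t y) ^ 2) := by
    intro t ht y hy
    have h1 : al t y + be t y * (1 - y ^ 2) =
        al t y * (1 + (-2 * (1 - y ^ 2) * K t y) * E (-2 * (1 - y ^ 2) * K t y)) := by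
      rw [hbe]; ring
    rw [h1, mul_E, hal, hw]
    have hv := pV t ht y hy
    have h2 : Real.exp (2 * g t y - (1 - y ^ 2) * K t y) ^ 2 =
        Real.exp (2 * g t y) * Real.exp (2 * g t y) * Real.exp (-2 * (1 - y ^ 2) * K t y) := by
      rw [← Real.exp_nat_mul, ← Real.exp_add, ← Real.exp_add]
      congr 1
      push_cast
      ring
    simp only
    rw [h2]
    field_simp
    ring
  have pA : ∀ t ∈ Icc 0 Λ, ∀ y ∈ I1, 0 < al t y + be t y * (1 - y ^ 2) := by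
    intro t ht y hy
    have := pV t ht y hy
    rw [eA t ht y hy]; positivity
  -- derivatives in time
  have dVY : ∀ t ∈ Icc 0 Λ, ∀ y ∈ I1, HasDerivWithinAt (fun s => V s (Y s y))
      (rhs (V t (Y t y)) (V1 t (Y t y)) (V2 t (Y t y)) (Jf t (Y t y)) (Y t y) +
        V1 t (Y t y) * (-(f t (Y t y)) * (1 - Y t y ^ 2))) (Icc 0 Λ) t := by
    intro t ht y hy
    have h := chain uI sV ht (fun s hs => mYJ s hs y hy) (tY t ht y hy)
      (pde t ht _ (mYJ t ht y hy))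
    rw [← hV1] at h
    exact h
  have eJf : ∀ t ∈ Icc 0 Λ, ∀ y ∈ I1,
      Jf t (Y t y) = V t (Y t y) * V1 t (Y t y) - f t (Y t y) := by
    intro t ht y hy
    rw [hf]; ring
  have dal : ∀ t ∈ Icc 0 Λ, ∀ y ∈ I1, HasDerivWithinAt (fun s => al s y) _ (Icc 0 Λ) t :=
    fun t ht y hy => by
      rw [hal]
      exact dt_al (dg t ht y hy) (dVY t ht y hy) (eJf t ht y hy) (pV t ht y hy)
  have dA : ∀ t ∈ Icc 0 Λ, ∀ y ∈ I1, _ := fun t ht y hy =>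
    dt_A (dg t ht y hy) (dw t ht y hy) (dVY t ht y hy) (eJf t ht y hy) (pV t ht y hy)
  -- the equations in the interior
  have hsq : ∀ z ∈ Ioo (-1 : ℝ) 1, 0 < 1 - z ^ 2 := fun z hz => by nlinarith [hz.1, hz.2]
  have main : ∀ t ∈ Icc 0 Λ, ∀ y ∈ Ioo (-1 : ℝ) 1,
      HasDerivWithinAt (fun s => al s y)
        (-2 * Pf (al t y) (derivWithin (al t) I1 y) (derivWithin (derivWithin (al t) I1) I1 y)
          (be t y) (derivWithin (be t) I1 y) y + 4 * al t y) (Icc 0 Λ) t ∧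
      HasDerivWithinAt (fun s => be s y)
        (-2 * Qf (al t y) (derivWithin (al t) I1 y) (derivWithin (derivWithin (al t) I1) I1 y)
          (be t y) (derivWithin (be t) I1 y) y + 4 * be t y) (Icc 0 Λ) t := by
    intro t ht y hy
    have hy1 : y ∈ I1 := Ioo_subset_Icc_self hy
    have hYd : ∀ z ∈ Ioo (-1 : ℝ) 1, HasDerivAt (Y t) (Real.exp (w t z)) z := fun z hz =>
      (yY' t ht z (Ioo_subset_Icc_self hz)).hasDerivAt (Icc_mem_nhds hz.1 hz.2)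
    have hρ : ∀ z ∈ Ioo (-1 : ℝ) 1, Real.exp (2 * g t z) = (1 - Y t z ^ 2) / (1 - z ^ 2) :=
      fun z hz => by
        rw [rY' t ht z (Ioo_subset_Icc_self hz)]
        field_simp [(hsq z hz).ne']
    have one := one_var (fun z => V t (Y t z)) (fun z => V1 t (Y t z)) (fun z => V2 t (Y t z))
      (Y t) (fun z => Real.exp (w t z))
      (fun z => dY (Icc 0 Λ) I1 (fun t y => Real.exp (w t y)) t z) (al t) (be t)
      hYd
      (fun z hz => (hasDeriv_dY sW ht (Ioo_subset_Icc_self hz)).hasDerivAt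
        (Icc_mem_nhds hz.1 hz.2))
      (fun z hz => (dV t ht _ (mYJ t ht z (Ioo_subset_Icc_self hz))).comp z (hYd z hz))
      (fun z hz => (dV1 t ht _ (mYJ t ht z (Ioo_subset_Icc_self hz))).comp z (hYd z hz))
      (fun z hz => pV t ht z (Ioo_subset_Icc_self hz))
      (fun z hz => Real.exp_pos _)
      (fun z hz => by
        have h1 := rY' t ht z (Ioo_subset_Icc_self hz)
        have h2 : 0 < (1 - z ^ 2) * Real.exp (2 * g t z) :=
          mul_pos (hsq z hz) (Real.exp_pos _)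
        linarith)
      (fun z hz => by rw [← hρ z hz, hal])
      (fun z hz => by
        have h1 := eA t ht z (Ioo_subset_Icc_self hz)
        rw [← hρ z hz]
        rw [← h1]
        have h2 : al t z = Real.exp (2 * g t z) / V t (Y t z) ^ 2 := by rw [hal]
        rw [← h2]
        field_simp [(hsq z hz).ne']
        ring)
      y hy
    obtain ⟨o1, o2⟩ := one
    rw [← hρ y hy] at o1 o2
    have h1 : HasDerivWithinAt (fun s => al s y)
        (-2 * Pf (al t y) (derivWithin (al t) I1 y) (derivWithin (derivWithin (al t) I1) I1 y)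
          (be t y) (derivWithin (be t) I1 y) y + 4 * al t y) (Icc 0 Λ) t := by
      refine (dal t ht y hy1).congr_deriv ?_
      rw [o1, hal]
    refine ⟨h1, ?_⟩
    have h2 := ((dA t ht y hy1).fun_sub h1).div_const (1 - y ^ 2)
    refine (h2.congr_deriv ?_).congr_of_mem ?_ ht
    · rw [← o2]
      have h3 := eA t ht y hy1
      rw [← h3]
      field_simp [(hsq y hy).ne']
      ring
    · intro s hs
      have h3 := eA s hs y hy1
      rw [← h3]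
      field_simp [(hsq y hy).ne']
      ring
  have d1 : ∀ (F : ℝ → ℝ → ℝ), Sm (Icc 0 Λ) I1 F → ∀ t ∈ Icc 0 Λ, ∀ y ∈ I1,
      derivWithin (F t) I1 y = dY (Icc 0 Λ) I1 F t y := fun F hF t ht y hy =>
    (hasDeriv_dY hF ht hy).derivWithin (u1 y hy)
  have sal1 := sm_dY uI u1 sal
  have sal2 := sm_dY uI u1 sal1
  have sbe1 := sm_dY uI u1 sbe
  have cal1 : ∀ t ∈ Icc 0 Λ, ContinuousOn (fun y => derivWithin (al t) I1 y) I1 := fun t ht =>
    (sal1.cont_y ht).congr (fun y hy => d1 al sal t ht y hy)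
  have cbe1 : ∀ t ∈ Icc 0 Λ, ContinuousOn (fun y => derivWithin (be t) I1 y) I1 := fun t ht =>
    (sbe1.cont_y ht).congr (fun y hy => d1 be sbe t ht y hy)
  have cal2 : ∀ t ∈ Icc 0 Λ,
      ContinuousOn (fun y => derivWithin (derivWithin (al t) I1) I1 y) I1 := fun t ht =>
    (sal2.cont_y ht).congr (fun y hy => by
      rw [← d1 _ sal1 t ht y hy]
      exact derivWithin_congr (fun z hz => d1 al sal t ht z hz) (d1 al sal t ht y hy))
  have cl : I1 ⊆ closure (Ioo (-1 : ℝ) 1) := by rw [closure_Ioo (by norm_num)]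
  refine ⟨al, be, sal, sbe, fun t ht y hy => ⟨pal t ht y hy, pA t ht y hy⟩, ?_, ?_, ?_⟩
  · intro y hy
    have hK0 : K 0 y = 0 := by rw [hK]; simp
    have hg0 : g 0 y = 0 := by rw [hg]; simp
    constructor
    · rw [hal]
      simp only
      rw [Y0 y hy, hg0]
      simp
    · rw [hbe]
      simp only
      rw [hK0]
      ring
  · intro t ht y hy
    have hE : EqOn (fun y => dT (Icc 0 Λ) I1 al t y)
        (fun y => -2 * Pf (al t y) (derivWithin (al t) I1 y)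
          (derivWithin (derivWithin (al t) I1) I1 y)
          (be t y) (derivWithin (be t) I1 y) y + 4 * al t y) I1 := by
      refine EqOn.of_subset_closure (s := Ioo (-1 : ℝ) 1) ?_ ((sm_dT uI u1 sal).cont_y ht) ?_
        Ioo_subset_Icc_self cl
      · intro z hz
        exact unique_deriv uI ht (hasDeriv_dT sal ht (Ioo_subset_Icc_self hz)) (main t ht z hz).1
      · exact (continuousOn_const.mul (cont_Pf (sal.cont_y ht) (cal1 t ht) (cal2 t ht)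
          (sbe.cont_y ht) (cbe1 t ht) (pal t ht) (pA t ht))).add
          (continuousOn_const.mul (sal.cont_y ht))
    exact (hasDeriv_dT sal ht hy).congr_deriv (hE hy)
  · intro t ht y hy
    have hE : EqOn (fun y => dT (Icc 0 Λ) I1 be t y)
        (fun y => -2 * Qf (al t y) (derivWithin (al t) I1 y)
          (derivWithin (derivWithin (al t) I1) I1 y)
          (be t y) (derivWithin (be t) I1 y) y + 4 * be t y) I1 := by
      refine EqOn.of_subset_closure (s := Ioo (-1 : ℝ) 1) ?_ ((sm_dT uI u1 sbe).cont_y ht) ?_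
        Ioo_subset_Icc_self cl
      · intro z hz
        exact unique_deriv uI ht (hasDeriv_dT sbe ht (Ioo_subset_Icc_self hz)) (main t ht z hz).2
      · exact (continuousOn_const.mul (cont_Qf (sal.cont_y ht) (cal1 t ht) (cal2 t ht)
          (sbe.cont_y ht) (cbe1 t ht) (pal t ht) (pA t ht))).add
          (continuousOn_const.mul (sbe.cont_y ht))
    exact (hasDeriv_dT sbe ht hy).congr_deriv (hE hy)

end Pool.Agent.MP_ae1fc5_gt
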