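import Pool.Agent.MP_ae1fc5_gt.Defs2

/-!
# MP_ae1fc5_gt, module C: lower bound for the `C^0` distance (four point inequality)
-/

open scoped Quaternion ContDiff Matrix
open Set

noncomputable section

namespace Pool.Agent.MP_ae1fc5_gt

namespace Lower

/-! ### Quaternion coordinates -/

lemma inner_q (p q : ℍ[ℝ]) :
    inner ℝ p q = p.re * q.re + p.imI * q.imI + p.imJ * q.imJ + p.imK * q.imK := by
  rw [Quaternion.inner_def]
  simp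

lemma norm_sq_q (q : ℍ[ℝ]) : ‖q‖ ^ 2 = q.re ^ 2 + q.imI ^ 2 + q.imJ ^ 2 + q.imK ^ 2 := by
  rw [← real_inner_self_eq_norm_sq, inner_q]
  ring

lemma parseval (q v : ℍ[ℝ]) (hq : ‖q‖ = 1) :
    ‖v‖ ^ 2 = (inner ℝ q v) ^ 2 + ∑ k, (inner ℝ (q * im k) v) ^ 2 := by
  have h : ‖q‖ ^ 2 = 1 := by rw [hq]; norm_num
  have key : ‖q‖ ^ 2 * ‖v‖ ^ 2 = (inner ℝ q v) ^ 2 + ∑ k, (inner ℝ (q * im k) v) ^ 2 := by
    simp only [norm_sq_q, inner_q, Fin.sum_univ_three, im]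
    simp
    ring
  rw [← key, h, one_mul]

lemma decomp (x v : ℍ[ℝ]) (hx : ‖x‖ = 1) :
    v = (inner ℝ x v : ℝ) • x + ∑ i, (inner ℝ (x * im i) v : ℝ) • (x * im i) := by
  have h : x.re ^ 2 + x.imI ^ 2 + x.imJ ^ 2 + x.imK ^ 2 = 1 := by
    rw [← norm_sq_q, hx]; norm_num
  have key : (‖x‖ ^ 2 : ℝ) • v =
      (inner ℝ x v : ℝ) • x + ∑ i, (inner ℝ (x * im i) v : ℝ) • (x * im i) := by
    simp only [norm_sq_q, inner_q, Fin.sum_univ_three, im]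
    ext <;> simp <;> ring
  rw [← key, hx]
  simp

/-! ### Homogeneous maps -/

lemma fderiv_homog (f : ℍ[ℝ] → ℍ[ℝ]) (hf : ∀ (r : ℝ) (x : ℍ[ℝ]), 0 < r → f (r • x) = r • f x)
    (r : ℝ) (hr : 0 < r) (x : ℍ[ℝ]) : fderiv ℝ f (r • x) = fderiv ℝ f x := by
  have h1 : fderiv ℝ (fun y => f (r • y)) x = r • fderiv ℝ f (r • x) := fderiv_comp_smul r
  have h2 : (fun y => f (r • y)) = fun y => r • f y := by
    funext y; exact hf r y hr
  rw [h2] at h1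
  have h3 : fderiv ℝ (fun y => r • f y) x = r • fderiv ℝ f x :=
    congrFun (fderiv_const_smul_field (𝕜 := ℝ) (R := ℝ) (f := f) r) x
  rw [h3] at h1
  exact (smul_right_injective _ hr.ne' h1).symm

lemma euler (f : ℍ[ℝ] → ℍ[ℝ]) (hf : ∀ (r : ℝ) (x : ℍ[ℝ]), 0 < r → f (r • x) = r • f x)
    (x : ℍ[ℝ]) (hd : DifferentiableAt ℝ f x) : fderiv ℝ f x x = f x := by
  have h1 : HasDerivAt (fun r : ℝ => f (r • x)) (fderiv ℝ f x x) 1 := by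
    have h := hd.hasFDerivAt
    have h0 : HasFDerivAt f (fderiv ℝ f x) ((fun r : ℝ => r • x) 1) := by simpa using h
    have h2 : HasDerivAt (fun r : ℝ => r • x) x 1 := by
      simpa using (hasDerivAt_id (1 : ℝ)).smul_const x
    exact h0.comp_hasDerivAt (1 : ℝ) h2
  have h3 : HasDerivAt (fun r : ℝ => f (r • x)) (f x) 1 := by
    have h4 : HasDerivAt (fun r : ℝ => r • f x) (f x) 1 := by
      simpa using (hasDerivAt_id (1 : ℝ)).smul_const (f x)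
    refine h4.congr_of_eventuallyEq ?_
    filter_upwards [lt_mem_nhds (show (0 : ℝ) < 1 by norm_num)] with r hr
    exact hf r x hr
  exact h1.unique h3

variable (φ : Diffeo)

lemma diff_map {x : ℍ[ℝ]} (hx : x ≠ 0) : DifferentiableAt ℝ φ.map x :=
  (φ.smooth_map.contDiffAt (isOpen_compl_singleton.mem_nhds hx)).differentiableAt (by simp)

lemma diff_inv {x : ℍ[ℝ]} (hx : x ≠ 0) : DifferentiableAt ℝ φ.inv x :=
  (φ.smooth_inv.contDiffAt (isOpen_compl_singleton.mem_nhds hx)).differentiableAt (by simp)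

lemma inner_deriv (f : ℍ[ℝ] → ℍ[ℝ]) (hf : ∀ x, ‖f x‖ = ‖x‖) (x v : ℍ[ℝ])
    (hd : DifferentiableAt ℝ f x) : inner ℝ (f x) (fderiv ℝ f x v) = inner ℝ x v := by
  have h1 : HasDerivAt (fun t : ℝ => f (x + t • v)) (fderiv ℝ f x v) 0 := by
    have h0 : HasFDerivAt f (fderiv ℝ f x) ((fun t : ℝ => x + t • v) 0) := by
      simpa using hd.hasFDerivAt
    have h2 : HasDerivAt (fun t : ℝ => x + t • v) v 0 := by
      simpa using ((hasDerivAt_id (0 : ℝ)).smul_const v).const_add x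
    exact h0.comp_hasDerivAt (0 : ℝ) h2
  have h3 := h1.norm_sq
  have h4 : HasDerivAt (fun t : ℝ => x + t • v) v 0 := by
    simpa using ((hasDerivAt_id (0 : ℝ)).smul_const v).const_add x
  have h5 := h4.norm_sq
  have h6 : (fun t : ℝ => ‖f (x + t • v)‖ ^ 2) = fun t : ℝ => ‖x + t • v‖ ^ 2 := by
    funext t; rw [hf]
  rw [h6] at h3
  have h7 := h3.unique h5
  simp at h7
  linarith

/-! ### The basic estimate on the sphere -/

lemma tangent_decomp (x v : ℍ[ℝ]) (hx : ‖x‖ = 1) (hv : inner ℝ x v = 0) :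
    v = ∑ i, (inner ℝ (x * im i) v : ℝ) • (x * im i) := by
  have h := decomp x v hx
  rw [hv, zero_smul, zero_add] at h
  exact h

lemma quad_le (A : Fin 3 → Fin 3 → ℝ) (w : Fin 3 → ℝ) :
    |∑ i, ∑ j, w i * A i j * w j| ≤ √(∑ i, ∑ j, A i j ^ 2) * ∑ i, w i ^ 2 := by
  have h1 : (∑ p : Fin 3 × Fin 3, A p.1 p.2 * (w p.1 * w p.2)) ^ 2 ≤
      (∑ p : Fin 3 × Fin 3, A p.1 p.2 ^ 2) * ∑ p : Fin 3 × Fin 3, (w p.1 * w p.2) ^ 2 :=
    Finset.sum_mul_sq_le_sq_mul_sq _ _ _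
  have h2 : ∑ p : Fin 3 × Fin 3, (w p.1 * w p.2) ^ 2 = (∑ i, w i ^ 2) ^ 2 := by
    rw [Fintype.sum_prod_type, sq (∑ i, w i ^ 2), Finset.sum_mul_sum]
    refine Finset.sum_congr rfl fun i _ => Finset.sum_congr rfl fun j _ => ?_
    ring
  have h3 : ∑ p : Fin 3 × Fin 3, A p.1 p.2 * (w p.1 * w p.2) =
      ∑ i, ∑ j, w i * A i j * w j := by
    rw [Fintype.sum_prod_type]
    refine Finset.sum_congr rfl fun i _ => Finset.sum_congr rfl fun j _ => ?_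
    ring
  have h4 : ∑ p : Fin 3 × Fin 3, A p.1 p.2 ^ 2 = ∑ i, ∑ j, A i j ^ 2 := by
    rw [Fintype.sum_prod_type]
  rw [h3, h4, h2] at h1
  have h5 : 0 ≤ ∑ i, w i ^ 2 := Finset.sum_nonneg fun i _ => sq_nonneg _
  have h6 : 0 ≤ ∑ i, ∑ j, A i j ^ 2 :=
    Finset.sum_nonneg fun i _ => Finset.sum_nonneg fun j _ => sq_nonneg _
  refine abs_le_of_sq_le_sq ?_ (by positivity)
  rw [mul_pow, Real.sq_sqrt h6]
  exact h1

/-- The basic estimate. -/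
lemma basic (μ : ℝ → ℝ) (ε₂ : ℝ) (x v : ℍ[ℝ]) (hx : ‖x‖ = 1) (hv : inner ℝ x v = 0)
    (h : pullDist φ (rot (fun y => μ y ^ 2) (fun _ => 0)) x ≤ ε₂) :
    |μ (φ.map x).re ^ 2 * ‖fderiv ℝ φ.map x v‖ ^ 2 - ‖v‖ ^ 2| ≤ ε₂ * ‖v‖ ^ 2 := by
  have hx0 : x ≠ 0 := by
    intro h0; rw [h0] at hx; simp at hx
  have hφ : ‖φ.map x‖ = 1 := by rw [φ.norm_map, hx]
  set w : Fin 3 → ℝ := fun i => inner ℝ (x * im i) v with hw
  have hvw : v = ∑ i, w i • (x * im i) := tangent_decomp x v hx hv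
  have hvn : ‖v‖ ^ 2 = ∑ i, w i ^ 2 := by
    rw [parseval x v hx, hv]; simp [hw]
  have hdv : fderiv ℝ φ.map x v = ∑ i, w i • fderiv ℝ φ.map x (x * im i) := by
    conv_lhs => rw [hvw]
    rw [map_sum]
    simp
  have hk : ∀ k, inner ℝ (φ.map x * im k) (fderiv ℝ φ.map x v) = ∑ i, jac φ x k i * w i := by
    intro k
    rw [hdv, inner_sum]
    refine Finset.sum_congr rfl fun i _ => ?_
    rw [inner_smul_right, jac]
    ring
  have h0 : inner ℝ (φ.map x) (fderiv ℝ φ.map x v) = 0 := by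
    rw [inner_deriv φ.map φ.norm_map x v (diff_map φ hx0), hv]
  have hn : ‖fderiv ℝ φ.map x v‖ ^ 2 = ∑ k, (∑ i, jac φ x k i * w i) ^ 2 := by
    rw [parseval (φ.map x) _ hφ, h0]
    simp [hk]
  set A : Fin 3 → Fin 3 → ℝ := fun i j =>
    pull φ (rot (fun y => μ y ^ 2) (fun _ => 0)) x i j - if i = j then 1 else 0 with hA
  have h1 := quad_le A w
  have h2 : ∑ i, ∑ j, w i * A i j * w j =
      μ (φ.map x).re ^ 2 * ‖fderiv ℝ φ.map x v‖ ^ 2 - ‖v‖ ^ 2 := by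
    rw [hn, hvn]
    simp only [hA, pull, rot, hφ, Fin.sum_univ_three]
    simp
    ring
  rw [h2] at h1
  refine h1.trans ?_
  rw [hvn]
  exact mul_le_mul_of_nonneg_right h (Finset.sum_nonneg fun i _ => sq_nonneg _)

lemma ne_zero_of_norm {x : ℍ[ℝ]} (hx : ‖x‖ = 1) : x ≠ 0 := by
  intro h0; rw [h0] at hx; simp at hx

lemma map_inv_deriv {y : ℍ[ℝ]} (hy : y ≠ 0) (τ : ℍ[ℝ]) :
    fderiv ℝ φ.map (φ.inv y) (fderiv ℝ φ.inv y τ) = τ := by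
  have hx : φ.inv y ≠ 0 := by
    intro h0
    have := φ.norm_inv y
    rw [h0, norm_zero] at this
    exact hy (norm_eq_zero.mp this.symm)
  have h1 : HasFDerivAt (φ.map ∘ φ.inv)
      ((fderiv ℝ φ.map (φ.inv y)).comp (fderiv ℝ φ.inv y)) y :=
    (diff_map φ hx).hasFDerivAt.comp y (diff_inv φ hy).hasFDerivAt
  have h2 : HasFDerivAt (φ.map ∘ φ.inv) (ContinuousLinearMap.id ℝ ℍ[ℝ]) y := by
    refine (hasFDerivAt_id y).congr_of_eventuallyEq ?_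
    filter_upwards [isOpen_compl_singleton.mem_nhds hy] with z hz
    exact φ.right_inv z hz
  have h3 := h1.unique h2
  have h4 := congrArg (fun L : ℍ[ℝ] →L[ℝ] ℍ[ℝ] => L τ) h3
  simpa using h4

lemma inv_bound (μ : ℝ → ℝ) (ε₂ : ℝ) (hε₂ : ε₂ < 1)
    (h : ∀ x, ‖x‖ = 1 → pullDist φ (rot (fun y => μ y ^ 2) (fun _ => 0)) x ≤ ε₂)
    (p : ℍ[ℝ]) (hp : p ≠ 0) (M : ℝ) (hM : 1 ≤ M)
    (hμ : μ (p.re / ‖p‖) ^ 2 ≤ (1 - ε₂) * M ^ 2) :
    ‖fderiv ℝ φ.inv p‖ ≤ M := by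
  refine ContinuousLinearMap.opNorm_le_bound _ (by linarith) fun v => ?_
  have hn : 0 < ‖p‖ := norm_pos_iff.mpr hp
  set y : ℍ[ℝ] := ‖p‖⁻¹ • p with hy
  have hy1 : ‖y‖ = 1 := by
    rw [hy, norm_smul, norm_inv, norm_norm]; field_simp
  have hy0 : y ≠ 0 := ne_zero_of_norm hy1
  have hyre : y.re = p.re / ‖p‖ := by
    rw [hy]; simp; ring
  have hfd : fderiv ℝ φ.inv p = fderiv ℝ φ.inv y := by
    rw [hy, fderiv_homog φ.inv φ.homog_inv _ (inv_pos.mpr hn)]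
  rw [hfd]
  set x : ℍ[ℝ] := φ.inv y with hx
  have hx1 : ‖x‖ = 1 := by rw [hx, φ.norm_inv, hy1]
  have hxy : φ.map x = y := φ.right_inv y hy0
  set ρ : ℝ := inner ℝ y v with hρ
  set τ : ℍ[ℝ] := v - ρ • y with hτ
  have hyy : inner ℝ y y = 1 := by rw [real_inner_self_eq_norm_sq, hy1]; norm_num
  have hxx : inner ℝ x x = 1 := by rw [real_inner_self_eq_norm_sq, hx1]; norm_num
  have hyτ : inner ℝ y τ = 0 := by
    rw [hτ, inner_sub_right, inner_smul_right, hyy, ← hρ]; ring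
  set v1 : ℍ[ℝ] := fderiv ℝ φ.inv y τ with hv1
  have hxv1 : inner ℝ x v1 = 0 := by
    rw [hx, hv1, inner_deriv φ.inv φ.norm_inv y τ (diff_inv φ hy0), hyτ]
  have hdx : fderiv ℝ φ.map x v1 = τ := map_inv_deriv φ hy0 τ
  have hb := basic φ μ ε₂ x v1 hx1 hxv1 (h x hx1)
  rw [hdx, hxy, hyre] at hb
  have hb1 := (abs_le.mp hb).1
  have hτ2 : 0 ≤ ‖τ‖ ^ 2 := sq_nonneg _
  have hb2 : (1 - ε₂) * ‖v1‖ ^ 2 ≤ (1 - ε₂) * (M ^ 2 * ‖τ‖ ^ 2) := by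
    have := mul_le_mul_of_nonneg_right hμ hτ2
    nlinarith
  have hb3 : ‖v1‖ ^ 2 ≤ M ^ 2 * ‖τ‖ ^ 2 := le_of_mul_le_mul_left hb2 (by linarith)
  have hv : v = ρ • y + τ := by rw [hτ]; abel
  have hvn : ‖v‖ ^ 2 = ρ ^ 2 + ‖τ‖ ^ 2 := by
    rw [hv, ← real_inner_self_eq_norm_sq, inner_add_left, inner_add_right, inner_add_right]
    simp only [inner_smul_left, inner_smul_right]
    rw [real_inner_comm y τ, hyτ, hyy, real_inner_self_eq_norm_sq]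
    simp
    ring
  have hdv : fderiv ℝ φ.inv y v = ρ • x + v1 := by
    conv_lhs => rw [hv]
    rw [map_add, map_smul, euler φ.inv φ.homog_inv y (diff_inv φ hy0)]
  have hdn : ‖fderiv ℝ φ.inv y v‖ ^ 2 = ρ ^ 2 + ‖v1‖ ^ 2 := by
    rw [hdv, ← real_inner_self_eq_norm_sq, inner_add_left, inner_add_right, inner_add_right]
    simp only [inner_smul_left, inner_smul_right]
    rw [real_inner_comm x v1, hxv1, hxx, real_inner_self_eq_norm_sq]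
    simp
    ring
  have hfin : ‖fderiv ℝ φ.inv y v‖ ^ 2 ≤ (M * ‖v‖) ^ 2 := by
    rw [hdn, mul_pow, hvn]
    nlinarith [sq_nonneg ρ, mul_le_mul hM hM (by norm_num) (by linarith)]
  exact (abs_le_of_sq_le_sq' hfin (by positivity)).2

lemma side (μ : ℝ → ℝ) (ε₂ : ℝ) (hε₂ : ε₂ < 1)
    (h : ∀ x, ‖x‖ = 1 → pullDist φ (rot (fun y => μ y ^ 2) (fun _ => 0)) x ≤ ε₂)
    (u w : ℍ[ℝ]) (M : ℝ) (hM : 1 ≤ M)
    (hseg : ∀ p ∈ segment ℝ u w, p ≠ 0 ∧ μ (p.re / ‖p‖) ^ 2 ≤ (1 - ε₂) * M ^ 2) :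
    ‖φ.inv w - φ.inv u‖ ≤ M * ‖w - u‖ :=
  Convex.norm_image_sub_le_of_norm_fderiv_le (𝕜 := ℝ)
    (fun p hp => diff_inv φ (hseg p hp).1)
    (fun p hp => inv_bound φ μ ε₂ hε₂ h p (hseg p hp).1 M hM (hseg p hp).2)
    (convex_segment u w) (left_mem_segment ℝ u w) (right_mem_segment ℝ u w)

/-! ### Diagonals -/

lemma diag (μ : ℝ → ℝ) (ε₂ : ℝ) (hε₂ : 0 ≤ ε₂)
    (h : ∀ x, ‖x‖ = 1 → pullDist φ (rot (fun y => μ y ^ 2) (fun _ => 0)) x ≤ ε₂)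
    (H : ℍ[ℝ] → ℝ)
    (hH : ∀ (c : ℝ → ℍ[ℝ]) (c' : ℍ[ℝ]) (t : ℝ), HasDerivAt c c' t → ‖c t‖ = 1 →
      ∃ D, HasDerivAt (fun s => H (c s)) D t ∧ |D| ≤ μ (c t).re * ‖c'‖)
    (x x' : ℍ[ℝ]) (hx : ‖x‖ = 1) (hx' : ‖x'‖ = 1) (hd : ‖x' - x‖ < 2) :
    (H (φ.map x') - H (φ.map x)) ^ 2 * (1 - ‖x' - x‖ ^ 2 / 4) ≤ (1 + ε₂) * ‖x' - x‖ ^ 2 := by
  set e : ℝ := ‖x' - x‖ with he
  have he0 : 0 ≤ e := norm_nonneg _
  have hpos : 0 < 1 - e ^ 2 / 4 := by nlinarith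
  set p : ℝ → ℍ[ℝ] := fun t => x + t • (x' - x) with hp
  have hpd : ∀ t, HasDerivAt p (x' - x) t := fun t => by
    have h1 := ((hasDerivAt_id t).smul_const (x' - x)).const_add x
    rw [one_smul] at h1
    exact h1
  have hxx : inner ℝ x x = 1 := by rw [real_inner_self_eq_norm_sq, hx]; norm_num
  have hxx' : inner ℝ x' x' = 1 := by rw [real_inner_self_eq_norm_sq, hx']; norm_num
  have hin : e ^ 2 = 2 - 2 * inner ℝ x x' := by
    rw [he, ← real_inner_self_eq_norm_sq, inner_sub_left, inner_sub_right, inner_sub_right,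
      hxx, hxx', real_inner_comm x x']
    ring
  have hpn : ∀ t, ‖p t‖ ^ 2 = 1 - t * (1 - t) * e ^ 2 := fun t => by
    rw [hin, hp, ← real_inner_self_eq_norm_sq]
    simp only [inner_add_left, inner_add_right, inner_sub_left, inner_sub_right, inner_smul_left,
      inner_smul_right, hxx, hxx', real_inner_comm x x']
    simp
    ring
  have hpn' : ∀ t ∈ Icc (0 : ℝ) 1, 1 - e ^ 2 / 4 ≤ ‖p t‖ ^ 2 := fun t _ => by
    rw [hpn t]
    nlinarith [sq_nonneg (t - 1 / 2), mul_nonneg (sq_nonneg (t - 1 / 2)) (sq_nonneg e)]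
  have hppos : ∀ t ∈ Icc (0 : ℝ) 1, 0 < ‖p t‖ := fun t ht => by
    have h1 := hpn' t ht
    have h2 : 0 < ‖p t‖ ^ 2 := lt_of_lt_of_le hpos h1
    exact lt_of_le_of_ne (norm_nonneg _) fun h0 => by rw [← h0] at h2; simp at h2
  set N : ℝ → ℍ[ℝ] := fun t => ‖p t‖⁻¹ • p t with hN
  have hN1 : ∀ t ∈ Icc (0 : ℝ) 1, ‖N t‖ = 1 := fun t ht => by
    have := hppos t ht
    rw [hN]; simp only
    rw [norm_smul, norm_inv, norm_norm]; field_simp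
  have hNd : ∀ t ∈ Icc (0 : ℝ) 1, HasDerivAt N
      (‖p t‖⁻¹ • ((x' - x) - (inner ℝ (N t) (x' - x) : ℝ) • N t)) t := fun t ht => by
    have hpt := hppos t ht
    have h1 := (hpd t).norm_sq
    have h2 : HasDerivAt (fun s => ‖p s‖) (2 * inner ℝ (p t) (x' - x) / (2 * √(‖p t‖ ^ 2))) t := by
      have h3 := h1.sqrt (by positivity)
      refine h3.congr_of_eventuallyEq ?_
      filter_upwards with s
      rw [Real.sqrt_sq (norm_nonneg _)]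
    rw [Real.sqrt_sq (norm_nonneg _)] at h2
    have h4 := (h2.inv hpt.ne').smul (hpd t)
    refine HasDerivAt.congr_deriv h4 ?_
    show ‖p t‖⁻¹ • (x' - x) + (-(2 * inner ℝ (p t) (x' - x) / (2 * ‖p t‖)) / ‖p t‖ ^ 2) • p t = _
    simp only [hN, real_inner_smul_left, smul_sub, smul_smul]
    field_simp
    module
  set k : ℝ → ℝ := fun t => H (φ.map (N t)) with hk
  set Cst : ℝ := √((1 + ε₂) * e ^ 2 / (1 - e ^ 2 / 4)) with hCst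
  have hkd : ∀ t ∈ Icc (0 : ℝ) 1, ∃ D, HasDerivAt k D t ∧ |D| ≤ Cst := fun t ht => by
    have hpt := hppos t ht
    have hNt := hN1 t ht
    have hN0 := ne_zero_of_norm hNt
    set τ : ℍ[ℝ] := (x' - x) - (inner ℝ (N t) (x' - x) : ℝ) • N t with hτ
    have h1 : HasDerivAt (fun s => φ.map (N s)) (fderiv ℝ φ.map (N t) (‖p t‖⁻¹ • τ)) t :=
      (diff_map φ hN0).hasFDerivAt.comp_hasDerivAt t (hNd t ht)
    have hφN : ‖φ.map (N t)‖ = 1 := by rw [φ.norm_map, hNt]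
    obtain ⟨D, hD, hDle⟩ := hH _ _ t h1 hφN
    refine ⟨D, hD, ?_⟩
    have hNN : inner ℝ (N t) (N t) = 1 := by
      rw [real_inner_self_eq_norm_sq, hNt]; norm_num
    have htan : inner ℝ (N t) (‖p t‖⁻¹ • τ) = 0 := by
      rw [inner_smul_right, hτ, inner_sub_right, inner_smul_right, hNN]
      ring
    have hb := (abs_le.mp (basic φ μ ε₂ (N t) (‖p t‖⁻¹ • τ) hNt htan (h _ hNt))).2
    have hτn : ‖τ‖ ^ 2 ≤ e ^ 2 := by
      have : ‖τ‖ ^ 2 = e ^ 2 - (inner ℝ (N t) (x' - x)) ^ 2 := by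
        rw [he, hτ]
        generalize x' - x = q
        rw [norm_sub_sq_real, norm_smul, mul_pow, hNt, inner_smul_right, real_inner_comm (N t) q,
          Real.norm_eq_abs, sq_abs]
        ring
      rw [this]
      nlinarith [sq_nonneg (inner ℝ (N t) (x' - x) : ℝ)]
    have hn : ‖‖p t‖⁻¹ • τ‖ ^ 2 ≤ e ^ 2 / (1 - e ^ 2 / 4) := by
      rw [norm_smul, mul_pow, norm_inv, norm_norm, inv_pow, div_eq_inv_mul]
      exact mul_le_mul (inv_anti₀ hpos (hpn' t ht)) hτn (sq_nonneg _) (by positivity)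
    have h2 : D ^ 2 ≤ (1 + ε₂) * e ^ 2 / (1 - e ^ 2 / 4) := by
      have h3 : D ^ 2 ≤ (μ (φ.map (N t)).re * ‖fderiv ℝ φ.map (N t) (‖p t‖⁻¹ • τ)‖) ^ 2 :=
        sq_le_sq' (by linarith [(abs_le.mp hDle).1]) (abs_le.mp hDle).2
      rw [mul_pow] at h3
      have h4 : (1 + ε₂) * ‖‖p t‖⁻¹ • τ‖ ^ 2 ≤ (1 + ε₂) * (e ^ 2 / (1 - e ^ 2 / 4)) :=
        mul_le_mul_of_nonneg_left hn (by linarith)
      rw [mul_div_assoc]
      linarith
    rw [hCst]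
    exact Real.abs_le_sqrt h2
  have hmv : ‖k 1 - k 0‖ ≤ Cst := by
    choose! D hD1 hD2 using hkd
    exact norm_image_sub_le_of_norm_deriv_le_segment_01'
      (fun t ht => (hD1 t ht).hasDerivWithinAt)
      (fun t ht => by rw [Real.norm_eq_abs]; exact hD2 t ⟨ht.1, ht.2.le⟩)
  have hk1 : k 1 = H (φ.map x') := by
    rw [hk]; simp [hN, hp, hx']
  have hk0 : k 0 = H (φ.map x) := by
    rw [hk]; simp [hN, hp, hx]
  rw [hk1, hk0, Real.norm_eq_abs] at hmv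
  have h5 : (H (φ.map x') - H (φ.map x)) ^ 2 ≤ (1 + ε₂) * e ^ 2 / (1 - e ^ 2 / 4) := by
    rw [← Real.sq_sqrt (show 0 ≤ (1 + ε₂) * e ^ 2 / (1 - e ^ 2 / 4) by positivity)]
    exact sq_le_sq' (by linarith [(abs_le.mp hmv).1]) (abs_le.mp hmv).2
  rw [le_div_iff₀ hpos] at h5
  exact h5

/-! ### The comparison function -/

/-- The comparison function. -/
def F0 (A B a X1 X2 X3 : ℝ) : ℝ :=
  A * X1 + B * Real.arsinh (√2 * X1 / √(a ^ 2 + 2 * (X2 ^ 2 + X3 ^ 2)))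

lemma F0_deriv (A ε a : ℝ) (ha : 0 < a) (X1 X2 X3 : ℝ → ℝ) (x1 x2 x3 t : ℝ)
    (h1 : HasDerivAt X1 x1 t) (h2 : HasDerivAt X2 x2 t) (h3 : HasDerivAt X3 x3 t) :
    ∃ D, HasDerivAt (fun s => F0 A (ε * a / (6 * √2)) a (X1 s) (X2 s) (X3 s)) D t ∧
      D ^ 2 ≤ ((A + ε * (a / (6 * √(a ^ 2 + 2 * (X1 t ^ 2 + X2 t ^ 2 + X3 t ^ 2))))) ^ 2
        + ε ^ 2 / 144) * (x1 ^ 2 + x2 ^ 2 + x3 ^ 2) := by
  set P : ℝ := a ^ 2 + 2 * (X2 t ^ 2 + X3 t ^ 2) with hP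
  have hPpos : 0 < P := by positivity
  set R2 : ℝ := a ^ 2 + 2 * (X1 t ^ 2 + X2 t ^ 2 + X3 t ^ 2) with hR2
  have hR2pos : 0 < R2 := by positivity
  have hR2P : R2 = P + 2 * X1 t ^ 2 := by rw [hR2, hP]; ring
  set R : ℝ := √R2 with hR
  have hRpos : 0 < R := Real.sqrt_pos.mpr hR2pos
  have hRsq : R ^ 2 = R2 := Real.sq_sqrt hR2pos.le
  set Q : ℝ := √P with hQ
  have hQpos : 0 < Q := Real.sqrt_pos.mpr hPpos
  have hQsq : Q ^ 2 = P := Real.sq_sqrt hPpos.le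
  have hs2 : (√2 : ℝ) ^ 2 = 2 := Real.sq_sqrt (by norm_num)
  have hs2pos : (0 : ℝ) < √2 := by positivity
  have hPd : HasDerivAt (fun s => a ^ 2 + 2 * (X2 s ^ 2 + X3 s ^ 2))
      (4 * (X2 t * x2 + X3 t * x3)) t := by
    have := (((h2.pow 2).add (h3.pow 2)).const_mul 2).const_add (a ^ 2)
    refine HasDerivAt.congr_deriv this ?_
    simp only [Nat.cast_ofNat, Nat.add_one_sub_one, pow_one]
    ring
  have hQd : HasDerivAt (fun s => √(a ^ 2 + 2 * (X2 s ^ 2 + X3 s ^ 2)))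
      (4 * (X2 t * x2 + X3 t * x3) / (2 * Q)) t := hPd.sqrt hPpos.ne'
  have hxd := (h1.const_mul √2).div hQd hQpos.ne'
  have had := hxd.arsinh
  have hroot : √(1 + (√2 * X1 t / Q) ^ 2) = R / Q := by
    rw [show 1 + (√2 * X1 t / Q) ^ 2 = (R / Q) ^ 2 by
      rw [div_pow, div_pow, mul_pow, hs2, hRsq, hQsq, hR2P]; field_simp]
    exact Real.sqrt_sq (by positivity)
  have hD := (h1.const_mul A).add (had.const_mul (ε * a / (6 * √2)))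
  set α : ℝ := A + ε * (a / (6 * R)) with hα
  set κ : ℝ := ε * a * X1 t / (3 * R * P) with hκ
  have hD' : HasDerivAt (fun s => F0 A (ε * a / (6 * √2)) a (X1 s) (X2 s) (X3 s))
      (α * x1 - κ * (X2 t * x2 + X3 t * x3)) t := by
    refine HasDerivAt.congr_deriv hD ?_
    simp only [Pi.div_apply, smul_eq_mul]
    rw [← hP, ← hQ, hroot, hα, hκ, ← hQsq]
    field_simp
    ring
  refine ⟨_, hD', ?_⟩
  have hκ2 : κ ^ 2 * (X2 t ^ 2 + X3 t ^ 2) ≤ ε ^ 2 / 144 := by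
    have e1 : 2 * X1 t ^ 2 ≤ R ^ 2 := by rw [hRsq, hR2P]; linarith
    have e2 : 8 * (a ^ 2 * (X2 t ^ 2 + X3 t ^ 2)) ≤ P ^ 2 := by
      rw [hP]; nlinarith [sq_nonneg (a ^ 2 - 2 * (X2 t ^ 2 + X3 t ^ 2))]
    have e3 : (2 * X1 t ^ 2) * (8 * (a ^ 2 * (X2 t ^ 2 + X3 t ^ 2))) ≤ R ^ 2 * P ^ 2 :=
      mul_le_mul e1 e2 (by positivity) (by positivity)
    rw [hκ, div_pow, div_mul_eq_mul_div, div_le_div_iff₀ (by positivity) (by norm_num)]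
    nlinarith [mul_le_mul_of_nonneg_left e3 (sq_nonneg ε)]
  have hcs : (α * x1 - κ * (X2 t * x2 + X3 t * x3)) ^ 2 ≤
      (α ^ 2 + κ ^ 2 * (X2 t ^ 2 + X3 t ^ 2)) * (x1 ^ 2 + x2 ^ 2 + x3 ^ 2) := by
    nlinarith [sq_nonneg (α * x2 + κ * X2 t * x1), sq_nonneg (α * x3 + κ * X3 t * x1),
      sq_nonneg (κ * X2 t * x3 - κ * X3 t * x2)]
  refine hcs.trans (mul_le_mul_of_nonneg_right (by linarith) (by positivity))

lemma im_deriv (c : ℝ → ℍ[ℝ]) (c' : ℍ[ℝ]) (t : ℝ) (h : HasDerivAt c c' t) :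
    HasDerivAt (fun s => (c s).imI) c'.imI t ∧ HasDerivAt (fun s => (c s).imJ) c'.imJ t ∧
      HasDerivAt (fun s => (c s).imK) c'.imK t := by
  have key : ∀ i : Fin 3, HasDerivAt (fun s => inner ℝ (im i) (c s)) (inner ℝ (im i) c') t :=
    fun i => (innerSL ℝ (im i)).hasFDerivAt.comp_hasDerivAt t h
  refine ⟨?_, ?_, ?_⟩
  · have := key 0
    simpa [inner_q, im] using this
  · have := key 1
    simpa [inner_q, im] using this
  · have := key 2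
    simpa [inner_q, im] using this

lemma quad_ineq (x1 x2 x3 x4 : ℍ[ℝ]) :
    ‖x3 - x1‖ ^ 2 + ‖x4 - x2‖ ^ 2 ≤
      ‖x2 - x1‖ ^ 2 + ‖x3 - x2‖ ^ 2 + ‖x4 - x3‖ ^ 2 + ‖x1 - x4‖ ^ 2 := by
  have h : ‖x2 - x1‖ ^ 2 + ‖x3 - x2‖ ^ 2 + ‖x4 - x3‖ ^ 2 + ‖x1 - x4‖ ^ 2
      - (‖x3 - x1‖ ^ 2 + ‖x4 - x2‖ ^ 2) = ‖x1 - x2 + x3 - x4‖ ^ 2 := by
    simp only [norm_sq_q, Quaternion.re_sub, Quaternion.imI_sub, Quaternion.imJ_sub,
      Quaternion.imK_sub, Quaternion.re_add, Quaternion.imI_add, Quaternion.imJ_add,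
      Quaternion.imK_add]
    ring
  have h2 := sq_nonneg ‖x1 - x2 + x3 - x4‖
  linarith

/-- Points of the segment between two points of the sphere with the same real part and
orthogonal imaginary parts. -/
lemma seg_point (p0 s : ℝ) (hp0 : 0 < p0) (hs : p0 ^ 2 = 1 - s ^ 2) (u w : ℍ[ℝ])
    (hu : ‖u‖ = 1) (hw : ‖w‖ = 1) (hur : u.re = p0) (hwr : w.re = p0)
    (huw : inner ℝ u w = p0 ^ 2) (p : ℍ[ℝ]) (hp : p ∈ segment ℝ u w) :
    p ≠ 0 ∧ p.re / ‖p‖ ∈ I1 ∧ s ^ 2 / 2 ≤ 1 - (p.re / ‖p‖) ^ 2 := by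
  obtain ⟨α, β, hα, hβ, hαβ, rfl⟩ := hp
  set p : ℍ[ℝ] := α • u + β • w with hp
  have hre : p.re = p0 := by
    rw [hp]; simp [hur, hwr]; rw [← add_mul, hαβ, one_mul]
  have huu : inner ℝ u u = 1 := by rw [real_inner_self_eq_norm_sq, hu]; norm_num
  have hww : inner ℝ w w = 1 := by rw [real_inner_self_eq_norm_sq, hw]; norm_num
  have hn : ‖p‖ ^ 2 = p0 ^ 2 + s ^ 2 * (α ^ 2 + β ^ 2) := by
    rw [hp, ← real_inner_self_eq_norm_sq]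
    simp only [inner_add_left, inner_add_right, real_inner_smul_left, real_inner_smul_right,
      huu, hww, real_inner_comm u w, huw]
    have hβ' : β = 1 - α := by linarith
    rw [hβ', hs]
    ring
  have hab : 1 / 2 ≤ α ^ 2 + β ^ 2 := by
    have hβ' : β = 1 - α := by linarith
    rw [hβ']; nlinarith [sq_nonneg (α - 1 / 2)]
  have hab' : α ^ 2 + β ^ 2 ≤ 1 := by
    have hβ' : β = 1 - α := by linarith
    rw [hβ']; nlinarith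
  have hnpos : 0 < ‖p‖ := by
    have : 0 < ‖p‖ ^ 2 := by rw [hn]; positivity
    exact lt_of_le_of_ne (norm_nonneg _) fun h0 => by rw [← h0] at this; simp at this
  have hn1 : ‖p‖ ^ 2 ≤ 1 := by
    rw [hn]; nlinarith [sq_nonneg s, mul_le_mul_of_nonneg_left hab' (sq_nonneg s)]
  have hp0n : p0 ≤ ‖p‖ := by
    refine (abs_le_of_sq_le_sq' ?_ hnpos.le).2
    rw [hn]; nlinarith [mul_nonneg (sq_nonneg s) (show 0 ≤ α ^ 2 + β ^ 2 by positivity)]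
  refine ⟨norm_pos_iff.mp hnpos, ?_, ?_⟩
  · rw [hre]
    refine ⟨?_, ?_⟩
    · have : 0 ≤ p0 / ‖p‖ := by positivity
      linarith
    · rw [div_le_one hnpos]; exact hp0n
  · rw [hre, div_pow]
    have h1 : 1 - p0 ^ 2 / ‖p‖ ^ 2 = (‖p‖ ^ 2 - p0 ^ 2) / ‖p‖ ^ 2 := by
      field_simp
    rw [h1, le_div_iff₀ (by positivity), hn]
    have h2 := mul_le_mul_of_nonneg_left hab (sq_nonneg s)
    have h3 := mul_le_mul_of_nonneg_left hn1 (show 0 ≤ s ^ 2 / 2 by positivity)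
    rw [hn] at h3
    linarith

lemma arsinh_bound : (71 / 10 : ℝ) * (6 * √2) ≤ Real.arsinh (√2 * Real.exp 60) := by
  rw [Real.arsinh]
  have hs2 : (√2 : ℝ) ≤ 1.41422 := by
    rw [show (1.41422 : ℝ) = √(1.41422 ^ 2) by rw [Real.sqrt_sq (by norm_num)]]
    exact Real.sqrt_le_sqrt (by norm_num)
  have hs1 : (1 : ℝ) ≤ √2 := by
    rw [show (1 : ℝ) = √1 by simp]
    exact Real.sqrt_le_sqrt (by norm_num)
  have h1 : 2 * Real.exp 60 ≤ √2 * Real.exp 60 + √(1 + (√2 * Real.exp 60) ^ 2) := by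
    have h2 : √2 * Real.exp 60 ≤ √(1 + (√2 * Real.exp 60) ^ 2) := by
      refine Real.le_sqrt_of_sq_le ?_
      linarith
    nlinarith [Real.exp_pos 60]
  have h3 : Real.log (2 * Real.exp 60) = Real.log 2 + 60 := by
    rw [Real.log_mul (by norm_num) (Real.exp_pos _).ne', Real.log_exp]
  have h4 := Real.log_le_log (by positivity) h1
  have h5 := Real.log_two_gt_d9
  rw [h3] at h4
  nlinarith

lemma final_num (κ s : ℝ) (hκ : 0 < κ) (hκ' : κ ≤ 1 / 1000) (hs : s ^ 2 ≤ κ / 40) :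
    1 + κ / 10 < (1 + 6.1 * κ) ^ 2 * (1 - 4 * s ^ 2) *
      ((1 - κ / 10) * (1 - 5.66 * κ) ^ 2) := by
  have h1 : 1 + 0.4 * κ ≤ (1 + 6.1 * κ) * (1 - 5.66 * κ) := by nlinarith
  have h2 : (1 + 0.4 * κ) ^ 2 ≤ ((1 + 6.1 * κ) * (1 - 5.66 * κ)) ^ 2 :=
    pow_le_pow_left₀ (by positivity) h1 2
  have h3 : 1 - 0.2 * κ ≤ (1 - 4 * s ^ 2) * (1 - κ / 10) := by nlinarith [sq_nonneg s]
  have h4 : (1 + 0.4 * κ) ^ 2 * (1 - 0.2 * κ) ≤
      ((1 + 6.1 * κ) * (1 - 5.66 * κ)) ^ 2 * ((1 - 4 * s ^ 2) * (1 - κ / 10)) :=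
    mul_le_mul h2 h3 (by nlinarith) (by positivity)
  have h5 : 1 + κ / 10 < (1 + 0.4 * κ) ^ 2 * (1 - 0.2 * κ) := by nlinarith [sq_nonneg κ]
  calc 1 + κ / 10 < _ := h5
    _ ≤ _ := h4
    _ = _ := by ring

lemma mu_num (κ ε r c β z : ℝ) (hκ : 0 < κ) (hκ' : κ ≤ 1 / 1000) (hε : ε ^ 2 ≤ κ)
    (hr0 : 0 ≤ r) (hr : r ≤ κ / 10) (hc1 : 1 ≤ c) (hc2 : c ≤ 1 + r) (hβ : 0 ≤ β) (hβz : β ≤ z)
    (hz : z ≤ 1 / 2) :
    (1 - κ + β) ^ 2 + ε ^ 2 / 144 ≤ (c * (1 - z))⁻¹ ^ 2 := by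
  have hz1 : 0 < 1 - z := by linarith
  have h1 : (1 + β) / c ≤ (c * (1 - z))⁻¹ := by
    rw [inv_eq_one_div, div_le_div_iff₀ (by linarith) (by positivity)]
    nlinarith [mul_le_mul_of_nonneg_left (show (1 + β) * (1 - z) ≤ 1 by nlinarith)
      (show (0 : ℝ) ≤ c by linarith)]
  have h2 : ((1 + β) / c) ^ 2 ≤ (c * (1 - z))⁻¹ ^ 2 := pow_le_pow_left₀ (by positivity) h1 2
  refine le_trans ?_ h2
  rw [div_pow, le_div_iff₀ (by positivity)]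
  have h3 : c ^ 2 ≤ 1 + 3 * r := by nlinarith
  have h4 : (1 - κ + β) ^ 2 + ε ^ 2 / 144 ≤ (1 + β) ^ 2 - 1.9 * κ := by nlinarith
  have h5 : 0 ≤ (1 + β) ^ 2 - 1.9 * κ := by nlinarith
  calc ((1 - κ + β) ^ 2 + ε ^ 2 / 144) * c ^ 2
      ≤ ((1 + β) ^ 2 - 1.9 * κ) * (1 + 3 * r) :=
        mul_le_mul h4 h3 (by positivity) h5
    _ ≤ (1 + β) ^ 2 := by nlinarith [mul_nonneg hβ hr0]

lemma n1 (κ s : ℝ) (hκ : 0 < κ) (hκ' : κ ≤ 1 / 1000) (hs : 0 < s) (hs' : s < κ ^ 2 / 100) :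
    s ≤ 1 / 100 ∧ s ^ 2 ≤ κ / 40 ∧ 0 < 1 - s ^ 2 := by
  have h1 : κ ^ 2 ≤ κ := by nlinarith
  have h2 : s ≤ κ / 100 := by linarith
  have h3 : s ≤ 1 / 100 := by linarith
  refine ⟨h3, ?_, ?_⟩ <;> nlinarith

lemma n2 (κ : ℝ) (hκ : 0 < κ) (hκ' : κ ≤ 1 / 1000) :
    (1 - κ / 10) * (1 - 5.66 * κ) ^ 2 ≤ 1 ∧ 1 / 2 ≤ (1 - κ / 10) * (1 - 5.66 * κ) ^ 2 := by
  have h1 : (1 - 5.66 * κ) ^ 2 ≤ 1 := by nlinarith
  have h2 : (0.9 : ℝ) ≤ (1 - 5.66 * κ) ^ 2 := by nlinarith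
  refine ⟨?_, ?_⟩
  · nlinarith [sq_nonneg (1 - 5.66 * κ)]
  · nlinarith

lemma n3 (q : ℍ[ℝ]) (hq : ‖q‖ ^ 2 = 1) : ‖q‖ = 1 := by
  nlinarith [norm_nonneg q]

lemma n4 (c κ z : ℝ) (hc : 1 ≤ c) (hz : z ≤ 5.66 * κ) (hκ' : κ ≤ 1 / 1000) :
    1 - 5.66 * κ ≤ c * (1 - z) := by
  nlinarith

lemma n5 (x y w s M2 : ℝ) (hM2 : M2 ≤ 2) (h2 : w ^ 2 ≤ (x + y) ^ 2)
    (hx : x ^ 2 ≤ 2 * M2 * s ^ 2) (hy : y ^ 2 ≤ 2 * M2 * s ^ 2) : w ^ 2 ≤ 16 * s ^ 2 := by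
  have h3 : 2 * M2 * s ^ 2 ≤ 4 * s ^ 2 := by nlinarith [sq_nonneg s]
  nlinarith [sq_nonneg (x - y)]

lemma n6 (q : ℍ[ℝ]) (hq : ‖q‖ = 1) : q.re ∈ I1 := by
  have h := norm_sq_q q
  rw [hq] at h
  have hqs : q.re ^ 2 ≤ 1 := by
    linarith [sq_nonneg q.imI, sq_nonneg q.imJ, sq_nonneg q.imK]
  rw [mem_Icc]
  exact abs_le.mp ((sq_le_one_iff_abs_le_one _).mp hqs)

lemma n7 (e s : ℝ) (he : 0 ≤ e) (h1 : e ^ 2 ≤ 16 * s ^ 2) (hs : 0 < s) (hs1 : s ≤ 1 / 100) :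
    e < 2 := by
  nlinarith

lemma n8 (S κ r a : ℝ) (hS : 1000 ≤ S) (hκ : 0 < κ) (ha' : a < κ ^ 2 / (100 * S))
    (hr : r = √a) : r ≤ κ / 10 := by
  rw [hr, show κ / 10 = √((κ / 10) ^ 2) by rw [Real.sqrt_sq (by positivity)]]
  refine Real.sqrt_le_sqrt (ha'.le.trans ?_)
  rw [div_le_iff₀ (by positivity)]
  nlinarith [sq_nonneg κ]

lemma n9 (κ s B A : ℝ) (h5 : 7.1 * (κ * s) ≤ B * A) :
    2 * s * (1 + 6.1 * κ) ≤ (1 - κ) * s + B * A - ((1 - κ) * -s + B * -A) := by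
  linarith

end Lower

open Lower in
theorem c0_lower (ε : ℝ) (hε : 0 < ε) (hε' : ε ≤ Real.exp (-60)) :
    ∃ ε₂ > 0, ∃ a₀ > 0, ∀ a, 0 < a → a < a₀ → ∀ c, 1 ≤ c → c ≤ 1 + √a → ∀ z : ℝ → ℝ,
      (∀ y ∈ I1, 0 ≤ z y ∧ z y ≤ 1 / 2) →
      (∀ y ∈ I1, ε * a / (6 * √(a ^ 2 + 2 * (1 - y ^ 2))) ≤ z y) →
      (∀ y ∈ I1, z y * √(1 - y ^ 2) ≤ 4 * ε * a) →
      ∀ φ : Diffeo, ∃ x, ‖x‖ = 1 ∧
        ε₂ ≤ pullDist φ (rot (fun y => (c * (1 - z y))⁻¹ ^ 2) (fun _ => 0)) x := by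
  set S : ℝ := Real.exp 60 with hS
  have hSpos : 0 < S := Real.exp_pos _
  have hS1000 : 1000 ≤ S := by
    have h20 : (21 : ℝ) ≤ Real.exp 20 := by
      have := Real.add_one_le_exp (20 : ℝ); linarith
    have : S = Real.exp 20 ^ 3 := by
      rw [hS, ← Real.exp_nat_mul]; norm_num
    rw [this]
    calc (1000 : ℝ) ≤ 21 ^ 3 := by norm_num
      _ ≤ _ := pow_le_pow_left₀ (by norm_num) h20 3
  have hεS : ε ≤ S⁻¹ := by rw [hS, ← Real.exp_neg]; exact hε'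
  set κ : ℝ := ε / S with hκdef
  have hκ : 0 < κ := by positivity
  have hεκ : ε = κ * S := by rw [hκdef]; field_simp
  have hε1 : ε ≤ 1 := hεS.trans (inv_le_one_of_one_le₀ (by linarith))
  have hκ' : κ ≤ 1 / 1000 := by
    rw [hκdef, div_le_iff₀ hSpos]; linarith
  have hε2 : ε ^ 2 ≤ κ := by
    rw [hκdef, div_eq_mul_inv, sq]
    exact mul_le_mul_of_nonneg_left hεS hε.le
  refine ⟨κ / 10, by positivity, κ ^ 2 / (100 * S), by positivity, ?_⟩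
  intro a ha ha' c hc1 hc2 z hz1 hz2 hz3 φ
  by_contra hcon
  push Not at hcon
  -- numbers
  set s : ℝ := S * a with hsdef
  have hspos : 0 < s := by positivity
  have hs' : s < κ ^ 2 / 100 := by
    rw [hsdef]
    calc S * a < S * (κ ^ 2 / (100 * S)) := mul_lt_mul_of_pos_left ha' hSpos
      _ = _ := by field_simp
  obtain ⟨hs1, hsκ, hs0⟩ := n1 κ s hκ hκ' hspos hs'
  have hr : √a ≤ κ / 10 := n8 S κ (√a) a hS1000 hκ ha' rfl
  set μ : ℝ → ℝ := fun y => (c * (1 - z y))⁻¹ with hμdef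
  have hpd : ∀ x, ‖x‖ = 1 → pullDist φ (rot (fun y => μ y ^ 2) (fun _ => 0)) x ≤ κ / 10 :=
    fun x hx => (hcon x hx).le
  set p0 : ℝ := √(1 - s ^ 2) with hp0def
  have hp0sq : p0 ^ 2 = 1 - s ^ 2 := Real.sq_sqrt hs0.le
  have hp0 : 0 < p0 := Real.sqrt_pos.mpr hs0
  -- the four points
  set u : ℍ[ℝ] := ⟨p0, s, 0, 0⟩ with hu
  set w : ℍ[ℝ] := ⟨p0, 0, s, 0⟩ with hw
  set u' : ℍ[ℝ] := ⟨p0, -s, 0, 0⟩ with hu'
  set w' : ℍ[ℝ] := ⟨p0, 0, -s, 0⟩ with hw'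
  have hu1 : ‖u‖ = 1 := n3 _ (by rw [norm_sq_q]; simp [hu, hp0sq])
  have hw1 : ‖w‖ = 1 := n3 _ (by rw [norm_sq_q]; simp [hw, hp0sq])
  have hu'1 : ‖u'‖ = 1 := n3 _ (by rw [norm_sq_q]; simp [hu', hp0sq])
  have hw'1 : ‖w'‖ = 1 := n3 _ (by rw [norm_sq_q]; simp [hw', hp0sq])
  -- sides
  set M2 : ℝ := ((1 - κ / 10) * (1 - 5.66 * κ) ^ 2)⁻¹ with hM2
  have hden : 0 < (1 - κ / 10) * (1 - 5.66 * κ) ^ 2 := by
    have h1 : 0 < 1 - κ / 10 := by linarith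
    have h2 : 0 < 1 - 5.66 * κ := by linarith
    positivity
  obtain ⟨hden1, hden2⟩ := n2 κ hκ hκ'
  have hM2pos : 0 < M2 := inv_pos.mpr hden
  have hM21 : 1 ≤ M2 := (one_le_inv₀ hden).mpr hden1
  have hM22 : M2 ≤ 2 := by
    rw [hM2, inv_le_comm₀ hden (by norm_num)]; linarith
  set M : ℝ := √M2 with hM
  have hMsq : M ^ 2 = M2 := Real.sq_sqrt hM2pos.le
  have hM1 : 1 ≤ M := by rw [hM]; exact Real.one_le_sqrt.mpr hM21
  have hs2 : (√2 : ℝ) ≤ 1.415 := by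
    rw [show (1.415 : ℝ) = √(1.415 ^ 2) by rw [Real.sqrt_sq (by norm_num)]]
    exact Real.sqrt_le_sqrt (by norm_num)
  have hside : ∀ q q' : ℍ[ℝ], ‖q‖ = 1 → ‖q'‖ = 1 → q.re = p0 → q'.re = p0 →
      inner ℝ q q' = p0 ^ 2 → ‖φ.inv q' - φ.inv q‖ ^ 2 ≤ 2 * M2 * s ^ 2 := by
    intro q q' hq hq' hqr hqr' hqq
    have h1 : ‖φ.inv q' - φ.inv q‖ ≤ M * ‖q' - q‖ := by
      refine side φ μ (κ / 10) (by linarith) hpd q q' M hM1 fun p hp => ?_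
      obtain ⟨h0, hI, hge⟩ := seg_point p0 s hp0 hp0sq q q' hq hq' hqr hqr' hqq p hp
      refine ⟨h0, ?_⟩
      set y : ℝ := p.re / ‖p‖ with hy
      have hz := hz3 y hI
      have hz0 := (hz1 y hI).1
      have hroot : s / √2 ≤ √(1 - y ^ 2) := by
        refine Real.le_sqrt_of_sq_le ?_
        rw [div_pow, Real.sq_sqrt (by norm_num)]
        exact hge
      have hzle : z y * (s / √2) ≤ 4 * ε * a :=
        (mul_le_mul_of_nonneg_left hroot hz0).trans hz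
      have hzle2 : z y ≤ 5.66 * κ := by
        have h5 : z y * s ≤ 4 * √2 * (κ * s) := by
          have h6 : z y * (s / √2) * √2 ≤ 4 * ε * a * √2 :=
            mul_le_mul_of_nonneg_right hzle (by positivity)
          have h7 : z y * (s / √2) * √2 = z y * s := by field_simp
          have h8 : 4 * ε * a * √2 = 4 * √2 * (κ * s) := by
            rw [hεκ, hsdef]; ring
          rw [h7, h8] at h6
          exact h6
        have h9 : z y * s ≤ (5.66 * κ) * s := by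
          refine h5.trans ?_
          have : 4 * √2 ≤ 5.66 := by linarith
          calc 4 * √2 * (κ * s) ≤ 5.66 * (κ * s) :=
                mul_le_mul_of_nonneg_right this (by positivity)
            _ = _ := by ring
        exact le_of_mul_le_mul_right h9 hspos
      have h10 : μ y ≤ (1 - 5.66 * κ)⁻¹ := by
        rw [hμdef]
        exact inv_anti₀ (by linarith) (n4 c κ (z y) hc1 hzle2 hκ')
      have h11 : 0 ≤ μ y := by
        rw [hμdef]; simp only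
        have : 0 < 1 - z y := by linarith
        positivity
      have h12 : μ y ^ 2 ≤ (1 - 5.66 * κ)⁻¹ ^ 2 := pow_le_pow_left₀ h11 h10 2
      refine h12.trans (le_of_eq ?_)
      rw [hMsq, hM2, mul_inv, ← mul_assoc, mul_inv_cancel₀ (show (1 - κ / 10) ≠ 0 by linarith),
        one_mul, inv_pow]
    have hqn : ‖q' - q‖ ^ 2 = 2 * s ^ 2 := by
      rw [norm_sub_sq_real, hq, hq', real_inner_comm q q', hqq, hp0sq]; ring
    calc ‖φ.inv q' - φ.inv q‖ ^ 2 ≤ (M * ‖q' - q‖) ^ 2 :=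
          pow_le_pow_left₀ (norm_nonneg _) h1 2
      _ = 2 * M2 * s ^ 2 := by rw [mul_pow, hMsq, hqn]; ring
  have hs12 := hside u w hu1 hw1 rfl rfl (by rw [inner_q]; simp [hu, hw]; ring)
  have hs23 := hside w u' hw1 hu'1 rfl rfl (by rw [inner_q]; simp [hu', hw]; ring)
  have hs34 := hside u' w' hu'1 hw'1 rfl rfl (by rw [inner_q]; simp [hu', hw']; ring)
  have hs41 := hside w' u hw'1 hu1 rfl rfl (by rw [inner_q]; simp [hu, hw']; ring)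
  -- diagonals are short
  have hshort : ∀ q1 q2 q3 : ℍ[ℝ], ‖q2 - q1‖ ^ 2 ≤ 2 * M2 * s ^ 2 →
      ‖q3 - q2‖ ^ 2 ≤ 2 * M2 * s ^ 2 → ‖q3 - q1‖ ^ 2 ≤ 16 * s ^ 2 := by
    intro q1 q2 q3 h12 h23
    have h1 : ‖q3 - q1‖ ≤ ‖q3 - q2‖ + ‖q2 - q1‖ := by
      have : q3 - q1 = (q3 - q2) + (q2 - q1) := by abel
      rw [this]; exact norm_add_le _ _
    have h2 : ‖q3 - q1‖ ^ 2 ≤ (‖q3 - q2‖ + ‖q2 - q1‖) ^ 2 :=
      pow_le_pow_left₀ (norm_nonneg _) h1 2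
    exact n5 _ _ _ s M2 hM22 h2 h23 h12
  -- comparison functions
  have hbeta : ∀ q : ℍ[ℝ], ‖q‖ = 1 →
      (1 - κ + ε * (a / (6 * √(a ^ 2 + 2 * (1 - q.re ^ 2))))) ^ 2 + ε ^ 2 / 144 ≤ μ q.re ^ 2 := by
    intro q hq
    have hI : q.re ∈ I1 := n6 q hq
    refine mu_num κ ε (√a) c _ (z q.re) hκ hκ' hε2 (Real.sqrt_nonneg a) hr hc1 hc2
      (by positivity) ?_ (hz1 _ hI).2
    have := hz2 _ hI
    rwa [mul_div_assoc] at this
  have hHle : ∀ (q q' : ℍ[ℝ]) (D : ℝ), ‖q‖ = 1 →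
      D ^ 2 ≤ ((1 - κ + ε * (a / (6 * √(a ^ 2 + 2 * (1 - q.re ^ 2))))) ^ 2 + ε ^ 2 / 144) *
        (q'.imI ^ 2 + q'.imJ ^ 2 + q'.imK ^ 2) → |D| ≤ μ q.re * ‖q'‖ := by
    intro q q' D hq hD
    have h1 := hbeta q hq
    have h2 : q'.imI ^ 2 + q'.imJ ^ 2 + q'.imK ^ 2 ≤ ‖q'‖ ^ 2 := by
      rw [norm_sq_q]; linarith [sq_nonneg q'.re]
    have h3 : D ^ 2 ≤ (μ q.re * ‖q'‖) ^ 2 := by
      rw [mul_pow]
      exact hD.trans (mul_le_mul h1 h2 (by positivity) (by positivity))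
    have hI : q.re ∈ I1 := n6 q hq
    have h4 : 0 ≤ μ q.re := by
      rw [hμdef]; simp only
      have : 0 < 1 - z q.re := by linarith [(hz1 _ hI).2]
      positivity
    exact abs_le_of_sq_le_sq h3 (by positivity)
  have hsphere : ∀ q : ℍ[ℝ], ‖q‖ = 1 → 1 - q.re ^ 2 = q.imI ^ 2 + q.imJ ^ 2 + q.imK ^ 2 := by
    intro q hq
    have := norm_sq_q q
    rw [hq] at this
    linarith
  have hdiagval : 2 * s * (1 + 6.1 * κ) ≤
      F0 (1 - κ) (ε * a / (6 * √2)) a s 0 0 - F0 (1 - κ) (ε * a / (6 * √2)) a (-s) 0 0 := by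
    have h1 : √(a ^ 2 + 2 * ((0 : ℝ) ^ 2 + 0 ^ 2)) = a := by
      rw [show a ^ 2 + 2 * ((0 : ℝ) ^ 2 + 0 ^ 2) = a ^ 2 by ring]
      exact Real.sqrt_sq ha.le
    have h2 : √2 * s / a = √2 * S := by rw [hsdef]; field_simp
    have h3 : √2 * -s / a = -(√2 * S) := by rw [hsdef]; field_simp
    rw [F0, F0, h1, h2, h3, Real.arsinh_neg]
    have h4 := arsinh_bound
    rw [← hS] at h4
    have h5 : (ε * a / (6 * √2)) * ((71 / 10 : ℝ) * (6 * √2)) ≤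
        (ε * a / (6 * √2)) * Real.arsinh (√2 * S) :=
      mul_le_mul_of_nonneg_left h4 (by positivity)
    have h6 : (ε * a / (6 * √2)) * ((71 / 10 : ℝ) * (6 * √2)) = 7.1 * (κ * s) := by
      rw [hεκ, hsdef]
      field_simp
      norm_num
    rw [h6] at h5
    exact n9 κ s _ _ h5
  -- diagonals are long
  have hd1 := diag φ μ (κ / 10) (by positivity) hpd
    (fun q => F0 (1 - κ) (ε * a / (6 * √2)) a q.imI q.imJ q.imK)
    (by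
      intro g g' t hg hgt
      obtain ⟨e1, e2, e3⟩ := im_deriv g g' t hg
      obtain ⟨D, hD, hDle⟩ := F0_deriv (1 - κ) ε a ha _ _ _ _ _ _ t e1 e2 e3
      refine ⟨D, hD, hHle (g t) g' D hgt ?_⟩
      rw [hsphere _ hgt]
      exact hDle)
    (φ.inv u') (φ.inv u) (by rw [φ.norm_inv, hu'1]) (by rw [φ.norm_inv, hu1])
    (by
      have h1 := hshort _ _ _ hs12 hs23
      rw [norm_sub_rev] at h1
      exact n7 _ s (norm_nonneg _) h1 hspos hs1)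
  have hd2 := diag φ μ (κ / 10) (by positivity) hpd
    (fun q => F0 (1 - κ) (ε * a / (6 * √2)) a q.imJ q.imI q.imK)
    (by
      intro g g' t hg hgt
      obtain ⟨e1, e2, e3⟩ := im_deriv g g' t hg
      obtain ⟨D, hD, hDle⟩ := F0_deriv (1 - κ) ε a ha _ _ _ _ _ _ t e2 e1 e3
      refine ⟨D, hD, hHle (g t) g' D hgt ?_⟩
      rw [hsphere _ hgt]
      convert hDle using 2
      · ring_nf
      · ring)
    (φ.inv w') (φ.inv w) (by rw [φ.norm_inv, hw'1]) (by rw [φ.norm_inv, hw1])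
    (by
      have h1 := hshort _ _ _ hs23 hs34
      rw [norm_sub_rev] at h1
      exact n7 _ s (norm_nonneg _) h1 hspos hs1)
  have hu0 := ne_zero_of_norm hu1
  have hw0 := ne_zero_of_norm hw1
  have hu'0 := ne_zero_of_norm hu'1
  have hw'0 := ne_zero_of_norm hw'1
  rw [φ.right_inv u hu0, φ.right_inv u' hu'0] at hd1
  rw [φ.right_inv w hw0, φ.right_inv w' hw'0] at hd2
  simp only [hu, hu'] at hd1
  simp only [hw, hw'] at hd2
  rw [← hu, ← hu'] at hd1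
  rw [← hw, ← hw'] at hd2
  have hlow : ∀ e : ℝ, e ^ 2 ≤ 16 * s ^ 2 →
      (F0 (1 - κ) (ε * a / (6 * √2)) a s 0 0 - F0 (1 - κ) (ε * a / (6 * √2)) a (-s) 0 0) ^ 2 *
        (1 - e ^ 2 / 4) ≤ (1 + κ / 10) * e ^ 2 →
      4 * s ^ 2 * (1 + 6.1 * κ) ^ 2 * (1 - 4 * s ^ 2) ≤ (1 + κ / 10) * e ^ 2 := by
    intro e he hle
    refine le_trans ?_ hle
    have h1 : (2 * s * (1 + 6.1 * κ)) ^ 2 ≤ (F0 (1 - κ) (ε * a / (6 * √2)) a s 0 0 -
        F0 (1 - κ) (ε * a / (6 * √2)) a (-s) 0 0) ^ 2 :=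
      pow_le_pow_left₀ (by positivity) hdiagval 2
    calc 4 * s ^ 2 * (1 + 6.1 * κ) ^ 2 * (1 - 4 * s ^ 2)
        = (2 * s * (1 + 6.1 * κ)) ^ 2 * (1 - 4 * s ^ 2) := by ring
      _ ≤ _ := mul_le_mul h1 (by linarith) (by linarith) (sq_nonneg _)
  have hsh1 := hshort _ _ _ hs12 hs23
  have hsh2 := hshort _ _ _ hs23 hs34
  have hl1 := hlow ‖φ.inv u - φ.inv u'‖ (by rw [norm_sub_rev]; exact hsh1) hd1
  have hl2 := hlow ‖φ.inv w - φ.inv w'‖ (by rw [norm_sub_rev]; exact hsh2) hd2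
  have hq := quad_ineq (φ.inv u) (φ.inv w) (φ.inv u') (φ.inv w')
  rw [norm_sub_rev (φ.inv u') (φ.inv u), norm_sub_rev (φ.inv w') (φ.inv w)] at hq
  have hfin := final_num κ s hκ hκ' hsκ
  have hMden : M2 * ((1 - κ / 10) * (1 - 5.66 * κ) ^ 2) = 1 := by
    rw [hM2]; exact inv_mul_cancel₀ hden.ne'
  have h20 : 8 * s ^ 2 * ((1 + 6.1 * κ) ^ 2 * (1 - 4 * s ^ 2)) ≤
      (1 + κ / 10) * (8 * M2 * s ^ 2) := by
    have h21 : ‖φ.inv u - φ.inv u'‖ ^ 2 + ‖φ.inv w - φ.inv w'‖ ^ 2 ≤ 8 * M2 * s ^ 2 := by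
      linarith
    have h25 := mul_le_mul_of_nonneg_left h21 (show (0 : ℝ) ≤ 1 + κ / 10 by positivity)
    rw [mul_add] at h25
    linarith
  have h22 : (1 + 6.1 * κ) ^ 2 * (1 - 4 * s ^ 2) ≤ (1 + κ / 10) * M2 := by
    have h23 : (8 * s ^ 2) * ((1 + 6.1 * κ) ^ 2 * (1 - 4 * s ^ 2)) ≤
        (8 * s ^ 2) * ((1 + κ / 10) * M2) := by
      calc _ ≤ (1 + κ / 10) * (8 * M2 * s ^ 2) := h20
        _ = _ := by ring
    exact le_of_mul_le_mul_left h23 (by positivity)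
  have h24 := mul_le_mul_of_nonneg_right h22 hden.le
  rw [mul_assoc (1 + κ / 10) M2, hMden, mul_one] at h24
  linarith

end Pool.Agent.MP_ae1fc5_gt
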