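import Pool.Agent.MP_ae1fc5_gt.Bump

/-!
# MP_ae1fc5_gt, module D2: the scalar curvature of the initial metric is at least 6
-/

open scoped Quaternion ContDiff Matrix
open Set

noncomputable section

namespace Pool.Agent.MP_ae1fc5_gt

namespace ScalD2

/-- The one-variable inequality behind the choice of `c`. -/
theorem quartic (s x : ℝ) (hs : 0 < s) :
    96 * s ^ 3 * x ≤ 9 / 10 * (s ^ 3) ^ 2 * x ^ 4 + 456 * s ^ 2 := by
  have h : 0 ≤ 9 / 10 * (s * x) ^ 4 + 456 - 96 * (s * x) := by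
    nlinarith [sq_nonneg ((s * x) ^ 2 - 9), sq_nonneg (s * x - 3)]
  have h2 : 0 ≤ s ^ 2 * (9 / 10 * (s * x) ^ 4 + 456 - 96 * (s * x)) :=
    mul_nonneg (sq_nonneg _) h
  nlinarith [h2]

/-- The algebraic core: a lower bound for the scalar curvature divided by `c ^ 2`. -/
theorem core (ε a B B1 B2 y Sg : ℝ) (hε : 0 < ε) (hε' : ε ≤ 1 / 10000) (ha : 0 < a)
    (ha' : a ≤ 1 / 5) (hB : 0 ≤ B) (haB : a * B ≤ 1) (hS : 0 ≤ Sg)
    (hL : -((1 - y ^ 2) * B2 - 3 * y * B1) + B = (1 - (1 - a) ^ 2) / 2 * Sg)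
    (hG : (1 - y ^ 2) * B1 ^ 2 ≤ 2000 * Sg) :
    6 - 16 * (ε * a * B) + 9 / 10 * ε * a ^ 2 * Sg ≤
      6 * (1 - ε * a * B) ^ 2
        + 4 * (1 - ε * a * B) * ((1 - y ^ 2) * (-(ε * a) * B2) - 3 * y * (-(ε * a) * B1))
        - 6 * (1 - y ^ 2) * (-(ε * a) * B1) ^ 2 := by
  have e1 : (1 - y ^ 2) * (-(ε * a) * B2) - 3 * y * (-(ε * a) * B1) =
      ε * a * ((1 - (1 - a) ^ 2) / 2 * Sg) - ε * a * B := by
    rw [← hL]; ring
  rw [e1]
  set z := ε * a * B with hz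
  have hz0 : 0 ≤ z := by positivity
  have hz1 : z ≤ 1 / 10000 := by
    have : z = ε * (a * B) := by rw [hz]; ring
    rw [this]
    calc ε * (a * B) ≤ ε * 1 := by gcongr
      _ ≤ 1 / 10000 := by linarith
  have e2 : 6 * (1 - y ^ 2) * (-(ε * a) * B1) ^ 2 = 6 * (ε * a) ^ 2 * ((1 - y ^ 2) * B1 ^ 2) := by
    ring
  rw [e2]
  have h3 : 6 * (ε * a) ^ 2 * ((1 - y ^ 2) * B1 ^ 2) ≤ 6 * (ε * a) ^ 2 * (2000 * Sg) := by
    gcongr
  have h4 : ε * a * ((1 - (1 - a) ^ 2) / 2 * Sg) = ε * a ^ 2 * (1 - a / 2) * Sg := by ring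
  rw [h4]
  have hK : 0 ≤ ε * a ^ 2 * Sg := by positivity
  have h5 : 9 / 10 ≤ 4 * (1 - z) * (1 - a / 2) - 12000 * ε := by
    nlinarith
  have h6 : 9 / 10 * (ε * a ^ 2 * Sg) ≤
      (4 * (1 - z) * (1 - a / 2) - 12000 * ε) * (ε * a ^ 2 * Sg) :=
    mul_le_mul_of_nonneg_right h5 hK
  nlinarith [sq_nonneg z]

end ScalD2

theorem scal_ge : ∃ εM > 0, ∀ ε, 0 < ε → ε < εM → ∃ a₀ > 0, ∀ a, 0 < a → a < a₀ →
    ∃ c, 1 ≤ c ∧ c ≤ 1 + √a ∧ ∀ y ∈ I1,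
      6 ≤ 6 * (c * (1 - ε * a * bump (1 - a) y)) ^ 2
        + 4 * (c * (1 - ε * a * bump (1 - a) y)) *
          ((1 - y ^ 2) * (-(c * ε * a) * deriv (deriv (bump (1 - a))) y)
            - 3 * y * (-(c * ε * a) * deriv (bump (1 - a)) y))
        - 6 * (1 - y ^ 2) * (-(c * ε * a) * deriv (bump (1 - a)) y) ^ 2 := by
  refine ⟨1 / 10000, by norm_num, fun ε hε hε' => ⟨1 / 5, by norm_num, fun a ha ha' => ?_⟩⟩
  -- the cube root of `a`
  obtain ⟨s, hs, hs3⟩ : ∃ s : ℝ, 0 < s ∧ s ^ 3 = a := by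
    refine ⟨a ^ (1 / 3 : ℝ), Real.rpow_pos_of_pos ha _, ?_⟩
    rw [← Real.rpow_natCast, ← Real.rpow_mul ha.le]
    norm_num
  have hs1 : s ≤ 1 := by
    by_contra h
    push Not at h
    have : 1 < s ^ 3 := one_lt_pow₀ h (by norm_num)
    linarith
  set u : ℝ := 152 * ε * s ^ 2 with hu
  have hs2 : s ^ 2 ≤ 1 := pow_le_one₀ hs.le hs1
  have hu0 : 0 ≤ u := by positivity
  have hu1 : u ≤ 1 / 4 := by
    calc u = 152 * ε * s ^ 2 := hu
      _ ≤ 152 * (1 / 10000) * 1 := by gcongr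
      _ ≤ 1 / 4 := by norm_num
  have hpos : 0 < 1 - u := by linarith
  -- the constant `c`
  obtain ⟨c, hc, hc2⟩ : ∃ c : ℝ, 0 < c ∧ c ^ 2 * (1 - u) = 1 := by
    refine ⟨(√(1 - u))⁻¹, by positivity, ?_⟩
    rw [inv_pow, Real.sq_sqrt hpos.le]
    exact inv_mul_cancel₀ hpos.ne'
  have hc1 : 1 ≤ c := by
    by_contra h
    push Not at h
    have : c ^ 2 < 1 := pow_lt_one₀ hc.le h (by norm_num)
    nlinarith
  have hcu : c ≤ 1 + u := by
    by_contra h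
    push Not at h
    have h1 : (1 + u) ^ 2 < c ^ 2 := by gcongr
    have h2 : (1 + u) ^ 2 * (1 - u) < 1 := by
      calc (1 + u) ^ 2 * (1 - u) < c ^ 2 * (1 - u) := mul_lt_mul_of_pos_right h1 hpos
        _ = 1 := hc2
    nlinarith [mul_nonneg hu0 hu0, mul_nonneg hu0 (mul_nonneg hu0 hu0)]
  have hua : u ≤ √a := by
    have h1 : u ≤ s ^ 2 := by
      have : 152 * ε ≤ 1 := by linarith
      calc u = 152 * ε * s ^ 2 := hu
        _ ≤ 1 * s ^ 2 := by gcongr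
        _ = s ^ 2 := one_mul _
    have h2 : s ^ 2 ≤ √a := by
      apply Real.le_sqrt_of_sq_le
      rw [← hs3]
      nlinarith [pow_pos hs 3]
    exact h1.trans h2
  refine ⟨c, hc1, hcu.trans (by linarith), fun y hy => ?_⟩
  have hq : (4 : ℝ) / 5 ≤ 1 - a := by linarith
  have hq' : 1 - a < 1 := by linarith
  obtain ⟨b1, b2, -, -, b5⟩ := bump_bounds (1 - a) hq hq' y hy
  obtain ⟨-, d1, d2⟩ := bump_deriv (1 - a) hq hq' y hy
  have hy1 : -1 ≤ y := hy.1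
  have hy2 : y ≤ 1 := hy.2
  set Dm : ℝ := 1 + (1 - a) ^ 2 - 2 * (1 - a) * y with hDm
  set Dp : ℝ := 1 + (1 - a) ^ 2 + 2 * (1 - a) * y with hDp
  have hDm0 : 0 < Dm := by nlinarith
  have hDp0 : 0 < Dp := by nlinarith
  set x : ℝ := 1 / √Dm with hx
  set x' : ℝ := 1 / √Dp with hx'
  have hx4 : x ^ 4 = 1 / Dm ^ 2 := by
    rw [hx, div_pow, one_pow]
    congr 1
    rw [show (4 : ℕ) = 2 * 2 from rfl, pow_mul, Real.sq_sqrt hDm0.le]
  have hx'4 : x' ^ 4 = 1 / Dp ^ 2 := by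
    rw [hx', div_pow, one_pow]
    congr 1
    rw [show (4 : ℕ) = 2 * 2 from rfl, pow_mul, Real.sq_sqrt hDp0.le]
  rw [← hx4, ← hx'4] at d1 d2
  set B := bump (1 - a) y with hB
  set B1 := deriv (bump (1 - a)) y with hB1
  set B2 := deriv (deriv (bump (1 - a))) y with hB2
  have haB : a * B ≤ 1 := by
    have : 1 - (1 - a) = a := by ring
    rwa [this] at b2
  have hSg : 0 ≤ x ^ 4 + x' ^ 4 := by positivity
  have hcore := ScalD2.core ε a B B1 B2 y (x ^ 4 + x' ^ 4) hε hε'.le ha ha'.le b1 haB hSg d1 d2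
  have hq1 := ScalD2.quartic s x hs
  have hq2 := ScalD2.quartic s x' hs
  rw [hs3] at hq1 hq2
  have hlow : 6 * (1 - u) ≤ 6 - 16 * (ε * a * B) + 9 / 10 * ε * a ^ 2 * (x ^ 4 + x' ^ 4) := by
    have h1 : ε * a * B ≤ ε * a * (6 * (x + x')) := by gcongr
    have h2 : ε * (96 * a * x + 96 * a * x') ≤
        ε * (9 / 10 * a ^ 2 * x ^ 4 + 456 * s ^ 2 + (9 / 10 * a ^ 2 * x' ^ 4 + 456 * s ^ 2)) := by
      gcongr
    rw [hu]
    nlinarith
  have hfin : 6 * (1 - u) ≤ 6 * (1 - ε * a * B) ^ 2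
        + 4 * (1 - ε * a * B) * ((1 - y ^ 2) * (-(ε * a) * B2) - 3 * y * (-(ε * a) * B1))
        - 6 * (1 - y ^ 2) * (-(ε * a) * B1) ^ 2 := hlow.trans hcore
  have hmul := mul_le_mul_of_nonneg_left hfin (sq_nonneg c)
  calc (6 : ℝ) = c ^ 2 * (6 * (1 - u)) := by linear_combination (-6) * hc2
    _ ≤ _ := hmul
    _ = _ := by ring

end Pool.Agent.MP_ae1fc5_gt
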