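import Pool.Agent.MP_ae1fc5_gt.PdeMain
import Pool.Agent.MP_ae1fc5_gt.Gauge
import Pool.Agent.MP_ae1fc5_gt.FlowOfRot
import Pool.Agent.MP_ae1fc5_gt.RicciRot
import Pool.Agent.MP_ae1fc5_gt.RotMetric
import Pool.Agent.MP_ae1fc5_gt.Lower
import Pool.Agent.MP_ae1fc5_gt.Bump
import Pool.Agent.MP_ae1fc5_gt.Scal
import Pool.Agent.MP_ae1fc5_gt.Coef

open scoped Quaternion ContDiff Matrix
open Set

noncomputable section

namespace Pool.Agent.MP_ae1fc5_gt

theorem re_div_mem (x : ℍ[ℝ]) (hx : x ≠ 0) : x.re / ‖x‖ ∈ I1 := by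
  have hx' : 0 < ‖x‖ := norm_pos_iff.mpr hx
  have hre : |x.re| ≤ ‖x‖ := by
    have h1 : x.re ^ 2 ≤ ‖x‖ ^ 2 := by
      rw [sq ‖x‖, ← Quaternion.normSq_eq_norm_mul_self, Quaternion.normSq_def']
      nlinarith [sq_nonneg x.imI, sq_nonneg x.imJ, sq_nonneg x.imK]
    exact abs_le_of_sq_le_sq h1 hx'.le
  rw [show I1 = Icc (-1 : ℝ) 1 from rfl, mem_Icc, ← abs_le, abs_div, abs_of_pos hx']
  exact (div_le_one hx').mpr hre

/-- From a solution in the conformal gauge to a Ricci flow on the sphere. -/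
theorem exists_flow (Λ c : ℝ) (hΛ : 0 < Λ) (hc : 1 < c) (V : ℝ → ℝ → ℝ) (hV : IsSol Λ c V) :
    ∃ G : ℝ → Field, IsRicciFlow G ((1 - Real.exp (-4 * Λ)) / 4) ∧
      ∀ x, x ≠ 0 → G 0 x = rot (fun y => (V 0 y)⁻¹ ^ 2) (fun _ => 0) x := by
  obtain ⟨al, be, h1, h2, h3, h4, h5, h6⟩ := exists_rot_flow Λ c hΛ hc V hV
  obtain ⟨G, hG, hG0⟩ := flow_of_rot Λ hΛ al be h1 h2 h3 h5 h6
  refine ⟨G, hG, fun x hx => ?_⟩
  have hmem := re_div_mem x hx
  rw [hG0]
  funext i j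
  simp only [rot]
  rw [(h4 _ hmem).1, (h4 _ hmem).2]

theorem maxTime_gt (g : Field) (T s : ℝ) (hs : s < T) (hT : 0 < T) (G : ℝ → Field)
    (hG : IsRicciFlow G T) (h0 : ∀ x, x ≠ 0 → G 0 x = g x) : (s : EReal) < maxTime g := by
  refine lt_of_lt_of_le (EReal.coe_lt_coe_iff.mpr hs) ?_
  exact le_sSup ⟨T, rfl, hT, G, hG, h0⟩

theorem main : ∃ ε > 0, ∀ δ > 0, ∃ g : Field, IsMetric g ∧ (∀ x, ‖x‖ = 1 → 6 ≤ scal g x) ∧
    (((1 / 4 - δ : ℝ)) : EReal) < maxTime g ∧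
    ∀ φ : Diffeo, ∃ x, ‖x‖ = 1 ∧ ε ≤ pullDist φ g x := by
  obtain ⟨ε₁, hε₁, hpde⟩ := pde_solution
  obtain ⟨εM, hεM, hscal⟩ := scal_ge
  -- the amplitude
  obtain ⟨ε, hεdef⟩ : ∃ ε, ε = min (min (ε₁ / 10) (Real.exp (-60))) (min (εM / 2) (1 / 2)) := ⟨_, rfl⟩
  have hε : 0 < ε := by rw [hεdef]; positivity
  have hε1 : 10 * ε ≤ ε₁ := by
    have : ε ≤ ε₁ / 10 := hεdef ▸ (min_le_left _ _).trans (min_le_left _ _)
    linarith
  have hε2 : ε ≤ Real.exp (-60) := hεdef ▸ (min_le_left _ _).trans (min_le_right _ _)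
  have hε3 : ε < εM := by
    have : ε ≤ εM / 2 := hεdef ▸ (min_le_right _ _).trans (min_le_left _ _)
    linarith
  have hε4 : ε ≤ 1 / 2 := hεdef ▸ (min_le_right _ _).trans (min_le_right _ _)
  obtain ⟨ε₂, hε₂, a₁, ha₁, hlow⟩ := c0_lower ε hε hε2
  obtain ⟨a₂, ha₂, hsc⟩ := hscal ε hε hε3
  refine ⟨ε₂, hε₂, fun δ hδ => ?_⟩
  -- the time
  obtain ⟨Λ, hΛ, hΛ'⟩ : ∃ Λ : ℝ, 0 < Λ ∧ 1 / 4 - δ < (1 - Real.exp (-4 * Λ)) / 4 := by
    have h1 : Filter.Tendsto (fun Λ : ℝ => (1 - Real.exp (-4 * Λ)) / 4) Filter.atTop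
        (nhds ((1 - 0) / 4)) := by
      refine Filter.Tendsto.div_const (Filter.Tendsto.const_sub _ ?_) _
      exact Real.tendsto_exp_atBot.comp
        ((Filter.tendsto_id.const_mul_atTop_of_neg (by norm_num : (-4 : ℝ) < 0)))
    have h2 : ∀ᶠ Λ : ℝ in Filter.atTop, 1 / 4 - δ < (1 - Real.exp (-4 * Λ)) / 4 :=
      h1.eventually (lt_mem_nhds (by linarith))
    obtain ⟨Λ, hΛ⟩ := (h2.and (Filter.eventually_gt_atTop 0)).exists
    exact ⟨Λ, hΛ.2, hΛ.1⟩
  obtain ⟨W, hW, hpde'⟩ := hpde Λ hΛ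
  obtain ⟨a₃, ha₃, hcoef⟩ := coef_small ε hε (by linarith) W hW
  obtain ⟨a, hadef⟩ : ∃ a, a = min (min a₁ a₂) (min a₃ (1 / 5)) / 2 := ⟨_, rfl⟩
  have hmin : 0 < min (min a₁ a₂) (min a₃ (1 / 5)) := by positivity
  have ha : 0 < a := by rw [hadef]; linarith
  have haa1 : a < a₁ := by
    have : min (min a₁ a₂) (min a₃ (1 / 5)) ≤ a₁ := (min_le_left _ _).trans (min_le_left _ _)
    linarith
  have haa2 : a < a₂ := by
    have : min (min a₁ a₂) (min a₃ (1 / 5)) ≤ a₂ := (min_le_left _ _).trans (min_le_right _ _)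
    linarith
  have haa3 : a < a₃ := by
    have : min (min a₁ a₂) (min a₃ (1 / 5)) ≤ a₃ := (min_le_right _ _).trans (min_le_left _ _)
    linarith
  have haa4 : a < 1 / 5 := by
    have : min (min a₁ a₂) (min a₃ (1 / 5)) ≤ 1 / 5 := (min_le_right _ _).trans (min_le_right _ _)
    linarith
  obtain ⟨c, hc1, hc2, hR⟩ := hsc a ha haa2
  obtain ⟨⟨R, hR1, hsum⟩, d, hd, hser⟩ := hcoef a ha haa3 c hc1 hc2
  obtain ⟨c', hc', V, hV, hV0⟩ := hpde' R hR1 (coefA c ε a) (fun K => (hsum K).trans hε1)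
  obtain ⟨G, hG, hG0⟩ := exists_flow Λ c' hΛ hc' V hV
  have hV0' : ∀ y ∈ I1, V 0 y = c * (1 - ε * a * bump (1 - a) y) := by
    intro y hy
    rw [hV0 y ⟨by linarith [hy.1], by linarith [hy.2]⟩]
    exact hser y ⟨by linarith [hy.1], by linarith [hy.2]⟩
  have hq : 4 / 5 ≤ 1 - a := by linarith
  have hq' : 1 - a < 1 := by linarith
  -- bounds for z
  have hz : ∀ y ∈ I1, 0 ≤ ε * a * bump (1 - a) y ∧ ε * a * bump (1 - a) y ≤ 1 / 2 := by
    intro y hy
    obtain ⟨h1, h2, -, -, -⟩ := bump_bounds (1 - a) hq hq' y hy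
    refine ⟨by positivity, ?_⟩
    have h3 : (1 - (1 - a)) * bump (1 - a) y = a * bump (1 - a) y := by ring
    rw [h3] at h2
    calc ε * a * bump (1 - a) y = ε * (a * bump (1 - a) y) := by ring
      _ ≤ ε * 1 := by gcongr
      _ ≤ 1 / 2 := by linarith
  have hv_pos : ∀ y ∈ I1, 0 < c * (1 - ε * a * bump (1 - a) y) := by
    intro y hy
    have := (hz y hy).2
    have h1 : 0 < 1 - ε * a * bump (1 - a) y := by linarith
    positivity
  -- the metric
  obtain ⟨v, hv⟩ : ∃ v : ℝ → ℝ, v = fun y => c * (1 - ε * a * bump (1 - a) y) := ⟨_, rfl⟩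
  have hvpos : ∀ y ∈ I1, 0 < v y := by rw [hv]; exact hv_pos
  have hbump : ∀ y ∈ I1, ContDiffAt ℝ ∞ (bump (1 - a)) y := fun y hy =>
    (bump_deriv (1 - a) hq hq' y hy).1
  have hvsm : ∀ y ∈ I1, ContDiffAt ℝ ∞ v y := by
    intro y hy
    rw [hv]
    exact contDiffAt_const.mul (contDiffAt_const.sub (contDiffAt_const.mul (hbump y hy)))
  refine ⟨rot (fun y => (v y)⁻¹ ^ 2) (fun _ => 0), ?_, ?_, ?_, ?_⟩
  · refine isMetric_rot _ _ ?_ contDiffOn_const ?_ ?_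
    · intro y hy
      exact ((hvsm y hy).inv (hvpos y hy).ne').pow 2 |>.contDiffWithinAt
    · intro y hy
      have := hvpos y hy
      positivity
    · intro y hy
      have := hvpos y hy
      simp only [zero_mul, add_zero]
      positivity
  · intro x hx
    have hx0 : x ≠ 0 := by
      rintro rfl
      simp at hx
    have hdiff : ∀ y ∈ I1, DifferentiableAt ℝ (bump (1 - a)) y := fun y hy =>
      (hbump y hy).differentiableAt (by simp)
    have hdiff2 : ∀ y ∈ I1, DifferentiableAt ℝ (deriv (bump (1 - a))) y := by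
      intro y hy
      have h1 : ContDiffAt ℝ 1 (deriv (bump (1 - a))) y := by
        have h3 : ContDiffAt ℝ 1 (fderiv ℝ (bump (1 - a))) y :=
          (hbump y hy).fderiv_right (by norm_cast)
        have h4 : deriv (bump (1 - a)) = fun z => fderiv ℝ (bump (1 - a)) z 1 := by
          funext z
          rfl
        rw [h4]
        exact h3.clm_apply contDiffAt_const
      exact h1.differentiableAt (by simp)
    rw [scal_conf v (fun y => -(c * ε * a) * deriv (bump (1 - a)) y)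
      (fun y => -(c * ε * a) * deriv (deriv (bump (1 - a))) y) ?_ ?_ hvpos x hx0]
    · have hmem : x.re / ‖x‖ ∈ I1 := by
        exact re_div_mem x hx0
      have := hR _ hmem
      simp only [hv]
      exact this
    · intro y hy
      rw [hv]
      have := (((hdiff y hy).hasDerivAt.const_mul (ε * a)).const_sub 1).const_mul c
      refine (this.congr_deriv (by ring)).hasDerivWithinAt
    · intro y hy
      exact ((hdiff2 y hy).hasDerivAt.const_mul _).hasDerivWithinAt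
  · refine maxTime_gt _ _ _ hΛ' ?_ G hG ?_
    · have : Real.exp (-4 * Λ) < 1 := by
        rw [Real.exp_lt_one_iff]
        linarith
      linarith
    · intro x hx
      rw [hG0 x hx]
      have hmem : x.re / ‖x‖ ∈ I1 := re_div_mem x hx
      funext i j
      simp only [rot, hv]
      rw [hV0' _ hmem]
  · intro φ
    have hA : ∀ y ∈ I1, ε * a / (6 * √(a ^ 2 + 2 * (1 - y ^ 2))) ≤ ε * a * bump (1 - a) y := by
      intro y hy
      obtain ⟨-, -, h3, -, -⟩ := bump_bounds (1 - a) hq hq' y hy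
      have h4 : 1 - (1 - a) = a := by ring
      rw [h4] at h3
      calc ε * a / (6 * √(a ^ 2 + 2 * (1 - y ^ 2)))
          = ε * a * (1 / (6 * √(a ^ 2 + 2 * (1 - y ^ 2)))) := by ring
        _ ≤ ε * a * bump (1 - a) y := by gcongr
    have hB : ∀ y ∈ I1, ε * a * bump (1 - a) y * √(1 - y ^ 2) ≤ 4 * ε * a := by
      intro y hy
      obtain ⟨-, -, -, h3, -⟩ := bump_bounds (1 - a) hq hq' y hy
      calc ε * a * bump (1 - a) y * √(1 - y ^ 2) = ε * a * (bump (1 - a) y * √(1 - y ^ 2)) := by ring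
        _ ≤ ε * a * 4 := by gcongr
        _ = 4 * ε * a := by ring
    obtain ⟨x, hx, hx'⟩ := hlow a ha haa1 c hc1 hc2 (fun y => ε * a * bump (1 - a) y) hz hA hB φ
    exact ⟨x, hx, by rw [hv]; exact hx'⟩

end Pool.Agent.MP_ae1fc5_gt
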