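import Pool.Agent.MP_ae1fc5_gt.Defs2

open scoped Quaternion ContDiff Matrix
open Set

noncomputable section

namespace Pool.Agent.MP_ae1fc5_gt

/-- `v, v1, v2`: value and derivatives of `V` at the point `Y = Y(y)`; `W = dY/dy`,
`W1 = d^2Y/dy^2`; `ρ = (1-Y^2)/(1-y^2)` and its derivatives `ρ1, ρ2`; `al = ρ / v^2`,
`A = W^2 / (ρ v^2)`, `be = (A - al)/(1-y^2)`. -/
theorem natural (v v1 v2 Y y W W1 ρ ρ1 ρ2 al al1 al2 A A1 be be1 : ℝ)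
    (hv : 0 < v) (hW : 0 < W) (hy : y ^ 2 < 1) (hY : Y ^ 2 < 1)
    (hρ : ρ = (1 - Y ^ 2) / (1 - y ^ 2))
    (hρ1 : ρ1 = -2 * Y * W / (1 - y ^ 2) + 2 * y * (1 - Y ^ 2) / (1 - y ^ 2) ^ 2)
    (hρ2 : ρ2 = -2 * (W ^ 2 + Y * W1) / (1 - y ^ 2) - 8 * y * Y * W / (1 - y ^ 2) ^ 2
      + 2 * (1 - Y ^ 2) / (1 - y ^ 2) ^ 2 + 8 * y ^ 2 * (1 - Y ^ 2) / (1 - y ^ 2) ^ 3)
    (hal : al = ρ / v ^ 2)
    (hal1 : al1 = ρ1 / v ^ 2 - 2 * v1 * W * ρ / v ^ 3)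
    (hal2 : al2 = ρ2 / v ^ 2 - 4 * v1 * W * ρ1 / v ^ 3 - 2 * v2 * W ^ 2 * ρ / v ^ 3
      - 2 * v1 * W1 * ρ / v ^ 3 + 6 * v1 ^ 2 * W ^ 2 * ρ / v ^ 4)
    (hA : A = W ^ 2 / (ρ * v ^ 2))
    (hA1 : A1 = 2 * W * W1 / (ρ * v ^ 2) - 2 * v1 * W ^ 3 / (ρ * v ^ 3)
      - W ^ 2 * ρ1 / (ρ ^ 2 * v ^ 2))
    (hbe : be = (A - al) / (1 - y ^ 2))
    (hbe1 : be1 = (A1 - al1) / (1 - y ^ 2) + 2 * y * (A - al) / (1 - y ^ 2) ^ 2) :
    Pf al al1 al2 be be1 y =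
      ρ * (2 - 4 * Y * v1 / v + (1 - Y ^ 2) * (v2 / v - 2 * v1 ^ 2 / v ^ 2)) ∧
    Pf al al1 al2 be be1 y + (1 - y ^ 2) * Qf al al1 al2 be be1 y =
      W ^ 2 / ρ * (2 - 4 * Y * v1 / v + (1 - Y ^ 2) * (2 * v2 / v - 2 * v1 ^ 2 / v ^ 2)) := by
  -- abbreviations
  obtain ⟨s, hs⟩ : ∃ s, s = 1 - y ^ 2 := ⟨_, rfl⟩
  obtain ⟨S, hS⟩ : ∃ S, S = 1 - Y ^ 2 := ⟨_, rfl⟩
  have hs0 : 0 < s := by rw [hs]; linarith
  have hS0 : 0 < S := by rw [hS]; linarith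
  rw [← hs] at hρ hρ1 hρ2 hbe hbe1
  rw [← hS] at hρ hρ1 hρ2
  have hρ0 : 0 < ρ := by rw [hρ]; positivity
  have hal0 : 0 < al := by rw [hal]; positivity
  have hA0 : 0 < A := by rw [hA]; positivity
  -- basic quotients
  have e0 : al + be * (1 - y ^ 2) = A := by
    rw [← hs, hbe]; field_simp; ring
  have e1 : al1 + be1 * (1 - y ^ 2) - 2 * y * be = A1 := by
    rw [← hs, hbe, hbe1]; field_simp; ring
  -- u = al'/(2 al)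
  obtain ⟨u, hu⟩ : ∃ u, u = y / s - Y * W / S - v1 * W / v := ⟨_, rfl⟩
  have hu' : al1 / (2 * al) = u := by
    rw [hu, hal1, hal, hρ1, hρ]; field_simp; ring
  -- gamma^2 = al / A
  obtain ⟨g2, hg2⟩ : ∃ g2, g2 = ρ ^ 2 / W ^ 2 := ⟨_, rfl⟩
  have hg : al / A = g2 := by rw [hg2, hal, hA]; field_simp
  -- gamma'/gamma
  obtain ⟨gam, hgam⟩ : ∃ gam, gam = 2 * y / s - 2 * Y * W / S - W1 / W := ⟨_, rfl⟩
  obtain ⟨p0, hp0⟩ : ∃ p0, p0 = g2 * u + y / s * (1 - g2) := ⟨_, rfl⟩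
  obtain ⟨r0, hr0⟩ : ∃ r0, r0 = (u - u * g2 + gam - y / s * (1 - g2)) / s := ⟨_, rfl⟩
  obtain ⟨u1, hu1⟩ : ∃ u1, u1 = (s + 2 * y ^ 2) / s ^ 2
      - ((W ^ 2 + Y * W1) / S + 2 * Y ^ 2 * W ^ 2 / S ^ 2)
      - (v2 * W ^ 2 / v + v1 * W1 / v - v1 ^ 2 * W ^ 2 / v ^ 2) := ⟨_, rfl⟩
  have hA' : A = al / g2 := by rw [hg2, hal, hA]; field_simp
  have hg20 : 0 < g2 := by rw [hg2]; positivity
  have hal1' : al1 = 2 * al * u := by rw [← hu']; field_simp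
  have hu1' : al2 / (2 * al) - al1 ^ 2 / (2 * al ^ 2) = u1 := by
    rw [hu1, hal1, hal2, hal, hρ1, hρ2, hρ]; field_simp; ring
  have hA1' : A1 = A * (2 * u - 2 * gam) := by
    rw [hA1, hu, hgam, hA, hρ1, hρ]; field_simp; ring
  have hbe' : be = al * (1 / g2 - 1) / s := by rw [hbe, hA']; field_simp
  have hp : (al1 / 2 + be * y) / A = p0 := by
    rw [hal1', hbe', hA', hp0]; field_simp
  have hr : (al1 * be / al - be1 / 2) / A = r0 := by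
    rw [hbe1, hbe', hA1', hal1', hA', hr0]; field_simp; ring
  have hal2' : al2 = 2 * al * u1 + 4 * al * u ^ 2 := by
    rw [← hu1', hal1']; field_simp; ring
  have hp1 : (al2 / 2 + be1 * y + be) / A - (al1 / 2 + be * y) * A1 / A ^ 2 =
      2 * g2 * gam * u + g2 * u1 + (s + 2 * y ^ 2) / s ^ 2 * (1 - g2) - y / s * (2 * g2 * gam) := by
    rw [hal2', hbe1, hbe', hA1', hal1', hA']; field_simp; ring
  have key : Pf al al1 al2 be be1 y + (1 - y ^ 2) * Qf al al1 al2 be be1 y =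
      2 + 2 * y * (u + p0 + r0 * s) - 2 * s * u1 - 2 * u * s * (p0 + r0 * s - u) := by
    unfold Pf Qf
    rw [e1, e0, hp, hr, hu', hu1', hp1, ← hs]; ring
  have keyP : Pf al al1 al2 be be1 y =
      2 + 2 * u * y + 2 * y * p0 - r0 * s * y - s * (2 * g2 * gam * u + g2 * u1
        + (s + 2 * y ^ 2) / s ^ 2 * (1 - g2) - y / s * (2 * g2 * gam))
        - 2 * u * p0 * s + p0 ^ 2 * s + p0 * r0 * s ^ 2 := by
    unfold Pf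
    rw [e1, e0, hp, hr, hu', hp1, ← hs]
  have hy2 : y ^ 2 = 1 - s := by rw [hs]; ring
  have hY2 : Y ^ 2 = 1 - S := by rw [hS]; ring
  constructor
  · rw [keyP, ← hS, hr0, hp0, hu1, hu, hgam, hg2, hρ]
    field_simp
    subst hs hS
    ring
  · rw [key, ← hS, hr0, hp0, hu1, hu, hgam, hg2, hρ]
    field_simp
    subst hs hS
    ring

end Pool.Agent.MP_ae1fc5_gt
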