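import Pool.Agent.MP_ae1fc5_gt.PdeC

/-!
# MP_ae1fc5_gt: module H, from the coefficients to a solution of the PDE
-/

open scoped Quaternion ContDiff Matrix
open Set

noncomputable section

namespace Pool.Agent.MP_ae1fc5_gt

namespace Pde

theorem hasSum_congr' {ι : Type*} {f g : ι → ℝ} {a : ℝ} (h : ∀ i, f i = g i) (hf : HasSum f a) :
    HasSum g a := by
  have : f = g := funext h
  rwa [← this]

/-- The integral of the square of the first derivative as a double series. -/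
theorem hasSum_J (Λ r : ℝ) (hr : 1 ≤ r) (x : ℕ → ℝ → ℝ) (A : ℕ → ℝ)
    (hA : ∀ k, ∀ s ∈ Icc 0 Λ, |x k s| ≤ A k)
    (hs : ∀ j : ℕ, Summable (fun k : ℕ => (2 * (k : ℝ) + 1) ^ j * (r ^ 2) ^ k * A k))
    (t : ℝ) (ht : t ∈ Icc 0 Λ) (y : ℝ) (hy : y ∈ Ioo (-((r + 1 / r) / 2)) ((r + 1 / r) / 2)) :
    HasDerivAt (fun y => ∫ z in (0 : ℝ)..y, Ser x 1 t z * Ser x 1 t z)
      (Ser x 1 t y * Ser x 1 t y) y ∧
    HasSum (fun p : ℕ × ℕ => x p.1 t * x p.2 t * Jpol p.1 p.2 y)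
      (∫ z in (0 : ℝ)..y, Ser x 1 t z * Ser x 1 t z) := by
  have hr0 : 0 < r := by linarith
  set c := (r + 1 / r) / 2 with hc
  have hc0 : 0 < c := by positivity
  have h0 : (0 : ℝ) ∈ Ioo (-c) c := ⟨by linarith, hc0⟩
  have hA0 : ∀ k, 0 ≤ A k := fun k => (abs_nonneg _).trans (hA k t ht)
  set e : ℕ → ℝ := fun k => (2 * (k : ℝ) + 1) ^ (2 * 1 + 1) * (r ^ 2) ^ k * A k with he
  have hes : Summable e := hs (2 * 1 + 1)
  have he0 : ∀ k, 0 ≤ e k := fun k => by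
    have := hA0 k
    simp only [he]; positivity
  have hprod : Summable (fun p : ℕ × ℕ => e p.1 * e p.2) := hes.mul_of_nonneg hes he0 he0
  have hder : ∀ p : ℕ × ℕ, ∀ z ∈ Ioo (-c) c,
      HasDerivAt (fun z => x p.1 t * x p.2 t * Jpol p.1 p.2 z)
        ((x p.1 t * dU 1 (2 * p.1) z) * (x p.2 t * dU 1 (2 * p.2) z)) z := by
    intro p z _
    have h := (Jpol_deriv p.1 p.2 z).const_mul (x p.1 t * x p.2 t)
    rw [deriv_cU, deriv_cU] at h
    have e : (x p.1 t * dU 1 (2 * p.1) z) * (x p.2 t * dU 1 (2 * p.2) z) =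
        x p.1 t * x p.2 t * (dU 1 (2 * p.1) z * dU 1 (2 * p.2) z) := by ring
    rw [e]
    exact h
  have hbd : ∀ p : ℕ × ℕ, ∀ z ∈ Ioo (-c) c,
      ‖(x p.1 t * dU 1 (2 * p.1) z) * (x p.2 t * dU 1 (2 * p.2) z)‖ ≤ e p.1 * e p.2 := by
    intro p z hz
    rw [norm_mul]
    exact mul_le_mul (ser_term_bound Λ r hr x A hA 1 p.1 t ht z (mem_of_Ioo hz))
      (ser_term_bound Λ r hr x A hA 1 p.2 t ht z (mem_of_Ioo hz)) (norm_nonneg _) (he0 _)
  have hsum0 : Summable (fun p : ℕ × ℕ => x p.1 t * x p.2 t * Jpol p.1 p.2 0) := by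
    simp only [Jpol_zero, mul_zero]
    exact summable_zero
  have hS : ∀ z ∈ Ioo (-c) c, Summable (fun p : ℕ × ℕ => x p.1 t * x p.2 t * Jpol p.1 p.2 z) :=
    fun z hz => summable_of_summable_hasDerivAt_of_isPreconnected
      (g := fun (p : ℕ × ℕ) z => x p.1 t * x p.2 t * Jpol p.1 p.2 z)
      (g' := fun p z => (x p.1 t * dU 1 (2 * p.1) z) * (x p.2 t * dU 1 (2 * p.2) z))
      (y₀ := 0) (y := z) hprod isOpen_Ioo isPreconnected_Ioo hder hbd h0 hsum0 hz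
  have hD : ∀ z ∈ Ioo (-c) c, HasDerivAt
      (fun z => ∑' p : ℕ × ℕ, x p.1 t * x p.2 t * Jpol p.1 p.2 z)
      (Ser x 1 t z * Ser x 1 t z) z := by
    intro z hz
    have h := hasDerivAt_tsum_of_isPreconnected hprod isOpen_Ioo isPreconnected_Ioo hder hbd h0
      hsum0 hz
    have h1 : HasSum (fun k => x k t * dU 1 (2 * k) z) (Ser x 1 t z) :=
      (ser_summable Λ r hr x A hA hs 1 t ht z hz).hasSum
    rw [(hasSum_mul h1 h1).tsum_eq] at h
    exact h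
  have hcont : ContinuousOn (fun z => Ser x 1 t z * Ser x 1 t z) (Ioo (-c) c) := by
    have h1 : ContinuousOn (Ser x 1 t) (Ioo (-c) c) := fun z hz =>
      (ser_hasDerivAt Λ r hr x A hA hs 1 t ht z hz).continuousAt.continuousWithinAt
    exact h1.mul h1
  have hsub : ∀ z ∈ Ioo (-c) c, uIcc 0 z ⊆ Ioo (-c) c := fun z hz =>
    (convex_Ioo (-c) c).ordConnected.uIcc_subset h0 hz
  have hint : ∀ z ∈ Ioo (-c) c,
      ∫ w in (0 : ℝ)..z, Ser x 1 t w * Ser x 1 t w =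
        ∑' p : ℕ × ℕ, x p.1 t * x p.2 t * Jpol p.1 p.2 z := by
    intro z hz
    have h := intervalIntegral.integral_eq_sub_of_hasDerivAt
      (fun w hw => hD w (hsub z hz hw)) ((hcont.mono (hsub z hz)).intervalIntegrable)
    rw [h]
    simp only [Jpol_zero, mul_zero, tsum_zero, sub_zero]
  constructor
  · refine (hD y hy).congr_of_eventuallyEq ?_
    filter_upwards [isOpen_Ioo.mem_nhds hy] with z hz
    exact hint z hz
  · rw [hint y hy]
    exact (hS y hy).hasSum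

/-- The quadratic and cubic parts of the nonlinearity. -/
def Nq (x : ℕ → ℝ → ℝ) (k : ℕ) (s : ℝ) : ℝ :=
  ∑' p : ℕ × ℕ, bq p.1 p.2 k * (x p.1 s * x p.2 s)

/-- The quadratic and cubic parts of the nonlinearity. -/
def Nt (x : ℕ → ℝ → ℝ) (k : ℕ) (s : ℝ) : ℝ :=
  ∑' p : ℕ × ℕ × ℕ, tq p.1 p.2.1 p.2.2 k * (x p.1 s * (x p.2.1 s * x p.2.2 s))

/-- The time derivatives of the coefficients. -/
def Dc (x : ℕ → ℝ → ℝ) (k : ℕ) (s : ℝ) : ℝ := -(lam k - 4) * x k s + (Nq x k s + Nt x k s)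

/-- The nonlinear identity. -/
theorem key (Λ r ρ' : ℝ) (hr : 1 ≤ r) (hρ' : r ^ 2 < ρ') (x : ℕ → ℝ → ℝ) (A : ℕ → ℝ)
    (hA : ∀ k, ∀ s ∈ Icc 0 Λ, |x k s| ≤ A k)
    (hs : ∀ j : ℕ, Summable (fun k : ℕ => (2 * (k : ℝ) + 1) ^ j * (r ^ 2) ^ k * A k))
    (C1 C2 : ℝ) (hC1 : ∀ m n k, |bq m n k| * ρ' ^ k ≤
      C1 * (((2 * (m : ℝ) + 1) ^ 3 * ρ' ^ m) * ((2 * (n : ℝ) + 1) ^ 3 * ρ' ^ n)))
    (hC2 : ∀ l m n k, |tq l m n k| * ρ' ^ k ≤
      C2 * (((2 * (l : ℝ) + 1) ^ 3 * ρ' ^ l) *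
      (((2 * (m : ℝ) + 1) ^ 3 * ρ' ^ m) * ((2 * (n : ℝ) + 1) ^ 3 * ρ' ^ n))))
    (hE : Summable (fun k : ℕ => (2 * (k : ℝ) + 1) ^ 3 * ρ' ^ k * A k))
    (t : ℝ) (ht : t ∈ Icc 0 Λ) (y : ℝ) (hy : y ∈ Ioo (-((r + 1 / r) / 2)) ((r + 1 / r) / 2)) :
    Ser (Dc x) 0 t y = rhs (1 + Ser x 0 t y) (Ser x 1 t y) (Ser x 2 t y)
      (∫ z in (0 : ℝ)..y, Ser x 1 t z * Ser x 1 t z) y := by
  have hr0 : 0 < r := by linarith
  have hA0 : ∀ k, 0 ≤ A k := fun k => (abs_nonneg _).trans (hA k t ht)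
  have h0 : HasSum (fun k => x k t * cU (2 * k) y) (Ser x 0 t y) :=
    (ser_summable Λ r hr x A hA hs 0 t ht y hy).hasSum
  have h1 : HasSum (fun k => x k t * dU 1 (2 * k) y) (Ser x 1 t y) :=
    (ser_summable Λ r hr x A hA hs 1 t ht y hy).hasSum
  have h2 : HasSum (fun k => x k t * dU 2 (2 * k) y) (Ser x 2 t y) :=
    (ser_summable Λ r hr x A hA hs 2 t ht y hy).hasSum
  have hJ := (hasSum_J Λ r hr x A hA hs t ht y hy).2
  set w := Ser x 0 t y with hw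
  set w1 := Ser x 1 t y with hw1
  set w2 := Ser x 2 t y with hw2
  set J := ∫ z in (0 : ℝ)..y, Ser x 1 t z * Ser x 1 t z with hJdef
  have hL : HasSum (fun k => lam k * (x k t * cU (2 * k) y)) (-((1 - y ^ 2) * w2 - 3 * y * w1)) := by
    have h := ((h2.mul_left (1 - y ^ 2)).sub (h1.mul_left (3 * y))).neg
    refine hasSum_congr' (fun k => ?_) h
    have hl := laplace_cU k y
    rw [deriv_deriv_cU, deriv_cU] at hl
    linear_combination (-(x k t)) * hl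
  -- the double and triple series
  have hQ : HasSum (fun p : ℕ × ℕ => x p.1 t * x p.2 t *
      ∑ k ∈ Finset.range (p.1 + p.2 + 1), bq p.1 p.2 k * cU (2 * k) y)
      (6 * (w * w) - 2 * (w * -((1 - y ^ 2) * w2 - 3 * y * w1)) - (1 - y ^ 2) * (w1 * w1)
        - y * J) := by
    have h := ((((hasSum_mul h0 h0).mul_left 6).sub ((hasSum_mul h0 hL).mul_left 2)).sub
      ((hasSum_mul h1 h1).mul_left (1 - y ^ 2))).sub (hJ.mul_left y)
    refine hasSum_congr' (fun p => ?_) h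
    rw [sum_bq, deriv_cU, deriv_cU]
    ring
  have hQ' : HasSum (fun p : ℕ × ℕ => x p.1 t * x p.2 t *
      ((2 - lam p.2) * (cU (2 * p.1) y * cU (2 * p.2) y)
        - (1 - y ^ 2) * (dU 1 (2 * p.1) y * dU 1 (2 * p.2) y) - y * Jpol p.1 p.2 y))
      (2 * (w * w) - w * -((1 - y ^ 2) * w2 - 3 * y * w1) - (1 - y ^ 2) * (w1 * w1)
        - y * J) := by
    have h := ((((hasSum_mul h0 h0).mul_left 2).sub (hasSum_mul h0 hL)).sub
      ((hasSum_mul h1 h1).mul_left (1 - y ^ 2))).sub (hJ.mul_left y)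
    refine hasSum_congr' (fun p => ?_) h
    ring
  have hT : HasSum (fun p : ℕ × ℕ × ℕ => x p.1 t * (x p.2.1 t * x p.2.2 t) *
      ∑ k ∈ Finset.range (p.1 + p.2.1 + p.2.2 + 1), tq p.1 p.2.1 p.2.2 k * cU (2 * k) y)
      (w * (2 * (w * w) - w * -((1 - y ^ 2) * w2 - 3 * y * w1) - (1 - y ^ 2) * (w1 * w1)
        - y * J) - (1 - y ^ 2) * (w1 * J)) := by
    have h := (hasSum_mul h0 hQ').sub ((hasSum_mul h1 hJ).mul_left (1 - y ^ 2))
    refine hasSum_congr' (fun p => ?_) h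
    rw [sum_tq, deriv_cU, deriv_cU, deriv_cU]
    ring
  -- exchange of the sums
  have hu : ∀ k : ℕ, |cU (2 * k) y| ≤ (2 * (k : ℝ) + 1) * (r ^ 2) ^ k := by
    intro k
    have := dU_bound2 r hr y (mem_of_Ioo hy) 0 k
    simpa [dU_zero] using this
  set E : ℕ → ℝ := fun k : ℕ => (2 * (k : ℝ) + 1) ^ 3 * ρ' ^ k * A k with hEdef
  have hρ'0 : 0 < ρ' := (by positivity : (0 : ℝ) < r ^ 2).trans hρ'
  have hE0 : ∀ k, 0 ≤ E k := fun k => by
    have := hA0 k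
    simp only [hEdef]; positivity
  have hE2 : Summable (fun p : ℕ × ℕ => E p.1 * E p.2) := hE.mul_of_nonneg hE hE0 hE0
  have hE3 : Summable (fun p : ℕ × ℕ × ℕ => E p.1 * (E p.2.1 * E p.2.2)) :=
    hE.mul_of_nonneg hE2 hE0 (fun p => mul_nonneg (hE0 _) (hE0 _))
  have hF2 := fubini (r ^ 2) ρ' (by positivity) hρ' (fun (p : ℕ × ℕ) k => bq p.1 p.2 k)
    (fun p => x p.1 t * x p.2 t) (fun p => C1 * (E p.1 * E p.2)) (fun p => p.1 + p.2 + 1)
    (fun p k hk => bq_support p.1 p.2 k (by omega)) (hE2.mul_left C1)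
    (fun p k => by
      rw [abs_mul, abs_mul]
      have a1 := hC1 p.1 p.2 k
      have a2 : |x p.1 t| * |x p.2 t| ≤ A p.1 * A p.2 :=
        mul_le_mul (hA _ t ht) (hA _ t ht) (abs_nonneg _) (hA0 _)
      calc |bq p.1 p.2 k| * (|x p.1 t| * |x p.2 t|) * ρ' ^ k
          = (|bq p.1 p.2 k| * ρ' ^ k) * (|x p.1 t| * |x p.2 t|) := by ring
        _ ≤ _ := mul_le_mul a1 a2 (by positivity) ((by positivity : (0:ℝ) ≤ |bq p.1 p.2 k| * ρ' ^ k).trans a1)
        _ = C1 * (E p.1 * E p.2) := by simp only [hEdef]; ring)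
    (fun k => cU (2 * k) y) hu
  have hF3 := fubini (r ^ 2) ρ' (by positivity) hρ'
    (fun (p : ℕ × ℕ × ℕ) k => tq p.1 p.2.1 p.2.2 k)
    (fun p => x p.1 t * (x p.2.1 t * x p.2.2 t)) (fun p => C2 * (E p.1 * (E p.2.1 * E p.2.2)))
    (fun p => p.1 + p.2.1 + p.2.2 + 1)
    (fun p k hk => tq_support p.1 p.2.1 p.2.2 k (by omega)) (hE3.mul_left C2)
    (fun p k => by
      rw [abs_mul, abs_mul, abs_mul]
      have a1 := hC2 p.1 p.2.1 p.2.2 k
      have a2 : |x p.1 t| * (|x p.2.1 t| * |x p.2.2 t|) ≤ A p.1 * (A p.2.1 * A p.2.2) :=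
        mul_le_mul (hA _ t ht) (mul_le_mul (hA _ t ht) (hA _ t ht) (abs_nonneg _) (hA0 _))
          (by positivity) (hA0 _)
      calc |tq p.1 p.2.1 p.2.2 k| * (|x p.1 t| * (|x p.2.1 t| * |x p.2.2 t|)) * ρ' ^ k
          = (|tq p.1 p.2.1 p.2.2 k| * ρ' ^ k) * (|x p.1 t| * (|x p.2.1 t| * |x p.2.2 t|)) := by
            ring
        _ ≤ _ := mul_le_mul a1 a2 (by positivity)
          ((by positivity : (0:ℝ) ≤ |tq p.1 p.2.1 p.2.2 k| * ρ' ^ k).trans a1)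
        _ = C2 * (E p.1 * (E p.2.1 * E p.2.2)) := by simp only [hEdef]; ring)
    (fun k => cU (2 * k) y) hu
  have hN2 : HasSum (fun k => Nq x k t * cU (2 * k) y)
      (6 * (w * w) - 2 * (w * -((1 - y ^ 2) * w2 - 3 * y * w1)) - (1 - y ^ 2) * (w1 * w1)
        - y * J) := by
    have h := hF2.1.hasSum
    rw [hF2.2.2, hQ.tsum_eq] at h
    exact h
  have hN3 : HasSum (fun k => Nt x k t * cU (2 * k) y)
      (w * (2 * (w * w) - w * -((1 - y ^ 2) * w2 - 3 * y * w1) - (1 - y ^ 2) * (w1 * w1)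
        - y * J) - (1 - y ^ 2) * (w1 * J)) := by
    have h := hF3.1.hasSum
    rw [hF3.2.2, hT.tsum_eq] at h
    exact h
  have hfin : HasSum (fun k => Dc x k t * dU 0 (2 * k) y)
      (((4 * w - -((1 - y ^ 2) * w2 - 3 * y * w1)) +
      (6 * (w * w) - 2 * (w * -((1 - y ^ 2) * w2 - 3 * y * w1)) - (1 - y ^ 2) * (w1 * w1)
        - y * J)) + (w * (2 * (w * w) - w * -((1 - y ^ 2) * w2 - 3 * y * w1)
          - (1 - y ^ 2) * (w1 * w1) - y * J) - (1 - y ^ 2) * (w1 * J))) := by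
    have h := (((h0.mul_left 4).sub hL).add hN2).add hN3
    refine hasSum_congr' (fun k => ?_) h
    rw [dU_zero]
    unfold Dc
    ring
  unfold Ser
  rw [hfin.tsum_eq]
  unfold rhs
  ring

end Pde

open Pde in
theorem coef_to_pde (Λ : ℝ) (hΛ : 0 < Λ) (R : ℝ) (hR : 1 < R) (a : ℕ → ℝ) (x : ℕ → ℝ → ℝ)
    (A : ℕ → ℝ) (hx : ∀ n, ContinuousOn (x n) (Icc 0 Λ)) (hA : ∀ n, ∀ s ∈ Icc 0 Λ, |x n s| ≤ A n)
    (hsum : Summable (fun n : ℕ => (2 * n + 1) * R ^ n * A n))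
    (hle : ∑' n : ℕ, (2 * n + 1) * R ^ n * A n ≤ 1 / 2)
    (heq : ∀ k, ∀ s ∈ Icc 0 Λ, x k s = Real.exp (-(lam k - 4) * s) * a k +
        ∫ r in (0 : ℝ)..s, Real.exp (-(lam k - 4) * (s - r)) *
          ((∑' p : ℕ × ℕ, bq p.1 p.2 k * x p.1 r * x p.2 r) +
            ∑' p : ℕ × ℕ × ℕ, tq p.1 p.2.1 p.2.2 k * x p.1 r * x p.2.1 r * x p.2.2 r)) :
    ∃ c > 1, IsSol Λ c (fun t y => 1 + ∑' n, x n t * cU (2 * n) y) := by
  -- the radii
  have hsR1 : 1 < √R := by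
    rw [show (1 : ℝ) = √1 by simp]; exact Real.sqrt_lt_sqrt (by norm_num) hR
  have hsR : √R * √R = R := Real.mul_self_sqrt (by linarith)
  have hsR2 : √R < R := by nlinarith
  obtain ⟨r, hr⟩ : ∃ r, r = √(√R) := ⟨_, rfl⟩
  have hr2 : r ^ 2 = √R := by rw [hr]; exact Real.sq_sqrt (by linarith)
  have hr1 : 1 < r := by
    rw [hr, show (1 : ℝ) = √1 by simp]; exact Real.sqrt_lt_sqrt (by norm_num) hsR1
  have hr0 : 0 < r := by linarith
  obtain ⟨ρ', hρ'⟩ : ∃ ρ', ρ' = (√R + R) / 2 := ⟨_, rfl⟩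
  have hρ'1 : r ^ 2 < ρ' := by rw [hr2, hρ']; linarith
  have hρ'R : ρ' < R := by rw [hρ']; linarith
  have hρ'one : 1 ≤ ρ' := by rw [hρ']; linarith
  have hρ'0 : 0 < ρ' := by linarith
  have hA0 : ∀ k, 0 ≤ A k := fun k => (abs_nonneg _).trans (hA k 0 ⟨le_rfl, hΛ.le⟩)
  obtain ⟨c, hc⟩ : ∃ c, c = (r + 1 / r) / 2 := ⟨_, rfl⟩
  have hc1 : 1 < c := by
    have : c - 1 = (r - 1) ^ 2 / (2 * r) := by rw [hc]; field_simp; ring
    have h2 : 0 < (r - 1) ^ 2 / (2 * r) := by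
      have : 0 < r - 1 := by linarith
      positivity
    linarith
  -- the weights
  have hwt := summable_weight R ρ' hρ'0 hρ'R A hA0 hsum
  have hs := summable_weight R (r ^ 2) (by positivity) (hρ'1.trans hρ'R) A hA0 hsum
  obtain ⟨C1, hC10, hC1⟩ := bq_bound''
  obtain ⟨C2, hC20, hC2⟩ := tq_bound''
  have hC1' := hC1 ρ' hρ'one
  have hC2' := hC2 ρ' hρ'one
  obtain ⟨E, hEdef⟩ : ∃ E : ℕ → ℝ, E = fun k : ℕ => (2 * (k : ℝ) + 1) ^ 3 * ρ' ^ k * A k :=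
    ⟨_, rfl⟩
  have hE : Summable E := by rw [hEdef]; exact hwt 3
  have hE0 : ∀ k, 0 ≤ E k := fun k => by
    have := hA0 k
    rw [hEdef]; positivity
  have hE2 : Summable (fun p : ℕ × ℕ => C1 * (E p.1 * E p.2)) :=
    (hE.mul_of_nonneg hE hE0 hE0).mul_left C1
  have hE3 : Summable (fun p : ℕ × ℕ × ℕ => C2 * (E p.1 * (E p.2.1 * E p.2.2))) :=
    (hE.mul_of_nonneg (hE.mul_of_nonneg hE hE0 hE0) hE0
      (fun p => mul_nonneg (hE0 _) (hE0 _))).mul_left C2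
  have hb2 : ∀ k, ∀ s ∈ Icc 0 Λ, ∀ p : ℕ × ℕ,
      |bq p.1 p.2 k * (x p.1 s * x p.2 s)| * ρ' ^ k ≤ C1 * (E p.1 * E p.2) := by
    intro k s hs p
    rw [abs_mul, abs_mul]
    have a1 := hC1' p.1 p.2 k
    have a2 : |x p.1 s| * |x p.2 s| ≤ A p.1 * A p.2 :=
      mul_le_mul (hA _ s hs) (hA _ s hs) (abs_nonneg _) (hA0 _)
    calc |bq p.1 p.2 k| * (|x p.1 s| * |x p.2 s|) * ρ' ^ k
        = (|bq p.1 p.2 k| * ρ' ^ k) * (|x p.1 s| * |x p.2 s|) := by ring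
      _ ≤ _ := mul_le_mul a1 a2 (by positivity)
        ((by positivity : (0:ℝ) ≤ |bq p.1 p.2 k| * ρ' ^ k).trans a1)
      _ = C1 * (E p.1 * E p.2) := by simp only [hEdef]; ring
  have hb3 : ∀ k, ∀ s ∈ Icc 0 Λ, ∀ p : ℕ × ℕ × ℕ,
      |tq p.1 p.2.1 p.2.2 k * (x p.1 s * (x p.2.1 s * x p.2.2 s))| * ρ' ^ k ≤
        C2 * (E p.1 * (E p.2.1 * E p.2.2)) := by
    intro k s hs p
    rw [abs_mul, abs_mul, abs_mul]
    have a1 := hC2' p.1 p.2.1 p.2.2 k
    have a2 : |x p.1 s| * (|x p.2.1 s| * |x p.2.2 s|) ≤ A p.1 * (A p.2.1 * A p.2.2) :=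
      mul_le_mul (hA _ s hs) (mul_le_mul (hA _ s hs) (hA _ s hs) (abs_nonneg _) (hA0 _))
        (by positivity) (hA0 _)
    calc |tq p.1 p.2.1 p.2.2 k| * (|x p.1 s| * (|x p.2.1 s| * |x p.2.2 s|)) * ρ' ^ k
        = (|tq p.1 p.2.1 p.2.2 k| * ρ' ^ k) * (|x p.1 s| * (|x p.2.1 s| * |x p.2.2 s|)) := by
          ring
      _ ≤ _ := mul_le_mul a1 a2 (by positivity)
        ((by positivity : (0:ℝ) ≤ |tq p.1 p.2.1 p.2.2 k| * ρ' ^ k).trans a1)
      _ = C2 * (E p.1 * (E p.2.1 * E p.2.2)) := by simp only [hEdef]; ring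
  have hpow : ∀ k : ℕ, 1 ≤ ρ' ^ k := fun k => one_le_pow₀ hρ'one
  -- continuity and size of the nonlinearity
  have hcN : ∀ k, ContinuousOn (fun s => Nq x k s + Nt x k s) (Icc 0 Λ) := by
    intro k
    apply ContinuousOn.add
    · refine continuousOn_tsum (fun p => ?_) hE2 (fun p s hs => ?_)
      · exact continuousOn_const.mul ((hx _).mul (hx _))
      · rw [Real.norm_eq_abs]
        have := hb2 k s hs p
        nlinarith [hpow k, abs_nonneg (bq p.1 p.2 k * (x p.1 s * x p.2 s))]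
    · refine continuousOn_tsum (fun p => ?_) hE3 (fun p s hs => ?_)
      · exact continuousOn_const.mul ((hx _).mul ((hx _).mul (hx _)))
      · rw [Real.norm_eq_abs]
        have := hb3 k s hs p
        nlinarith [hpow k, abs_nonneg
          (tq p.1 p.2.1 p.2.2 k * (x p.1 s * (x p.2.1 s * x p.2.2 s)))]
  obtain ⟨K, hK⟩ : ∃ K, K = (∑' p : ℕ × ℕ, C1 * (E p.1 * E p.2)) +
      ∑' p : ℕ × ℕ × ℕ, C2 * (E p.1 * (E p.2.1 * E p.2.2)) := ⟨_, rfl⟩
  have hNb : ∀ k, ∀ s ∈ Icc 0 Λ, |Nq x k s + Nt x k s| ≤ K / ρ' ^ k := by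
    intro k s hs
    rw [hK, add_div, ← tsum_div_const, ← tsum_div_const]
    refine (abs_add_le _ _).trans (add_le_add ?_ ?_)
    · rw [← Real.norm_eq_abs]
      exact tsum_of_norm_bounded (hE2.div_const _).hasSum (fun p => by
        rw [Real.norm_eq_abs, le_div_iff₀ (by positivity)]
        exact hb2 k s hs p)
    · rw [← Real.norm_eq_abs]
      exact tsum_of_norm_bounded (hE3.div_const _).hasSum (fun p => by
        rw [Real.norm_eq_abs, le_div_iff₀ (by positivity)]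
        exact hb3 k s hs p)
  -- the time derivatives of the coefficients
  have hDc : ∀ k, ContinuousOn (Dc x k) (Icc 0 Λ) := fun k =>
    (continuousOn_const.mul (hx k)).add (hcN k)
  have hode : ∀ k, ∀ s ∈ Icc 0 Λ, HasDerivWithinAt (x k) (Dc x k s) (Icc 0 Λ) s := by
    intro k
    refine coef_ode Λ hΛ (lam k - 4) (a k) (x k) (fun s => Nq x k s + Nt x k s) (hcN k)
      (fun s hs => ?_)
    rw [heq k s hs]
    congr 1
    apply intervalIntegral.integral_congr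
    intro r' _
    simp only [Nq, Nt]
    congr 2
    · congr 1; funext p; ring
    · congr 1; funext p; ring
  obtain ⟨B, hBdef⟩ : ∃ B : ℕ → ℝ, B = fun k : ℕ => 5 * (2 * (k : ℝ) + 1) ^ 2 * A k
      + K / ρ' ^ k := ⟨_, rfl⟩
  have hB : ∀ k, ∀ s ∈ Icc 0 Λ, |Dc x k s| ≤ B k := by
    intro k s hs
    rw [hBdef]
    refine (abs_add_le _ _).trans (add_le_add ?_ (hNb k s hs))
    rw [abs_mul]
    apply mul_le_mul _ (hA k s hs) (abs_nonneg _) (by positivity)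
    have h1 := lam_add_one k
    have h2 := lam_nonneg k
    rw [abs_neg]
    have h3 : (1 : ℝ) ≤ (2 * (k : ℝ) + 1) ^ 2 := by rw [← h1]; linarith
    rw [abs_le]
    constructor <;> linarith
  have hBs : ∀ j : ℕ, Summable (fun k : ℕ => (2 * (k : ℝ) + 1) ^ j * (r ^ 2) ^ k * B k) := by
    intro j
    have h1 := (hs (j + 2)).mul_left 5
    have h2 := (summable_poly_geom j (r ^ 2 / ρ') (by positivity)
      (by rw [div_lt_one hρ'0]; exact hρ'1)).mul_left K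
    refine (summable_congr (fun k => ?_)).1 (h1.add h2)
    rw [hBdef, div_pow]
    ring
  -- the bootstrap
  have hBabs : ∀ (j : ℕ) (y : ℝ), y ∈ Ioo (-c) c →
      Summable (fun k => |dU j (2 * k) y| * B k) := by
    intro j y hy
    have hB0 : ∀ k, 0 ≤ B k := fun k => (abs_nonneg _).trans (hB k 0 ⟨le_rfl, hΛ.le⟩)
    refine Summable.of_nonneg_of_le (fun k => mul_nonneg (abs_nonneg _) (hB0 k)) (fun k => ?_)
      (hBs (2 * j + 1))
    exact mul_le_mul_of_nonneg_right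
      (dU_bound2 r hr1.le y (by rw [← hc]; exact mem_of_Ioo hy) j k) (hB0 k)
  have hAabs : ∀ (j : ℕ) (y : ℝ), y ∈ Ioo (-c) c →
      Summable (fun k => |dU j (2 * k) y| * A k) := by
    intro j y hy
    refine Summable.of_nonneg_of_le (fun k => mul_nonneg (abs_nonneg _) (hA0 k)) (fun k => ?_)
      (hs (2 * j + 1))
    exact mul_le_mul_of_nonneg_right
      (dU_bound2 r hr1.le y (by rw [← hc]; exact mem_of_Ioo hy) j k) (hA0 k)
  have hFy : ∀ j, ∀ t ∈ Icc 0 Λ, ∀ y ∈ Ioo (-c) c,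
      HasDerivAt (Ser x j t) (Ser x (j + 1) t y) y := by
    intro j t ht y hy
    rw [hc] at hy
    exact ser_hasDerivAt Λ r hr1.le x A hA hs j t ht y hy
  have hGy : ∀ j, ∀ t ∈ Icc 0 Λ, ∀ y ∈ Ioo (-c) c,
      HasDerivAt (Ser (Dc x) j t) (Ser (Dc x) (j + 1) t y) y := by
    intro j t ht y hy
    rw [hc] at hy
    exact ser_hasDerivAt Λ r hr1.le (Dc x) B hB hBs j t ht y hy
  have hFt : ∀ j, ∀ t ∈ Icc 0 Λ, ∀ y ∈ Ioo (-c) c,
      HasDerivWithinAt (fun s => Ser x j s y) (Ser (Dc x) j t y) (Icc 0 Λ) t := by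
    intro j t ht y hy
    exact hasDerivWithinAt_series Λ hΛ x (Dc x) (fun k => dU j (2 * k) y) A B hDc hode hA hB
      (hAabs j y hy) (hBabs j y hy) t ht
  have hkey : ∀ t ∈ Icc 0 Λ, ∀ y ∈ Ioo (-c) c,
      Ser (Dc x) 0 t y = rhs (1 + Ser x 0 t y) (Ser x 1 t y) (Ser x 2 t y)
        (∫ z in (0 : ℝ)..y, Ser x 1 t z * Ser x 1 t z) y := by
    intro t ht y hy
    rw [hc] at hy
    exact key Λ r ρ' hr1.le hρ'1 x A hA hs C1 C2 hC1' hC2' (hwt 3) t ht y hy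
  have hsm : ∀ n : ℕ, ∀ j, ContDiffOn ℝ n (fun p : ℝ × ℝ => Ser x j p.1 p.2)
      (Icc 0 Λ ×ˢ Ioo (-c) c) := by
    set J : ℝ → ℝ → ℝ := fun t y => ∫ z in (0 : ℝ)..y, Ser x 1 t z * Ser x 1 t z with hJ
    have pV : PolyC (Ser x) J (fun t y => 1 + Ser x 0 t y) :=
      PolyC.add (PolyC.cst 1) (PolyC.fn 0)
    have pS : PolyC (Ser x) J (fun _ y => 1 + (-1) * (y * y)) :=
      PolyC.add (PolyC.cst 1) (PolyC.mul (PolyC.cst (-1)) (PolyC.mul PolyC.var PolyC.var))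
    have pL : PolyC (Ser x) J
        (fun t y => (1 + (-1) * (y * y)) * Ser x 2 t y + ((-3) * y) * Ser x 1 t y) :=
      PolyC.add (PolyC.mul pS (PolyC.fn 2)) (PolyC.mul (PolyC.mul (PolyC.cst (-3)) PolyC.var)
        (PolyC.fn 1))
    have p1 := PolyC.mul (PolyC.mul pV pV) pL
    have p2 := PolyC.mul (PolyC.cst (-1)) (PolyC.mul pV (PolyC.mul pS
      (PolyC.mul (PolyC.fn (F := Ser x) (J := J) 1) (PolyC.fn 1))))
    have p3 := PolyC.mul (PolyC.mul (PolyC.cst 2) pV)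
      (PolyC.add (PolyC.mul pV pV) (PolyC.cst (-1)))
    have p4 := PolyC.mul (PolyC.mul (PolyC.cst (-1)) (PolyC.add (PolyC.mul PolyC.var pV)
      (PolyC.mul pS (PolyC.fn 1)))) PolyC.jn
    have pP := PolyC.add (PolyC.add (PolyC.add p1 p2) p3) p4
    refine bootstrap (convex_Icc 0 Λ) (convex_Ioo (-c) c) ?_ ?_ ⟨by linarith, by linarith⟩
      (Ser x) (Ser (Dc x)) _ ?_ hFy hFt hGy ?_ pP ?_
    · rw [interior_Icc]; exact nonempty_Ioo.2 hΛ
    · rw [interior_Ioo]; exact nonempty_Ioo.2 (by linarith)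
    · intro j
      rw [hc]
      exact ser_continuousOn Λ r hr1.le x A hx hA hs j
    · intro t ht y hy
      rw [hc] at hy
      exact (hasSum_J Λ r hr1.le x A hA hs t ht y hy).1
    · intro t ht y hy
      rw [hkey t ht y hy]
      simp only [rhs, hJ]
      ring
  -- conclusion
  have hderiv1 : ∀ t ∈ Icc 0 Λ, ∀ y ∈ Ioo (-c) c,
      deriv (fun y => 1 + ∑' n, x n t * cU (2 * n) y) y = Ser x 1 t y := by
    intro t ht y hy
    have h := (hFy 0 t ht y hy).const_add 1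
    exact h.deriv
  have hderiv2 : ∀ t ∈ Icc 0 Λ, ∀ y ∈ Ioo (-c) c,
      deriv (deriv (fun y => 1 + ∑' n, x n t * cU (2 * n) y)) y = Ser x 2 t y := by
    intro t ht y hy
    have h := (hFy 1 t ht y hy)
    have h2 : deriv (fun y => 1 + ∑' n, x n t * cU (2 * n) y) =ᶠ[nhds y] Ser x 1 t := by
      filter_upwards [isOpen_Ioo.mem_nhds hy] with z hz
      exact hderiv1 t ht z hz
    rw [h2.deriv_eq]
    exact h.deriv
  refine ⟨c, hc1, ?_, ?_, ?_⟩
  · rw [contDiffOn_infty]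
    intro n
    exact contDiffOn_const.add (hsm n 0)
  · intro t ht y hy
    have h1 : ‖∑' n, x n t * cU (2 * n) y‖ ≤ ∑' n : ℕ, (2 * (n : ℝ) + 1) * R ^ n * A n := by
      apply tsum_of_norm_bounded hsum.hasSum
      intro k
      have h2 := ser_term_bound Λ r hr1.le x A hA 0 k t ht y
        (by rw [← hc]; exact mem_of_Ioo hy)
      have h3 : (2 * (k : ℝ) + 1) ^ (2 * 0 + 1) * (r ^ 2) ^ k * A k ≤
          (2 * (k : ℝ) + 1) * R ^ k * A k := by
        rw [mul_zero, zero_add, pow_one]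
        apply mul_le_mul_of_nonneg_right _ (hA0 k)
        apply mul_le_mul_of_nonneg_left _ (by positivity)
        exact pow_le_pow_left₀ (by positivity) (hρ'1.trans hρ'R).le k
      exact h2.trans h3
    rw [Real.norm_eq_abs] at h1
    have h4 := neg_abs_le (∑' n, x n t * cU (2 * n) y)
    show 0 < 1 + ∑' n, x n t * cU (2 * n) y
    linarith
  · intro t ht y hy
    have h := (hFt 0 t ht y hy).const_add 1
    have h5 : (∫ z in (0 : ℝ)..y, deriv (fun y => 1 + ∑' n, x n t * cU (2 * n) y) z ^ 2) =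
        ∫ z in (0 : ℝ)..y, Ser x 1 t z * Ser x 1 t z := by
      apply intervalIntegral.integral_congr
      intro z hz
      have hz' : z ∈ Ioo (-c) c :=
        (convex_Ioo (-c) c).ordConnected.uIcc_subset ⟨by linarith, by linarith⟩ hy hz
      show deriv (fun y => 1 + ∑' n, x n t * cU (2 * n) y) z ^ 2 = Ser x 1 t z * Ser x 1 t z
      rw [hderiv1 t ht z hz']
      ring
    rw [hkey t ht y hy] at h
    show HasDerivWithinAt (fun s => 1 + ∑' n, x n s * cU (2 * n) y)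
      (rhs (1 + ∑' n, x n t * cU (2 * n) y) (deriv (fun y => 1 + ∑' n, x n t * cU (2 * n) y) y)
        (deriv (deriv (fun y => 1 + ∑' n, x n t * cU (2 * n) y)) y)
        (∫ z in (0 : ℝ)..y, deriv (fun y => 1 + ∑' n, x n t * cU (2 * n) y) z ^ 2) y)
      (Icc 0 Λ) t
    rw [h5, hderiv1 t ht y hy, hderiv2 t ht y hy]
    exact h

end Pool.Agent.MP_ae1fc5_gt
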