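import Pool.Agent.MP_ae1fc5_gt.Defs2

/-!
# MP_ae1fc5_gt: growth of the derivatives of the Chebyshev polynomials (used by module H)
-/

open scoped Quaternion ContDiff Matrix
open Set

noncomputable section

namespace Pool.Agent.MP_ae1fc5_gt

namespace Pde

/-- The `j`-th derivative of the Chebyshev polynomial `U_n`. -/
def dU (j n : ℕ) (y : ℝ) : ℝ :=
  ((Polynomial.derivative)^[j] (Polynomial.Chebyshev.U ℝ (n : ℤ))).eval y

theorem dU_hasDerivAt (j n : ℕ) (y : ℝ) : HasDerivAt (dU j n) (dU (j + 1) n y) y := by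
  unfold dU
  rw [Function.iterate_succ_apply']
  exact Polynomial.hasDerivAt _ _

theorem dU_continuous (j n : ℕ) : Continuous (dU j n) :=
  Polynomial.continuous _

theorem dU_zero (n : ℕ) : dU 0 n = cU n := rfl

theorem deriv_dU (j n : ℕ) : deriv (dU j n) = dU (j + 1) n := by
  funext y
  exact (dU_hasDerivAt j n y).deriv

theorem deriv_cU (n : ℕ) : deriv (cU n) = dU 1 n := deriv_dU 0 n

theorem deriv_deriv_cU (n : ℕ) : deriv (deriv (cU n)) = dU 2 n := by
  rw [deriv_cU, deriv_dU]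

theorem dU_rec (j n : ℕ) (y : ℝ) :
    dU (j + 1) (n + 2) y = dU (j + 1) n y + 2 * (n + 2) * dU j (n + 1) y := by
  have h1 := Polynomial.Chebyshev.two_mul_T_eq_U_sub_U ℝ (n : ℤ)
  have h2 := Polynomial.Chebyshev.T_derivative_eq_U (R := ℝ) ((n : ℤ) + 2)
  have h3 : Polynomial.derivative (Polynomial.Chebyshev.U ℝ ((n : ℤ) + 2)) =
      Polynomial.derivative (Polynomial.Chebyshev.U ℝ (n : ℤ)) +
        Polynomial.C (2 * ((n : ℝ) + 2)) * Polynomial.Chebyshev.U ℝ ((n : ℤ) + 1) := by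
    have h4 : Polynomial.Chebyshev.U ℝ ((n : ℤ) + 2) =
      2 * Polynomial.Chebyshev.T ℝ ((n : ℤ) + 2) + Polynomial.Chebyshev.U ℝ (n : ℤ) := by
      rw [h1]; ring
    rw [h4, Polynomial.derivative_add, Polynomial.derivative_mul]
    rw [h2]
    have h5 : ((n : ℤ) + 2 - 1) = (n : ℤ) + 1 := by ring
    rw [h5]
    simp only [Polynomial.derivative_ofNat, map_mul, map_add]
    push_cast
    simp only [Polynomial.C_ofNat, map_natCast]
    ring
  unfold dU
  rw [Function.iterate_succ_apply, Function.iterate_succ_apply]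
  push_cast
  rw [h3, iterate_map_add, Polynomial.iterate_derivative_C_mul]
  simp only [Polynomial.eval_add, Polynomial.eval_mul, Polynomial.eval_C]

theorem dU_succ_zero (j : ℕ) (y : ℝ) : dU (j + 1) 0 y = 0 := by
  unfold dU
  rw [Function.iterate_succ_apply]
  simp

theorem dU_succ_one (j : ℕ) (y : ℝ) : dU (j + 1) 1 y = 2 * dU j 0 y := by
  unfold dU
  rw [Function.iterate_succ_apply]
  simp only [Nat.cast_one, Polynomial.Chebyshev.U_one, Nat.cast_zero, Polynomial.Chebyshev.U_zero]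
  have : Polynomial.derivative (2 * Polynomial.X : Polynomial ℝ) = Polynomial.C 2 * 1 := by
    rw [← Polynomial.C_ofNat]
    simp
  rw [this, Polynomial.iterate_derivative_C_mul]
  simp

theorem cU_succ_eq (y : ℝ) (z w : ℂ) (h1 : z + w = 2 * y) (h2 : z * w = 1) (n : ℕ) :
    ((cU (n + 1) y : ℝ) : ℂ) = z * (cU n y : ℝ) + w ^ (n + 1) := by
  induction n with
  | zero =>
    simp [cU, h1.symm]
  | succ n ih =>
    have h3 : cU (n + 1 + 1) y = 2 * y * cU (n + 1) y - cU n y := by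
      unfold cU
      push_cast
      rw [show ((n : ℤ) + 1 + 1) = (n : ℤ) + 2 by ring, Polynomial.Chebyshev.U_add_two]
      simp
    rw [h3]
    push_cast
    rw [← h1]
    have h4 : ((cU n y : ℝ) : ℂ) = (z * w) * (cU n y : ℝ) := by rw [h2, one_mul]
    have h5 : (w ^ (n + 1 + 1)) = w * ((cU (n + 1) y : ℝ) - z * (cU n y : ℝ)) := by
      rw [ih]; ring
    rw [h5]
    linear_combination (-1 : ℂ) * h4

theorem cU_bound_aux (y r : ℝ) (hr : 0 ≤ r) (z w : ℂ) (h1 : z + w = 2 * y) (h2 : z * w = 1)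
    (hz : ‖z‖ ≤ r) (hw : ‖w‖ ≤ r) (n : ℕ) : |cU n y| ≤ (n + 1) * r ^ n := by
  induction n with
  | zero => simp [cU]
  | succ n ih =>
    have h3 := cU_succ_eq y z w h1 h2 n
    have h4 : |cU (n + 1) y| = ‖((cU (n + 1) y : ℝ) : ℂ)‖ := by
      rw [Complex.norm_real, Real.norm_eq_abs]
    rw [h4, h3]
    refine (norm_add_le _ _).trans ?_
    rw [norm_mul, norm_pow, Complex.norm_real, Real.norm_eq_abs]
    have h5 : ‖z‖ * |cU n y| ≤ r * ((n + 1) * r ^ n) :=
      mul_le_mul hz ih (abs_nonneg _) hr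
    have h6 : ‖w‖ ^ (n + 1) ≤ r ^ (n + 1) := pow_le_pow_left₀ (norm_nonneg _) hw _
    push_cast
    calc ‖z‖ * |cU n y| + ‖w‖ ^ (n + 1) ≤ r * ((n + 1) * r ^ n) + r ^ (n + 1) := add_le_add h5 h6
      _ = (n + 1 + 1) * r ^ (n + 1) := by ring

theorem cU_bound (r : ℝ) (hr : 1 ≤ r) (y : ℝ) (hy : |y| ≤ (r + 1 / r) / 2) (n : ℕ) :
    |cU n y| ≤ (n + 1) * r ^ n := by
  have hr0 : 0 < r := by linarith
  by_cases h : |y| ≤ 1
  · have h' : y ^ 2 ≤ 1 := by
      rw [← sq_abs]; nlinarith [abs_nonneg y]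
    have hs : √(1 - y ^ 2) ^ 2 = 1 - y ^ 2 := Real.sq_sqrt (by linarith)
    refine cU_bound_aux y r hr0.le ⟨y, √(1 - y ^ 2)⟩ ⟨y, -√(1 - y ^ 2)⟩ ?_ ?_ ?_ ?_ n
    · apply Complex.ext <;> simp
      ring
    · apply Complex.ext
      · simp; nlinarith
      · simp; ring
    · rw [Complex.norm_def, Complex.normSq_mk]
      rw [show y * y + √(1 - y ^ 2) * √(1 - y ^ 2) = 1 by nlinarith]
      simpa using hr
    · rw [Complex.norm_def, Complex.normSq_mk]
      rw [show y * y + -√(1 - y ^ 2) * -√(1 - y ^ 2) = 1 by nlinarith]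
      simpa using hr
  · push Not at h
    have h' : 1 < y ^ 2 := by
      rw [← sq_abs]; nlinarith [abs_nonneg y]
    have hs : √(y ^ 2 - 1) ^ 2 = y ^ 2 - 1 := Real.sq_sqrt (by linarith)
    have hr1 : 1 / r ≤ 1 := by
      rw [div_le_one hr0]; exact hr
    have hs2 : √(y ^ 2 - 1) ≤ (r - 1 / r) / 2 := by
      apply Real.sqrt_le_iff.2
      constructor
      · linarith
      · have h7 : y ^ 2 ≤ ((r + 1 / r) / 2) ^ 2 := by
          rw [← sq_abs y]
          exact pow_le_pow_left₀ (abs_nonneg _) hy 2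
        have h8 : ((r + 1 / r) / 2) ^ 2 = ((r - 1 / r) / 2) ^ 2 + 1 := by
          field_simp
          ring
        linarith
    have hb : |y| + √(y ^ 2 - 1) ≤ r := by linarith
    refine cU_bound_aux y r hr0.le ((y + √(y ^ 2 - 1) : ℝ) : ℂ) ((y - √(y ^ 2 - 1) : ℝ) : ℂ)
      ?_ ?_ ?_ ?_ n
    · push_cast; ring
    · rw [← Complex.ofReal_mul, ← Complex.ofReal_one]
      congr 1
      nlinarith
    · rw [Complex.norm_real, Real.norm_eq_abs]
      refine (abs_add_le _ _).trans ?_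
      rw [abs_of_nonneg (Real.sqrt_nonneg _)]
      exact hb
    · rw [Complex.norm_real, Real.norm_eq_abs]
      refine (abs_sub _ _).trans ?_
      rw [abs_of_nonneg (Real.sqrt_nonneg _)]
      exact hb

theorem dU_bound (r : ℝ) (hr : 1 ≤ r) (y : ℝ) (hy : |y| ≤ (r + 1 / r) / 2) (j n : ℕ) :
    |dU j n y| ≤ ((n : ℝ) + 1) ^ (2 * j + 1) * r ^ n := by
  induction j generalizing n with
  | zero => simpa [dU_zero] using cU_bound r hr y hy n
  | succ j ih =>
    have key : ∀ n : ℕ, |dU (j + 1) n y| ≤ ((n : ℝ) + 1) ^ (2 * (j + 1) + 1) * r ^ n ∧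
        |dU (j + 1) (n + 1) y| ≤ (((n + 1 : ℕ) : ℝ) + 1) ^ (2 * (j + 1) + 1) * r ^ (n + 1) := by
      intro n
      induction n with
      | zero =>
        constructor
        · rw [dU_succ_zero]; simp
        · rw [dU_succ_one, abs_mul]
          have h1 := ih 0
          have h2 : |dU j 0 y| ≤ 1 := by simpa using h1
          have h3 : (2 : ℝ) ≤ (((0 + 1 : ℕ) : ℝ) + 1) ^ (2 * (j + 1) + 1) := by
            norm_num
            calc (2 : ℝ) = 2 ^ 1 := by norm_num
              _ ≤ 2 ^ (2 * (j + 1) + 1) := pow_le_pow_right₀ (by norm_num) (by omega)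
          have h4 : |(2 : ℝ)| = 2 := by norm_num
          rw [h4]
          calc 2 * |dU j 0 y| ≤ 2 * 1 := by linarith
            _ ≤ (((0 + 1 : ℕ) : ℝ) + 1) ^ (2 * (j + 1) + 1) * r ^ (0 + 1) := by
              apply mul_le_mul h3 (by simpa using hr) (by norm_num) (by positivity)
      | succ n ihn =>
        refine ⟨ihn.2, ?_⟩
        rw [dU_rec]
        have h1 := ihn.1
        have h2 := ih (n + 1)
        have hrn : r ^ n ≤ r ^ (n + 1 + 1) := pow_le_pow_right₀ hr (by omega)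
        have hrn' : r ^ (n + 1) ≤ r ^ (n + 1 + 1) := pow_le_pow_right₀ hr (by omega)
        have hr0 : 0 ≤ r ^ (n + 1 + 1) := by positivity
        set N : ℝ := (n : ℝ) + 1 with hN
        have hN1 : 1 ≤ N := by rw [hN]; linarith [(Nat.cast_nonneg n : (0 : ℝ) ≤ n)]
        push_cast at h2 ⊢
        have e1 : (n : ℝ) + 1 + 1 + 1 = N + 2 := by rw [hN]; ring
        have e2 : (n : ℝ) + 1 + 1 = N + 1 := by rw [hN]
        have e3 : (n : ℝ) + 2 = N + 1 := by rw [hN]; ring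
        rw [e2] at h2
        rw [e1, e3]
        have h3 : |dU (j + 1) n y + 2 * (N + 1) * dU j (n + 1) y| ≤
            N ^ (2 * (j + 1) + 1) * r ^ (n + 1 + 1)
              + 2 * (N + 1) * ((N + 1) ^ (2 * j + 1) * r ^ (n + 1 + 1)) := by
          refine (abs_add_le _ _).trans ?_
          rw [abs_mul, abs_of_nonneg (by linarith : 0 ≤ 2 * (N + 1))]
          apply add_le_add
          · exact h1.trans (mul_le_mul_of_nonneg_left hrn (by positivity))
          · apply mul_le_mul_of_nonneg_left _ (by linarith)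
            exact h2.trans (mul_le_mul_of_nonneg_left hrn' (by positivity))
        refine h3.trans ?_
        have h4 : N ^ (2 * (j + 1) + 1) + 2 * (N + 1) * (N + 1) ^ (2 * j + 1) ≤
            (N + 2) ^ (2 * (j + 1) + 1) := by
          have e4 : (N + 2) ^ (2 * (j + 1) + 1) = (N + 2) ^ (2 * j + 2) * N
              + 2 * (N + 2) ^ (2 * j + 2) := by ring
          have e5 : N ^ (2 * (j + 1) + 1) = N ^ (2 * j + 2) * N := by ring
          have e6 : 2 * (N + 1) * (N + 1) ^ (2 * j + 1) = 2 * (N + 1) ^ (2 * j + 2) := by ring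
          rw [e4, e5, e6]
          have h5 : N ^ (2 * j + 2) ≤ (N + 2) ^ (2 * j + 2) :=
            pow_le_pow_left₀ (by linarith) (by linarith) _
          have h6 : (N + 1) ^ (2 * j + 2) ≤ (N + 2) ^ (2 * j + 2) :=
            pow_le_pow_left₀ (by linarith) (by linarith) _
          have h7 := mul_le_mul_of_nonneg_right h5 (by linarith : 0 ≤ N)
          linarith
        calc N ^ (2 * (j + 1) + 1) * r ^ (n + 1 + 1)
              + 2 * (N + 1) * ((N + 1) ^ (2 * j + 1) * r ^ (n + 1 + 1))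
            = (N ^ (2 * (j + 1) + 1) + 2 * (N + 1) * (N + 1) ^ (2 * j + 1)) * r ^ (n + 1 + 1) := by
              ring
          _ ≤ (N + 2) ^ (2 * (j + 1) + 1) * r ^ (n + 1 + 1) :=
            mul_le_mul_of_nonneg_right h4 hr0
    exact (key n).1

/-- polynomial times geometric sequence -/
theorem summable_poly_geom (j : ℕ) (q : ℝ) (hq0 : 0 < q) (hq : q < 1) :
    Summable (fun n : ℕ => (2 * (n : ℝ) + 1) ^ j * q ^ n) := by
  have h1 : Summable (fun n : ℕ => (n : ℝ) ^ j * q ^ n) :=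
    summable_pow_mul_geometric_of_norm_lt_one j (by rw [Real.norm_eq_abs, abs_of_pos hq0]; exact hq)
  have h2 : Summable (fun n : ℕ => ((n + 1 : ℕ) : ℝ) ^ j * q ^ (n + 1)) :=
    (summable_nat_add_iff (f := fun n : ℕ => (n : ℝ) ^ j * q ^ n) 1).2 h1
  refine Summable.of_nonneg_of_le (fun n => by positivity) (fun n => ?_)
    (h2.mul_left ((2 : ℝ) ^ j * q⁻¹))
  have h3 : (2 * (n : ℝ) + 1) ^ j ≤ (2 : ℝ) ^ j * ((n + 1 : ℕ) : ℝ) ^ j := by
    rw [← mul_pow]
    apply pow_le_pow_left₀ (by positivity)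
    push_cast
    linarith
  calc (2 * (n : ℝ) + 1) ^ j * q ^ n ≤ ((2 : ℝ) ^ j * ((n + 1 : ℕ) : ℝ) ^ j) * q ^ n :=
        mul_le_mul_of_nonneg_right h3 (by positivity)
    _ = (2 : ℝ) ^ j * q⁻¹ * (((n + 1 : ℕ) : ℝ) ^ j * q ^ (n + 1)) := by
      rw [pow_succ]
      field_simp

/-- weights with a slightly smaller radius and a polynomial factor are summable -/
theorem summable_weight (R ρ : ℝ) (hρ : 0 < ρ) (hρR : ρ < R) (A : ℕ → ℝ) (hA : ∀ n, 0 ≤ A n)
    (hsum : Summable (fun n : ℕ => (2 * n + 1) * R ^ n * A n)) (j : ℕ) :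
    Summable (fun n : ℕ => (2 * (n : ℝ) + 1) ^ j * ρ ^ n * A n) := by
  have hR : 0 < R := hρ.trans hρR
  have h1 := summable_poly_geom j (ρ / R) (by positivity) (by rw [div_lt_one hR]; exact hρR)
  have hM : ∀ n : ℕ, (2 * (n : ℝ) + 1) ^ j * (ρ / R) ^ n ≤
      ∑' n : ℕ, (2 * (n : ℝ) + 1) ^ j * (ρ / R) ^ n := fun n =>
    h1.le_tsum n (fun m _ => by positivity)
  refine Summable.of_nonneg_of_le (fun n => by have := hA n; positivity) (fun n => ?_)
    (hsum.mul_left (∑' n : ℕ, (2 * (n : ℝ) + 1) ^ j * (ρ / R) ^ n))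
  have h2 : (2 * (n : ℝ) + 1) ^ j * ρ ^ n = ((2 * (n : ℝ) + 1) ^ j * (ρ / R) ^ n) * R ^ n := by
    rw [div_pow]; field_simp
  rw [h2]
  have h3 := hM n
  have h4 : R ^ n * A n ≤ (2 * (n : ℝ) + 1) * R ^ n * A n := by
    have : 0 ≤ R ^ n * A n := mul_nonneg (by positivity) (hA n)
    nlinarith [(Nat.cast_nonneg n : (0 : ℝ) ≤ n)]
  calc (2 * (n : ℝ) + 1) ^ j * (ρ / R) ^ n * R ^ n * A n
      = ((2 * (n : ℝ) + 1) ^ j * (ρ / R) ^ n) * (R ^ n * A n) := by ring
    _ ≤ (∑' n : ℕ, (2 * (n : ℝ) + 1) ^ j * (ρ / R) ^ n) * ((2 * (n : ℝ) + 1) * R ^ n * A n) := by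
      apply mul_le_mul h3 h4 (mul_nonneg (by positivity) (hA n)) 
      exact tsum_nonneg (fun m => by positivity)

end Pde

end Pool.Agent.MP_ae1fc5_gt
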