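import Pool.Agent.MP_ae1fc5_gt.PdeA
import Pool.Agent.MP_ae1fc5_gt.Partials

/-!
# MP_ae1fc5_gt: bootstrapping smoothness (used by module H)
-/

open scoped Quaternion ContDiff Matrix
open Set

noncomputable section

namespace Pool.Agent.MP_ae1fc5_gt

namespace Pde

/-- Polynomial expressions in `y`, the functions `F j` and `J`. -/
inductive PolyC (F : ℕ → ℝ → ℝ → ℝ) (J : ℝ → ℝ → ℝ) : (ℝ → ℝ → ℝ) → Prop
  | cst (c : ℝ) : PolyC F J (fun _ _ => c)
  | var : PolyC F J (fun _ y => y)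
  | fn (j : ℕ) : PolyC F J (F j)
  | jn : PolyC F J J
  | add {P Q : ℝ → ℝ → ℝ} : PolyC F J P → PolyC F J Q → PolyC F J (fun t y => P t y + Q t y)
  | mul {P Q : ℝ → ℝ → ℝ} : PolyC F J P → PolyC F J Q → PolyC F J (fun t y => P t y * Q t y)

theorem PolyC.deriv {F : ℕ → ℝ → ℝ → ℝ} {J : ℝ → ℝ → ℝ} {I K : Set ℝ}
    (hF : ∀ j, ∀ t ∈ I, ∀ y ∈ K, HasDerivAt (F j t) (F (j + 1) t y) y)
    (hJ : ∀ t ∈ I, ∀ y ∈ K, HasDerivAt (J t) (F 1 t y * F 1 t y) y)
    {P : ℝ → ℝ → ℝ} (hP : PolyC F J P) :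
    ∃ P', PolyC F J P' ∧ ∀ t ∈ I, ∀ y ∈ K, HasDerivAt (P t) (P' t y) y := by
  induction hP with
  | cst c => exact ⟨fun _ _ => 0, PolyC.cst 0, fun t _ y _ => hasDerivAt_const y c⟩
  | var => exact ⟨fun _ _ => 1, PolyC.cst 1, fun t _ y _ => hasDerivAt_id y⟩
  | fn j => exact ⟨F (j + 1), PolyC.fn (j + 1), hF j⟩
  | jn => exact ⟨fun t y => F 1 t y * F 1 t y, PolyC.mul (PolyC.fn 1) (PolyC.fn 1), hJ⟩
  | add hP hQ ihP ihQ =>
    obtain ⟨P', hP', hP''⟩ := ihP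
    obtain ⟨Q', hQ', hQ''⟩ := ihQ
    exact ⟨_, PolyC.add hP' hQ', fun t ht y hy => (hP'' t ht y hy).add (hQ'' t ht y hy)⟩
  | @mul P Q hP hQ ihP ihQ =>
    obtain ⟨P', hP', hP''⟩ := ihP
    obtain ⟨Q', hQ', hQ''⟩ := ihQ
    exact ⟨_, PolyC.add (PolyC.mul hP' hQ) (PolyC.mul hP hQ'), fun t ht y hy =>
      (hP'' t ht y hy).mul (hQ'' t ht y hy)⟩

theorem PolyC.contDiffOn {F : ℕ → ℝ → ℝ → ℝ} {J : ℝ → ℝ → ℝ} {I K : Set ℝ} (n : ℕ)
    (hF : ∀ j, ContDiffOn ℝ n (fun p : ℝ × ℝ => F j p.1 p.2) (I ×ˢ K))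
    (hJ : ContDiffOn ℝ n (fun p : ℝ × ℝ => J p.1 p.2) (I ×ˢ K))
    {P : ℝ → ℝ → ℝ} (hP : PolyC F J P) :
    ContDiffOn ℝ n (fun p : ℝ × ℝ => P p.1 p.2) (I ×ˢ K) := by
  induction hP with
  | cst c => exact contDiffOn_const
  | var => exact contDiffOn_snd
  | fn j => exact hF j
  | jn => exact hJ
  | add hP hQ ihP ihQ => exact ihP.add ihQ
  | mul hP hQ ihP ihQ => exact ihP.mul ihQ

/-- Bootstrapping: all the functions are smooth. -/
theorem bootstrap {I K : Set ℝ} (hI : Convex ℝ I) (hK : Convex ℝ K)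
    (hI' : (interior I).Nonempty) (hK' : (interior K).Nonempty) (h0 : (0 : ℝ) ∈ K)
    (F G : ℕ → ℝ → ℝ → ℝ) (P : ℝ → ℝ → ℝ)
    (hcont : ∀ j, ContinuousOn (fun p : ℝ × ℝ => F j p.1 p.2) (I ×ˢ K))
    (hFy : ∀ j, ∀ t ∈ I, ∀ y ∈ K, HasDerivAt (F j t) (F (j + 1) t y) y)
    (hFt : ∀ j, ∀ t ∈ I, ∀ y ∈ K, HasDerivWithinAt (fun s => F j s y) (G j t y) I t)
    (hGy : ∀ j, ∀ t ∈ I, ∀ y ∈ K, HasDerivAt (G j t) (G (j + 1) t y) y)
    (hJ : ∀ t ∈ I, ∀ y ∈ K, HasDerivAt (fun y => ∫ z in (0 : ℝ)..y, F 1 t z * F 1 t z)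
      (F 1 t y * F 1 t y) y)
    (hP : PolyC F (fun t y => ∫ z in (0 : ℝ)..y, F 1 t z * F 1 t z) P)
    (hGP : ∀ t ∈ I, ∀ y ∈ K, G 0 t y = P t y) :
    ∀ n : ℕ, ∀ j, ContDiffOn ℝ n (fun p : ℝ × ℝ => F j p.1 p.2) (I ×ˢ K) := by
  -- every `G j` is a polynomial expression
  have hGj : ∀ j, ∃ Pj, PolyC F (fun t y => ∫ z in (0 : ℝ)..y, F 1 t z * F 1 t z) Pj ∧
      ∀ t ∈ I, ∀ y ∈ K, G j t y = Pj t y := by
    intro j
    induction j with
    | zero => exact ⟨P, hP, hGP⟩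
    | succ j ih =>
      obtain ⟨Pj, hPj, hPj'⟩ := ih
      obtain ⟨Q, hQ, hQ'⟩ := hPj.deriv hFy hJ
      refine ⟨Q, hQ, fun t ht y hy => ?_⟩
      have h1 := (hGy j t ht y hy).hasDerivWithinAt (s := K)
      have h2 := (hQ' t ht y hy).hasDerivWithinAt (s := K)
      have h3 : HasDerivWithinAt (G j t) (Q t y) K y :=
        h2.congr (fun z hz => hPj' t ht z hz) (hPj' t ht y hy)
      have hu : UniqueDiffWithinAt ℝ K y := (uniqueDiffOn_convex hK hK') y hy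
      rw [← h1.derivWithin hu, ← h3.derivWithin hu]
  intro n
  induction n with
  | zero =>
    intro j
    have := hcont j
    simpa using this
  | succ n ih =>
    have hJn : ContDiffOn ℝ n
        (fun p : ℝ × ℝ => ∫ z in (0 : ℝ)..p.2, F 1 p.1 z * F 1 p.1 z) (I ×ˢ K) :=
      contDiffOn_integral_snd n hI hK hI' hK' h0 (fun t z => F 1 t z * F 1 t z)
        ((ih 1).mul (ih 1))
    intro j
    obtain ⟨Pj, hPj, hPj'⟩ := hGj j
    have h1 : ContDiffOn ℝ n (fun p : ℝ × ℝ => G j p.1 p.2) (I ×ˢ K) :=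
      (hPj.contDiffOn n ih hJn).congr (fun p hp => hPj' p.1 hp.1 p.2 hp.2)
    exact contDiffOn_of_partials n hI hK hI' hK' (F j) (G j) (F (j + 1))
      (hFt j) (fun t ht y hy => (hFy j t ht y hy).hasDerivWithinAt) h1 (ih (j + 1))

/-- Termwise differentiation in time of a series with coefficients differentiable on `[0,Λ]`. -/
theorem hasDerivWithinAt_series (Λ : ℝ) (hΛ : 0 < Λ) (x D : ℕ → ℝ → ℝ) (v A B : ℕ → ℝ)
    (hD : ∀ k, ContinuousOn (D k) (Icc 0 Λ))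
    (hx : ∀ k, ∀ s ∈ Icc 0 Λ, HasDerivWithinAt (x k) (D k s) (Icc 0 Λ) s)
    (hA : ∀ k, ∀ s ∈ Icc 0 Λ, |x k s| ≤ A k)
    (hB : ∀ k, ∀ s ∈ Icc 0 Λ, |D k s| ≤ B k)
    (hAs : Summable (fun k => |v k| * A k)) (hBs : Summable (fun k => |v k| * B k)) :
    ∀ t ∈ Icc 0 Λ, HasDerivWithinAt (fun s => ∑' k, x k s * v k) (∑' k, D k t * v k)
      (Icc 0 Λ) t := by
  -- extend to the whole line
  have hX : ∀ k, ∃ X : ℝ → ℝ, (∀ s ∈ Icc 0 Λ, X s = x k s) ∧
      ∀ s, HasDerivAt X (IccExtend hΛ.le ((Icc 0 Λ).domRestrict (D k)) s) s := by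
    intro k
    have hc : Continuous (IccExtend hΛ.le ((Icc 0 Λ).domRestrict (D k))) :=
      (hD k).domRestrict.Icc_extend'
    refine ⟨fun s => x k 0 + ∫ r in (0 : ℝ)..s, IccExtend hΛ.le ((Icc 0 Λ).domRestrict (D k)) r,
      ?_, ?_⟩
    · intro s hs
      have h1 : ∫ r in (0 : ℝ)..s, IccExtend hΛ.le ((Icc 0 Λ).domRestrict (D k)) r =
          x k s - x k 0 := by
        apply intervalIntegral.integral_eq_sub_of_hasDeriv_right
        · rw [uIcc_of_le hs.1]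
          exact fun r hr => ((hx k r ⟨hr.1, hr.2.trans hs.2⟩).continuousWithinAt).mono
            (Icc_subset_Icc le_rfl hs.2)
        · rw [min_eq_left hs.1, max_eq_right hs.1]
          intro r hr
          have hr' : r ∈ Icc 0 Λ := ⟨hr.1.le, hr.2.le.trans hs.2⟩
          rw [IccExtend_of_mem hΛ.le _ hr']
          have h2 := hx k r hr'
          have h3 : HasDerivAt (x k) (D k r) r :=
            h2.hasDerivAt (Icc_mem_nhds hr.1 (hr.2.trans_le hs.2))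
          exact h3.hasDerivWithinAt
        · exact hc.intervalIntegrable _ _
      show x k 0 + ∫ r in (0 : ℝ)..s, IccExtend hΛ.le ((Icc 0 Λ).domRestrict (D k)) r = x k s
      rw [h1]; ring
    · intro s
      have := intervalIntegral.integral_hasDerivAt_right (hc.intervalIntegrable 0 s)
        (hc.stronglyMeasurableAtFilter _ _) hc.continuousAt
      exact this.const_add _
  choose X hX1 hX2 using hX
  intro t ht
  have h1 : HasDerivAt (fun s => ∑' k, X k s * v k)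
      (∑' k, IccExtend hΛ.le ((Icc 0 Λ).domRestrict (D k)) t * v k) t := by
    refine hasDerivAt_tsum (𝕜 := ℝ) (u := fun k => |v k| * B k) (y₀ := t) hBs
      (fun k s => (hX2 k s).mul_const (v k)) (fun k s => ?_) ?_ t
    · rw [norm_mul, Real.norm_eq_abs, Real.norm_eq_abs, mul_comm]
      apply mul_le_mul_of_nonneg_left _ (abs_nonneg _)
      exact hB k _ (projIcc 0 Λ hΛ.le s).2
    · apply Summable.of_norm_bounded hAs
      intro k
      rw [norm_mul, Real.norm_eq_abs, Real.norm_eq_abs, mul_comm, hX1 k t ht]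
      exact mul_le_mul_of_nonneg_left (hA k t ht) (abs_nonneg _)
  have h2 : (∑' k, IccExtend hΛ.le ((Icc 0 Λ).domRestrict (D k)) t * v k) = ∑' k, D k t * v k := by
    congr 1; funext k
    rw [IccExtend_of_mem hΛ.le _ ht]
    rfl
  rw [h2] at h1
  refine h1.hasDerivWithinAt.congr (fun s hs => ?_) ?_
  · congr 1; funext k; rw [hX1 k s hs]
  · congr 1; funext k; rw [hX1 k t ht]

/-- The differential equation of one coefficient. -/
theorem coef_ode (Λ : ℝ) (hΛ : 0 < Λ) (μ a : ℝ) (x N : ℝ → ℝ) (hN : ContinuousOn N (Icc 0 Λ))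
    (heq : ∀ s ∈ Icc 0 Λ, x s = Real.exp (-μ * s) * a +
      ∫ r in (0 : ℝ)..s, Real.exp (-μ * (s - r)) * N r) :
    ∀ s ∈ Icc 0 Λ, HasDerivWithinAt x (-μ * x s + N s) (Icc 0 Λ) s := by
  set M : ℝ → ℝ := IccExtend hΛ.le ((Icc 0 Λ).domRestrict N) with hM
  have hMc : Continuous M := hN.domRestrict.Icc_extend'
  have hMN : ∀ r ∈ Icc 0 Λ, M r = N r := fun r hr => by
    rw [hM, IccExtend_of_mem hΛ.le _ hr]; rfl
  set g : ℝ → ℝ := fun s => Real.exp (-μ * s) * (a + ∫ r in (0 : ℝ)..s, Real.exp (μ * r) * M r)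
    with hg
  have hgx : ∀ s ∈ Icc 0 Λ, x s = g s := by
    intro s hs
    rw [heq s hs, hg]
    simp only [mul_add]
    congr 1
    rw [← intervalIntegral.integral_const_mul]
    apply intervalIntegral.integral_congr
    intro r hr
    rw [uIcc_of_le hs.1] at hr
    show Real.exp (-μ * (s - r)) * N r = Real.exp (-μ * s) * (Real.exp (μ * r) * M r)
    rw [hMN r ⟨hr.1, hr.2.trans hs.2⟩, ← mul_assoc, ← Real.exp_add]
    congr 2; ring
  intro s hs
  have hc : Continuous (fun r => Real.exp (μ * r) * M r) := by fun_prop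
  have h1 : HasDerivAt (fun s => a + ∫ r in (0 : ℝ)..s, Real.exp (μ * r) * M r)
      (Real.exp (μ * s) * M s) s :=
    (intervalIntegral.integral_hasDerivAt_right (hc.intervalIntegrable 0 s)
        (hc.stronglyMeasurableAtFilter _ _) hc.continuousAt).const_add _
  have h2 : HasDerivAt (fun s => Real.exp (-μ * s)) (Real.exp (-μ * s) * (-μ * 1)) s :=
    ((hasDerivAt_id s).const_mul (-μ)).exp
  have h3 : HasDerivAt g (-μ * x s + N s) s := by
    have h4 := h2.mul h1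
    have h5 : -μ * x s + N s = Real.exp (-μ * s) * (-μ * 1) *
        (a + ∫ r in (0 : ℝ)..s, Real.exp (μ * r) * M r) +
        Real.exp (-μ * s) * (Real.exp (μ * s) * M s) := by
      rw [hgx s hs, hg, hMN s hs, ← mul_assoc (Real.exp (-μ * s)) (Real.exp (μ * s)),
        ← Real.exp_add]
      have : -μ * s + μ * s = 0 := by ring
      rw [this, Real.exp_zero]
      ring
    rw [h5]
    exact h4
  exact h3.hasDerivWithinAt.congr (fun r hr => hgx r hr) (hgx s hs)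

end Pde

end Pool.Agent.MP_ae1fc5_gt
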