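import Pool.Agent.MP_ae1fc5_gt.PdeB
import Pool.Agent.MP_ae1fc5_gt.ArrId
import Pool.Agent.MP_ae1fc5_gt.ArrBd

/-!
# MP_ae1fc5_gt: series of Chebyshev polynomials (used by module H)
-/

open scoped Quaternion ContDiff Matrix
open Set

noncomputable section

namespace Pool.Agent.MP_ae1fc5_gt

namespace Pde

/-- `sum_k d k t * (d/dy)^j U_(2k) (y)`. -/
def Ser (d : ℕ → ℝ → ℝ) (j : ℕ) (t y : ℝ) : ℝ := ∑' k, d k t * dU j (2 * k) y

theorem dU_bound2 (r : ℝ) (hr : 1 ≤ r) (y : ℝ) (hy : |y| ≤ (r + 1 / r) / 2) (j n : ℕ) :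
    |dU j (2 * n) y| ≤ (2 * (n : ℝ) + 1) ^ (2 * j + 1) * (r ^ 2) ^ n := by
  have h := dU_bound r hr y hy j (2 * n)
  rw [pow_mul] at h
  push_cast at h
  exact h

theorem ser_term_bound (Λ r : ℝ) (hr : 1 ≤ r) (d : ℕ → ℝ → ℝ) (B : ℕ → ℝ)
    (hB : ∀ k, ∀ s ∈ Icc 0 Λ, |d k s| ≤ B k) (j k : ℕ) (t : ℝ) (ht : t ∈ Icc 0 Λ) (y : ℝ)
    (hy : |y| ≤ (r + 1 / r) / 2) :
    ‖d k t * dU j (2 * k) y‖ ≤ (2 * (k : ℝ) + 1) ^ (2 * j + 1) * (r ^ 2) ^ k * B k := by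
  rw [norm_mul, Real.norm_eq_abs, Real.norm_eq_abs, mul_comm]
  apply mul_le_mul (dU_bound2 r hr y hy j k) (hB k t ht) (abs_nonneg _) (by positivity)

theorem mem_of_Ioo {c y : ℝ} (hy : y ∈ Ioo (-c) c) : |y| ≤ c := by
  rw [abs_le]; exact ⟨hy.1.le, hy.2.le⟩

theorem ser_summable (Λ r : ℝ) (hr : 1 ≤ r) (d : ℕ → ℝ → ℝ) (B : ℕ → ℝ)
    (hB : ∀ k, ∀ s ∈ Icc 0 Λ, |d k s| ≤ B k)
    (hs : ∀ j : ℕ, Summable (fun k : ℕ => (2 * (k : ℝ) + 1) ^ j * (r ^ 2) ^ k * B k))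
    (j : ℕ) (t : ℝ) (ht : t ∈ Icc 0 Λ) (y : ℝ) (hy : y ∈ Ioo (-((r + 1 / r) / 2)) ((r + 1 / r) / 2)) :
    Summable (fun k => d k t * dU j (2 * k) y) :=
  Summable.of_norm_bounded (hs (2 * j + 1))
    (fun k => ser_term_bound Λ r hr d B hB j k t ht y (mem_of_Ioo hy))

theorem ser_hasDerivAt (Λ r : ℝ) (hr : 1 ≤ r) (d : ℕ → ℝ → ℝ) (B : ℕ → ℝ)
    (hB : ∀ k, ∀ s ∈ Icc 0 Λ, |d k s| ≤ B k)
    (hs : ∀ j : ℕ, Summable (fun k : ℕ => (2 * (k : ℝ) + 1) ^ j * (r ^ 2) ^ k * B k))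
    (j : ℕ) (t : ℝ) (ht : t ∈ Icc 0 Λ) (y : ℝ) (hy : y ∈ Ioo (-((r + 1 / r) / 2)) ((r + 1 / r) / 2)) :
    HasDerivAt (Ser d j t) (Ser d (j + 1) t y) y := by
  unfold Ser
  exact hasDerivAt_tsum_of_isPreconnected (hs (2 * (j + 1) + 1)) isOpen_Ioo isPreconnected_Ioo
    (g := fun k z => d k t * dU j (2 * k) z) (g' := fun k z => d k t * dU (j + 1) (2 * k) z)
    (fun k z _ => (dU_hasDerivAt j (2 * k) z).const_mul (d k t))
    (fun k z hz => ser_term_bound Λ r hr d B hB (j + 1) k t ht z (mem_of_Ioo hz)) hy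
    (ser_summable Λ r hr d B hB hs j t ht y hy) hy

theorem ser_continuousOn (Λ r : ℝ) (hr : 1 ≤ r) (d : ℕ → ℝ → ℝ) (B : ℕ → ℝ)
    (hd : ∀ k, ContinuousOn (d k) (Icc 0 Λ))
    (hB : ∀ k, ∀ s ∈ Icc 0 Λ, |d k s| ≤ B k)
    (hs : ∀ j : ℕ, Summable (fun k : ℕ => (2 * (k : ℝ) + 1) ^ j * (r ^ 2) ^ k * B k)) (j : ℕ) :
    ContinuousOn (fun p : ℝ × ℝ => Ser d j p.1 p.2)
      (Icc 0 Λ ×ˢ Ioo (-((r + 1 / r) / 2)) ((r + 1 / r) / 2)) := by
  unfold Ser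
  refine continuousOn_tsum (fun k => ?_) (hs (2 * j + 1)) (fun k p hp => ?_)
  · apply ContinuousOn.mul
    · exact (hd k).comp continuousOn_fst (fun p hp => hp.1)
    · exact (dU_continuous j (2 * k)).comp_continuousOn continuousOn_snd
  · exact ser_term_bound Λ r hr d B hB j k p.1 hp.1 p.2 (mem_of_Ioo hp.2)

/-- Exchange of summations. -/
theorem fubini {ι : Type*} (ρ ρ' : ℝ) (hρ : 0 < ρ) (hρ' : ρ < ρ') (β : ι → ℕ → ℝ) (X e : ι → ℝ)
    (d : ι → ℕ) (hβ : ∀ i k, d i ≤ k → β i k = 0) (he : Summable e)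
    (hb : ∀ i k, |β i k * X i| * ρ' ^ k ≤ e i) (u : ℕ → ℝ)
    (hu : ∀ k : ℕ, |u k| ≤ (2 * (k : ℝ) + 1) * ρ ^ k) :
    Summable (fun k => (∑' i, β i k * X i) * u k) ∧
    Summable (fun i => X i * ∑ k ∈ Finset.range (d i), β i k * u k) ∧
    ∑' k, (∑' i, β i k * X i) * u k = ∑' i, X i * ∑ k ∈ Finset.range (d i), β i k * u k := by
  have hρ'0 : 0 < ρ' := hρ.trans hρ'
  have hg : Summable (fun k : ℕ => (2 * (k : ℝ) + 1) ^ 1 * (ρ / ρ') ^ k) :=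
    summable_poly_geom 1 _ (by positivity) (by rw [div_lt_one hρ'0]; exact hρ')
  have he0 : ∀ i, 0 ≤ e i := fun i => (by positivity : (0 : ℝ) ≤ |β i 0 * X i| * ρ' ^ 0).trans (hb i 0)
  have hprod : Summable (fun p : ι × ℕ => e p.1 * ((2 * (p.2 : ℝ) + 1) ^ 1 * (ρ / ρ') ^ p.2)) :=
    he.mul_of_nonneg hg he0 (fun k => by positivity)
  have hf : Summable (Function.uncurry (fun (i : ι) (k : ℕ) => β i k * X i * u k)) := by
    refine Summable.of_norm_bounded hprod (fun p => ?_)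
    obtain ⟨i, k⟩ := p
    simp only [Function.uncurry, norm_mul, Real.norm_eq_abs]
    rw [← abs_mul]
    have h1 := hb i k
    have h2 := hu k
    have h3 : |β i k * X i| ≤ e i / ρ' ^ k := by
      rw [le_div_iff₀ (by positivity)]; exact h1
    calc |β i k * X i| * |u k| ≤ (e i / ρ' ^ k) * ((2 * (k : ℝ) + 1) * ρ ^ k) :=
          mul_le_mul h3 h2 (abs_nonneg _) (div_nonneg (he0 i) (by positivity))
      _ = e i * ((2 * (k : ℝ) + 1) ^ 1 * (ρ / ρ') ^ k) := by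
        rw [div_pow]; field_simp
  have e1 : (fun k => (∑' i, β i k * X i) * u k) = fun k => ∑' i, β i k * X i * u k := by
    funext k; rw [tsum_mul_right]
  have e2 : (fun i => X i * ∑ k ∈ Finset.range (d i), β i k * u k) =
      fun i => ∑' k, β i k * X i * u k := by
    funext i
    rw [tsum_eq_sum (s := Finset.range (d i)), Finset.mul_sum]
    · apply Finset.sum_congr rfl
      intro k _; ring
    · intro k hk
      rw [Finset.mem_range, not_lt] at hk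
      rw [hβ i k hk]; ring
  rw [e1, e2]
  refine ⟨?_, ?_, ?_⟩
  · exact hf.prod_symm.prod
  · exact hf.prod
  · exact hf.tsum_comm

theorem hasSum_mul {ι κ : Type*} {f : ι → ℝ} {g : κ → ℝ} {a b : ℝ} (hf : HasSum f a)
    (hg : HasSum g b) : HasSum (fun p : ι × κ => f p.1 * g p.2) (a * b) := by
  have h1 : Summable (fun p : ι × κ => f p.1 * g p.2) :=
    summable_mul_of_summable_norm hf.summable.norm hg.summable.norm
  have h2 := tsum_mul_tsum_of_summable_norm hf.summable.norm hg.summable.norm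
  rw [hf.tsum_eq, hg.tsum_eq] at h2
  rw [h2]
  exact h1.hasSum

theorem lam_add_one (n : ℕ) : lam n + 1 = (2 * (n : ℝ) + 1) ^ 2 := by
  unfold lam; ring

theorem lam_nonneg (n : ℕ) : 0 ≤ lam n := by unfold lam; positivity

theorem bq_bound'' : ∃ C, 0 ≤ C ∧ ∀ ρ : ℝ, 1 ≤ ρ → ∀ m n k, |bq m n k| * ρ ^ k ≤
    C * (((2 * (m : ℝ) + 1) ^ 3 * ρ ^ m) * ((2 * (n : ℝ) + 1) ^ 3 * ρ ^ n)) := by
  obtain ⟨C, hC⟩ := bq_bound'
  have hC0 : 0 ≤ C := by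
    have := (abs_nonneg _).trans (hC 0 0 0)
    simp [lam] at this
    exact this
  refine ⟨C, hC0, fun ρ hρ m n k => ?_⟩
  by_cases h : m + n < k
  · rw [bq_support m n k h]
    simp only [abs_zero, zero_mul]
    positivity
  · push Not at h
    have h1 : ρ ^ k ≤ ρ ^ m * ρ ^ n := by
      rw [← pow_add]; exact pow_le_pow_right₀ hρ h
    have h2 : lam m + lam n + 1 ≤ (2 * (m : ℝ) + 1) ^ 2 * (2 * (n : ℝ) + 1) ^ 2 := by
      rw [← lam_add_one, ← lam_add_one]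
      nlinarith [lam_nonneg m, lam_nonneg n, mul_nonneg (lam_nonneg m) (lam_nonneg n)]
    calc |bq m n k| * ρ ^ k
        ≤ (C * (lam m + lam n + 1) * (2 * m + 1) * (2 * n + 1)) * (ρ ^ m * ρ ^ n) := by
          apply mul_le_mul (hC m n k) h1 (by positivity)
          exact (abs_nonneg _).trans (hC m n k)
      _ = (C * ((2 * m + 1) * (2 * n + 1)) * (ρ ^ m * ρ ^ n)) * (lam m + lam n + 1) := by ring
      _ ≤ (C * ((2 * m + 1) * (2 * n + 1)) * (ρ ^ m * ρ ^ n)) *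
          ((2 * (m : ℝ) + 1) ^ 2 * (2 * (n : ℝ) + 1) ^ 2) := by
          apply mul_le_mul_of_nonneg_left h2 (by positivity)
      _ = _ := by ring

theorem tq_bound'' : ∃ C, 0 ≤ C ∧ ∀ ρ : ℝ, 1 ≤ ρ → ∀ l m n k, |tq l m n k| * ρ ^ k ≤
    C * (((2 * (l : ℝ) + 1) ^ 3 * ρ ^ l) *
      (((2 * (m : ℝ) + 1) ^ 3 * ρ ^ m) * ((2 * (n : ℝ) + 1) ^ 3 * ρ ^ n))) := by
  obtain ⟨C, hC⟩ := tq_bound'
  have hC0 : 0 ≤ C := by
    have := (abs_nonneg _).trans (hC 0 0 0 0)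
    simp [lam] at this
    exact this
  refine ⟨C, hC0, fun ρ hρ l m n k => ?_⟩
  by_cases h : l + m + n < k
  · rw [tq_support l m n k h]
    simp only [abs_zero, zero_mul]
    positivity
  · push Not at h
    have h1 : ρ ^ k ≤ ρ ^ l * ρ ^ m * ρ ^ n := by
      rw [← pow_add, ← pow_add]; exact pow_le_pow_right₀ hρ h
    have h2 : lam l + lam m + lam n + 1 ≤
        (2 * (l : ℝ) + 1) ^ 2 * ((2 * (m : ℝ) + 1) ^ 2 * (2 * (n : ℝ) + 1) ^ 2) := by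
      rw [← lam_add_one, ← lam_add_one, ← lam_add_one]
      have a := lam_nonneg l
      have b := lam_nonneg m
      have c := lam_nonneg n
      nlinarith [mul_nonneg b c, mul_nonneg a b, mul_nonneg a c, mul_nonneg a (mul_nonneg b c)]
    calc |tq l m n k| * ρ ^ k
        ≤ (C * (lam l + lam m + lam n + 1) * (2 * l + 1) * (2 * m + 1) * (2 * n + 1)) *
          (ρ ^ l * ρ ^ m * ρ ^ n) := by
          apply mul_le_mul (hC l m n k) h1 (by positivity)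
          exact (abs_nonneg _).trans (hC l m n k)
      _ = (C * ((2 * l + 1) * (2 * m + 1) * (2 * n + 1)) * (ρ ^ l * ρ ^ m * ρ ^ n)) *
          (lam l + lam m + lam n + 1) := by ring
      _ ≤ (C * ((2 * l + 1) * (2 * m + 1) * (2 * n + 1)) * (ρ ^ l * ρ ^ m * ρ ^ n)) *
          ((2 * (l : ℝ) + 1) ^ 2 * ((2 * (m : ℝ) + 1) ^ 2 * (2 * (n : ℝ) + 1) ^ 2)) := by
          apply mul_le_mul_of_nonneg_left h2 (by positivity)
      _ = _ := by ring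

end Pde

end Pool.Agent.MP_ae1fc5_gt
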