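import Pool.Agent.MP_ae1fc5_gt.FixedPoint
import Pool.Agent.MP_ae1fc5_gt.Pde
import Pool.Agent.MP_ae1fc5_gt.ArrBd
import Pool.Agent.MP_ae1fc5_gt.ArrId

open scoped Quaternion ContDiff Matrix
open Set

noncomputable section

namespace Pool.Agent.MP_ae1fc5_gt

namespace PdeMain

theorem lam_nonneg (n : ℕ) : 0 ≤ lam n := by unfold lam; positivity

theorem lam_ge (n : ℕ) (hn : n ≠ 0) : 8 ≤ lam n := by
  unfold lam
  have : (1 : ℝ) ≤ n := by exact_mod_cast Nat.one_le_iff_ne_zero.mpr hn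
  nlinarith

/-- the constants `kap`. -/
def kap (Λ : ℝ) (n : ℕ) : ℝ := if n = 0 then Real.exp (4 * Λ) else 9 / 4

theorem kap1 (Λ : ℝ) (n : ℕ) (s : ℝ) (hs : s ∈ Icc 0 Λ) :
    Real.exp (-(lam n - 4) * s) ≤ kap Λ n := by
  unfold kap
  split_ifs with h
  · subst h
    have : lam 0 = 0 := by simp [lam]
    rw [this, Real.exp_le_exp]
    nlinarith [hs.2]
  · have h1 := lam_ge n h
    calc Real.exp (-(lam n - 4) * s) ≤ 1 := by
          rw [Real.exp_le_one_iff]
          nlinarith [hs.1]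
      _ ≤ 9 / 4 := by norm_num

theorem int_exp (c Λ : ℝ) (hc : c ≠ 0) :
    ∫ s in (0 : ℝ)..Λ, Real.exp (c * s) = (Real.exp (c * Λ) - 1) / c := by
  rw [intervalIntegral.integral_comp_mul_left (fun x => Real.exp x) hc, integral_exp]
  simp [div_eq_inv_mul]

theorem kap2 (Λ : ℝ) (n : ℕ) :
    (lam n + 1) * ∫ s in (0 : ℝ)..Λ, Real.exp (-(lam n - 4) * s) ≤ kap Λ n := by
  unfold kap
  split_ifs with h
  · subst h
    have h0 : lam 0 = 0 := by simp [lam]
    rw [h0, int_exp _ _ (by norm_num)]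
    have : 0 < Real.exp (4 * Λ) := Real.exp_pos _
    have e : -((0 : ℝ) - 4) * Λ = 4 * Λ := by ring
    rw [e]
    norm_num
    linarith
  · have h1 := lam_ge n h
    have hne : -(lam n - 4) ≠ 0 := by
      have : -(lam n - 4) < 0 := by linarith
      exact this.ne
    rw [int_exp _ _ hne]
    have h2 : 0 < Real.exp (-(lam n - 4) * Λ) := Real.exp_pos _
    have h3 : (Real.exp (-(lam n - 4) * Λ) - 1) / -(lam n - 4) ≤ 1 / (lam n - 4) := by
      rw [div_neg, ← neg_div, neg_sub]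
      apply div_le_div_of_nonneg_right _ (by linarith)
      linarith
    calc (lam n + 1) * ((Real.exp (-(lam n - 4) * Λ) - 1) / -(lam n - 4))
        ≤ (lam n + 1) * (1 / (lam n - 4)) := by
          apply mul_le_mul_of_nonneg_left h3; linarith
      _ ≤ 9 / 4 := by
          rw [mul_one_div, div_le_iff₀ (by linarith)]
          linarith

theorem pow_growth (R : ℝ) (hR : 1 < R) : ∃ C3 : ℝ, ∀ n : ℕ, (2 * (n : ℝ) + 1) ^ 2 ≤ C3 * R ^ n := by
  have h1 : Filter.Tendsto (fun n : ℕ => (2 * (n : ℝ) + 1) ^ 2 / R ^ n) Filter.atTop (nhds 0) := by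
    have h2 : Filter.Tendsto (fun n : ℕ => (n : ℝ) ^ 2 / R ^ n) Filter.atTop (nhds 0) :=
      tendsto_pow_const_div_const_pow_of_one_lt 2 hR
    have h3 : Filter.Tendsto (fun n : ℕ => (n : ℝ) ^ 1 / R ^ n) Filter.atTop (nhds 0) :=
      tendsto_pow_const_div_const_pow_of_one_lt 1 hR
    have h4 : Filter.Tendsto (fun n : ℕ => (n : ℝ) ^ 0 / R ^ n) Filter.atTop (nhds 0) :=
      tendsto_pow_const_div_const_pow_of_one_lt 0 hR
    have h5 := ((h2.const_mul 4).add (h3.const_mul 4)).add h4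
    simp only [mul_zero, add_zero] at h5
    refine h5.congr (fun n => ?_)
    ring
  obtain ⟨C3, hC3⟩ := h1.bddAbove_range
  refine ⟨C3, fun n => ?_⟩
  have h6 : (2 * (n : ℝ) + 1) ^ 2 / R ^ n ≤ C3 := hC3 ⟨n, rfl⟩
  have hRn : 0 < R ^ n := by positivity
  rwa [div_le_iff₀ hRn] at h6

end PdeMain

open PdeMain in
theorem pde_solution : ∃ ε₁ > 0, ∀ Λ > 0, ∃ W ≥ 1, ∀ R > 1, ∀ a : ℕ → ℝ,
    (∀ K, ∑ n ∈ Finset.range K, (2 * n + 1 + W) * R ^ n * |a n| ≤ ε₁) →
    ∃ c > 1, ∃ V : ℝ → ℝ → ℝ, IsSol Λ c V ∧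
      ∀ y ∈ Ioo (-c) c, V 0 y = 1 + ∑' n, a n * cU (2 * n) y := by
  obtain ⟨Cb, hCb, hb⟩ := bq_bound
  obtain ⟨Ct, hCt, ht⟩ := tq_bound
  obtain ⟨Cb', hb'⟩ := bq_bound'
  obtain ⟨Ct', ht'⟩ := tq_bound'
  obtain ⟨C, hC⟩ : ∃ C, C = max Cb Ct := ⟨_, rfl⟩
  have hC1 : 1 ≤ C := by rw [hC]; exact hCb.trans (le_max_left _ _)
  have hCC : 0 < C := by linarith
  refine ⟨1 / (500 * C), by positivity, fun Λ hΛ => ?_⟩
  obtain ⟨Ω, hΩ⟩ : ∃ Ω, Ω = Real.exp (4 * Λ) := ⟨_, rfl⟩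
  have hΩ1 : 1 ≤ Ω := by rw [hΩ]; exact Real.one_le_exp (by linarith)
  refine ⟨Ω + Ω ^ 2, by nlinarith, fun R hR a ha => ?_⟩
  obtain ⟨C3, hC3⟩ := pow_growth R hR
  have hC3' : 0 ≤ C3 := by
    have := hC3 0
    simp at this
    linarith
  have hR0 : 0 < R := by linarith
  have hom : ∀ n, 0 < om Ω R n := fun n => by unfold om; positivity
  have hom' : ∀ n, 0 < om' Ω R n := fun n => by
    unfold om'
    split_ifs
    · have := hom n; positivity
    · have := hom n; linarith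
  have hlow : ∀ n : ℕ, (2 * (n : ℝ) + 1) * R ^ n ≤ om Ω R n := by
    intro n
    unfold om
    have hRn : 0 < R ^ n := by positivity
    nlinarith
  have hk : ∀ n, om Ω R n * kap Λ n ≤ 9 / 4 * om' Ω R n := by
    intro n
    unfold kap om'
    split_ifs with h
    · subst h
      unfold om
      simp only [pow_zero, mul_one, Nat.cast_zero, mul_zero, zero_add]
      rw [← hΩ]
      nlinarith
    · simp only [add_zero]
      linarith [hom n]
  have hb1 : ∀ m n K, ∑ k ∈ Finset.range K, om' Ω R k * |bq m n k| ≤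
      C * (lam m + lam n + 1) * om Ω R m * om Ω R n := by
    intro m n K
    refine (hb Ω R hΩ1 hR.le m n K).trans ?_
    have h1 := lam_nonneg m
    have h2 := lam_nonneg n
    have h3 := hom m
    have h4 := hom n
    have h5 : Cb ≤ C := hC ▸ le_max_left _ _
    gcongr
  have ht1 : ∀ l m n K, ∑ k ∈ Finset.range K, om' Ω R k * |tq l m n k| ≤
      C * (lam l + lam m + lam n + 1) * om Ω R l * om Ω R m * om Ω R n := by
    intro l m n K
    refine (ht Ω R hΩ1 hR.le l m n K).trans ?_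
    have h0 := lam_nonneg l
    have h1 := lam_nonneg m
    have h2 := lam_nonneg n
    have h3 := hom m
    have h4 := hom n
    have h4' := hom l
    have h5 : Ct ≤ C := hC ▸ le_max_right _ _
    gcongr
  have hnu3 : ∀ n : ℕ, (lam n + 1) * (2 * (n : ℝ) + 1) ≤ C3 * om Ω R n := by
    intro n
    have h1 : lam n + 1 = (2 * (n : ℝ) + 1) ^ 2 := by unfold lam; ring
    rw [h1]
    calc (2 * (n : ℝ) + 1) ^ 2 * (2 * n + 1) ≤ (C3 * R ^ n) * (2 * n + 1) := by
          have := hC3 n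
          gcongr
      _ = C3 * ((2 * n + 1) * R ^ n) := by ring
      _ ≤ C3 * om Ω R n := mul_le_mul_of_nonneg_left (hlow n) hC3'
  have hb2 : ∀ k m n : ℕ, |bq m n k| ≤
      max Cb' Ct' * (lam m + lam n + 1) * (2 * (m : ℝ) + 1) * (2 * (n : ℝ) + 1) := by
    intro k m n
    refine (hb' m n k).trans ?_
    have h1 := lam_nonneg m
    have h2 := lam_nonneg n
    have h5 : Cb' ≤ max Cb' Ct' := le_max_left _ _
    gcongr
  have ht2 : ∀ k l m n : ℕ, |tq l m n k| ≤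
      max Cb' Ct' * (lam l + lam m + lam n + 1) * (2 * (l : ℝ) + 1) * (2 * (m : ℝ) + 1)
        * (2 * (n : ℝ) + 1) := by
    intro k l m n
    refine (ht' l m n k).trans ?_
    have h0 := lam_nonneg l
    have h1 := lam_nonneg m
    have h2 := lam_nonneg n
    have h5 : Ct' ≤ max Cb' Ct' := le_max_right _ _
    gcongr
  have hsmall : 80 * C * (9 / 4) ^ 2 * (1 / (500 * C)) ≤ 1 := by
    rw [mul_one_div, div_le_iff₀ (by positivity)]
    nlinarith
  have ha' : ∀ K, ∑ n ∈ Finset.range K, om' Ω R n * |a n| ≤ 1 / (500 * C) := by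
    intro K
    refine le_trans (Finset.sum_le_sum (fun n _ => ?_)) (ha K)
    apply mul_le_mul_of_nonneg_right _ (abs_nonneg _)
    unfold om' om
    split_ifs with h
    · subst h
      simp
      nlinarith
    · have : 0 < R ^ n := by positivity
      nlinarith [sq_nonneg Ω]
  obtain ⟨x, A, hx1, hx2, hx3, hx4, hx5⟩ := fixed_point Λ hΛ lam (fun n => lam n - 4) (om Ω R)
    (om' Ω R) (kap Λ) (fun n => 2 * n + 1) bq tq C (9 / 4) C3 (fun _ => max Cb' Ct') hC1
    (by norm_num) lam_nonneg hom hom' (fun n => by positivity) (fun n s hs => kap1 Λ n s hs)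
    (kap2 Λ) hk hb1 ht1 hnu3 hb2 ht2 a (1 / (500 * C)) hsmall ha'
  have hA0 : ∀ n, 0 ≤ A n := fun n => (abs_nonneg _).trans (hx2 n 0 ⟨le_rfl, hΛ.le⟩)
  have hs1 : Summable (fun n : ℕ => (2 * (n : ℝ) + 1) * R ^ n * A n) := by
    refine Summable.of_nonneg_of_le (fun n => ?_) (fun n => ?_) hx3
    · have := hA0 n; positivity
    · exact mul_le_mul_of_nonneg_right (hlow n) (hA0 n)
  have hs2 : ∑' n : ℕ, (2 * (n : ℝ) + 1) * R ^ n * A n ≤ 1 / 2 := by
    calc ∑' n : ℕ, (2 * (n : ℝ) + 1) * R ^ n * A n ≤ ∑' n, om Ω R n * A n :=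
          hs1.tsum_le_tsum (fun n => mul_le_mul_of_nonneg_right (hlow n) (hA0 n)) hx3
      _ ≤ 4 * (9 / 4) * (1 / (500 * C)) := hx4
      _ ≤ 1 / 2 := by
          rw [mul_one_div, div_le_iff₀ (by positivity)]
          linarith
  obtain ⟨c, hc, hsol⟩ := coef_to_pde Λ hΛ R hR a x A hx1 hx2 hs1 hs2 hx5
  refine ⟨c, hc, _, hsol, fun y _ => ?_⟩
  have : ∀ k, x k 0 = a k := by
    intro k
    rw [hx5 k 0 ⟨le_rfl, hΛ.le⟩]
    simp
  simp only [this]

end Pool.Agent.MP_ae1fc5_gt
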