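import Pool.Agent.MP_ae1fc5_gt.RicciRot
import Pool.Agent.MP_ae1fc5_gt.RotMetric

/-! Sanity checks for the definitions: the round metric of curvature 1 has Ricci tensor `2 g` and
scalar curvature 6. -/

open scoped Quaternion ContDiff Matrix
open Set

namespace Pool.Agent.MP_ae1fc5_gt

/-- The round metric of curvature 1. -/
noncomputable def roundMetric : Field := rot (fun _ => 1) (fun _ => 0)

theorem roundMetric_apply (x : ℍ[ℝ]) (i j : Fin 3) :
    roundMetric x i j = if i = j then 1 else 0 := by
  simp [roundMetric, rot]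

theorem isMetric_round : IsMetric roundMetric :=
  isMetric_rot _ _ contDiffOn_const contDiffOn_const (fun _ _ => one_pos)
    (fun _ _ => by norm_num)

theorem ric_round (x : ℍ[ℝ]) (hx : x ≠ 0) (j k : Fin 3) :
    ric roundMetric x j k = 2 * roundMetric x j k := by
  have h := ric_rot (fun _ => 1) (fun _ => 0) (fun _ => 0) (fun _ => 0) (fun _ => 0) (fun _ => 0)
    (fun y _ => hasDerivWithinAt_const _ _ _) (fun y _ => hasDerivWithinAt_const _ _ _)
    (fun y _ => hasDerivWithinAt_const _ _ _) (fun y _ => hasDerivWithinAt_const _ _ _)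
    (fun _ _ => one_pos) (fun _ _ => by norm_num) x hx j k
  rw [roundMetric, h]
  simp [rot, Pf, Qf]

theorem scal_round (x : ℍ[ℝ]) (hx : x ≠ 0) : scal roundMetric x = 6 := by
  have h := scal_conf (fun _ => 1) (fun _ => 0) (fun _ => 0)
    (fun y _ => hasDerivWithinAt_const _ _ _) (fun y _ => hasDerivWithinAt_const _ _ _)
    (fun _ _ => one_pos) x hx
  simp only [inv_one, one_pow] at h
  rw [roundMetric, h]
  norm_num

end Pool.Agent.MP_ae1fc5_gt
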